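import Pool.Agent.Lib.MP_6a3dac_ag.GI.Defs
import Pool.Agent.Lib.MP_6a3dac_ag.QD.Gens

/-!
# The order of a product of ideals, with a finite group
-/

set_option autoImplicit false
set_option linter.unusedSectionVars false
set_option linter.unusedVariables false

namespace Pool.Agent.Lib.MP_6a3dac_ag.GI

open Pool.Agent.Lib.MP_6a3dac_ag Pool.Agent.Lib.MP_6a3dac_ag.QD

namespace GalExt

variable {R O G : Type} [CommRing R] [CommRing O] [Algebra R O] [Group G] [Finite G]
  [MulSemiringAction G O] (h : GalExt R O G)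

-- BEGIN GN1
include h in
/-- TASK GN1. The norm: `n = ∏ g, g • c`, it is a multiple of `c`. -/
theorem exists_norm (c : O) : ∃ (n : R) (c' : O), algebraMap R O n = c * c' ∧
    (∀ [IsDomain O], c ≠ 0 → n ≠ 0) := by
  classical
  have := Fintype.ofFinite G
  obtain ⟨n, hn⟩ := h.of_fix (∏ g : G, g • c) (fun g => by
    rw [Finset.smul_prod']
    simp only [← mul_smul]
    exact Fintype.prod_equiv (Equiv.mulLeft g) _ _ fun g' => rfl)
  refine ⟨n, ∏ g ∈ Finset.univ.erase (1 : G), g • c, ?_, fun hc h0 => ?_⟩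
  · rw [hn, ← Finset.mul_prod_erase Finset.univ (fun g : G => g • c) (Finset.mem_univ 1),
      one_smul]
  · rw [h0, map_zero] at hn
    obtain ⟨g, -, hg⟩ := Finset.prod_eq_zero_iff.1 hn.symm
    apply hc
    rw [← inv_smul_smul g c, hg, smul_zero]

include h in
/-- TASK GN1. All but finitely many primes are unramified: `d` is the product over `g ≠ 1` of the norms
of elements `g • c - c ≠ 0` (`h.faithful`); if `d ∉ p` then no factor lies in `p`. -/
theorem exists_disc [IsDomain O] : ∃ d : R, d ≠ 0 ∧ ∀ p : Ideal R, p.IsPrime → d ∉ p →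
    UnramG O G p := by
  classical
  have := Fintype.ofFinite G
  have hR : IsDomain R := Function.Injective.isDomain (algebraMap R O) h.inj
  have key : ∀ g : G, ∃ n : R, n ≠ 0 ∧ (g ≠ 1 → algebraMap R O n ∈
      Ideal.span (Set.range fun c : O => g • c - c)) := by
    intro g
    by_cases hg : g = 1
    · exact ⟨1, one_ne_zero, fun h1 => absurd hg h1⟩
    · obtain ⟨c, hc⟩ := h.faithful g hg
      obtain ⟨n, c', hn, hn0⟩ := h.exists_norm (g • c - c)
      refine ⟨n, hn0 (sub_ne_zero.2 hc), fun _ => ?_⟩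
      rw [hn]
      exact Ideal.mul_mem_right _ _ (Ideal.subset_span ⟨c, rfl⟩)
  choose n hn0 hn using key
  refine ⟨∏ g : G, n g, Finset.prod_ne_zero_iff.2 fun g _ => hn0 g, fun p hp hd g hg =>
    ⟨n g, fun h1 => hd ?_, hn g hg⟩⟩
  rw [← Finset.mul_prod_erase Finset.univ n (Finset.mem_univ g)]
  exact Ideal.mul_mem_right _ _ h1
-- END GN1

end GalExt

section Order

variable {O L M I : Type} [CommRing O] [Field L] [Algebra O L] [CommRing M] [Algebra L M]
  (G : Type) [Group G] [MulSemiringAction G M]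
  (x : I → M) (B : ℕ → Set M) (C₀ : Set O) (ϖ : O) (r : ℕ)

/-- The generators of the order and their conjugates. -/
def gensG : Set M := {m | ∃ g : G, ∃ m' ∈ gens (L := L) x B C₀ ϖ r, g • m' = m}

/-- The order. -/
def ordAlgG (R : Type) [CommRing R] [Algebra R M] : Subalgebra R M :=
  Algebra.adjoin R (gensG (L := L) G x B C₀ ϖ r)

end Order

section OrderHyp

variable {R O L M I G : Type} [CommRing R] [CommRing O] [Algebra R O] [Field L] [Algebra R L]
  [Algebra O L] [IsScalarTower R O L] [CommRing M] [Algebra L M] [Algebra R M]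
  [IsScalarTower R L M] {ℳ : ℕ → Submodule L M} [GradedAlgebra ℳ] [Group G] [Finite G]
  [MulSemiringAction G O] [MulSemiringAction G M]
  (h : GalExt R O G) (hRL : Function.Injective (algebraMap R L))
  {x : I → M} {B : ℕ → Set M} {C₀ : Set O} {ϖ : O} {δ r : ℕ}
  (hGO : ∀ (g : G) c, g • oM O L M c = oM O L M (g • c))
  (hGgr : ∀ (g : G) n m, m ∈ ℳ n → g • m ∈ ℳ n)
  (hxdeg : ∀ i, x i ∈ ℳ 1) (hstar : ∀ (g : G) l, ∃ l', g • x l = x l')
  (hC₀ : Algebra.adjoin R C₀ = ⊤) (p : Ideal R) [hp : p.IsPrime]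
  (hB : CentG ℳ x G p ϖ δ r B)

-- BEGIN GN2
include hB in
/-- TASK GN2. Each element of the group gives a centre in the old sense. -/
theorem cent_toRingHom (g : G) : Cent ℳ x (MulSemiringAction.toRingHom G M g) p ϖ δ r B where
  ϖ0 := hB.ϖ0
  δpos := hB.δpos
  fin := hB.fin
  deg := hB.deg
  pow := hB.pow
  η := hB.η g
  star := hB.star g

include h hGO in
/-- TASK GN2. -/
theorem smul_algebraMap (g : G) (a : R) : g • algebraMap R M a = algebraMap R M a := by
  rw [← oM_algebraMap (O := O) (L := L) (M := M) a, hGO, h.fix]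

include h hRL hGO in
/-- TASK GN2. As `exists_inv_lamP3` in W3/G4c.lean. -/
theorem exists_inv_lamPG {n : R} (hn : n ∉ p) :
    ∃ u ∈ lamP O L M p, algebraMap R M n * u = 1 ∧ ∀ g : G, g • u = u := by
  obtain ⟨l, hl⟩ := exists_inv (L := L) (M := M) hRL hn
  refine ⟨algebraMap L M l, ⟨n, hn, 1, by rw [hl, map_one], l, rfl⟩, hl, fun g => ?_⟩
  have h1 : algebraMap R M n * g • (algebraMap L M l) = 1 := by
    have h2 := congrArg (fun z => g • z) hl
    simp only [smul_mul', smul_one] at h2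
    rwa [← oM_algebraMap (O := O) (L := L) (M := M) n, hGO, h.fix, oM_algebraMap] at h2
  calc g • (algebraMap L M l) = (algebraMap R M n * algebraMap L M l) * g • (algebraMap L M l) := by
        rw [hl, one_mul]
    _ = algebraMap L M l * (algebraMap R M n * g • (algebraMap L M l)) := by ring
    _ = algebraMap L M l := by rw [h1, mul_one]

include h hRL hGO in
/-- TASK GN2. As `map_lamP3` in W3/G4c.lean. -/
theorem smul_lamP (g : G) {c : M} (hc : c ∈ lamP O L M p) : g • c ∈ lamP O L M p := by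
  obtain ⟨n, hn, c', hc', -⟩ := hc
  obtain ⟨u, hu, hu1, hu2⟩ := exists_inv_lamPG (M := M) h hRL hGO p hn
  have h3 : c = u * oM O L M c' := by
    linear_combination u * hc' - c * hu1
  rw [h3, smul_mul', hu2, hGO]
  exact Subring.mul_mem _ hu (oM_mem_lamP p _)
-- END GN2

-- BEGIN GN3
/-- TASK GN3. As `gens3_homog` in W3/G3d.lean (`gens_homog` in QD/Gens.lean for the automorphism
`MulSemiringAction.toRingHom G M 1`, say). -/
theorem gensG_homog (hGgr : ∀ (g : G) n m, m ∈ ℳ n → g • m ∈ ℳ n) (hxdeg : ∀ i, x i ∈ ℳ 1)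
    (hdeg : ∀ j, ∀ b ∈ B j, b ∈ ℳ δ) {m : M}
    (hm : m ∈ gensG (L := L) G x B C₀ ϖ r) : ∃ i, m ∈ ℳ i := by
  obtain ⟨g, m', hm', rfl⟩ := hm
  obtain ⟨i, hi⟩ := gens_homog (τ := MulSemiringAction.toRingHom G M 1) (fun n m => hGgr 1 n m)
    hxdeg hdeg (Or.inl hm')
  exact ⟨i, hGgr g i m' hi⟩

/-- TASK GN3. As `oM_mem_ordAlg3` in W3/G3d.lean. -/
theorem oM_mem_ordAlgG (hC₀ : Algebra.adjoin R C₀ = ⊤) (c : O) :
    oM O L M c ∈ ordAlgG (L := L) G x B C₀ ϖ r R := by
  have hc : c ∈ Algebra.adjoin R C₀ := by rw [hC₀]; exact Algebra.mem_top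
  induction hc using Algebra.adjoin_induction with
  | mem c hc => exact Algebra.subset_adjoin ⟨1, _, Or.inl ⟨c, hc, rfl⟩, one_smul G _⟩
  | algebraMap r => rw [oM_algebraMap]; exact Subalgebra.algebraMap_mem _ _
  | add a b _ _ ha hb => rw [map_add]; exact Subalgebra.add_mem _ ha hb
  | mul a b _ _ ha hb => rw [map_mul]; exact Subalgebra.mul_mem _ ha hb

/-- TASK GN3. The order is stable under the group (as `map_ordAlg3` in W3/G3d.lean; `g • g' • m =
(g * g') • m`). -/
theorem smul_ordAlgG (hGR : ∀ (g : G) (a : R), g • algebraMap R M a = algebraMap R M a) (g : G)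
    {t : M} (ht : t ∈ ordAlgG (L := L) G x B C₀ ϖ r R) :
    g • t ∈ ordAlgG (L := L) G x B C₀ ϖ r R := by
  unfold ordAlgG at ht
  induction ht using Algebra.adjoin_induction with
  | mem m hm =>
    obtain ⟨g', m', hm', rfl⟩ := hm
    exact Algebra.subset_adjoin ⟨g * g', m', hm', mul_smul g g' m'⟩
  | algebraMap r => rw [hGR]; exact Subalgebra.algebraMap_mem _ _
  | add a b _ _ ha hb => rw [smul_add]; exact Subalgebra.add_mem _ ha hb
  | mul a b _ _ ha hb => rw [smul_mul']; exact Subalgebra.mul_mem _ ha hb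

/-- TASK GN3. -/
theorem finite_gensG [Finite I] (hfin : ∀ j, (B j).Finite) (hC : C₀.Finite) :
    (gensG (L := L) G x B C₀ ϖ r).Finite := by
  have h1 : (gens (L := L) x B C₀ ϖ r).Finite := finite_gens hfin hC
  have h2 : gensG (L := L) G x B C₀ ϖ r =
      ⋃ g : G, (fun m : M => g • m) '' gens (L := L) x B C₀ ϖ r := by
    ext m
    simp only [gensG, Set.mem_ofPred_eq, Set.mem_iUnion, Set.mem_image]
  rw [h2]
  exact Set.finite_iUnion fun g => h1.image _
-- END GN3

-- BEGIN GN4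
include h hRL hGO hGgr hxdeg hstar hC₀ hB in
/-- TASK GN4. The localized order satisfies the hypotheses of the local theory. The model is
`orderHyp_locSub3` in W3/G3d.lean; `QD.map_WSet`, `QD.map_W1Set` are applied to
`cent_toRingHom p hB g` (`hstar g`). -/
theorem orderHyp_locSubG : DNF.OrderHyp ℳ x B δ (oM O L M ϖ) (lamP O L M p) r
    (locSub p (ordAlgG (L := L) G x B C₀ ϖ r R)) where
  xdeg := hxdeg
  δpos := hB.δpos
  B_deg := hB.deg
  B_pow := hB.pow
  Λdeg c hc := lamP_deg p hc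
  ϖΛ := oM_mem_lamP p ϖ
  hom := isHomog_locSub ℳ p (isHomog_adjoin ℳ fun m hm => gensG_homog hGgr hxdeg hB.deg hm)
  Λ_le c hc := by
    obtain ⟨n, hn, c', hc', -⟩ := hc
    refine ⟨n, hn, ?_⟩
    rw [Algebra.smul_def, hc']
    exact oM_mem_ordAlgG hC₀ c'
  W_le c hc := le_locSub _ _ (Algebra.subset_adjoin ⟨1, _, Or.inr (Or.inl hc), one_smul G _⟩)
  W1_le c hc := le_locSub _ _ (Algebra.subset_adjoin ⟨1, _, Or.inr (Or.inr hc), one_smul G _⟩)
  gen N hN1 hN2 hN3 t ht := by
    have hgen : ∀ m ∈ gensG (L := L) G x B C₀ ϖ r, m ∈ N := by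
      rintro _ ⟨g, m, (⟨c, -, rfl⟩ | hm | hm), rfl⟩
      · rw [hGO]
        exact hN1 _ (oM_mem_lamP p _)
      · obtain ⟨c, hc, w', hw', hcw⟩ := QD.map_WSet (hstar g) p (cent_toRingHom p hB g) hm
        change g • m = c * w' at hcw
        rw [hcw]
        exact N.mul_mem (hN1 c hc) (hN2 w' hw')
      · obtain ⟨c, hc, w', hw', hcw⟩ := QD.map_W1Set (hstar g) p (cent_toRingHom p hB g) hm
        change g • m = c * w' at hcw
        rw [hcw]
        exact N.mul_mem (hN1 c hc) (hN3 w' hw')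
    have hadj : ∀ m ∈ ordAlgG (L := L) G x B C₀ ϖ r R, m ∈ N := by
      intro m hm
      unfold ordAlgG at hm
      induction hm using Algebra.adjoin_induction with
      | mem m hm => exact hgen m hm
      | algebraMap a =>
        rw [← oM_algebraMap (O := O) (L := L)]
        exact hN1 _ (oM_mem_lamP p _)
      | add a b _ _ ha hb => exact N.add_mem ha hb
      | mul a b _ _ ha hb => exact N.mul_mem ha hb
    obtain ⟨n, hn, hnt⟩ := ht
    obtain ⟨l, hl⟩ := exists_inv (L := L) (M := M) hRL hn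
    have h1 : t = algebraMap L M l * (n • t) := by
      rw [Algebra.smul_def, ← mul_assoc, mul_comm (algebraMap L M l), hl, one_mul]
    rw [h1]
    refine N.mul_mem (hN1 _ ⟨n, hn, 1, ?_, l, rfl⟩) (hadj _ hnt)
    rw [hl, map_one]
-- END GN4

-- BEGIN GN5
include h hGO hGgr hxdeg in
/-- TASK GN5. The invariants of degree zero (as `degree_zero_ordAlg3` in W3/G3d.lean). -/
theorem degree_zero_ordAlgG (hδ : 1 ≤ δ) (hdeg : ∀ j, ∀ b ∈ B j, b ∈ ℳ δ)
    (hMinj : Function.Injective (algebraMap L M))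
    (hOinj : Function.Injective (algebraMap O L)) {t : M}
    (ht : t ∈ ordAlgG (L := L) G x B C₀ ϖ r R) (ht0 : t ∈ ℳ 0) (htG : ∀ g : G, g • t = t) :
    ∃ a : R, algebraMap R M a = t := by
  have hpos : ∀ m ∈ gensG (L := L) G x B C₀ ϖ r,
      (∃ c, oM O L M c = m) ∨ ∃ i, 0 < i ∧ m ∈ ℳ i := by
    have key : ∀ m ∈ gens (L := L) x B C₀ ϖ r, (∃ c, oM O L M c = m) ∨
        ∃ i, 0 < i ∧ m ∈ ℳ i := by
      rintro m (⟨c, -, rfl⟩ | hm | hm)
      · exact Or.inl ⟨c, rfl⟩
      · right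
        obtain ⟨i, q, ⟨β, hβ, rfl⟩, rfl⟩ := hm
        exact ⟨1 + ∑ j ∈ Finset.Icc 1 r, δ, by omega, SetLike.mul_mem_graded (hxdeg i)
          (SetLike.prod_mem_graded _ _ _ fun j hj => hdeg j _ (hβ j hj))⟩
      · right
        obtain ⟨i, rfl⟩ := hm
        exact ⟨(∑ j ∈ Finset.Icc 1 r, j • 0) + 1, by omega, SetLike.mul_mem_graded
          (SetLike.prod_mem_graded _ _ _ fun j _ => SetLike.pow_mem_graded j
            (oM_deg (M := M) ℳ ϖ)) (hxdeg i)⟩
    rintro m ⟨g, m', hm', rfl⟩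
    rcases key m' hm' with ⟨c, rfl⟩ | ⟨i, hi, hmi⟩
    · exact Or.inl ⟨g • c, (hGO g c).symm⟩
    · exact Or.inr ⟨i, hi, hGgr g i m' hmi⟩
  have key : ∀ t ∈ ordAlgG (L := L) G x B C₀ ϖ r R, ∃ c : O,
      oM O L M c = GradedRing.projZeroRingHom ℳ t := by
    intro t ht
    unfold ordAlgG at ht
    induction ht using Algebra.adjoin_induction with
    | mem m hm =>
      rcases hpos m hm with ⟨c, rfl⟩ | ⟨i, hi, hmi⟩
      · refine ⟨c, ?_⟩
        rw [GradedRing.projZeroRingHom_apply, DirectSum.decompose_of_mem_same ℳ (oM_deg ℳ c)]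
      · refine ⟨0, ?_⟩
        rw [map_zero, GradedRing.projZeroRingHom_apply, DirectSum.decompose_of_mem_ne ℳ hmi hi.ne']
    | algebraMap a =>
      refine ⟨algebraMap R O a, ?_⟩
      rw [← oM_algebraMap (O := O) (L := L) (M := M) a, GradedRing.projZeroRingHom_apply,
        DirectSum.decompose_of_mem_same ℳ (oM_deg ℳ _)]
    | add a b _ _ ha hb =>
      obtain ⟨c, hc⟩ := ha
      obtain ⟨d, hd⟩ := hb
      exact ⟨c + d, by rw [map_add, map_add, hc, hd]⟩
    | mul a b _ _ ha hb =>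
      obtain ⟨c, hc⟩ := ha
      obtain ⟨d, hd⟩ := hb
      exact ⟨c * d, by rw [map_mul, map_mul, hc, hd]⟩
  obtain ⟨c, hc⟩ := key t ht
  rw [GradedRing.projZeroRingHom_apply, DirectSum.decompose_of_mem_same ℳ ht0] at hc
  have h1 : ∀ g : G, g • c = c := by
    intro g
    apply hOinj
    apply hMinj
    change oM O L M (g • c) = oM O L M c
    rw [← hGO, hc, htG]
  obtain ⟨a, ha⟩ := h.of_fix c h1
  exact ⟨a, by rw [← oM_algebraMap (O := O) (L := L), ha, hc]⟩
-- END GN5

-- BEGIN GN6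
include h hRL hC₀ in
/-- TASK GN6. The order spans the algebra (as `full_ordAlg3` in W3/G3d.lean, with the norms
`h.exists_norm`: `n • m' = oM c' * (oM c * m')`). -/
theorem full_ordAlgG [IsDomain R] [IsDomain O]
    (hfrac : ∀ l : L, ∃ a b : O, b ≠ 0 ∧ algebraMap O L b * l = algebraMap O L a)
    (hgen : Algebra.adjoin L (Set.range x) = ⊤) (hϖ : ϖ ≠ 0) (m : M) :
    ∃ n : R, n ≠ 0 ∧ n • m ∈ ordAlgG (L := L) G x B C₀ ϖ r R := by
  have hsub : ∀ m ∈ gens (L := L) x B C₀ ϖ r, m ∈ ordAlgG (L := L) G x B C₀ ϖ r R :=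
    fun m hm => Algebra.subset_adjoin ⟨1, m, hm, one_smul G m⟩
  have hU : ∀ m : M, m ∈ locSub (⊥ : Ideal R) (ordAlgG (L := L) G x B C₀ ϖ r R) := by
    intro m
    have hm : m ∈ Algebra.adjoin L (Set.range x) := by rw [hgen]; exact Algebra.mem_top
    have hnorm : ∀ (c : O) (m' : M), c ≠ 0 → oM O L M c * m' ∈ locSub (⊥ : Ideal R)
        (ordAlgG (L := L) G x B C₀ ϖ r R) → m' ∈ locSub (⊥ : Ideal R)
        (ordAlgG (L := L) G x B C₀ ϖ r R) := by
      intro c m' hc hm'
      obtain ⟨n, c', hn, hn0'⟩ := h.exists_norm c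
      have hn0 : n ≠ 0 := hn0' hc
      refine mem_locSub_of_smul _ _ (r := n) (by simpa using hn0) ?_
      have h1 : n • m' = oM O L M c' * (oM O L M c * m') := by
        rw [Algebra.smul_def, ← oM_algebraMap (O := O) (L := L), hn, map_mul]
        ring
      rw [h1]
      exact Subalgebra.mul_mem _ (le_locSub _ _ (oM_mem_ordAlgG hC₀ _)) hm'
    induction hm using Algebra.adjoin_induction with
    | mem m hm =>
      obtain ⟨i, rfl⟩ := hm
      apply hnorm (∏ j ∈ Finset.Icc 1 r, ϖ ^ j) _ (Finset.prod_ne_zero_iff.mpr fun j _ =>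
        pow_ne_zero _ hϖ)
      refine le_locSub _ _ (hsub _ (Or.inr (Or.inr ⟨i, ?_⟩)))
      rw [map_prod]
      simp only [map_pow]
    | algebraMap l =>
      obtain ⟨a, b, hb, hab⟩ := hfrac l
      apply hnorm b _ hb
      have h1 : oM O L M b * algebraMap L M l = oM O L M a := by
        rw [oM, RingHom.comp_apply, ← map_mul, hab]; rfl
      rw [h1]
      exact le_locSub _ _ (oM_mem_ordAlgG hC₀ _)
    | add a b _ _ ha hb => exact Subalgebra.add_mem _ ha hb
    | mul a b _ _ ha hb => exact Subalgebra.mul_mem _ ha hb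
  obtain ⟨n, hn, hnm⟩ := hU m
  exact ⟨n, by simpa using hn, hnm⟩
-- END GN6

end OrderHyp

end Pool.Agent.Lib.MP_6a3dac_ag.GI
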