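import Pool.Agent.Lib.MP_6a3dac_ag.GI.Reg
import Pool.Agent.Lib.MP_6a3dac_ag.GI.Gen
import Pool.Agent.Lib.MP_6a3dac_ag.QD.Abs

/-!
# Regular models of the rings of invariants of finite groups
-/

set_option autoImplicit false
set_option linter.unusedSectionVars false
set_option linter.unusedVariables false

namespace Pool.Agent.Lib.MP_6a3dac_ag.GI

open Pool.Agent.Lib.MP_6a3dac_ag Pool.Agent.Lib.MP_6a3dac_ag.QD
open CategoryTheory Limits AlgebraicGeometry IsDedekindDomain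

variable {R K O L A M F I G : Type} [CommRing R] [IsDedekindDomain R] [Field K] [Algebra R K]
  [IsFractionRing R K] [CommRing O] [IsDedekindDomain O] [Algebra R O] [Module.Finite R O]
  [Field L] [Algebra R L] [Algebra O L] [IsScalarTower R O L] [IsFractionRing O L]
  [CommRing A] [Algebra K A] [Algebra R A] [IsScalarTower R K A]
  (𝒜 : ℕ → Submodule K A) [GradedAlgebra 𝒜]
  [CommRing M] [IsDomain M] [Algebra L M] [Algebra R M] [IsScalarTower R L M]
  (ℳ : ℕ → Submodule L M) [GradedAlgebra ℳ] [Field F] [Finite I] [Group G] [Finite G]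
  [MulSemiringAction G O] [MulSemiringAction G M] [MulSemiringAction G F]

-- BEGIN AB1
/-- TASK AB1. **Regular models of rings of invariants of finite groups.** The proof is that of
`exists_model_of_local3` in W3/G3e.lean, line by line, with `ordAlgG`, `smul_ordAlgG`, `finite_gensG`,
`fg_comap_of_group`, `gensG_homog`, `degree_zero_ordAlgG`, `full_ordAlgG`, `orderHyp_locSubG`,
`regAt_of_group`, `h.exists_disc`; the parameters at the primes are given by `hloc` directly. -/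
theorem exists_model_of_localG (hRf : ¬ IsField R) (h : GalExt R O G)
    (j : A →ₐ[R] M) (hj : Function.Injective j) (hgr : ∀ n a, a ∈ 𝒜 n ↔ j a ∈ ℳ n)
    (hGgr : ∀ (g : G) n m, m ∈ ℳ n → g • m ∈ ℳ n)
    (hfix : ∀ m, (∀ g : G, g • m = m) → ∃ a, j a = m) (hfix' : ∀ (g : G) a, g • j a = j a)
    (hGO : ∀ (g : G) c, g • oM O L M c = oM O L M (g • c))
    (ι : M →+* F) (hι : Function.Injective ι) (hGF : ∀ (g : G) m, g • ι m = ι (g • m))
    (x : I → M) (hxdeg : ∀ i, x i ∈ ℳ 1) (hstar : ∀ (g : G) l, ∃ l', g • x l = x l')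
    (hgen : Algebra.adjoin L (Set.range x) = ⊤)
    (hloc : ∀ p : HeightOneSpectrum R, ∃ (ϖ : O) (δ r : ℕ) (B : ℕ → Set M),
      CentG ℳ x G p.asIdeal ϖ δ r B ∧
      (UnramG O G p.asIdeal → ϖ = 1 ∧ r = 0 ∧ B = fun _ => Set.range x) ∧
      ∀ (D : Subring F) (i : I) (β : ℕ → M),
        LocSit ι x B (lamP O L M p.asIdeal) r D i β → Good G D) :
    ∃ (Y : Scheme.{0}) (g : Y ⟶ Spec (CommRingCat.of R)),
      IsProper g ∧ Flat g ∧ (∀ y : Y, IsRegularLocalRing (Y.presheaf.stalk y)) ∧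
      ∃ e : pullback g (Spec.map (CommRingCat.ofHom (algebraMap R K))) ≅ Proj 𝒜,
        e.hom ≫ projTo K 𝒜 =
          pullback.snd g (Spec.map (CommRingCat.ofHom (algebraMap R K))) := by
  classical
  have hOL : Function.Injective (algebraMap O L) := IsFractionRing.injective O L
  have hRL : Function.Injective (algebraMap R L) := by
    rw [IsScalarTower.algebraMap_eq R O L]
    exact hOL.comp h.inj
  have hLM : Function.Injective (algebraMap L M) := (algebraMap L M).injective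
  have hA : Nontrivial A := by
    refine ⟨0, 1, fun h0 => ?_⟩
    have := congrArg j h0
    rw [map_zero, map_one] at this
    exact zero_ne_one this
  have hGR : ∀ (g : G) (a : R), g • algebraMap R M a = algebraMap R M a := by
    intro g a
    rw [← oM_algebraMap (O := O) (L := L), hGO, h.fix]
  -- the standard generators
  let B₀ : ℕ → Set M := fun _ => Set.range x
  choose ϖ δ r B hpar1 hpar2 hpar3 using hloc
  -- finitely many generators of `O`
  obtain ⟨C₀, hC₀⟩ : (⊤ : Subalgebra R O).FG := by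
    have : Algebra.FiniteType R O := inferInstance
    exact this.out
  let T₁ : (ℕ → Set M) → O → ℕ → Subalgebra R M := fun B ϖ r =>
    ordAlgG (L := L) G x B (C₀ : Set O) ϖ r R
  have hT₁G : ∀ B ϖ r, ∀ g : G, ∀ t ∈ T₁ B ϖ r, g • t ∈ T₁ B ϖ r :=
    fun B ϖ r g t ht => smul_ordAlgG hGR g ht
  let S₁ : (ℕ → Set M) → O → ℕ → Subalgebra R A := fun B ϖ r => (T₁ B ϖ r).comap j
  have hjdec : ∀ a i, j (DirectSum.decompose 𝒜 a i : A) = DirectSum.decompose ℳ (j a) i := by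
    intro a i
    conv_rhs => rw [← DirectSum.sum_support_decompose 𝒜 a, map_sum, DirectSum.decompose_sum,
      DFinsupp.finsetSum_apply, AddSubmonoidClass.coe_finsetSum]
    have h1 : ∀ k ∈ (DirectSum.decompose 𝒜 a).support, (DirectSum.decompose ℳ
        (j (DirectSum.decompose 𝒜 a k : A)) i : M) = if k = i then
          j (DirectSum.decompose 𝒜 a i : A) else 0 := by
      intro k _
      have hk := (hgr k _).mp (DirectSum.decompose 𝒜 a k).2
      split_ifs with hki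
      · subst hki
        rw [DirectSum.decompose_of_mem_same ℳ hk]
      · rw [DirectSum.decompose_of_mem_ne ℳ hk hki]
    rw [Finset.sum_congr rfl h1, Finset.sum_ite_eq']
    split_ifs with h2
    · rfl
    · rw [DFinsupp.notMem_support_iff] at h2
      rw [h2]
      simp
  have hgood : ∀ (B : ℕ → Set M) (ϖ : O) (δ r : ℕ), 1 ≤ δ → (∀ j, (B j).Finite) →
      (∀ j, ∀ b ∈ B j, b ∈ ℳ δ) → GoodGens 𝒜 (S₁ B ϖ r) (gensOf 𝒜 (S₁ B ϖ r)) := by
    intro B ϖ δ r hδ hfin hdeg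
    have hT₁FG : (T₁ B ϖ r).FG := by
      have h1 : (gensG (L := L) G x B (C₀ : Set O) ϖ r).Finite :=
        finite_gensG hfin C₀.finite_toSet
      exact ⟨h1.toFinset, by rw [Set.Finite.coe_toFinset]; rfl⟩
    have hS₁FG : (S₁ B ϖ r).FG :=
      fg_comap_of_group G j hj hfix (T₁ B ϖ r) (hT₁G B ϖ r) hT₁FG
    have hT₁h : IsHomog ℳ (T₁ B ϖ r) :=
      isHomog_adjoin ℳ fun m hm => gensG_homog hGgr hxdeg hdeg hm
    have hS₁h : IsHomog 𝒜 (S₁ B ϖ r) := by
      intro s hs i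
      change j _ ∈ T₁ B ϖ r
      rw [hjdec]
      exact hT₁h _ hs i
    have hS₁0 : ∀ s ∈ S₁ B ϖ r, s ∈ 𝒜 0 → ∃ a : R, algebraMap R A a = s := by
      intro s hs hs0
      obtain ⟨a, ha⟩ := degree_zero_ordAlgG (ℳ := ℳ) h hGO hGgr hxdeg hδ hdeg hLM hOL
        (t := j s) hs ((hgr 0 s).mp hs0) (fun g => hfix' g s)
      refine ⟨a, hj ?_⟩
      rw [← ha]
      exact j.commutes a
    exact goodGens_gensOf 𝒜 (exists_goodGens 𝒜 hS₁h hS₁FG hS₁0)
  have hgens : ∀ p, GoodGens 𝒜 (S₁ (B p) (ϖ p) (r p)) (gensOf 𝒜 (S₁ (B p) (ϖ p) (r p))) :=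
    fun p => hgood _ _ _ _ (hpar1 p).δpos (hpar1 p).fin (hpar1 p).deg
  have hgens₀ : GoodGens 𝒜 (S₁ B₀ 1 0) (gensOf 𝒜 (S₁ B₀ 1 0)) := by
    refine hgood _ _ 1 _ le_rfl (fun _ => Set.finite_range x) ?_
    rintro _ _ ⟨i, rfl⟩
    exact hxdeg i
  have hfull : ∀ (B : ℕ → Set M) (ϖ : O) (r : ℕ), GoodGens 𝒜 (S₁ B ϖ r) (gensOf 𝒜 (S₁ B ϖ r)) →
      ϖ ≠ 0 → ∀ a : A, ∃ n : R, n ≠ 0 ∧ n • a ∈ Algebra.adjoin R (gensOf 𝒜 (S₁ B ϖ r)) := by
    intro B ϖ r hg hϖ a
    obtain ⟨n, hn, hna⟩ := full_ordAlgG (R := R) (O := O) (L := L) (G := G) (x := x) (B := B)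
      (C₀ := (C₀ : Set O)) (ϖ := ϖ) (r := r) h hRL hC₀ (fun l => by
        obtain ⟨⟨a, b⟩, hab⟩ := IsLocalization.surj (nonZeroDivisors O) l
        exact ⟨a, b, nonZeroDivisors.coe_ne_zero b, by rw [mul_comm]; exact hab⟩) hgen hϖ
      (j a)
    refine ⟨n, hn, ?_⟩
    rw [hg.2.2]
    change j (n • a) ∈ T₁ B ϖ r
    rw [map_smul]
    exact hna
  have hLG : LocalGens 𝒜 (fun p => gensOf 𝒜 (S₁ (B p) (ϖ p) (r p))) (gensOf 𝒜 (S₁ B₀ 1 0)) :=
    { finite := fun p => (hgens p).1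
      finite₀ := hgens₀.1
      ae := by
        obtain ⟨d, hd0, hd⟩ := h.exists_disc
        refine (finite_mem_prime hd0).subset ?_
        intro p hp
        by_contra hdp
        apply hp
        obtain ⟨h1, h2, h3⟩ := hpar2 p (hd p.asIdeal p.isPrime hdp)
        rw [h1, h2, h3]
      homog := fun p => (hgens p).2.1
      full := fun p => hfull _ _ _ (hgens p) (hpar1 p).ϖ0
      full₀ := hfull _ _ _ hgens₀ one_ne_zero }
  refine exists_model 𝒜 hLG hRf fun p => ?_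
  have hOH : DNF.OrderHyp ℳ x (B p) (δ p) (oM O L M (ϖ p)) (lamP O L M p.asIdeal) (r p)
      (locSub p.asIdeal (T₁ (B p) (ϖ p) (r p))) :=
    orderHyp_locSubG h hRL hGO hGgr hxdeg hstar hC₀ p.asIdeal (hpar1 p)
  refine regAt_of_group 𝒜 ℳ (j : A →+* M) ι (localOrder _ p)
    (locSub p.asIdeal (T₁ (B p) (ϖ p) (r p))) (G := G) hj hι hgr hGgr hfix hfix' ?_ ?_ hGF ?_
  · intro a
    change a ∈ locSub p.asIdeal (Algebra.adjoin R (gensOf 𝒜 (S₁ (B p) (ϖ p) (r p)))) ↔ _
    rw [(hgens p).2.2]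
    constructor
    · rintro ⟨n, hn, hna⟩
      refine ⟨n, hn, ?_⟩
      have hna' : j (n • a) ∈ T₁ (B p) (ϖ p) (r p) := hna
      rw [map_smul] at hna'
      exact hna'
    · rintro ⟨n, hn, hna⟩
      refine ⟨n, hn, ?_⟩
      change j (n • a) ∈ T₁ (B p) (ϖ p) (r p)
      rw [map_smul]
      exact hna
  · rintro g t ⟨n, hn, hnt⟩
    refine ⟨n, hn, ?_⟩
    have := hT₁G _ _ _ g _ hnt
    rwa [Algebra.smul_def, smul_mul', hGR, ← Algebra.smul_def] at this
  · intro Q hQ hrel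
    obtain ⟨i, β, hβ, hf, hfQ⟩ := hOH.exists_notMem Q hrel
    obtain ⟨hx0, hβ0⟩ := DNF.OrderHyp.chart_ne_zero (x := x) ι hι Q hf hfQ
    exact hpar3 p _ i β
      { loc := isLocalRing_homLoc ℳ ι _ Q hι
        lam := fun c hc => hOH.const_mem ι hι Q hβ hf hfQ hc
        ne := hx0
        coord := fun k => hOH.coord_mem ι hι Q hβ hf hfQ k
        β_mem := hβ
        β_ne := hβ0
        ratio := fun j hj b hb => hOH.ratio_mem ι hι Q hβ hf hfQ hj hb
        gen := fun R' h1 h2 h3 h4 h5 => hOH.eq_top ι hι Q hβ hf hfQ R' h1 h2 h3 h4 h5 }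
-- END AB1

end Pool.Agent.Lib.MP_6a3dac_ag.GI
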