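import Pool.Agent.Lib.MP_6a3dac_ag.GI.Norm

/-!
# The action of the Galois group on the Segre algebra
-/

set_option autoImplicit false

namespace Pool.Agent.Lib.MP_6a3dac_ag.GI

open Pool.Agent.Lib.MP_6a3dac_ag Pool.Agent.Lib.MP_6a3dac_ag.W3

section Act

variable {O N Φ G : Type} [CommRing O] [CommRing N] [Fintype Φ] {n : ℕ} {ψ : Φ → O →+* N}
  (𝔟 : Ideal (MvPolynomial (Fin n) O)) [Group G] [MulSemiringAction G N] {π : G → Φ → Φ}
  (hs : ∀ (g : G) φ c, MulSemiringAction.toRingHom G N g (ψ φ c) = ψ (π g φ) c)
  (hmul : ∀ g h φ, π (g * h) φ = π g (π h φ)) (hone : ∀ φ, π 1 φ = φ)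

include hmul hone in
theorem act_bijective (g : G) : Function.Bijective (π g) := by
  refine Function.bijective_iff_has_inverse.mpr ⟨π g⁻¹, fun φ => ?_, fun φ => ?_⟩
  · rw [← hmul, inv_mul_cancel, hone]
  · rw [← hmul, mul_inv_cancel, hone]

include hmul in
omit [Fintype Φ] in
theorem permRing_mul (g h : G) (z : MultRing ψ 𝔟) :
    permRing 𝔟 (hs (g * h)) z = permRing 𝔟 (hs g) (permRing 𝔟 (hs h) z) := by
  have h1 : permRing 𝔟 (hs (g * h)) = (permRing 𝔟 (hs g)).comp (permRing 𝔟 (hs h)) := by
    apply multRing_hom_ext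
    · intro c
      rw [RingHom.comp_apply, permRing_algebraMap, permRing_algebraMap, permRing_algebraMap]
      congr 1
      exact mul_smul g h c
    · intro φ k
      rw [RingHom.comp_apply, permRing_cl, permRing_cl, permRing_cl, hmul]
  exact RingHom.congr_fun h1 z

include hone in
omit [Fintype Φ] in
theorem permRing_one (z : MultRing ψ 𝔟) : permRing 𝔟 (hs 1) z = z := by
  have h1 : permRing 𝔟 (hs 1) = RingHom.id _ := by
    apply multRing_hom_ext
    · intro c
      rw [permRing_algebraMap, RingHom.id_apply]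
      congr 1
      exact one_smul G c
    · intro φ k
      rw [permRing_cl, hone, RingHom.id_apply]
  exact RingHom.congr_fun h1 z

/-- The action of the group on the multihomogeneous coordinate ring. -/
@[reducible]
noncomputable def multAction : MulSemiringAction G (MultRing ψ 𝔟) where
  smul g z := permRing 𝔟 (hs g) z
  one_smul z := permRing_one 𝔟 hs hone z
  mul_smul g h z := permRing_mul 𝔟 hs hmul g h z
  smul_zero g := map_zero (permRing 𝔟 (hs g))
  smul_add g := map_add (permRing 𝔟 (hs g))
  smul_one g := map_one (permRing 𝔟 (hs g))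
  smul_mul g := map_mul (permRing 𝔟 (hs g))

/-- The action of the group on the Segre algebra. -/
@[reducible]
noncomputable def segAction : MulSemiringAction G (segAlg ψ 𝔟) where
  smul g z := permSeg 𝔟 (hs g) (act_bijective hmul hone g) z
  one_smul z := Subtype.ext (permRing_one 𝔟 hs hone z)
  mul_smul g h z := Subtype.ext (permRing_mul 𝔟 hs hmul g h z)
  smul_zero g := map_zero (permSeg 𝔟 (hs g) (act_bijective hmul hone g))
  smul_add g := map_add (permSeg 𝔟 (hs g) (act_bijective hmul hone g))
  smul_one g := map_one (permSeg 𝔟 (hs g) (act_bijective hmul hone g))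
  smul_mul g := map_mul (permSeg 𝔟 (hs g) (act_bijective hmul hone g))

end Act

end Pool.Agent.Lib.MP_6a3dac_ag.GI
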