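import Pool.Agent.Lib.MP_6a3dac_ag.GI.Comb
import Pool.Agent.Lib.MP_6a3dac_ag.W3.G1c
import Pool.Agent.Lib.MP_6a3dac_ag.W3.G4c
import Pool.Agent.Lib.MP_6a3dac_ag.QD.Around

/-!
# The arithmetic of inertia groups of order two and three
-/

set_option autoImplicit false
set_option linter.unusedSectionVars false
set_option linter.unusedVariables false

namespace Pool.Agent.Lib.MP_6a3dac_ag.GI

open Pool.Agent.Lib.MP_6a3dac_ag Pool.Agent.Lib.MP_6a3dac_ag.QD Pool.Agent.Lib.MP_6a3dac_ag.W3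
open scoped Pointwise

section Ram

variable {R' O L M : Type} [CommRing R'] [CommRing O] [Algebra R' O]
  [Field L] [Algebra R' L] [Algebra O L] [IsScalarTower R' O L] [CommRing M] [IsDomain M]
  [Algebra L M] [Algebra R' M] [IsScalarTower R' L M] [Algebra O M] [IsScalarTower O L M]

-- BEGIN IN1
theorem in1_oM (c : O) : algebraMap O M c = oM O L M c := by
  rw [IsScalarTower.algebraMap_apply O L M]
  rfl

/-- TASK IN1 (two statements). `lamP O L M P` is taken with `R := O`. First: `≥` as in `lamP_le` (CO2, GI/Comb.lean); `≤`: if `oM n * m = oM c`, `n ∉ P`, and `algebraMap R' O n' = n * d`, `n' ∉ p`,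
then `algebraMap R' M n' * m = oM (d * c)`. Second: all fields only mention `lamP`. -/
theorem lamP_eq {p : Ideal R'} [p.IsPrime] {P : Ideal O} [P.IsPrime]
    (hP : P.comap (algebraMap R' O) = p)
    (hn : ∀ c : O, c ∉ P → ∃ n, n ∉ p ∧ ∃ d, algebraMap R' O n = c * d) :
    lamP O L M P = lamP O L M p := by
  apply le_antisymm
  · rintro m ⟨n, hnP, c, hc, l, hl⟩
    obtain ⟨n', hn', d, hd⟩ := hn n hnP
    refine ⟨n', hn', d * c, ?_, l, hl⟩
    rw [← oM_algebraMap (O := O) (L := L) n', hd, map_mul, map_mul, ← hc, in1_oM (L := L) n]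
    ring
  · rintro m ⟨n, hnp, c, hc, l, hl⟩
    refine ⟨algebraMap R' O n, fun h => hnp ?_, c, ?_, l, hl⟩
    · rw [← hP]
      exact h
    · rw [in1_oM (L := L), oM_algebraMap]
      exact hc

theorem Ram.congr_lamP {p : Ideal R'} [p.IsPrime] {P : Ideal O} [P.IsPrime] {τ : M →+* M}
    {ϖ : O} {s : ℕ} (h : Ram O L M τ p ϖ s) (hl : lamP O L M P = lamP O L M p) :
    Ram O L M τ P ϖ s := by
  refine ⟨h.ϖ0, h.pos, ?_, ?_, ?_, ?_⟩
  · rw [hl]
    exact h.eps
  · rw [hl]
    exact h.diff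
  · rw [hl]
    exact h.dvr
  · rw [hl]
    exact h.nonunit
-- END IN1

end Ram

section RamAt

variable {O L M : Type} [CommRing O] [IsDedekindDomain O] [Field L] [Algebra O L] [CommRing M]
  [IsDomain M] [Algebra L M] [Algebra O M] [IsScalarTower O L M]

-- BEGIN IN2
theorem in2_aux {R' : Type} [CommRing R'] [Algebra R' O] [Algebra R' L] [IsScalarTower R' O L]
    [Algebra R' M] [IsScalarTower R' L M] (hOL : Function.Injective (algebraMap O L))
    {σ : O →+* O} (h : QuadExt R' O σ) {P : Ideal O} [hPp : P.IsPrime] (hP0 : P ≠ ⊥)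
    [Finite (O ⧸ P)] (hσP : ∀ c, σ c - c ∈ P) {τ : M →+* M}
    (hτO : ∀ c, τ (oM O L M c) = oM O L M (σ c)) :
    ∃ (ϖ : O) (s : ℕ), Ram O L M τ P ϖ s ∧ ϖ ∈ P ∧
      ∀ c ∈ P, ∃ n, n ∉ P ∧ ∃ d, n * c = d * ϖ := by
  have hint := h.isIntegral
  obtain ⟨p, hp⟩ : ∃ p : Ideal R', P.comap (algebraMap R' O) = p := ⟨_, rfl⟩
  have hPm : P.IsMaximal := hPp.isMaximal hP0
  have hpm : p.IsMaximal := by
    rw [← hp]
    exact Ideal.isMaximal_comap_of_isIntegral_of_isMaximal P
  have hp0 : p ≠ ⊥ := by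
    intro h0
    obtain ⟨c, hc, hc0⟩ := Submodule.exists_mem_ne_zero_of_ne_bot hP0
    obtain ⟨n, hn⟩ := h.exists_norm c
    have h1 : n ∈ p := by
      rw [← hp, Ideal.mem_comap, hn]
      exact P.mul_mem_right _ hc
    rw [h0, Ideal.mem_bot] at h1
    rw [h1, map_zero] at hn
    rcases mul_eq_zero.1 hn.symm with h2 | h2
    · exact hc0 h2
    · apply hc0
      rw [← h.invol c, h2, map_zero]
  have hfin : Finite (R' ⧸ p) := Finite.of_injective
    (Ideal.quotientMap P (algebraMap R' O) hp.ge) (Ideal.quotientMap_injective' hp.le)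
  have hU : ¬ UnramAt σ p := by
    rintro ⟨c, d, n, hn, hcd⟩
    apply hn
    rw [← hp, Ideal.mem_comap, ← hcd]
    exact P.mul_mem_right _ (hσP c)
  have hRL : Function.Injective (algebraMap R' L) := by
    rw [IsScalarTower.algebraMap_eq R' O L]
    exact hOL.comp h.inj
  obtain ⟨ϖ, s, hr, hirr⟩ := exists_ram h hRL hτO p hOL hp0 hU hp
  have hl : lamP O L M P = lamP O L M p := by
    apply lamP_eq hp
    intro c hc
    obtain ⟨n, hn, hn2⟩ := h.exists_dvd hp hσP hc
    exact ⟨n, hn, σ c, hn2⟩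
  refine ⟨ϖ, s, Ram.congr_lamP hr hl, ?_, fun c hc => ?_⟩
  · have h5 : ¬ IsUnit (algebraMap O (Localization.AtPrime P) ϖ) := hirr.not_isUnit
    rw [IsLocalization.AtPrime.isUnit_to_map_iff (Localization.AtPrime P) P ϖ] at h5
    exact not_not.1 h5
  · obtain ⟨t, ht, d, htd⟩ := r1_unif hirr hc
    exact ⟨t, ht, d, htd⟩

/-- TASK IN2. **Ramified primes of an automorphism of order two.** Let `R' = fixedRing σ` (QWInv.lean), a subring of `O`; `QuadExt R' O σ` (QWArith.lean) is clear. `p = P.comap (algebraMap R' O)` is maximal (`QuadExt.isIntegral`,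
`Ideal.isMaximal_comap_of_isIntegral_of_isMaximal`), `p ≠ ⊥` (norms `c * σ c` of elements of `P`), `R' ⧸ p` is finite (it embeds into `O ⧸ P`), `¬ UnramAt σ p` (`σ c - c ∈ P`, so `n ∈ span` is in `P`). Make `L`, `M` algebras over `R'`
(`letI := ((algebraMap O L).comp R'.subtype).toAlgebra` or the instance of subrings) and apply `exists_ram` (QD/Arith.lean) and IN1; for `c ∉ P` the norm `c * σ c` is not in `p`, as `σ c - c ∈ P`. The uniformizer: `r1_unif` (QD/Arith.lean). `ϖ ∈ P`: otherwise `oM ϖ` is a unit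
of `lamP O L M P`, a contradiction to `Ram.nonunit`. -/
theorem exists_ram_two (hOL : Function.Injective (algebraMap O L)) {σ : O →+* O}
    (hσ : ∀ c, σ (σ c) = c) (hne : ∃ c, σ c ≠ c) {P : Ideal O} [P.IsPrime] (hP0 : P ≠ ⊥)
    [Finite (O ⧸ P)] (hσP : ∀ c, σ c - c ∈ P) {τ : M →+* M}
    (hτO : ∀ c, τ (oM O L M c) = oM O L M (σ c)) :
    ∃ (ϖ : O) (s : ℕ), Ram O L M τ P ϖ s ∧ ϖ ∈ P ∧
      ∀ c ∈ P, ∃ n, n ∉ P ∧ ∃ d, n * c = d * ϖ := by
  have h : QuadExt (fixedRing σ) O σ :=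
    ⟨hσ, fun r => r.2, fun c hc => ⟨⟨c, hc⟩, rfl⟩, hne, Subtype.val_injective⟩
  exact in2_aux hOL h hP0 hσP hτO
-- END IN2

-- BEGIN IN3
theorem in3_aux {R' : Type} [CommRing R'] [Algebra R' O] [Algebra R' L] [IsScalarTower R' O L]
    [Algebra R' M] [IsScalarTower R' L M] (hOL : Function.Injective (algebraMap O L))
    {σ : O →+* O} (h : CubExt R' O σ) {P : Ideal O} [hPp : P.IsPrime] (hP0 : P ≠ ⊥)
    [Finite (O ⧸ P)] (hσP : ∀ c, σ c - c ∈ P) {τ : M →+* M}
    (hτO : ∀ c, τ (oM O L M c) = oM O L M (σ c)) :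
    ∃ (ϖ : O) (s : ℕ), Ram O L M τ P ϖ s ∧ ϖ ∈ P ∧
      ∀ c ∈ P, ∃ n, n ∉ P ∧ ∃ d, n * c = d * ϖ := by
  have hint := h.isIntegral
  obtain ⟨p, hp⟩ : ∃ p : Ideal R', P.comap (algebraMap R' O) = p := ⟨_, rfl⟩
  have hPm : P.IsMaximal := hPp.isMaximal hP0
  have hpm : p.IsMaximal := by
    rw [← hp]
    exact Ideal.isMaximal_comap_of_isIntegral_of_isMaximal P
  have hp0 : p ≠ ⊥ := by
    intro h0
    obtain ⟨c, hc, hc0⟩ := Submodule.exists_mem_ne_zero_of_ne_bot hP0
    obtain ⟨n, hn⟩ := h.exists_norm c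
    have h1 : n ∈ p := by
      rw [← hp, Ideal.mem_comap, hn]
      exact P.mul_mem_right _ (P.mul_mem_right _ hc)
    rw [h0, Ideal.mem_bot] at h1
    rw [h1, map_zero] at hn
    rcases mul_eq_zero.1 hn.symm with h2 | h2
    · rcases mul_eq_zero.1 h2 with h3 | h3
      · exact hc0 h3
      · apply hc0
        rw [← h.cube c, h3, map_zero, map_zero]
    · apply hc0
      rw [← h.cube c, h2, map_zero]
  have hfin : Finite (R' ⧸ p) := Finite.of_injective
    (Ideal.quotientMap P (algebraMap R' O) hp.ge) (Ideal.quotientMap_injective' hp.le)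
  have hU : ¬ UnramAt3 σ p := by
    rintro ⟨n, hn, hcd⟩
    apply hn
    rw [← hp, Ideal.mem_comap]
    refine (Ideal.span_le.2 ?_) hcd
    rintro _ ⟨c, rfl⟩
    exact hσP c
  have hRL : Function.Injective (algebraMap R' L) := by
    rw [IsScalarTower.algebraMap_eq R' O L]
    exact hOL.comp h.inj
  obtain ⟨ϖ, s, hr, hirr⟩ := exists_ram3 h hRL hτO p hOL hp0 hU hp
  have hl : lamP O L M P = lamP O L M p := by
    apply lamP_eq hp
    intro c hc
    obtain ⟨n, hn, hn2⟩ := h.exists_dvd hp hσP hc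
    exact ⟨n, hn, σ c * σ (σ c), by rw [hn2, mul_assoc]⟩
  refine ⟨ϖ, s, Ram.congr_lamP hr hl, ?_, fun c hc => ?_⟩
  · have h5 : ¬ IsUnit (algebraMap O (Localization.AtPrime P) ϖ) := hirr.not_isUnit
    rw [IsLocalization.AtPrime.isUnit_to_map_iff (Localization.AtPrime P) P ϖ] at h5
    exact not_not.1 h5
  · obtain ⟨t, ht, d, htd⟩ := r1_unif hirr hc
    exact ⟨t, ht, d, htd⟩

/-- TASK IN3. **Ramified primes of an automorphism of order three.** As IN2, with `CubExt` (W3/G4a.lean), `exists_ram3` (W3/G4c.lean), `UnramAt3`, `CubExt.isIntegral`, and the norm `c * σ c * σ (σ c)`. -/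
theorem exists_ram_three (hOL : Function.Injective (algebraMap O L)) {σ : O →+* O}
    (hσ : ∀ c, σ (σ (σ c)) = c) (hne : ∃ c, σ c ≠ c) {P : Ideal O} [P.IsPrime] (hP0 : P ≠ ⊥)
    [Finite (O ⧸ P)] (hσP : ∀ c, σ c - c ∈ P) {τ : M →+* M}
    (hτO : ∀ c, τ (oM O L M c) = oM O L M (σ c)) :
    ∃ (ϖ : O) (s : ℕ), Ram O L M τ P ϖ s ∧ ϖ ∈ P ∧
      ∀ c ∈ P, ∃ n, n ∉ P ∧ ∃ d, n * c = d * ϖ := by
  have h : CubExt (fixedRing σ) O σ :=
    ⟨hσ, fun r => r.2, fun c hc => ⟨⟨c, hc⟩, rfl⟩, hne, Subtype.val_injective⟩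
  exact in3_aux hOL h hP0 hσP hτO
-- END IN3

end RamAt

section Decomp

variable {O L M G : Type} [CommRing O] [Field L] [Algebra O L] [CommRing M] [IsDomain M]
  [Algebra L M] [Algebra O M] [IsScalarTower O L M] [Group G] [Finite G] [MulSemiringAction G O]
  [MulSemiringAction G M]

-- BEGIN IN4
theorem in4_inv {P : Ideal O} {g : G} (hg : ∀ c ∈ P, g • c ∈ P) {c : O} (hc : g • c ∈ P) :
    c ∈ P := by
  have h1 : ∀ k : ℕ, ∀ c ∈ P, g ^ k • c ∈ P := by
    intro k
    induction k with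
    | zero =>
      intro c hc
      rw [pow_zero, one_smul]
      exact hc
    | succ k ih =>
      intro c hc
      rw [pow_succ, mul_smul]
      exact ih _ (hg c hc)
  have h2 : g ^ (orderOf g - 1) * g = 1 := by
    rw [← pow_succ, Nat.sub_add_cancel (orderOf_pos g), pow_orderOf_eq_one]
  have h3 := h1 (orderOf g - 1) _ hc
  rwa [← mul_smul, h2, one_smul] at h3

theorem in4_inj (hOL : Function.Injective (algebraMap O L)) :
    Function.Injective (oM O L M) := (algebraMap L M).injective.comp hOL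

/-- TASK IN4 (three statements). Let `g P ≤ P`. Then `g P = P` (`G` is finite, so `g⁻¹` is a power of `g`), so `c ∉ P` implies `g c ∉ P`; first statement: `lamP O L M P` is stable. The elements of the image of `L` (the last condition of `lamP`): if
`algebraMap L M l = c` and `oM n * c = oM c'`, `n ≠ 0`, then `g • c = oM (g c') / oM (g n)` (a domain) is in the image of `L`. Second: `oM n`, `n ∉ P`, has an inverse `u` in `lamP`. Third: `g ϖ ∈ P` gives `n (g ϖ) = d ϖ`, so `g • oM ϖ = η oM ϖ` with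
`η = oM d / oM n`; the same for `g⁻¹`: `g⁻¹ • oM ϖ = η₁ oM ϖ`, apply `g`: `η * (g • η₁) = 1` (cancel `oM ϖ ≠ 0`). -/
theorem smul_mem_lamP (hOL : Function.Injective (algebraMap O L))
    (hO : ∀ (g : G) c, g • oM O L M c = oM O L M (g • c))
    {P : Ideal O} [P.IsPrime] {g : G} (hg : ∀ c ∈ P, g • c ∈ P) {c : M}
    (hc : c ∈ lamP O L M P) : g • c ∈ lamP O L M P := by
  obtain ⟨n, hn, c', hc', l, hl⟩ := mem_lamP.1 hc
  have hn' : g • n ∉ P := fun h => hn (in4_inv hg h)
  have hn0 : g • n ≠ 0 := fun h => hn' (by rw [h]; exact P.zero_mem)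
  have hinj : Function.Injective (oM O L M) := in4_inj hOL
  have h1 : oM O L M (g • n) * (g • c) = oM O L M (g • c') := by
    rw [← hO, ← hO, ← smul_mul', ← hc', ← oM_algebraMap (O := O) (L := L)]
    rfl
  refine mem_lamP.2 ⟨g • n, hn', g • c', ?_, algebraMap O L (g • c') / algebraMap O L (g • n), ?_⟩
  · rw [← h1, ← oM_algebraMap (O := O) (L := L)]
    rfl
  · have h2 : algebraMap O L (g • n) ≠ 0 := by
      intro h
      exact hn0 (hOL (by rw [h, map_zero]))
    have h3 : oM O L M (g • n) ≠ 0 := by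
      intro h
      exact hn0 (hinj (by rw [h, map_zero]))
    apply mul_left_cancel₀ h3
    rw [h1]
    change algebraMap L M (algebraMap O L (g • n)) * _ = algebraMap L M (algebraMap O L (g • c'))
    rw [← map_mul, mul_div_cancel₀ _ h2]

theorem exists_inv_lamP (hOL : Function.Injective (algebraMap O L)) {P : Ideal O} [P.IsPrime]
    {n : O} (hn : n ∉ P) : ∃ u ∈ lamP O L M P, oM O L M n * u = 1 := by
  have hn0 : n ≠ 0 := fun h => hn (by rw [h]; exact P.zero_mem)
  have h2 : algebraMap O L n ≠ 0 := by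
    intro h
    exact hn0 (hOL (by rw [h, map_zero]))
  have h3 : oM O L M n * algebraMap L M (algebraMap O L n)⁻¹ = 1 := by
    change algebraMap L M (algebraMap O L n) * _ = 1
    rw [← map_mul, mul_inv_cancel₀ h2, map_one]
  refine ⟨algebraMap L M (algebraMap O L n)⁻¹, mem_lamP.2 ⟨n, hn, 1, ?_, _, rfl⟩, h3⟩
  rw [map_one, ← h3, ← oM_algebraMap (O := O) (L := L)]
  rfl

theorem in4_unif (hOL : Function.Injective (algebraMap O L))
    (hO : ∀ (g : G) c, g • oM O L M c = oM O L M (g • c)) {P : Ideal O} [P.IsPrime] {ϖ : O}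
    (hϖ : ϖ ∈ P) (hunif : ∀ c ∈ P, ∃ n, n ∉ P ∧ ∃ d, n * c = d * ϖ) {g : G}
    (hg : ∀ c ∈ P, g • c ∈ P) :
    ∃ η ∈ lamP O L M P, g • oM O L M ϖ = η * oM O L M ϖ := by
  obtain ⟨n, hn, d, hnd⟩ := hunif _ (hg ϖ hϖ)
  obtain ⟨u, hu, hu1⟩ := exists_inv_lamP (M := M) hOL hn
  refine ⟨oM O L M d * u, Subring.mul_mem _ (oM_mem_lamP P d) hu, ?_⟩
  have h1 := congrArg (oM O L M) hnd
  rw [map_mul, map_mul] at h1
  rw [hO]
  linear_combination u * h1 - oM O L M (g • ϖ) * hu1

theorem smul_unif (hOL : Function.Injective (algebraMap O L))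
    (hO : ∀ (g : G) c, g • oM O L M c = oM O L M (g • c)) {P : Ideal O} [P.IsPrime] {ϖ : O}
    (hϖ0 : ϖ ≠ 0) (hϖ : ϖ ∈ P) (hunif : ∀ c ∈ P, ∃ n, n ∉ P ∧ ∃ d, n * c = d * ϖ) {g : G}
    (hg : ∀ c ∈ P, g • c ∈ P) :
    ∃ η ∈ lamP O L M P, ∃ η' ∈ lamP O L M P, g • oM O L M ϖ = η * oM O L M ϖ ∧ η * η' = 1 := by
  obtain ⟨η, hη, h1⟩ := in4_unif (M := M) hOL hO hϖ hunif hg
  have hg' : ∀ c ∈ P, g⁻¹ • c ∈ P := by
    intro c hc
    apply in4_inv hg
    rwa [smul_inv_smul]
  obtain ⟨η₁, hη₁, h2⟩ := in4_unif (M := M) hOL hO hϖ hunif hg'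
  refine ⟨η, hη, g • η₁, smul_mem_lamP hOL hO hg hη₁, h1, ?_⟩
  have h3 : oM O L M ϖ ≠ 0 := by
    intro h
    exact hϖ0 (in4_inj (M := M) hOL (by rw [h, map_zero]))
  have h4 := congrArg (fun z => g • z) h2
  simp only [smul_inv_smul, smul_mul'] at h4
  rw [h1] at h4
  apply mul_right_cancel₀ h3
  rw [one_mul]
  linear_combination -h4
-- END IN4

-- BEGIN IN5
private theorem in5_mem {P : Ideal O} {τ : G} (hτP : ∀ c : O, τ • c - c ∈ P) {g : G}
    (hg : ∀ c ∈ P, g • c ∈ P) (c : O) : (g * τ * g⁻¹) • c - c ∈ P := by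
  have h1 := hg _ (hτP (g⁻¹ • c))
  rw [smul_sub, smul_inv_smul] at h1
  rwa [mul_smul, mul_smul]

private theorem in5_pow {P : Ideal O} {τ : G} (hτP : ∀ c : O, τ • c - c ∈ P)
    (hI : ∀ g : G, (∀ c : O, g • c - c ∈ P) → g ∈ Subgroup.zpowers τ) {g : G}
    (hg : ∀ c ∈ P, g • c ∈ P) : ∃ k : ℕ, g * τ * g⁻¹ = τ ^ k := by
  have h1 := hI _ (in5_mem hτP hg)
  rw [← mem_powers_iff_mem_zpowers, Submonoid.mem_powers_iff] at h1
  obtain ⟨k, hk⟩ := h1
  exact ⟨k, hk.symm⟩

/-- TASK IN5 (two statements). The elements of the decomposition group normalize the inertia group: `g τ g⁻¹` acts trivially modulo `P`, so it is a power of `τ` (`hI`), of the same order. Order two: `g τ g⁻¹ = τ`. Order three: `g τ g⁻¹ = τ` or `τ ^ 2`. -/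
theorem comm_of_two {P : Ideal O} {τ : G} (hτ : orderOf τ = 2)
    (hτP : ∀ c : O, τ • c - c ∈ P)
    (hI : ∀ g : G, (∀ c : O, g • c - c ∈ P) → g ∈ Subgroup.zpowers τ) {g : G}
    (hg : ∀ c ∈ P, g • c ∈ P) : g * τ = τ * g := by
  obtain ⟨k, hk⟩ := in5_pow (P := P) hτP hI hg
  have h1 : τ ^ 2 = 1 := by rw [← hτ]; exact pow_orderOf_eq_one τ
  have hne : τ ≠ 1 := by
    rintro rfl
    rw [orderOf_one] at hτ
    exact absurd hτ (by norm_num)
  rcases Nat.even_or_odd' k with ⟨j, rfl | rfl⟩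
  · rw [pow_mul, h1, one_pow] at hk
    exfalso
    apply hne
    have h2 : τ = g⁻¹ * (g * τ * g⁻¹) * g := by group
    rw [h2, hk]
    group
  · rw [pow_succ, pow_mul, h1, one_pow, one_mul] at hk
    calc g * τ = (g * τ * g⁻¹) * g := by group
      _ = τ * g := by rw [hk]

theorem comm_of_three {P : Ideal O} {τ : G} (hτ : orderOf τ = 3)
    (hτP : ∀ c : O, τ • c - c ∈ P)
    (hI : ∀ g : G, (∀ c : O, g • c - c ∈ P) → g ∈ Subgroup.zpowers τ) {g : G}
    (hg : ∀ c ∈ P, g • c ∈ P) : g * τ = τ * g ∨ g * τ = τ * (τ * g) := by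
  obtain ⟨k, hk⟩ := in5_pow (P := P) hτP hI hg
  have h1 : τ ^ 3 = 1 := by rw [← hτ]; exact pow_orderOf_eq_one τ
  have hne : τ ≠ 1 := by
    rintro rfl
    rw [orderOf_one] at hτ
    exact absurd hτ (by norm_num)
  have h3 : g * τ = (g * τ * g⁻¹) * g := by group
  have h4 : τ ^ k = τ ^ (k % 3) := by
    conv_lhs => rw [← Nat.div_add_mod k 3, pow_add, pow_mul, h1, one_pow, one_mul]
  rw [h4] at hk
  have h5 : k % 3 < 3 := Nat.mod_lt _ (by norm_num)
  generalize k % 3 = m at hk h5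
  interval_cases m
  · exfalso
    apply hne
    have h2 : τ = g⁻¹ * (g * τ * g⁻¹) * g := by group
    rw [h2, hk]
    group
  · left
    rw [h3, hk, pow_one]
  · right
    rw [h3, hk, pow_two, mul_assoc]
-- END IN5

end Decomp

section Goods

variable {F G : Type} [Field F] [Group G] [Finite G] [MulSemiringAction G F] {D : Subring F}

-- BEGIN IN6
theorem in6_one : InertiaG D (1 : G) := by
  refine ⟨fun z hz => ?_, fun z _ w _ => ?_⟩
  · rw [one_smul]
    exact hz
  · rw [one_smul, sub_self, zero_mul]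
    exact zero_ne_one

theorem in6_mul (hreg : IsLocalRing D) {g h : G} (hg : InertiaG D g) (hh : InertiaG D h) :
    InertiaG D (g * h) := by
  refine ⟨fun z hz => ?_, fun z hz w hw h1 => ?_⟩
  · rw [mul_smul]
    exact hg.1 _ (hh.1 z hz)
  · have hhz := hh.1 z hz
    have hghz := hg.1 _ hhz
    rw [mul_smul] at h1
    have h2 : IsUnit ((⟨g • (h • z) - h • z, D.sub_mem hghz hhz⟩ : D) +
        ⟨h • z - z, D.sub_mem hhz hz⟩) := by
      refine IsUnit.of_mul_eq_one ⟨w, hw⟩ (Subtype.ext ?_)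
      change (g • (h • z) - h • z + (h • z - z)) * w = 1
      rw [← h1]
      ring
    rcases IsLocalRing.isUnit_or_isUnit_of_isUnit_add h2 with h3 | h3
    · obtain ⟨v, hv⟩ := h3.exists_right_inv
      exact hg.2 _ hhz _ v.2 (congrArg Subtype.val hv)
    · obtain ⟨v, hv⟩ := h3.exists_right_inv
      exact hh.2 _ hz _ v.2 (congrArg Subtype.val hv)

/-- TASK IN6 (two statements). First: `H = ⊥`, `fixG ⊥ D = D`. Second: if `InertiaG D τ` then `H = Subgroup.zpowers τ` (its elements are `1, τ` or `1, τ, τ ^ 2`, all of them satisfy `InertiaG D`), and `fixG H D` is isomorphic to `fixedRing` of the restriction of `τ` to `D`,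
regular by `isRegularLocalRing_fixedRing` (QWInv.lean) resp. `isRegularLocalRing_fixedRing3` (W3/G1c.lean) and `hpr`. If not `InertiaG D τ`: the inertia group is trivial (if `g ≠ 1` is in it then `g` is a power of `τ` and `τ` is a power of `g`, the inertia elements are closed under powers), first statement. -/
theorem good_of_trivial (h : ∀ g : G, InertiaG D g → g = 1) (hreg : IsRegularLocalRing D) :
    Good G D := by
  refine ⟨⊥, fun g => ?_, ?_⟩
  · rw [Subgroup.mem_bot]
    exact ⟨fun h1 => by rw [h1]; exact in6_one, h g⟩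
  · have h1 : fixG (⊥ : Subgroup G) D = D := by
      ext z
      rw [mem_fixG]
      refine ⟨fun h2 => h2.1, fun h2 => ⟨h2, fun g hg => ?_⟩⟩
      rw [Subgroup.mem_bot.1 hg, one_smul]
    rw [h1]
    exact hreg

theorem in6_cases {τ : G} (hτ : orderOf τ = 2 ∨ orderOf τ = 3) {g : G}
    (hg : g ∈ Subgroup.zpowers τ) : g = 1 ∨ g = τ ∨ (g = τ * τ ∧ g * g = τ) := by
  classical
  rw [← mem_powers_iff_mem_zpowers, mem_powers_iff_mem_range_orderOf, Finset.mem_image] at hg
  obtain ⟨k, hk, rfl⟩ := hg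
  rw [Finset.mem_range] at hk
  rcases hτ with h1 | h1
  · rw [h1] at hk
    interval_cases k
    · left
      exact pow_zero τ
    · right; left
      exact pow_one τ
  · have h2 : τ ^ 3 = 1 := by rw [← h1]; exact pow_orderOf_eq_one τ
    rw [h1] at hk
    interval_cases k
    · left
      exact pow_zero τ
    · right; left
      exact pow_one τ
    · right; right
      refine ⟨pow_two τ, ?_⟩
      calc τ ^ 2 * τ ^ 2 = τ ^ 3 * τ := by group
        _ = τ := by rw [h2, one_mul]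

theorem good_of_principal {τ : G} (hτ : orderOf τ = 2 ∨ orderOf τ = 3)
    (hI : ∀ g : G, InertiaG D g → g ∈ Subgroup.zpowers τ) (hreg : IsRegularLocalRing D)
    (hpr : (∀ z ∈ D, τ • z ∈ D) → Principal (MulSemiringAction.toRingHom G F τ) D) :
    Good G D := by
  have hloc : IsLocalRing D := inferInstance
  by_cases hin : InertiaG D τ
  · refine ⟨Subgroup.zpowers τ, fun g => ⟨fun hg => ?_, hI g⟩, ?_⟩
    · rcases in6_cases hτ hg with h1 | h1 | ⟨h1, -⟩
      · rw [h1]
        exact in6_one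
      · rw [h1]
        exact hin
      · rw [h1]
        exact in6_mul hloc hin hin
    · obtain ⟨y, hy, hy0, hyI⟩ := hpr hin.1
      let τD : D →+* D := ((MulSemiringAction.toRingHom G F τ).comp D.subtype).codRestrict D
        (fun z => hin.1 _ z.2)
      have hτD : ∀ z : D, ((τD z : D) : F) = τ • (z : F) := fun z => rfl
      have hy' : τD ⟨y, hy⟩ - ⟨y, hy⟩ ≠ 0 := by
        intro h1
        exact hy0 (congrArg Subtype.val h1)
      have hI' : ∀ z : D, ∃ c, τD z - z = c * (τD ⟨y, hy⟩ - ⟨y, hy⟩) := by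
        intro z
        obtain ⟨c, hc, h1⟩ := hyI z z.2
        exact ⟨⟨c, hc⟩, Subtype.ext h1⟩
      have h3 : IsRegularLocalRing (fixedRing τD) := by
        rcases hτ with h1 | h1
        · apply isRegularLocalRing_fixedRing hreg _ hy' hI'
          intro z
          apply Subtype.ext
          rw [hτD, hτD, ← mul_smul, ← pow_two, ← h1, pow_orderOf_eq_one, one_smul]
        · apply isRegularLocalRing_fixedRing3 hreg _ hy' hI'
          intro z
          apply Subtype.ext
          rw [hτD, hτD, hτD, ← mul_smul, ← mul_smul, ← pow_three', ← h1, pow_orderOf_eq_one,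
            one_smul]
      have hfix : ∀ z : F, z ∈ fixG (Subgroup.zpowers τ) D ↔ z ∈ D ∧ τ • z = z := by
        intro z
        rw [mem_fixG]
        refine ⟨fun h1 => ⟨h1.1, h1.2 τ (Subgroup.mem_zpowers τ)⟩, fun h1 => ⟨h1.1, fun g hg => ?_⟩⟩
        rcases in6_cases hτ hg with h2 | h2 | ⟨h2, -⟩
        · rw [h2, one_smul]
        · rw [h2, h1.2]
        · rw [h2, mul_smul, h1.2, h1.2]
      let e : fixedRing τD ≃+* fixG (Subgroup.zpowers τ) D :=
        { toFun := fun z => ⟨z.1.1, (hfix _).2 ⟨z.1.2, congrArg Subtype.val z.2⟩⟩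
          invFun := fun z => ⟨⟨z.1, ((hfix _).1 z.2).1⟩, Subtype.ext ((hfix _).1 z.2).2⟩
          left_inv := fun z => rfl
          right_inv := fun z => rfl
          map_mul' := fun a b => rfl
          map_add' := fun a b => rfl }
      exact IsRegularLocalRing.of_ringEquiv e
  · apply good_of_trivial _ hreg
    intro g hg
    rcases in6_cases hτ (hI g hg) with h1 | h1 | ⟨-, h1⟩
    · exact h1
    · exact absurd (h1 ▸ hg) hin
    · exfalso
      apply hin
      rw [← h1]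
      exact in6_mul hloc hg hg
-- END IN6

end Goods

section Goods2

variable {R O L M F I G : Type} [CommRing R] [CommRing O] [Algebra R O] [Field L] [Algebra R L]
  [Algebra O L] [IsScalarTower R O L] [CommRing M] [IsDomain M]
  [Algebra L M] [Algebra R M] [IsScalarTower R L M] [Algebra O M] [IsScalarTower O L M]
  [Group G] [Finite G] [MulSemiringAction G O] [MulSemiringAction G M] [Field F]
  [MulSemiringAction G F] {ι : M →+* F} {x : I → M}

-- BEGIN IN7
/-- TASK IN7. If `g • c - c ∉ P` then `ι (oM (g • c - c))` has an inverse in `D` (IN4, second statement), but it is `g • z - z` with `z = ι (oM c) ∈ D`. -/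
theorem sub_mem_of_inertia (hOL : Function.Injective (algebraMap O L))
    (hO : ∀ (g : G) c, g • oM O L M c = oM O L M (g • c))
    (hF : ∀ (g : G) m, g • ι m = ι (g • m)) {P : Ideal O} [P.IsPrime] {D : Subring F}
    (hΛ : ∀ c ∈ lamP O L M P, ι c ∈ D) {g : G} (hg : InertiaG D g) (c : O) : g • c - c ∈ P := by
  by_contra h
  obtain ⟨u, hu, hu1⟩ := exists_inv_lamP (L := L) (M := M) hOL h
  refine hg.2 (ι (oM O L M c)) (hΛ _ (oM_mem_lamP P c)) (ι u) (hΛ u hu) ?_
  rw [hF, hO, ← map_sub, ← map_sub, ← map_mul, hu1, map_one]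
-- END IN7

-- BEGIN IN8
/-- TASK IN8. **The unramified primes.** Let `g ≠ 1` be in the inertia group of `D`: by `UnramG` there is `n ∉ p` with `algebraMap R O n = ∑ a_i (g • c_i - c_i)`; its image in `D` is a unit, so one of the `ι (oM (g • c_i - c_i))` is a unit of the local ring `D`, a contradiction. So
`good_of_trivial`; `D` is regular: `hAr` gives a prime `P` over `p` and a ring `A`; `hD.gen` for `R' = A` (`r = 0`, `hA.dom`, `hA.lam` and `lamP_le`, `hA.coord`) gives `D ≤ A`, so `D = A`, `hA.reg`. -/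
theorem good_unram (hRL : Function.Injective (algebraMap R L))
    (hO : ∀ (g : G) c, g • oM O L M c = oM O L M (g • c))
    (hF : ∀ (g : G) m, g • ι m = ι (g • m)) {p : Ideal R} [p.IsPrime] (hU : UnramG O G p)
    {B : ℕ → Set M} {D : Subring F} {i : I} {β : ℕ → M}
    (hD : LocSit ι x B (lamP O L M p) 0 D i β)
    (hAr : ∃ (P : Ideal O) (_ : P.IsPrime), P.comap (algebraMap R O) = p ∧
      ∃ A, Around ι x (lamP O L M P) D i A) : Good G D := by
  have hAr' := hAr
  obtain ⟨P, hP, hPp, A, hA⟩ := hAr'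
  have hle : lamP O L M p ≤ lamP O L M P := by
    rintro m ⟨n, hn, c, hc, hl⟩
    refine ⟨algebraMap R O n, fun h => hn (hPp ▸ h), c, ?_, hl⟩
    rw [← hc, IsScalarTower.algebraMap_apply O L M, ← IsScalarTower.algebraMap_apply R O L,
      ← IsScalarTower.algebraMap_apply R L M]
  have hDA : D ≤ A := hD.gen A hA.le hA.dom (fun c hc => hA.lam c (hle hc)) hA.coord (by
    intro j hj
    rw [Finset.mem_Icc] at hj
    omega)
  have hreg : IsRegularLocalRing D := by
    obtain rfl : D = A := le_antisymm hDA hA.le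
    exact hA.reg
  refine good_of_trivial ?_ hreg
  intro g hg
  by_contra hg1
  obtain ⟨n, hn, hspan⟩ := hU g hg1
  have hloc : IsLocalRing D := hD.loc
  let φ : O →+* D := (ι.comp (oM O L M)).codRestrict D fun c => hD.lam _ (oM_mem_lamP p c)
  have hsub : Ideal.span (Set.range fun c : O => g • c - c) ≤
      (IsLocalRing.maximalIdeal D).comap φ := by
    rw [Ideal.span_le]
    rintro _ ⟨c, rfl⟩
    rw [SetLike.mem_coe, Ideal.mem_comap, IsLocalRing.mem_maximalIdeal, mem_nonunits_iff]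
    intro hu
    obtain ⟨w, hw⟩ := hu.exists_right_inv
    have hw' := congrArg Subtype.val hw
    refine hg.2 (ι (oM O L M c)) (hD.lam _ (oM_mem_lamP p c)) w w.2 ?_
    rw [hF, hO, ← map_sub, ← map_sub]
    exact hw'
  have h1 := hsub hspan
  rw [Ideal.mem_comap, IsLocalRing.mem_maximalIdeal, mem_nonunits_iff] at h1
  apply h1
  obtain ⟨l, hl⟩ := exists_inv (L := L) (M := M) hRL hn
  have hlm : algebraMap L M l ∈ lamP O L M p := ⟨n, hn, 1, by rw [hl, map_one], l, rfl⟩
  refine IsUnit.of_mul_eq_one ⟨ι (algebraMap L M l), hD.lam _ hlm⟩ ?_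
  apply Subtype.ext
  change ι (oM O L M (algebraMap R O n)) * ι (algebraMap L M l) = 1
  rw [oM_algebraMap, ← map_mul, hl, map_one]
-- END IN8

end Goods2

end Pool.Agent.Lib.MP_6a3dac_ag.GI
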