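import Pool.Agent.Lib.MP_6a3dac_ag.GI.Two
import Pool.Agent.Lib.MP_6a3dac_ag.GI.Inert
import Pool.Agent.Lib.MP_6a3dac_ag.W3.G5h

/-!
# The centres and the local theorems at the ramified primes
-/

set_option autoImplicit false
set_option linter.unusedSectionVars false
set_option linter.unusedVariables false

namespace Pool.Agent.Lib.MP_6a3dac_ag.GI

open Pool.Agent.Lib.MP_6a3dac_ag Pool.Agent.Lib.MP_6a3dac_ag.QD Pool.Agent.Lib.MP_6a3dac_ag.W3
open scoped Pointwise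
open IsDedekindDomain

/-- The automorphism of a ring given by an element of the group. -/
abbrev act {G X : Type} [Group G] [CommRing X] [MulSemiringAction G X] (g : G) : X →+* X :=
  MulSemiringAction.toRingHom G X g

/-- The geometric hypotheses: the homogeneous coordinate ring `M` with the action of `G`, and the
structure of the local rings of the integral model. -/
structure GeoHyp (O L M F I G : Type) [CommRing O] [Field L] [Algebra O L] [CommRing M]
    [Algebra L M] [Algebra O M] [IsScalarTower O L M] [Field F] [Group G]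
    [MulSemiringAction G O] [MulSemiringAction G M] [MulSemiringAction G F]
    (ℳ : ℕ → Submodule L M) [GradedAlgebra ℳ] (ι : M →+* F) (x : I → M) (I₀ : G → Set I) :
    Prop where
  hO : ∀ (g : G) (c : O), g • oM O L M c = oM O L M (g • c)
  hF : ∀ (g : G) m, g • ι m = ι (g • m)
  inj : Function.Injective ι
  hgr : ∀ (g : G) n m, m ∈ ℳ n → g • m ∈ ℳ n
  xdeg : ∀ i, x i ∈ ℳ 1
  hstar : ∀ (g : G) l, ∃ l', g • x l = x l'
  hgen : Algebra.adjoin L (Set.range x) = ⊤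
  fix₀ : ∀ τ : G, ∀ a ∈ I₀ τ, τ • x a = x a
  seg2 : ∀ τ : G, orderOf τ = 2 → ∀ i, ∃ a b, a ∈ I₀ τ ∧ x i * τ • x i = x a * x b
  seg3 : ∀ τ : G, orderOf τ = 3 → ∀ i, ∃ a b c, a ∈ I₀ τ ∧
    x i * τ • x i * τ • τ • x i = x a * x b * x c
  around : ∀ (P : Ideal O) [P.IsPrime], P ≠ ⊥ → ∀ (D : Subring F) (i : I), IsLocalRing D →
    (∀ c ∈ lamP O L M P, ι c ∈ D) → ι (x i) ≠ 0 → (∀ k, ι (x k) / ι (x i) ∈ D) →
    ∃ A, Around ι x (lamP O L M P) D i A
  str2 : ∀ (P : Ideal O) [P.IsPrime], P ≠ ⊥ → ∀ (τ : G), orderOf τ = 2 →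
    (∀ c : O, τ • c - c ∈ P) → ∀ (ϖ : O) (s : ℕ), Ram O L M (act τ) P ϖ s → ϖ ∈ P →
    (∀ c ∈ P, ∃ n, n ∉ P ∧ ∃ d, n * c = d * ϖ) →
    ∀ (D : Subring F) (i : I), i ∈ I₀ τ → IsLocalRing D →
    (∀ c ∈ lamP O L M P, ι c ∈ D) → ι (x i) ≠ 0 → (∀ k, ι (x k) / ι (x i) ∈ D) →
    (∀ w ∈ D, ι (oM O L M ϖ) * w ≠ 1) →
    (∀ k, ∀ w ∈ D, (act τ (ι (x k) / ι (x i)) - ι (x k) / ι (x i)) * w ≠ 1) →
    StrAt2 ι (act τ) x (lamP O L M P) (oM O L M ϖ) s D i
  str3 : ∀ (P : Ideal O) [P.IsPrime], P ≠ ⊥ → ∀ (τ : G), orderOf τ = 3 →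
    (∀ c : O, τ • c - c ∈ P) → ∀ (ϖ : O) (n : ℕ), Ram O L M (act τ) P ϖ (n + 1) → 1 ≤ n →
    ϖ ∈ P → (∀ c ∈ P, ∃ n, n ∉ P ∧ ∃ d, n * c = d * ϖ) →
    ∀ (D : Subring F) (i : I), i ∈ I₀ τ → IsLocalRing D →
    (∀ c ∈ lamP O L M P, ι c ∈ D) → ι (x i) ≠ 0 → (∀ k, ι (x k) / ι (x i) ∈ D) →
    (∀ w ∈ D, ι (oM O L M ϖ) * w ≠ 1) →
    (∀ k, ∀ w ∈ D, (act τ (ι (x k) / ι (x i)) - ι (x k) / ι (x i)) * w ≠ 1) →
    StrAt ι (act τ) x (lamP O L M P) (oM O L M ϖ) n D i

section Loc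

variable {O L M F I G : Type} [CommRing O]
  [IsDedekindDomain O] [Field L] [Algebra O L] [IsFractionRing O L] [CommRing M]
  [IsDomain M] [Algebra L M] [Algebra O M]
  [IsScalarTower O L M] {ℳ : ℕ → Submodule L M} [GradedAlgebra ℳ] {x : I → M} [Field F]
  {ι : M →+* F} [Group G] [Finite G] [MulSemiringAction G O] [MulSemiringAction G M]
  [MulSemiringAction G F] [Finite I] {I₀ : G → Set I}

-- BEGIN LC1
theorem lc1_sq {X G : Type} [CommRing X] [Group G] [MulSemiringAction G X] {τ : G}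
    (hτ : orderOf τ = 2) (z : X) : act τ (act τ z) = z := by
  have h : τ * τ = 1 := by
    have h1 := pow_orderOf_eq_one τ
    rwa [hτ, pow_two] at h1
  change τ • τ • z = z
  rw [← mul_smul, h, one_smul]

omit [IsDedekindDomain O] [IsFractionRing O L] in
theorem lc1_oM (hOL : Function.Injective (algebraMap O L)) {ϖ : O} (h : ϖ ≠ 0) :
    oM O L M ϖ ≠ 0 := by
  intro h0
  apply h
  apply hOL
  apply (algebraMap L M).injective
  rw [map_zero, map_zero]
  exact h0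

/-- TASK LC1. **Inertia groups of order two.** `exists_ram_two` (IN2) for `σ = act τ` on `O` and `act τ` on `M` (`H.hO`): `ϖ`, `s`, `Ram`, and `RamL` is the same as `Ram` (`ϖ0`: `oM` is injective). Take
`δ = 1`, `r = s`, `B = AS x (act τ) (oM O L M ϖ)` (W3/BSet.lean). `fin`: `Set.Finite.union`, `Set.Finite.mul`, `Set.finite_range`. `deg`: `oM_deg`, `H.hgr`. `pow`: first part of `AS`. `stab`: `mapS_AS2` (TW8, GI/Two.lean) for `act g`, with `smul_mem_lamP`, `smul_unif` (IN4), `comm_of_two` (IN5).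
`good`: `local_two` (TW6) with `H.around`, `H.str2`; then `good_of_principal` (IN6), where `InertiaG D g` implies `g ∈ zpowers τ` by `sub_mem_of_inertia` (IN7) and `hI`. -/
theorem locP_two (H : GeoHyp O L M F I G ℳ ι x I₀) {P : Ideal O} [P.IsPrime] (hP0 : P ≠ ⊥)
    [Finite (O ⧸ P)] {τ : G} (hτ : orderOf τ = 2) (hne : ∃ c : O, τ • c ≠ c)
    (hτP : ∀ c : O, τ • c - c ∈ P)
    (hI : ∀ g : G, (∀ c : O, g • c - c ∈ P) → g ∈ Subgroup.zpowers τ) :
    ∃ (ϖ : O) (δ r : ℕ) (B : ℕ → Set M), LocP ℳ x ι G P ϖ δ r B := by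
  have hOL : Function.Injective (algebraMap O L) := IsFractionRing.injective O L
  obtain ⟨ϖ, s, hR, hϖP, hunif⟩ := exists_ram_two (M := M) (L := L) (σ := act τ) hOL
    (fun c => lc1_sq hτ c) hne hP0 hτP (τ := act τ) (fun c => H.hO τ c)
  have hRL : RamL (lamP O L M P) (act τ) (oM O L M ϖ) s :=
    ⟨oM_mem_lamP P ϖ, lc1_oM hOL hR.ϖ0, hR.pos, hR.eps, hR.diff, hR.dvr, hR.nonunit⟩
  refine ⟨ϖ, 1, s, AS x (act τ) (oM O L M ϖ), ?_⟩
  refine ⟨hϖP, hunif, le_refl 1, ?_, ?_, ?_, ?_, ?_⟩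
  · intro j
    exact ((Set.finite_singleton _).mul (Set.finite_range x)).union (Set.finite_range _)
  · rintro j b (hb | ⟨k, rfl⟩)
    · obtain ⟨a, ha, c, ⟨k, rfl⟩, rfl⟩ := hb
      obtain rfl : a = oM O L M ϖ ^ j := ha
      have h1 : oM O L M ϖ ^ j ∈ ℳ 0 := by
        rw [← map_pow]
        exact oM_deg ℳ _
      have h2 := SetLike.mul_mem_graded h1 (H.xdeg k)
      rwa [zero_add] at h2
    · exact Submodule.sub_mem _ (H.hgr τ 1 _ (H.xdeg k)) (H.xdeg k)
  · intro j i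
    refine Or.inl ⟨_, rfl, x i, ⟨i, rfl⟩, ?_⟩
    change _ * x i = _
    rw [pow_one]
  · intro g hg j b hb
    obtain ⟨η, hη, η', hη', h1, h2⟩ := smul_unif (M := M) (L := L) hOL H.hO hR.ϖ0 hϖP hunif hg
    have hc := comm_of_two hτ hτP hI hg
    refine mapS_AS2 (Λ := lamP O L M P) (g := act g) (τ := act τ) (ϖ := oM O L M ϖ)
      (fun c hc => smul_mem_lamP hOL H.hO hg hc) hη h1 (fun k => H.hstar g k) (fun m => ?_) j b hb
    change g • τ • m = τ • g • m
    rw [← mul_smul, ← mul_smul, hc]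
  · intro D i β hD
    have h := local_two (I₀ := I₀ τ) (τF := act τ) H.inj (fun m => lc1_sq hτ m)
      (fun z => lc1_sq hτ z) (fun m => H.hF τ m) (fun l => H.hstar τ l) (H.fix₀ τ)
      (H.seg2 τ hτ) hRL (H.around P hP0)
      (fun D i hi hD hc h0 hk h1 h2 => H.str2 P hP0 τ hτ hτP ϖ s hR hϖP hunif D i hi hD hc h0 hk
        h1 h2) D i β hD
    have hreg := h.1
    exact good_of_principal (Or.inl hτ)
      (fun g hg => hI g (fun c => sub_mem_of_inertia hOL H.hO H.hF hD.lam hg c)) hreg h.2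
-- END LC1

-- BEGIN LC2
theorem lc2_cube {X G : Type} [CommRing X] [Group G] [MulSemiringAction G X] {τ : G}
    (hτ : orderOf τ = 3) (z : X) : act τ (act τ (act τ z)) = z := by
  have h : τ * (τ * τ) = 1 := by
    have h1 := pow_orderOf_eq_one τ
    rw [hτ, pow_succ, pow_two, mul_assoc] at h1
    exact h1
  change τ • τ • τ • z = z
  rw [← mul_smul, ← mul_smul, mul_assoc, h, one_smul]

theorem lc2_ghyp (H : GeoHyp O L M F I G ℳ ι x I₀) (hOL : Function.Injective (algebraMap O L))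
    {P : Ideal O} [P.IsPrime] {τ : G}
    (hτ : orderOf τ = 3) (hτP : ∀ c : O, τ • c - c ∈ P)
    (hI : ∀ g : G, (∀ c : O, g • c - c ∈ P) → g ∈ Subgroup.zpowers τ) {ϖ : O} (hϖ0 : ϖ ≠ 0)
    (hϖP : ϖ ∈ P) (hunif : ∀ c ∈ P, ∃ n, n ∉ P ∧ ∃ d, n * c = d * ϖ) {g : G}
    (hg : ∀ c ∈ P, g • c ∈ P) :
    GHyp (lamP O L M P) (act τ) (act (X := M) g) (oM O L M ϖ) := by
  refine ⟨fun c hc => smul_mem_lamP hOL H.hO hg hc, smul_unif hOL H.hO hϖ0 hϖP hunif hg, ?_⟩
  rcases comm_of_three hτ hτP hI hg with h | h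
  · left
    intro m
    change g • τ • m = τ • g • m
    rw [← mul_smul, ← mul_smul, h]
  · right
    intro m
    change g • τ • m = τ • τ • g • m
    rw [← mul_smul, ← mul_smul, ← mul_smul, h, mul_assoc]

/-- TASK LC2. **Inertia groups of order three, wild.** `exists_ram_three` (IN3) gives `ϖ`, `s`; `2 ≤ s` by `two_le_of_three` (W3/Cst.lean; `h3`, `Ram.dvr` for `3`: not a unit), `s = n + 1`, `1 ≤ n`. `3 = a ϖ` by `Ram.dvr`. `exists_cst` (W3/Cst.lean with `R := O`, `p := P`). `δ = 4`, `r = 5 n + 4`,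
`B = BW ..`; `fin`, `deg`, `pow` from `centW` (D6, W3/BSet.lean, `R := O`). `stab`: `mapS_BW` (GI/Stab.lean) with `GHyp` from IN4, IN5. `good`: `local_wild` (TW7, GI/Two.lean) and `good_of_principal`, as in LC1. -/
theorem locP_wild (H : GeoHyp O L M F I G ℳ ι x I₀) {P : Ideal O} [P.IsPrime] (hP0 : P ≠ ⊥)
    [Finite (O ⧸ P)] {τ : G} (hτ : orderOf τ = 3) (hne : ∃ c : O, τ • c ≠ c)
    (hτP : ∀ c : O, τ • c - c ∈ P)
    (hI : ∀ g : G, (∀ c : O, g • c - c ∈ P) → g ∈ Subgroup.zpowers τ)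
    (h3 : ∀ c ∈ lamP O L M P, (3 : M) * c ≠ 1) :
    ∃ (ϖ : O) (δ r : ℕ) (B : ℕ → Set M), LocP ℳ x ι G P ϖ δ r B := by
  have hOL : Function.Injective (algebraMap O L) := IsFractionRing.injective O L
  obtain ⟨ϖ, s, hR, hϖP, hunif⟩ := exists_ram_three (M := M) (L := L) (σ := act τ) hOL
    (fun c => lc2_cube hτ c) hne hP0 hτP (τ := act τ) (fun c => H.hO τ c)
  have hϖM : oM O L M ϖ ≠ 0 := lc1_oM hOL hR.ϖ0
  have h3' : ∃ a ∈ lamP O L M P, (3 : M) = a * oM O L M ϖ := by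
    have h3m : (3 : M) ∈ lamP O L M P := by
      have := natCast_mem (lamP O L M P) 3
      exact_mod_cast this
    rcases hR.dvr 3 h3m with ⟨c, hc, h1⟩ | ⟨c, hc, h1⟩
    · exact absurd h1 (h3 c hc)
    · exact ⟨c, hc, by rw [h1]; ring⟩
  have hs := two_le_of_three hR (fun m => lc2_cube hτ m) hOL h3'
  obtain ⟨n, rfl⟩ : ∃ n, s = n + 1 := ⟨s - 1, by omega⟩
  have hn : 1 ≤ n := by omega
  obtain ⟨ε, c, κ, l, μ, hC⟩ := exists_cst hR hn (fun m => lc2_cube hτ m) hOL h3'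
  have hW := centW (ℳ := ℳ) hC hR.ϖ0 (fun m => lc2_cube hτ m) H.xdeg
    (fun k m hm => H.hgr τ k m hm) (fun l => H.hstar τ l)
  refine ⟨ϖ, 4, 5 * n + 4, BW x (act τ) (oM O L M ϖ) (1 + oM O L M ϖ ^ n * κ) c n, hϖP, hunif,
    by norm_num, hW.fin, hW.deg, hW.pow, ?_, ?_⟩
  · intro g hg j b hb
    exact mapS_BW hC hϖM (lc2_ghyp H hOL hτ hτP hI hR.ϖ0 hϖP hunif hg) (fun k => H.hstar g k)
      (fun l => H.hstar τ l) (fun m => lc2_cube hτ m) j b hb
  · intro D i β hD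
    have h := local_wild (I₀ := I₀ τ) (τF := act τ) hC H.inj (fun m => lc2_cube hτ m)
      (fun z => lc2_cube hτ z) (fun m => H.hF τ m) (fun l => H.hstar τ l) (H.fix₀ τ)
      (H.seg3 τ hτ) (H.around P hP0)
      (fun D i hi hD hc h0 hk h1 h2 => H.str3 P hP0 τ hτ hτP ϖ n hR hn hϖP hunif D i hi hD hc h0
        hk h1 h2) D i β hD
    exact good_of_principal (Or.inr hτ)
      (fun g hg => hI g (fun c => sub_mem_of_inertia hOL H.hO H.hF hD.lam hg c)) h.1 h.2
-- END LC2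

/-- The stability of the centre at a tamely ramified prime (helper8). -/
def TameStab : Prop := ∀ {M I : Type} [CommRing M] [IsDomain M] {Λ : Subring M} {x : I → M}
  {τ g : M →+* M} {η η' ϖ : M}, TLam τ Λ η η' ϖ → ϖ ≠ 0 → (∀ m, τ (τ (τ m)) = m) →
  GHyp Λ τ g ϖ → (∀ k, ∃ k', g (x k) = x k') → (∀ l, ∃ l', τ (x l) = x l') →
  ∀ j, ∀ b ∈ tB x τ η' ϖ j, g b ∈ Submodule.span Λ (tB x τ η' ϖ j)

-- BEGIN LC3
/-- TASK LC3. **Inertia groups of order three, tame.** `exists_ram_three` (IN3) gives `ϖ`, `s`; `s = 1` by `Ram.eq_one3` (W3/G4d.lean). `Ram.exists_tlam` (W3/G5e.lean, `R := O`, `p := P`) gives `η`, `η'`. `δ = 3`, `r = 3`, `B = tB ..`; `fin`, `deg`, `pow` from `cent_tB` (W3/G5e.lean). `stab`: `hT`.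
`good`: `local_tame3` (W3/G5g.lean) with `H.around`, and `good_of_principal`, as in LC1. -/
theorem locP_tame (hT : TameStab) (H : GeoHyp O L M F I G ℳ ι x I₀) {P : Ideal O} [P.IsPrime]
    (hP0 : P ≠ ⊥)
    [Finite (O ⧸ P)] {τ : G} (hτ : orderOf τ = 3) (hne : ∃ c : O, τ • c ≠ c)
    (hτP : ∀ c : O, τ • c - c ∈ P)
    (hI : ∀ g : G, (∀ c : O, g • c - c ∈ P) → g ∈ Subgroup.zpowers τ)
    (h3 : ∃ c ∈ lamP O L M P, (3 : M) * c = 1) :
    ∃ (ϖ : O) (δ r : ℕ) (B : ℕ → Set M), LocP ℳ x ι G P ϖ δ r B := by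
  have hOL : Function.Injective (algebraMap O L) := IsFractionRing.injective O L
  obtain ⟨ϖ, s, hR, hϖP, hunif⟩ := exists_ram_three (M := M) (L := L) (σ := act τ) hOL
    (fun c => lc2_cube hτ c) hne hP0 hτP (τ := act τ) (fun c => H.hO τ c)
  have hϖM : oM O L M ϖ ≠ 0 := lc1_oM hOL hR.ϖ0
  obtain rfl : s = 1 := Ram.eq_one3 hR hϖM (fun m => lc2_cube hτ m) h3
  obtain ⟨η, η', hTL⟩ := Ram.exists_tlam hR hϖM (fun m => lc2_cube hτ m) h3
  have hW := cent_tB (ℳ := ℳ) (x := x) hTL hR.ϖ0 (fun m => lc2_cube hτ m)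
    (fun k m hm => H.hgr τ k m hm) H.xdeg (fun l => H.hstar τ l)
  refine ⟨ϖ, 3, 3, tB x (act τ) η' (oM O L M ϖ), hϖP, hunif,
    by norm_num, hW.fin, hW.deg, hW.pow, ?_, ?_⟩
  · intro g hg j b hb
    exact hT hTL hϖM (fun m => lc2_cube hτ m) (lc2_ghyp H hOL hτ hτP hI hR.ϖ0 hϖP hunif hg)
      (fun k => H.hstar g k) (fun l => H.hstar τ l) j b hb
  · intro D i β hD
    obtain ⟨A, hA⟩ := H.around P hP0 D i hD.loc hD.lam hD.ne hD.coord
    have h := local_tame3 (τF := act τ) H.inj (fun m => lc2_cube hτ m) (fun m => H.hF τ m)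
      (fun z => lc2_cube hτ z) (fun l => H.hstar τ l) hTL
      (fun i => by
        obtain ⟨a, b, c, ha, h1⟩ := H.seg3 τ hτ i
        refine ⟨a, b, c, H.fix₀ τ a ha, ?_⟩
        rw [← mul_assoc]
        exact h1) hD hA
    exact good_of_principal (Or.inr hτ)
      (fun g hg => hI g (fun c => sub_mem_of_inertia hOL H.hO H.hF hD.lam hg c)) h.1 h.2
-- END LC3

-- BEGIN LC4
/-- TASK LC4. The inertia group has order two or three: it is cyclic of prime order. `h` is a subgroup of order `≤ 3` (`hin`) which is not trivial: `Nat.card` is `2` or `3`, generated by any element `τ ≠ 1` (`Subgroup` of prime order; `isCyclic_of_prime_card`,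
`orderOf` divides the order). The set `{g | ∀ c, g • c - c ∈ P}` is the subgroup `AddSubgroup.inertia P.toAddSubgroup G` (`Submodule.toAddSubgroup P`), or check directly that it is a subgroup. -/
theorem exists_gen {P : Ideal O}
    (hin : Nat.card {g : G // ∀ c : O, g • c - c ∈ P} ≤ 3) {g : G} (hg : g ≠ 1)
    (hgP : ∀ c : O, g • c - c ∈ P) :
    ∃ τ : G, (orderOf τ = 2 ∨ orderOf τ = 3) ∧ (∀ c : O, τ • c - c ∈ P) ∧
      ∀ g : G, (∀ c : O, g • c - c ∈ P) → g ∈ Subgroup.zpowers τ := by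
  classical
  let K : Subgroup G :=
    { carrier := {g | ∀ c : O, g • c - c ∈ P}
      mul_mem' := by
        intro a b ha hb c
        have h1 := P.add_mem (ha (b • c)) (hb c)
        rw [mul_smul]
        have h2 : a • b • c - b • c + (b • c - c) = a • b • c - c := by ring
        rwa [h2] at h1
      one_mem' := by
        intro c
        rw [one_smul, sub_self]
        exact P.zero_mem
      inv_mem' := by
        intro a ha c
        have h1 := P.neg_mem (ha (a⁻¹ • c))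
        rw [smul_inv_smul, neg_sub] at h1
        exact h1 }
  have hK : ∀ g, g ∈ K ↔ ∀ c : O, g • c - c ∈ P := fun g => Iff.rfl
  have hcard : Nat.card K ≤ 3 := hin
  have hgK : g ∈ K := hgP
  have hne : Nat.card K ≠ 1 := by
    intro h
    rw [Nat.card_eq_one_iff_unique] at h
    obtain ⟨h, -⟩ := h
    apply hg
    have := h.elim ⟨g, hgK⟩ 1
    exact congrArg Subtype.val this
  have hpos : 0 < Nat.card K := Nat.card_pos
  have h23 : Nat.card K = 2 ∨ Nat.card K = 3 := by omega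
  have hprime : (Nat.card K).Prime := by
    rcases h23 with h | h <;> rw [h]
    · exact Nat.prime_two
    · exact Nat.prime_three
  haveI : Fact (Nat.card K).Prime := ⟨hprime⟩
  have hg1 : (⟨g, hgK⟩ : K) ≠ 1 := by
    intro h
    exact hg (congrArg Subtype.val h)
  have hord : orderOf (⟨g, hgK⟩ : K) = Nat.card K := by
    have h1 : orderOf (⟨g, hgK⟩ : K) ∣ Nat.card K := orderOf_dvd_natCard _
    rcases (Nat.dvd_prime hprime).mp h1 with h | h
    · exact absurd (orderOf_eq_one_iff.mp h) hg1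
    · exact h
  refine ⟨g, ?_, hgP, ?_⟩
  · rw [← Subgroup.orderOf_mk g hgK, hord]
    exact h23
  · intro g' hg'
    have h1 : (⟨g', hg'⟩ : K) ∈ Subgroup.zpowers (⟨g, hgK⟩ : K) :=
      mem_zpowers_of_prime_card rfl hg1
    obtain ⟨k, hk⟩ := Subgroup.mem_zpowers_iff.mp h1
    exact Subgroup.mem_zpowers_iff.mpr ⟨k, congrArg Subtype.val hk⟩
-- END LC4

/-- **The centre and the local theorem at a ramified prime.** -/
theorem exists_locP (hT : TameStab) (H : GeoHyp O L M F I G ℳ ι x I₀) {P : Ideal O} [P.IsPrime]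
    (hP0 : P ≠ ⊥) [Finite (O ⧸ P)] (hfaith : ∀ g : G, g ≠ 1 → ∃ c : O, g • c ≠ c)
    (hin : Nat.card {g : G // ∀ c : O, g • c - c ∈ P} ≤ 3) {g : G} (hg : g ≠ 1)
    (hgP : ∀ c : O, g • c - c ∈ P) :
    ∃ (ϖ : O) (δ r : ℕ) (B : ℕ → Set M), LocP ℳ x ι G P ϖ δ r B := by
  obtain ⟨τ, hτ, hτP, hI⟩ := exists_gen hin hg hgP
  have hτ1 : τ ≠ 1 := by
    rintro rfl
    rw [orderOf_one] at hτ
    omega
  rcases hτ with h2 | h3
  · exact locP_two H hP0 h2 (hfaith τ hτ1) hτP hI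
  · by_cases h : ∃ c ∈ lamP O L M P, (3 : M) * c = 1
    · exact locP_tame hT H hP0 h3 (hfaith τ hτ1) hτP hI h
    · push Not at h
      exact locP_wild H hP0 h3 (hfaith τ hτ1) hτP hI h

end Loc

section Global

variable {R O L M F I G : Type} [CommRing R] [IsDedekindDomain R] [CommRing O]
  [IsDedekindDomain O] [Algebra R O]
  [Field L] [Algebra R L] [Algebra O L] [IsScalarTower R O L] [IsFractionRing O L] [CommRing M]
  [IsDomain M] [Algebra L M] [Algebra R M] [IsScalarTower R L M] [Algebra O M]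
  [IsScalarTower O L M] {ℳ : ℕ → Submodule L M} [GradedAlgebra ℳ] {x : I → M} [Field F]
  {ι : M →+* F} [Group G] [Finite G] [MulSemiringAction G O] [MulSemiringAction G M]
  [MulSemiringAction G F] [Finite I] {I₀ : G → Set I}

-- BEGIN LC5
/-- TASK LC5. If `p` is ramified there are `g ≠ 1` and a prime `P` over `p` such that `g` acts trivially modulo `P`: the ideal `I` generated by the `g • c - c` has `I ∩ R ≤ p` (by `¬ UnramG`), so `Ideal.exists_ideal_over_prime_of_isIntegral` (`GalExt.isIntegral`) gives a prime `P ≥ I` over `p`. -/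
theorem exists_of_not_unram (hG : GalExt R O G) {p : Ideal R} [p.IsPrime]
    (hU : ¬ UnramG O G p) :
    ∃ (P : Ideal O) (_ : P.IsPrime), P.comap (algebraMap R O) = p ∧
      ∃ g : G, g ≠ 1 ∧ ∀ c : O, g • c - c ∈ P := by
  haveI := hG.isIntegral
  unfold UnramG at hU
  push Not at hU
  obtain ⟨g, hg1, hn⟩ := hU
  have hle : (Ideal.span (Set.range fun c : O => g • c - c)).comap (algebraMap R O) ≤ p := by
    intro n h1
    by_contra h2
    exact hn n h2 h1
  obtain ⟨P, hPI, hP, hPp⟩ := Ideal.exists_ideal_over_prime_of_isIntegral p _ hle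
  exact ⟨P, hP, hPp, g, hg1, fun c => hPI (Ideal.subset_span ⟨c, rfl⟩)⟩
-- END LC5

-- BEGIN LC6
/-- TASK LC6. **The local hypothesis of the global theorem.** If `UnramG O G p`: `ϖ = 1`, `δ = 1`, `r = 0`, `B = fun _ => Set.range x`; `CentG` is clear (`H.hstar`, `H.xdeg`); for `D`: `exists_prime_lam` (CO15) gives a prime `P` over `p` (`P ≠ ⊥` since `p ≠ ⊥`: `algebraMap R O` is injective, so `⊥` lies over `⊥`), `H.around` gives `A`, `good_unram` (IN8).
Otherwise: LC5 gives `P`, `g`; `exists_locP` and `exists_centG` (CO16). -/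
theorem exists_centre (hT : TameStab) (hG : GalExt R O G) (H : GeoHyp O L M F I G ℳ ι x I₀)
    (hin : ∀ (P : Ideal O) [P.IsPrime], P ≠ ⊥ →
      Nat.card {g : G // ∀ c : O, g • c - c ∈ P} ≤ 3)
    (hfin : ∀ (P : Ideal O) [P.IsPrime], P ≠ ⊥ → Finite (O ⧸ P)) {p : Ideal R} [p.IsPrime]
    (hp0 : p ≠ ⊥) :
    ∃ (ϖ : O) (δ r : ℕ) (B : ℕ → Set M), CentG ℳ x G p ϖ δ r B ∧
      (UnramG O G p → ϖ = 1 ∧ r = 0 ∧ B = fun _ => Set.range x) ∧
      ∀ (D : Subring F) (i : I) (β : ℕ → M), LocSit ι x B (lamP O L M p) r D i β →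
        Good G D := by
  have hOL : Function.Injective (algebraMap O L) := IsFractionRing.injective O L
  have hRL : Function.Injective (algebraMap R L) := by
    rw [IsScalarTower.algebraMap_eq R O L]
    exact hOL.comp hG.inj
  have hne : ∀ (P : Ideal O), P.comap (algebraMap R O) = p → P ≠ ⊥ := by
    rintro P hP rfl
    apply hp0
    rw [← hP, Ideal.comap_bot_of_injective _ hG.inj]
  by_cases hU : UnramG O G p
  · refine ⟨1, 1, 0, fun _ => Set.range x, ?_, fun _ => ⟨rfl, rfl, rfl⟩, ?_⟩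
    · refine ⟨one_ne_zero, le_refl 1, fun _ => Set.finite_range x, ?_, ?_, ?_, ?_⟩
      · rintro j b ⟨k, rfl⟩
        exact H.xdeg k
      · intro j i
        rw [map_one, one_pow, one_mul, pow_one]
        exact ⟨i, rfl⟩
      · intro g
        refine ⟨1, Subring.one_mem _, ?_⟩
        rw [map_one, smul_one, one_mul]
      · rintro g j b ⟨k, rfl⟩
        obtain ⟨k', hk'⟩ := H.hstar g k
        exact ⟨1, Subring.one_mem _, x k', ⟨k', rfl⟩, by rw [hk', one_mul]⟩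
    · intro D i β hD
      obtain ⟨P, hP, hPp, hPD⟩ := exists_prime_lam (L := L) (ι := ι) hG hD.loc hD.lam
      obtain ⟨A, hA⟩ := H.around P (hne P hPp) D i hD.loc hPD hD.ne hD.coord
      exact good_unram hRL H.hO H.hF hU hD ⟨P, hP, hPp, A, hA⟩
  · obtain ⟨P, hP, hPp, g, hg1, hgP⟩ := exists_of_not_unram hG hU
    haveI := hfin P (hne P hPp)
    obtain ⟨ϖ, δ, r, B, hL⟩ := exists_locP hT H (hne P hPp) hG.faithful (hin P (hne P hPp)) hg1 hgP
    obtain ⟨ϖ', δ', r', B', hC, hgood⟩ := exists_centG hG H.hO H.hF H.hgr H.xdeg H.hstar H.hgen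
      hp0 hPp hL
    exact ⟨ϖ', δ', r', B', hC, fun h => absurd h hU, hgood⟩
-- END LC6

end Global

end Pool.Agent.Lib.MP_6a3dac_ag.GI
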