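import Pool.Agent.Lib.MP_6a3dac_ag.W3.G5e

/-!
# The centres at tamely ramified primes are stable under the decomposition group
-/

set_option autoImplicit false
set_option linter.unusedSectionVars false
set_option linter.unusedVariables false

namespace Pool.Agent.Lib.MP_6a3dac_ag.GI

open Pool.Agent.Lib.MP_6a3dac_ag Pool.Agent.Lib.MP_6a3dac_ag.W3 Pointwise

/-- An automorphism `γ` which normalizes `τ` and fixes `Λ` and the prime element `ϖ` up to a unit. -/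
structure Nrm {M I : Type} [CommRing M] (τ : M →+* M) (Λ : Subring M) (x : I → M) (ϖ : M)
    (γ : M →+* M) : Prop where
  map : ∀ c ∈ Λ, γ c ∈ Λ
  unif : ∃ u ∈ Λ, ∃ v ∈ Λ, u * v = 1 ∧ γ ϖ = u * ϖ
  comm : (∀ m, γ (τ m) = τ (γ m)) ∨ ∀ m, γ (τ m) = τ (τ (γ m))
  star : ∀ k, ∃ k', γ (x k) = x k'

variable {M I : Type} [CommRing M] [IsDomain M] {τ : M →+* M} {Λ : Subring M} {η η' ϖ : M}
  {x : I → M} {γ : M →+* M}

-- BEGIN TS1
/-- Images of twisted traces. -/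
theorem ts1_aux (hτ : ∀ m, τ (τ (τ m)) = m)
    (hγ : (∀ m, γ (τ m) = τ (γ m)) ∨ ∀ m, γ (τ m) = τ (τ (γ m))) {θ w z : M} (hwz : w * z = 1)
    (hN : θ * τ θ * τ (τ θ) = 1)
    (h1 : (∀ m, γ (τ m) = τ (γ m)) → γ θ = w * θ * τ z)
    (h2 : (∀ m, γ (τ m) = τ (τ (γ m))) → γ θ = w * θ * τ θ * τ (τ z)) (y : M) :
    γ (tw τ θ y) = w * tw τ θ (z * γ y) := by
  have e1 : τ w * τ z = 1 := by rw [← map_mul, hwz, map_one]
  have e2 : τ (τ w) * τ (τ z) = 1 := by rw [← map_mul, e1, map_one]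
  rcases hγ with hc | hc
  · have h3 := h1 hc
    simp only [tw, map_add, map_mul, hc, h3]
    linear_combination (-γ y) * hwz + (w * θ * τ θ * τ (τ z) * τ (τ (γ y))) * e1
  · have h3 := h2 hc
    simp only [tw, map_add, map_mul, hc, h3, hτ]
    linear_combination (-γ y) * hwz + (τ (γ y) * w * θ * τ z) *
      ((τ (τ w) * τ (τ z)) * hN + e2)

/-- The norm of `η'` and the images of `η'`. -/
theorem ts1_norm (h : TLam τ Λ η η' ϖ) : η' * τ η' * τ (τ η') = 1 := by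
  have e0 := h.inv
  have e1 : τ η * τ η' = 1 := by rw [← map_mul, e0, map_one]
  have e2 : τ (τ η) * τ (τ η') = 1 := by rw [← map_mul, e1, map_one]
  have e3 := h.norm
  calc η' * τ η' * τ (τ η') = (η * τ η * τ (τ η)) * (η' * τ η' * τ (τ η')) := by rw [e3, one_mul]
    _ = (η * η') * (τ η * τ η') * (τ (τ η) * τ (τ η')) := by ring
    _ = 1 := by rw [e0, e1, e2, one_mul, one_mul]

/-- The image of `η'`, first case. -/
theorem ts1_eta1 (h : TLam τ Λ η η' ϖ) (hϖ : ϖ ≠ 0) {u v : M} (huv : u * v = 1)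
    (hu : γ ϖ = u * ϖ) (hc : ∀ m, γ (τ m) = τ (γ m)) : γ η' = u * η' * τ v := by
  have e1 : τ u * τ v = 1 := by rw [← map_mul, huv, map_one]
  have e2 : γ η * u = τ u * η := by
    have h1 := hc ϖ
    rw [h.unif, map_mul, hu, map_mul, h.unif] at h1
    exact mul_right_cancel₀ hϖ (by linear_combination h1)
  have e3 : γ η * γ η' = 1 := by rw [← map_mul, h.inv, map_one]
  have e4 := h.inv
  calc γ η' = γ η' * ((τ u * τ v) * (η * η')) := by rw [e1, e4, one_mul, mul_one]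
    _ = γ η' * ((τ u * η) * (η' * τ v)) := by ring
    _ = γ η' * ((γ η * u) * (η' * τ v)) := by rw [e2]
    _ = (γ η * γ η') * (u * η' * τ v) := by ring
    _ = u * η' * τ v := by rw [e3, one_mul]

/-- The image of `η'`, second case. -/
theorem ts1_eta2 (h : TLam τ Λ η η' ϖ) (hϖ : ϖ ≠ 0) {u v : M} (huv : u * v = 1)
    (hu : γ ϖ = u * ϖ) (hc : ∀ m, γ (τ m) = τ (τ (γ m))) :
    γ η' = u * η' * τ η' * τ (τ v) := by
  have e1 : τ (τ u) * τ (τ v) = 1 := by rw [← map_mul, ← map_mul, huv, map_one, map_one]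
  have e2 : γ η * u = τ (τ u) * (τ η * η) := by
    have h1 := hc ϖ
    rw [h.unif, map_mul, hu, map_mul, h.unif, map_mul, map_mul, h.unif] at h1
    exact mul_right_cancel₀ hϖ (by linear_combination h1)
  have e3 : γ η * γ η' = 1 := by rw [← map_mul, h.inv, map_one]
  have e4 := h.inv
  have e5 : τ η * τ η' = 1 := by rw [← map_mul, e4, map_one]
  calc γ η' = γ η' * ((τ (τ u) * τ (τ v)) * ((τ η * τ η') * (η * η'))) := by
        rw [e1, e4, e5, one_mul, one_mul, mul_one]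
    _ = γ η' * ((τ (τ u) * (τ η * η)) * (η' * τ η' * τ (τ v))) := by ring
    _ = γ η' * ((γ η * u) * (η' * τ η' * τ (τ v))) := by rw [e2]
    _ = (γ η * γ η') * (u * η' * τ η' * τ (τ v)) := by ring
    _ = u * η' * τ η' * τ (τ v) := by rw [e3, one_mul]

/-- TASK TS1. The twisted trace is `ϖ * Tr (y / ϖ)`. Let `ρ : M →+* M` be `τ` or `τ ∘ τ`: `γ ∘ τ = ρ ∘ γ`.
Case 1 (`γ τ = τ γ`): from `τ ϖ = η ϖ`: `γ η * (u ϖ) = τ (u ϖ) = τ u * η * ϖ`, so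
`γ η * u = τ u * η` (cancel `ϖ`) and `γ η' = u * η' * τ v` (multiply with `γ η' * η' * τ v`...).
`γ (tw τ η' y) = γ y + γ η' * τ (γ y) + γ η' * τ (γ η') * τ (τ (γ y))`. Case 2
(`γ τ = τ τ γ`): `γ η * u = τ (τ u) * τ η * η`, so `γ η' = u * τ (τ v) * η' * τ η'`, and
`γ (tw τ η' y) = γ y + γ η' * τ (τ (γ y)) + γ η' * τ (τ (γ η')) * τ (γ y)`
(`γ (τ (τ y)) = τ (τ (τ (τ (γ y)))) = τ (γ y)`), where `γ η' * τ (τ (γ η')) = u * τ v * η'` by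
`h.norm'`-like identities (`η' * τ η' * τ (τ η') = 1`, `TEta.norm'` for `h.teta_self hτ`). -/
theorem map_tw_of_nrm (h : TLam τ Λ η η' ϖ) (hϖ : ϖ ≠ 0) (hτ : ∀ m, τ (τ (τ m)) = m)
    (hγ : (∀ m, γ (τ m) = τ (γ m)) ∨ ∀ m, γ (τ m) = τ (τ (γ m))) {u v : M} (huv : u * v = 1)
    (hu : γ ϖ = u * ϖ) (y : M) :
    γ (tw τ η' y) = u * tw τ η' (v * γ y) :=
  ts1_aux hτ hγ huv (ts1_norm h) (fun hc => ts1_eta1 h hϖ huv hu hc)
    (fun hc => ts1_eta2 h hϖ huv hu hc) y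

/-- TASK TS1. The same for the square. -/
theorem map_tw_sq_of_nrm (h : TLam τ Λ η η' ϖ) (hϖ : ϖ ≠ 0) (hτ : ∀ m, τ (τ (τ m)) = m)
    (hγ : (∀ m, γ (τ m) = τ (γ m)) ∨ ∀ m, γ (τ m) = τ (τ (γ m))) {u v : M} (huv : u * v = 1)
    (hu : γ ϖ = u * ϖ) (y : M) :
    γ (tw τ (η' ^ 2) y) = u ^ 2 * tw τ (η' ^ 2) (v ^ 2 * γ y) := by
  refine ts1_aux hτ hγ (by rw [← mul_pow, huv, one_pow]) ?_ (fun hc => ?_) (fun hc => ?_) y
  · rw [map_pow, map_pow, ← mul_pow, ← mul_pow, ts1_norm h, one_pow]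
  · rw [map_pow, ts1_eta1 h hϖ huv hu hc, map_pow]
    ring
  · rw [map_pow, ts1_eta2 h hϖ huv hu hc, map_pow, map_pow, map_pow]
    ring
-- END TS1

/-- The `Λ`-span of a set. -/
abbrev spn (Λ : Subring M) (S : Set M) : Submodule Λ M := Submodule.span Λ S

-- BEGIN TS2
theorem ts2_smul {S : Set M} {c m : M} (hc : c ∈ Λ) (hm : m ∈ spn Λ S) : c * m ∈ spn Λ S :=
  Submodule.smul_mem _ (⟨c, hc⟩ : Λ) hm

theorem ts2_map (h : TLam τ Λ η η' ϖ) {c : M} (hc : c ∈ Λ) : τ c ∈ Λ := by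
  obtain ⟨d, hd, e⟩ := h.diff c hc
  have h1 : τ c = c + d * ϖ := by linear_combination e
  rw [h1]
  exact Subring.add_mem _ hc (Subring.mul_mem _ hd h.ϖmem)

/-- TASK TS2. With `τ c = c + d₁ ϖ`, `τ (τ c) = c + d₂ ϖ` (`h.diff` twice, `d₁, d₂ ∈ Λ`):
`tw τ η' (c x) = c tw τ η' x + (d₁ η') (ϖ τ x) + (d₂ η' τ η') (ϖ τ (τ x))`; `τ η' ∈ Λ` by `h.diff`. -/
theorem tw_mul_mem (h : TLam τ Λ η η' ϖ) (hstar : ∀ l, ∃ l', τ (x l) = x l') {c : M} (hc : c ∈ Λ)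
    (k : I) : tw τ η' (c * x k) ∈ spn Λ (tL1 x τ η' ϖ) := by
  obtain ⟨d, hd, e1⟩ := h.diff c hc
  obtain ⟨d', hd', e2⟩ := h.diff (τ c) (ts2_map h hc)
  obtain ⟨k₁, hk₁⟩ := hstar k
  obtain ⟨k₂, hk₂⟩ := hstar k₁
  have e : tw τ η' (c * x k) = c * tw τ η' (x k) + (d * η') * (ϖ * x k₁) +
      ((d + d') * η' * τ η') * (ϖ * x k₂) := by
    simp only [tw, map_mul, hk₁, hk₂]
    linear_combination (η' * x k₁ + η' * τ η' * x k₂) * e1 + (η' * τ η' * x k₂) * e2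
  rw [e]
  refine Submodule.add_mem _ (Submodule.add_mem _ (ts2_smul hc ?_) (ts2_smul ?_ ?_))
    (ts2_smul ?_ ?_)
  · exact Submodule.subset_span ⟨k, Or.inl rfl⟩
  · exact Subring.mul_mem _ hd h.mem'
  · exact Submodule.subset_span ⟨k₁, Or.inr rfl⟩
  · exact Subring.mul_mem _ (Subring.mul_mem _ (Subring.add_mem _ hd hd') h.mem')
      (ts2_map h h.mem')
  · exact Submodule.subset_span ⟨k₂, Or.inr rfl⟩

/-- TASK TS2. `c = c₀ + d ϖ` where `c₀ = (c + τ c + τ (τ c)) / 3` is invariant and `d ∈ Λ` (`h.three`,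
`h.diff`); `tw τ (η' ^ 2) (c₀ x) = c₀ tw τ (η' ^ 2) x` and
`tw τ (η' ^ 2) (d x * ϖ) = tw τ (η' ^ 2 * η) (d x) * ϖ = tw τ η' (d x) * ϖ` (`tw_mul` in W3/G5a.lean). -/
theorem tw_sq_mul_mem (h : TLam τ Λ η η' ϖ) (hτ : ∀ m, τ (τ (τ m)) = m)
    (hstar : ∀ l, ∃ l', τ (x l) = x l') {c : M} (hc : c ∈ Λ) (k : I) :
    ∃ c₀ ∈ Λ, ∃ m ∈ spn Λ (tL1 x τ η' ϖ),
      tw τ (η' ^ 2) (c * x k) = c₀ * tw τ (η' ^ 2) (x k) + ϖ * m := by
  obtain ⟨d, hd, e1⟩ := h.diff c hc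
  obtain ⟨d', hd', e2⟩ := h.diff (τ c) (ts2_map h hc)
  obtain ⟨c3, hc3, e3⟩ := h.three
  have e4 : τ c3 = c3 := by
    have h1 := congrArg τ e3
    rw [map_mul, map_ofNat, map_one] at h1
    linear_combination c3 * h1 - τ c3 * e3
  have hτc := ts2_map h hc
  have hττc := ts2_map h hτc
  have hc₀ : (c + τ c + τ (τ c)) * c3 ∈ Λ :=
    Subring.mul_mem _ (Subring.add_mem _ (Subring.add_mem _ hc hτc) hττc) hc3
  have e5 : τ ((c + τ c + τ (τ c)) * c3) = (c + τ c + τ (τ c)) * c3 := by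
    simp only [map_mul, map_add, hτ, e4]
    ring
  have hm : -(c3 * (2 * d + d')) ∈ Λ := by
    refine Subring.neg_mem _ (Subring.mul_mem _ hc3 (Subring.add_mem _ ?_ hd'))
    rw [two_mul]
    exact Subring.add_mem _ hd hd
  have e6 : c = (c + τ c + τ (τ c)) * c3 + (-(c3 * (2 * d + d'))) * ϖ := by
    linear_combination (-(2 * c3)) * e1 - c3 * e2 - c * e3
  refine ⟨_, hc₀, _, tw_mul_mem h hstar hm k, ?_⟩
  have e7 : c * x k = (c + τ c + τ (τ c)) * c3 * x k + (-(c3 * (2 * d + d')) * x k) * ϖ := by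
    linear_combination (x k) * e6
  rw [e7, tw_add, tw_mul h.unif]
  have e8 : η' ^ 2 * η = η' := by linear_combination η' * h.inv
  rw [e8]
  have e9 : tw τ (η' ^ 2) ((c + τ c + τ (τ c)) * c3 * x k) =
      (c + τ c + τ (τ c)) * c3 * tw τ (η' ^ 2) (x k) := by
    simp only [tw]
    rw [map_mul, e5, map_mul, e5]
    ring
  rw [e9, mul_comm ϖ]
-- END TS2

-- BEGIN TS3
theorem ts3_tw_mem (h : TLam τ Λ η η' ϖ) (hstar : ∀ l, ∃ l', τ (x l) = x l') {θ : M} (hθ : θ ∈ Λ)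
    (k : I) : tw τ θ (x k) ∈ spn Λ (Set.range x) := by
  obtain ⟨k₁, hk₁⟩ := hstar k
  obtain ⟨k₂, hk₂⟩ := hstar k₁
  simp only [tw, hk₁, hk₂]
  refine Submodule.add_mem _ (Submodule.add_mem _ (Submodule.subset_span ⟨k, rfl⟩)
    (ts2_smul hθ (Submodule.subset_span ⟨k₁, rfl⟩)))
    (ts2_smul (Subring.mul_mem _ hθ (ts2_map h hθ)) (Submodule.subset_span ⟨k₂, rfl⟩))

/-- TASK TS3. `γ` maps the forms of the first kind to linear combinations of such forms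
(`map_tw_of_nrm`, `tw_mul_mem`; `γ (ϖ x_k) = u ϖ x_k'`). -/
theorem map_tL1 (h : TLam τ Λ η η' ϖ) (hϖ : ϖ ≠ 0) (hτ : ∀ m, τ (τ (τ m)) = m)
    (hstar : ∀ l, ∃ l', τ (x l) = x l') (hγ : Nrm τ Λ x ϖ γ) {m : M} (hm : m ∈ tL1 x τ η' ϖ) :
    γ m ∈ spn Λ (tL1 x τ η' ϖ) := by
  obtain ⟨u, hu, v, hv, huv, e1⟩ := hγ.unif
  obtain ⟨k, rfl | rfl⟩ := hm
  · obtain ⟨k', hk'⟩ := hγ.star k
    rw [map_tw_of_nrm h hϖ hτ hγ.comm huv e1, hk']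
    exact ts2_smul hu (tw_mul_mem h hstar hv k')
  · obtain ⟨k', hk'⟩ := hγ.star k
    rw [map_mul, e1, hk', mul_assoc]
    exact ts2_smul hu (Submodule.subset_span ⟨k', Or.inr rfl⟩)

/-- TASK TS3. -/
theorem map_tL2 (h : TLam τ Λ η η' ϖ) (hϖ : ϖ ≠ 0) (hτ : ∀ m, τ (τ (τ m)) = m)
    (hstar : ∀ l, ∃ l', τ (x l) = x l') (hγ : Nrm τ Λ x ϖ γ) {m : M} (hm : m ∈ tL2 x τ η') :
    ∃ m₁ ∈ spn Λ (tL1 x τ η' ϖ), ∃ m₂ ∈ spn Λ (tL2 x τ η'), γ m = m₂ + ϖ * m₁ := by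
  obtain ⟨u, hu, v, hv, huv, e1⟩ := hγ.unif
  obtain ⟨k, rfl⟩ := hm
  obtain ⟨k', hk'⟩ := hγ.star k
  have hv2 : v ^ 2 ∈ Λ := Subring.pow_mem _ hv 2
  have hu2 : u ^ 2 ∈ Λ := Subring.pow_mem _ hu 2
  obtain ⟨c₀, hc₀, m, hm, e2⟩ := tw_sq_mul_mem h hτ hstar hv2 k'
  refine ⟨u ^ 2 * m, ts2_smul hu2 hm, u ^ 2 * (c₀ * tw τ (η' ^ 2) (x k')),
    ts2_smul hu2 (ts2_smul hc₀ (Submodule.subset_span ⟨k', rfl⟩)), ?_⟩
  rw [map_tw_sq_of_nrm h hϖ hτ hγ.comm huv e1, hk', e2]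
  ring

/-- TASK TS3. -/
theorem mul_range_le (h : TLam τ Λ η η' ϖ) {m : M} (hm : m ∈ spn Λ (Set.range x)) :
    ϖ * m ∈ spn Λ (tL1 x τ η' ϖ) := by
  induction hm using Submodule.span_induction with
  | mem y hy =>
    obtain ⟨k, rfl⟩ := hy
    exact Submodule.subset_span ⟨k, Or.inr rfl⟩
  | zero =>
    rw [mul_zero]
    exact Submodule.zero_mem _
  | add y z _ _ h1 h2 =>
    rw [mul_add]
    exact Submodule.add_mem _ h1 h2
  | smul c y _ h1 =>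
    have e : ϖ * (c • y) = (c : M) * (ϖ * y) := by
      show ϖ * ((c : M) * y) = (c : M) * (ϖ * y)
      ring
    rw [e]
    exact ts2_smul c.2 h1

/-- TASK TS3. -/
theorem tL1_le_range (h : TLam τ Λ η η' ϖ) (hstar : ∀ l, ∃ l', τ (x l) = x l') :
    spn Λ (tL1 x τ η' ϖ) ≤ spn Λ (Set.range x) := by
  refine Submodule.span_le.mpr ?_
  rintro m ⟨k, rfl | rfl⟩
  · exact ts3_tw_mem h hstar h.mem' k
  · exact ts2_smul h.ϖmem (Submodule.subset_span ⟨k, rfl⟩)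

/-- TASK TS3. -/
theorem tL2_le_range (h : TLam τ Λ η η' ϖ) (hstar : ∀ l, ∃ l', τ (x l) = x l') :
    spn Λ (tL2 x τ η') ≤ spn Λ (Set.range x) := by
  refine Submodule.span_le.mpr ?_
  rintro m ⟨k, rfl⟩
  exact ts3_tw_mem h hstar (Subring.pow_mem _ h.mem' 2) k
-- END TS3

-- BEGIN TS4
theorem ts4_lin {S : Set M} {N : Submodule Λ M} {g : M} (hN : ∀ a ∈ S, a * g ∈ N) :
    ∀ a ∈ spn Λ S, a * g ∈ N := by
  intro a ha
  induction ha using Submodule.span_induction with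
  | mem y hy => exact hN y hy
  | zero =>
    rw [zero_mul]
    exact Submodule.zero_mem _
  | add y z _ _ h1 h2 =>
    rw [add_mul]
    exact Submodule.add_mem _ h1 h2
  | smul c y _ h1 =>
    have e : c • y * g = (c : M) * (y * g) := by
      show (c : M) * y * g = (c : M) * (y * g)
      ring
    rw [e]
    exact Submodule.smul_mem _ c h1

theorem ts4_tri {S T U : Set M} {N : Submodule Λ M}
    (hN : ∀ a ∈ S, ∀ b ∈ T, ∀ c ∈ U, a * b * c ∈ N) {a b c : M} (ha : a ∈ spn Λ S)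
    (hb : b ∈ spn Λ T) (hc : c ∈ spn Λ U) : a * b * c ∈ N := by
  have h1 : ∀ b ∈ T, ∀ c ∈ U, ∀ a ∈ spn Λ S, a * (b * c) ∈ N := by
    intro b hb c hc
    refine ts4_lin ?_
    intro a ha
    rw [← mul_assoc]
    exact hN a ha b hb c hc
  have h2 : ∀ c ∈ U, ∀ a ∈ spn Λ S, ∀ b ∈ spn Λ T, b * (a * c) ∈ N := by
    intro c hc a ha
    refine ts4_lin ?_
    intro b hb
    have e : b * (a * c) = a * (b * c) := by ring
    rw [e]
    exact h1 b hb c hc a ha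
  have h3 : ∀ c ∈ spn Λ U, c * (a * b) ∈ N := by
    refine ts4_lin ?_
    intro c hc
    have e : c * (a * b) = b * (a * c) := by ring
    rw [e]
    exact h2 c hc a ha b hb
  have e : a * b * c = c * (a * b) := by ring
  rw [e]
  exact h3 c hc

theorem ts4_default (j : ℕ) (h1 : j ≠ 1) (h2 : j ≠ 2) (h3 : j ≠ 3) :
    tB x τ η' ϖ j = {b | ∃ i, b = ϖ ^ j * x i ^ 3} := by
  match j with
  | 0 => rfl
  | 1 => exact absurd rfl h1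
  | 2 => exact absurd rfl h2
  | 3 => exact absurd rfl h3
  | j + 4 => rfl

/-- TASK TS4. **The centres are stable under the decomposition group.** Let `P₁ = spn Λ tL1`,
`P₂ = spn Λ tL2`, `X = spn Λ (range x)` (submodules of the `Λ`-algebra `M`;
`Submodule.span_mul_span`, `Submodule.mul_mem_mul`). The spans of `tB 1`, `tB 2`, `tB 3` contain
`(P₁ ⊔ P₂) X X`, `(P₁ ⊔ P₂) (P₁ ⊔ P₂) X` and `P₁ P₂ X`, `P₁ P₁ P₁`, `P₂ P₂ P₂` (prove: if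
`a b c` lies in a submodule for all `a ∈ S`, `b ∈ T`, `c ∈ U` then for all `a, b, c` in the spans; three
`Submodule.span_induction`). `γ` maps `tL1` into `P₁`, `tL2` into `P₂ + ϖ P₁` (`map_tL2`), `x` to `x`;
`ϖ P₁ ≤ P₁`. `j = 3`: `γ (l₁ l₂ x) ∈ P₁ (P₂ + ϖ P₁) X` and `P₁ (ϖ P₁) X = P₁ P₁ (ϖ X) ≤ P₁ P₁ P₁`
(`mul_range_le`); `γ (l₂ l₂' l₂'') ∈ (P₂ + ϖ P₁)³`, the mixed terms: `ϖ P₁ P₂ P₂ ≤ P₁ P₂ X` as
`ϖ P₂ ≤ X`, `ϖ ^ 2 P₁ P₁ P₂ ≤ P₁ P₂ X`, `ϖ ^ 3 P₁ P₁ P₁ ≤ P₁ P₁ P₁`. The other `j`: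
`γ (ϖ ^ j x ^ 3) = u ^ j (ϖ ^ j x' ^ 3)` (`tB` for `j ≠ 1, 2, 3`: see `g5e2_default` in W3/G5e.lean). -/
theorem map_tB (h : TLam τ Λ η η' ϖ) (hϖ : ϖ ≠ 0) (hτ : ∀ m, τ (τ (τ m)) = m)
    (hstar : ∀ l, ∃ l', τ (x l) = x l') (hγ : Nrm τ Λ x ϖ γ) (j : ℕ) {b : M}
    (hb : b ∈ tB x τ η' ϖ j) : γ b ∈ spn Λ (tB x τ η' ϖ j) := by
  have hX : ∀ i, ∃ i', γ (x i) = x i' ∧ x i' ∈ spn Λ (Set.range x) := by
    intro i
    obtain ⟨i', hi'⟩ := hγ.star i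
    exact ⟨i', hi', Submodule.subset_span ⟨i', rfl⟩⟩
  have hP : ∀ l ∈ tL1 x τ η' ϖ ∪ tL2 x τ η', γ l ∈ spn Λ (tL1 x τ η' ϖ ∪ tL2 x τ η') := by
    rintro l (hl | hl)
    · exact Submodule.span_mono Set.subset_union_left (map_tL1 h hϖ hτ hstar hγ hl)
    · obtain ⟨m₁, hm₁, m₂, hm₂, e⟩ := map_tL2 h hϖ hτ hstar hγ hl
      rw [e]
      exact Submodule.add_mem _ (Submodule.span_mono Set.subset_union_right hm₂)
        (Submodule.span_mono Set.subset_union_left (ts2_smul h.ϖmem hm₁))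
  by_cases h1 : j = 1
  · subst h1
    obtain ⟨l, hl, i, k, rfl⟩ := hb
    obtain ⟨i', hi', hi⟩ := hX i
    obtain ⟨k', hk', hk⟩ := hX k
    rw [map_mul, map_mul, hi', hk', ← mul_assoc]
    refine ts4_tri ?_ (hP l hl) hi hk
    rintro a ha _ ⟨i₁, rfl⟩ _ ⟨k₁, rfl⟩
    exact Submodule.subset_span ⟨a, ha, i₁, k₁, mul_assoc _ _ _⟩
  by_cases h2 : j = 2
  · subst h2
    obtain ⟨l, hl, l', hl', i, rfl⟩ := hb
    obtain ⟨i', hi', hi⟩ := hX i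
    rw [map_mul, map_mul, hi']
    refine ts4_tri ?_ (hP l hl) (hP l' hl') hi
    rintro a ha b hb _ ⟨i₁, rfl⟩
    exact Submodule.subset_span ⟨a, ha, b, hb, i₁, rfl⟩
  by_cases h3 : j = 3
  · subst h3
    have h12 : ∀ {a b c : M}, a ∈ spn Λ (tL1 x τ η' ϖ) → b ∈ spn Λ (tL2 x τ η') →
        c ∈ spn Λ (Set.range x) → a * b * c ∈ spn Λ (tB x τ η' ϖ 3) := by
      intro a b c ha hb hc
      refine ts4_tri ?_ ha hb hc
      rintro a ha b hb _ ⟨i₁, rfl⟩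
      exact Submodule.subset_span (Or.inl ⟨a, ha, b, hb, i₁, rfl⟩)
    have h11 : ∀ {a b c : M}, a ∈ spn Λ (tL1 x τ η' ϖ) → b ∈ spn Λ (tL1 x τ η' ϖ) →
        c ∈ spn Λ (tL1 x τ η' ϖ) → a * b * c ∈ spn Λ (tB x τ η' ϖ 3) := by
      intro a b c ha hb hc
      refine ts4_tri ?_ ha hb hc
      intro a ha b hb c hc
      exact Submodule.subset_span (Or.inr (Or.inl ⟨a, ha, b, hb, c, hc, rfl⟩))
    have h22 : ∀ {a b c : M}, a ∈ spn Λ (tL2 x τ η') → b ∈ spn Λ (tL2 x τ η') →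
        c ∈ spn Λ (tL2 x τ η') → a * b * c ∈ spn Λ (tB x τ η' ϖ 3) := by
      intro a b c ha hb hc
      refine ts4_tri ?_ ha hb hc
      intro a ha b hb c hc
      exact Submodule.subset_span (Or.inr (Or.inr ⟨a, ha, b, hb, c, hc, rfl⟩))
    have hϖ2 : ϖ ^ 2 ∈ Λ := Subring.pow_mem _ h.ϖmem 2
    have hϖ3 : ϖ ^ 3 ∈ Λ := Subring.pow_mem _ h.ϖmem 3
    rcases hb with ⟨l, hl, l', hl', i, rfl⟩ | ⟨l, hl, l', hl', l'', hl'', rfl⟩ |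
      ⟨l, hl, l', hl', l'', hl'', rfl⟩
    · obtain ⟨i', hi', hi⟩ := hX i
      obtain ⟨m₁, hm₁, m₂, hm₂, e⟩ := map_tL2 h hϖ hτ hstar hγ hl'
      have hl1 := map_tL1 h hϖ hτ hstar hγ hl
      have e1 : γ (l * l' * x i) = γ l * m₂ * x i' + γ l * m₁ * (ϖ * x i') := by
        rw [map_mul, map_mul, hi', e]
        ring
      rw [e1]
      exact Submodule.add_mem _ (h12 hl1 hm₂ hi) (h11 hl1 hm₁ (mul_range_le h hi))
    · rw [map_mul, map_mul]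
      exact h11 (map_tL1 h hϖ hτ hstar hγ hl) (map_tL1 h hϖ hτ hstar hγ hl')
        (map_tL1 h hϖ hτ hstar hγ hl'')
    · obtain ⟨a₁, ha₁, a₂, ha₂, ea⟩ := map_tL2 h hϖ hτ hstar hγ hl
      obtain ⟨b₁, hb₁, b₂, hb₂, eb⟩ := map_tL2 h hϖ hτ hstar hγ hl'
      obtain ⟨c₁, hc₁, c₂, hc₂, ec⟩ := map_tL2 h hϖ hτ hstar hγ hl''
      have e1 : γ (l * l' * l'') = a₂ * b₂ * c₂ + a₁ * b₂ * (ϖ * c₂) + b₁ * a₂ * (ϖ * c₂) +
          c₁ * a₂ * (ϖ * b₂) + a₁ * c₂ * (ϖ ^ 2 * b₁) + a₁ * b₂ * (ϖ ^ 2 * c₁) +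
          b₁ * a₂ * (ϖ ^ 2 * c₁) + ϖ ^ 3 * (a₁ * b₁ * c₁) := by
        rw [map_mul, map_mul, ea, eb, ec]
        ring
      have hr1 : ∀ {m : M}, m ∈ spn Λ (tL1 x τ η' ϖ) → ϖ ^ 2 * m ∈ spn Λ (Set.range x) :=
        fun hm => ts2_smul hϖ2 (tL1_le_range h hstar hm)
      have hr2 : ∀ {m : M}, m ∈ spn Λ (tL2 x τ η') → ϖ * m ∈ spn Λ (Set.range x) :=
        fun hm => ts2_smul h.ϖmem (tL2_le_range h hstar hm)
      rw [e1]
      refine Submodule.add_mem _ (Submodule.add_mem _ (Submodule.add_mem _ (Submodule.add_mem _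
        (Submodule.add_mem _ (Submodule.add_mem _ (Submodule.add_mem _
          (h22 ha₂ hb₂ hc₂) (h12 ha₁ hb₂ (hr2 hc₂))) (h12 hb₁ ha₂ (hr2 hc₂)))
          (h12 hc₁ ha₂ (hr2 hb₂))) (h12 ha₁ hc₂ (hr1 hb₁))) (h12 ha₁ hb₂ (hr1 hc₁)))
          (h12 hb₁ ha₂ (hr1 hc₁))) (ts2_smul hϖ3 (h11 ha₁ hb₁ hc₁))
  · rw [ts4_default j h1 h2 h3] at hb ⊢
    obtain ⟨i, rfl⟩ := hb
    obtain ⟨u, hu, v, hv, huv, e1⟩ := hγ.unif
    obtain ⟨i', hi', hi⟩ := hX i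
    have e2 : γ (ϖ ^ j * x i ^ 3) = u ^ j * (ϖ ^ j * x i' ^ 3) := by
      rw [map_mul, map_pow, map_pow, e1, hi']
      ring
    rw [e2]
    exact ts2_smul (Subring.pow_mem _ hu j) (Submodule.subset_span ⟨i', rfl⟩)
-- END TS4

end Pool.Agent.Lib.MP_6a3dac_ag.GI
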