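import Pool.Agent.Lib.MP_6a3dac_ag.GI.Act
import Pool.Agent.Lib.MP_6a3dac_ag.GI.Loc
import Pool.Agent.Lib.MP_6a3dac_ag.GI.Abs
import Pool.Agent.Lib.MP_6a3dac_ag.GI.TameStab

/-!
# Regular models of Weil restrictions: the assembly
-/

set_option autoImplicit false
set_option linter.unusedSectionVars false
set_option linter.unusedVariables false

namespace Pool.Agent.Lib.MP_6a3dac_ag.GI

open Pool.Agent.Lib.MP_6a3dac_ag Pool.Agent.Lib.MP_6a3dac_ag.QD Pool.Agent.Lib.MP_6a3dac_ag.W3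
open CategoryTheory Limits AlgebraicGeometry IsDedekindDomain MvPolynomial

theorem tameStab : TameStab := by
  intro M I _ _ Λ x τ g η η' ϖ h hϖ hτ hg hstar hτstar j b hb
  obtain ⟨u, hu, v, hv, e1, e2⟩ := hg.unif
  exact map_tB h hϖ hτ hτstar ⟨hg.lam, ⟨u, hu, v, hv, e2, e1⟩, hg.comm, hstar⟩ j hb

attribute [local instance] MvPolynomial.gradedAlgebra

section Geo

variable {S O N F Φ G : Type} [CommRing S] [CommRing O] [Field N] [Algebra S N] [Field F]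
  [Algebra N F] [Fintype Φ] {n : ℕ} {ψ : Φ → O →+* N}
  (𝔞 : HomogeneousIdeal (homogeneousSubmodule (Fin n) O)) [Group G]
  [MulSemiringAction G S] [MulSemiringAction G N] {π : G → Φ → Φ}
  (hs : ∀ (g : G) φ c, MulSemiringAction.toRingHom G N g (ψ φ c) = ψ (π g φ) c)
  (hmul : ∀ g h φ, π (g * h) φ = π g (π h φ)) (hone : ∀ φ, π 1 φ = φ)
  (hSN : ∀ (g : G) (c : S), algebraMap S N (g • c) = g • algebraMap S N c)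

/-- The map of the Segre algebra to the field. -/
noncomputable def segι (ιP : MultRing ψ 𝔞.toIdeal →ₐ[N] F) : segAlg ψ 𝔞.toIdeal →+* F :=
  (ιP : MultRing ψ 𝔞.toIdeal →+* F).comp (segAlg ψ 𝔞.toIdeal).val.toRingHom

/-- The indices which are constant on the orbits. -/
def cstI (π : G → Φ → Φ) (n : ℕ) (τ : G) : Set (Φ → Fin n) := {i | ∀ φ, i (π τ φ) = i φ}

variable (ιP : MultRing ψ 𝔞.toIdeal →ₐ[N] F) (hιP : Function.Injective ιP)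
  [MulSemiringAction G (segAlg ψ 𝔞.toIdeal)] [MulSemiringAction G F]
  (hM : ∀ (g : G) (z : segAlg ψ 𝔞.toIdeal),
    ((g • z : segAlg ψ 𝔞.toIdeal) : MultRing ψ 𝔞.toIdeal) = permRing 𝔞.toIdeal (hs g) z)
  (hF : ∀ (g : G) (z : MultRing ψ 𝔞.toIdeal), g • ιP z = ιP (permRing 𝔞.toIdeal (hs g) z))

include hmul hone hM in
theorem smul_eq_permSeg (g : G) (z : segAlg ψ 𝔞.toIdeal) :
    g • z = permSeg 𝔞.toIdeal (hs g) (act_bijective hmul hone g) z := by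
  apply Subtype.ext
  rw [hM, coe_permSeg]

include hmul hone hM in
theorem smul_xS (g : G) (k : Φ → Fin n) :
    g • xS ψ 𝔞.toIdeal k = xS ψ 𝔞.toIdeal fun φ => k (π g⁻¹ φ) := by
  rw [smul_eq_permSeg 𝔞 hs hmul hone hM]
  exact permSeg_xS 𝔞.toIdeal (hs g) (act_bijective hmul hone g) (ρ := π g⁻¹)
    (fun φ => by rw [← hmul, inv_mul_cancel, hone]) k

include hM hSN in
theorem smul_oM (g : G) (c : S) :
    g • oM S N (segAlg ψ 𝔞.toIdeal) c = oM S N (segAlg ψ 𝔞.toIdeal) (g • c) := by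
  apply Subtype.ext
  rw [hM]
  change permRing 𝔞.toIdeal (hs g) (algebraMap N (MultRing ψ 𝔞.toIdeal) (algebraMap S N c)) =
    algebraMap N (MultRing ψ 𝔞.toIdeal) (algebraMap S N (g • c))
  rw [permRing_algebraMap, hSN]
  rfl

include hM hF in
theorem smul_segι (g : G) (z : segAlg ψ 𝔞.toIdeal) :
    g • segι 𝔞 ιP z = segι 𝔞 ιP (g • z) := by
  change g • ιP (z : MultRing ψ 𝔞.toIdeal) = ιP ((g • z : segAlg ψ 𝔞.toIdeal) : MultRing ψ _)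
  rw [hF, hM]

include hmul hone hM in
theorem smul_mem_segGr (g : G) (k : ℕ) (z : segAlg ψ 𝔞.toIdeal) (hz : z ∈ segGr ψ 𝔞.toIdeal k) :
    g • z ∈ segGr ψ 𝔞.toIdeal k := by
  rw [smul_eq_permSeg 𝔞 hs hmul hone hM]
  exact permSeg_mem_segGr 𝔞.toIdeal (hs g) (act_bijective hmul hone g) hz

include hs hmul hone hSN hιP hM hF in
theorem geoHyp_seg [GradedAlgebra (segGr ψ 𝔞.toIdeal)]
    (around : ∀ (P : Ideal S) [P.IsPrime], P ≠ ⊥ → ∀ (D : Subring F) (i : Φ → Fin n),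
      IsLocalRing D → (∀ c ∈ lamP S N (segAlg ψ 𝔞.toIdeal) P, segι 𝔞 ιP c ∈ D) →
      segι 𝔞 ιP (xS ψ 𝔞.toIdeal i) ≠ 0 →
      (∀ k, segι 𝔞 ιP (xS ψ 𝔞.toIdeal k) / segι 𝔞 ιP (xS ψ 𝔞.toIdeal i) ∈ D) →
      ∃ A, Around (segι 𝔞 ιP) (xS ψ 𝔞.toIdeal) (lamP S N (segAlg ψ 𝔞.toIdeal) P) D i A)
    (str2 : ∀ (P : Ideal S) [P.IsPrime], P ≠ ⊥ → ∀ (τ : G), orderOf τ = 2 →
      (∀ c : S, τ • c - c ∈ P) → ∀ (ϖ : S) (s : ℕ),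
      Ram S N (segAlg ψ 𝔞.toIdeal) (act τ) P ϖ s → ϖ ∈ P →
      (∀ c ∈ P, ∃ n, n ∉ P ∧ ∃ d, n * c = d * ϖ) →
      ∀ (D : Subring F) (i : Φ → Fin n), i ∈ cstI π n τ → IsLocalRing D →
      (∀ c ∈ lamP S N (segAlg ψ 𝔞.toIdeal) P, segι 𝔞 ιP c ∈ D) →
      segι 𝔞 ιP (xS ψ 𝔞.toIdeal i) ≠ 0 →
      (∀ k, segι 𝔞 ιP (xS ψ 𝔞.toIdeal k) / segι 𝔞 ιP (xS ψ 𝔞.toIdeal i) ∈ D) →
      (∀ w ∈ D, segι 𝔞 ιP (oM S N (segAlg ψ 𝔞.toIdeal) ϖ) * w ≠ 1) →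
      (∀ k, ∀ w ∈ D, (act τ (segι 𝔞 ιP (xS ψ 𝔞.toIdeal k) / segι 𝔞 ιP (xS ψ 𝔞.toIdeal i)) -
        segι 𝔞 ιP (xS ψ 𝔞.toIdeal k) / segι 𝔞 ιP (xS ψ 𝔞.toIdeal i)) * w ≠ 1) →
      StrAt2 (segι 𝔞 ιP) (act τ) (xS ψ 𝔞.toIdeal) (lamP S N (segAlg ψ 𝔞.toIdeal) P)
        (oM S N (segAlg ψ 𝔞.toIdeal) ϖ) s D i)
    (str3 : ∀ (P : Ideal S) [P.IsPrime], P ≠ ⊥ → ∀ (τ : G), orderOf τ = 3 →
      (∀ c : S, τ • c - c ∈ P) → ∀ (ϖ : S) (m : ℕ),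
      Ram S N (segAlg ψ 𝔞.toIdeal) (act τ) P ϖ (m + 1) → 1 ≤ m → ϖ ∈ P →
      (∀ c ∈ P, ∃ n, n ∉ P ∧ ∃ d, n * c = d * ϖ) →
      ∀ (D : Subring F) (i : Φ → Fin n), i ∈ cstI π n τ → IsLocalRing D →
      (∀ c ∈ lamP S N (segAlg ψ 𝔞.toIdeal) P, segι 𝔞 ιP c ∈ D) →
      segι 𝔞 ιP (xS ψ 𝔞.toIdeal i) ≠ 0 →
      (∀ k, segι 𝔞 ιP (xS ψ 𝔞.toIdeal k) / segι 𝔞 ιP (xS ψ 𝔞.toIdeal i) ∈ D) →
      (∀ w ∈ D, segι 𝔞 ιP (oM S N (segAlg ψ 𝔞.toIdeal) ϖ) * w ≠ 1) →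
      (∀ k, ∀ w ∈ D, (act τ (segι 𝔞 ιP (xS ψ 𝔞.toIdeal k) / segι 𝔞 ιP (xS ψ 𝔞.toIdeal i)) -
        segι 𝔞 ιP (xS ψ 𝔞.toIdeal k) / segι 𝔞 ιP (xS ψ 𝔞.toIdeal i)) * w ≠ 1) →
      StrAt (segι 𝔞 ιP) (act τ) (xS ψ 𝔞.toIdeal) (lamP S N (segAlg ψ 𝔞.toIdeal) P)
        (oM S N (segAlg ψ 𝔞.toIdeal) ϖ) m D i) :
    GeoHyp S N (segAlg ψ 𝔞.toIdeal) F (Φ → Fin n) G (segGr ψ 𝔞.toIdeal) (segι 𝔞 ιP)
      (xS ψ 𝔞.toIdeal) (cstI π n) where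
  hO := smul_oM 𝔞 hs hSN hM
  hF := smul_segι 𝔞 hs ιP hM hF
  inj := hιP.comp Subtype.val_injective
  hgr := smul_mem_segGr 𝔞 hs hmul hone hM
  xdeg := segX_mem_segGr ψ 𝔞.toIdeal
  hstar := fun g l => ⟨_, smul_xS 𝔞 hs hmul hone hM g l⟩
  hgen := adjoin_segX_eq_top ψ 𝔞.toIdeal
  fix₀ := fun τ a ha => by
    rw [smul_xS 𝔞 hs hmul hone hM]
    congr 1
    funext φ
    have h1 := ha (π τ⁻¹ φ)
    rw [← hmul, mul_inv_cancel, hone] at h1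
    exact h1.symm
  seg2 := fun τ hτ i => by
    have h2 : ∀ φ, π τ (π τ φ) = φ := fun φ => by
      rw [← hmul, ← pow_two, ← hτ, pow_orderOf_eq_one, hone]
    obtain ⟨a, b, h1, h3⟩ := norm_two 𝔞.toIdeal (hs τ) (act_bijective hmul hone τ) h2 i
    refine ⟨a, b, h1, ?_⟩
    rw [smul_eq_permSeg 𝔞 hs hmul hone hM]
    exact h3
  seg3 := fun τ hτ i => by
    have h2 : ∀ φ, π τ (π τ (π τ φ)) = φ := fun φ => by
      rw [← hmul, ← hmul, ← pow_three', ← hτ, pow_orderOf_eq_one, hone]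
    obtain ⟨a, b, c, h1, h3⟩ := norm_three 𝔞.toIdeal (hs τ) (act_bijective hmul hone τ) h2 i
    refine ⟨a, b, c, h1, ?_⟩
    rw [smul_eq_permSeg 𝔞 hs hmul hone hM, smul_eq_permSeg 𝔞 hs hmul hone hM]
    exact h3
  around := around
  str2 := str2
  str3 := str3

end Geo

end Pool.Agent.Lib.MP_6a3dac_ag.GI
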