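import Pool.Agent.Lib.MP_6a3dac_ag.W3.BSet

/-!
# The centre at a wildly ramified prime is stable under the decomposition group
-/

set_option autoImplicit false
set_option linter.unusedSectionVars false
set_option linter.unusedVariables false

namespace Pool.Agent.Lib.MP_6a3dac_ag.GI

open Pool.Agent.Lib.MP_6a3dac_ag Pool.Agent.Lib.MP_6a3dac_ag.QD Pool.Agent.Lib.MP_6a3dac_ag.W3
open scoped Pointwise

section Maps

variable {M : Type} [CommRing M] {Λ : Subring M} {g : M →+* M}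

/-- The elements of `S` are mapped to linear combinations of elements of `T`. -/
def MapS (Λ : Subring M) (g : M →+* M) (S T : Set M) : Prop :=
  ∀ b ∈ S, g b ∈ Submodule.span Λ T

-- BEGIN ST1
/-- TASK ST1 (six statements). -/
theorem MapS.of_subset {S T T' : Set M} (h : MapS Λ g S T) (hT : T ⊆ T') : MapS Λ g S T' :=
  fun b hb => Submodule.span_mono hT (h b hb)

theorem MapS.of_le {S T T' : Set M} (h : MapS Λ g S T) (hT : ∀ b ∈ T, b ∈ Submodule.span Λ T') :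
    MapS Λ g S T' :=
  fun b hb => Submodule.span_le.2 hT (h b hb)

theorem MapS.union {S S' T : Set M} (h : MapS Λ g S T) (h' : MapS Λ g S' T) :
    MapS Λ g (S ∪ S') T :=
  fun b hb => hb.elim (fun hb => h b hb) (fun hb => h' b hb)

/-- The product of the spans is contained in the span of the product set: `Submodule.span_induction`
twice. -/
theorem mul_mem_span {S T : Set M} {a b : M} (ha : a ∈ Submodule.span Λ S)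
    (hb : b ∈ Submodule.span Λ T) : a * b ∈ Submodule.span Λ (S * T) := by
  induction ha using Submodule.span_induction with
  | mem x hx =>
    induction hb using Submodule.span_induction with
    | mem y hy => exact Submodule.subset_span (Set.mul_mem_mul hx hy)
    | zero =>
      rw [mul_zero]
      exact Submodule.zero_mem _
    | add y y' _ _ h1 h2 =>
      rw [mul_add]
      exact Submodule.add_mem _ h1 h2
    | smul c y _ h1 =>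
      rw [mul_smul_comm]
      exact Submodule.smul_mem _ c h1
  | zero =>
    rw [zero_mul]
    exact Submodule.zero_mem _
  | add y y' _ _ h1 h2 =>
    rw [add_mul]
    exact Submodule.add_mem _ h1 h2
  | smul c y _ h1 =>
    rw [smul_mul_assoc]
    exact Submodule.smul_mem _ c h1

theorem MapS.mul {S S' T T' : Set M} (h : MapS Λ g S T) (h' : MapS Λ g S' T') :
    MapS Λ g (S * S') (T * T') := by
  rintro _ ⟨a, ha, b, hb, rfl⟩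
  change g (a * b) ∈ _
  rw [map_mul]
  exact mul_mem_span (h a ha) (h' b hb)

theorem mapS_singleton {ϖ η : M} (hη : η ∈ Λ) (h : g ϖ = η * ϖ) (k : ℕ) :
    MapS Λ g ({ϖ ^ k} : Set M) ({ϖ ^ k} : Set M) := by
  intro b hb
  rw [Set.mem_singleton_iff] at hb
  subst hb
  rw [map_pow, h, mul_pow]
  exact Submodule.smul_mem _ (⟨η ^ k, pow_mem hη k⟩ : Λ)
    (Submodule.subset_span (Set.mem_singleton _))
-- END ST1

end Maps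

section Consts

variable {M : Type} [CommRing M] {Λ : Subring M} {τ g : M →+* M} {ϖ ε c κ l μ : M} {n : ℕ}

-- BEGIN ST2
/-- TASK ST2. `3 ∈ ϖ ^ (n + 1) Λ`. With `a = 1 + ϖ ^ n κ`, `τ a = a + d ϖ ^ (n + 1)` (`hC.diff`), the relation `hC.tr`
is `0 = 1 + a + a ^ 2 + a d ϖ ^ (n + 1) = 3 (1 + ϖ ^ n κ) + κ ^ 2 ϖ ^ (2 n) + a d ϖ ^ (n + 1)`, `2 n ≥ n + 1`;
multiply with `1 + ϖ ^ n l` (`hC.hl`). -/
theorem three_mem (hC : Cst Λ τ ϖ ε c κ l μ n) : ∃ t ∈ Λ, (3 : M) = t * ϖ ^ (n + 1) := by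
  obtain ⟨d, hd, hda⟩ := hC.diff (1 + ϖ ^ n * κ)
    (Λ.add_mem Λ.one_mem (Λ.mul_mem (Λ.pow_mem hC.mϖ n) hC.mκ))
  obtain ⟨k, rfl⟩ : ∃ k, n = k + 1 := ⟨n - 1, by have := hC.pos; omega⟩
  have h1 := hC.tr
  have h2 := hC.hl
  refine ⟨-(κ ^ 2 * ϖ ^ k * (1 + ϖ ^ (k + 1) * l) + d), ?_, ?_⟩
  · exact Λ.neg_mem (Λ.add_mem (Λ.mul_mem (Λ.mul_mem (Λ.pow_mem hC.mκ 2) (Λ.pow_mem hC.mϖ k))
      (Λ.add_mem Λ.one_mem (Λ.mul_mem (Λ.pow_mem hC.mϖ (k + 1)) hC.ml))) hd)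
  · have h3 : τ (1 + ϖ ^ (k + 1) * κ) = (1 + ϖ ^ (k + 1) * κ) + d * ϖ ^ (k + 1 + 1) := by
      rw [← hda]; ring
    rw [h3] at h1
    linear_combination (1 + ϖ ^ (k + 1) * l) * h1 - (3 + d * ϖ ^ (k + 1 + 1)) * h2
-- END ST2

/-- The automorphism `g` of the decomposition group: it commutes with `τ` or inverts it. -/
structure GHyp (Λ : Subring M) (τ g : M →+* M) (ϖ : M) : Prop where
  lam : ∀ c ∈ Λ, g c ∈ Λ
  unif : ∃ η ∈ Λ, ∃ η' ∈ Λ, g ϖ = η * ϖ ∧ η * η' = 1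
  comm : (∀ m, g (τ m) = τ (g m)) ∨ ∀ m, g (τ m) = τ (τ (g m))

-- BEGIN ST3
private theorem st3_pow {M : Type} [CommRing M] {Λ : Subring M} {ϖ ε : M} {n : ℕ} (hϖ : ϖ ∈ Λ)
    (hε : ε ∈ Λ) (m : ℕ) (hn : 1 ≤ n) : ∃ w ∈ Λ, (1 + ε * ϖ ^ n) ^ m = 1 + w * ϖ := by
  induction m with
  | zero => exact ⟨0, Λ.zero_mem, by ring⟩
  | succ m ih =>
    obtain ⟨w, hw, h⟩ := ih
    obtain ⟨k, rfl⟩ : ∃ k, n = k + 1 := ⟨n - 1, by omega⟩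
    refine ⟨w + ε * ϖ ^ k + w * ϖ * (ε * ϖ ^ k), ?_, ?_⟩
    · exact Λ.add_mem (Λ.add_mem hw (Λ.mul_mem hε (Λ.pow_mem hϖ k)))
        (Λ.mul_mem (Λ.mul_mem hw hϖ) (Λ.mul_mem hε (Λ.pow_mem hϖ k)))
    · rw [pow_succ, h]
      ring

/-- TASK ST3. The residue class of `ε`. Let `g ϖ = η ϖ`. Apply `g` to `τ ϖ = ϖ + ε ϖ ^ (n + 1)` (`hC.unif`).
First case, `g τ = τ g`: `τ (η ϖ) = η ϖ + g ε (η ϖ) ^ (n + 1)` and `τ η = η + d ϖ ^ (n + 1)` (`hC.diff`), so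
`(η + d ϖ ^ (n + 1)) (ϖ + ε ϖ ^ (n + 1)) = η ϖ + g ε η ^ (n + 1) ϖ ^ (n + 1)`; cancel `η ϖ` and `ϖ ^ (n + 1)` (`hϖ`, a domain):
`g ε η ^ (n + 1) = η ε + d (ϖ + ε ϖ ^ (n + 1))`; multiply with `η'`.
Second case, `g τ = τ τ g`: `τ (τ (η ϖ)) = η ϖ + g ε (η ϖ) ^ (n + 1)`. `τ (τ η) = η + d₂ ϖ ^ (n + 1)` and
`τ (τ ϖ) = ϖ + 2 ε ϖ ^ (n + 1) + e ϖ ^ (n + 2)` (`τ ε = ε + d' ϖ ^ (n + 1)`, `τ ϖ ^ (n + 1)` is `ϖ ^ (n + 1) (1 + ε ϖ ^ n) ^ (n + 1)`, `1 ≤ n`). So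
`g ε η ^ n = 2 ε + (..) ϖ = - ε + (..) ϖ` by `hC.three`. -/
theorem eps_comm [IsDomain M] (hC : Cst Λ τ ϖ ε c κ l μ n) (hϖ : ϖ ≠ 0) (hg : ∀ c ∈ Λ, g c ∈ Λ)
    {η η' : M} (hη : η ∈ Λ) (hη' : η' ∈ Λ) (h1 : g ϖ = η * ϖ) (h2 : η * η' = 1)
    (hτ : ∀ m, g (τ m) = τ (g m)) : ∃ a ∈ Λ, g ε * η ^ n = ε + a * ϖ := by
  obtain ⟨d, hd, hda⟩ := hC.diff η hη
  have h3 := hτ ϖ
  rw [hC.unif, map_add, map_mul, map_pow, h1, map_mul, hC.unif] at h3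
  have h4 : τ η = η + d * ϖ ^ (n + 1) := by rw [← hda]; ring
  rw [h4] at h3
  have h5 : ϖ ^ (n + 1) * (g ε * η ^ (n + 1)) =
      ϖ ^ (n + 1) * (η * ε + d * (ϖ + ε * ϖ ^ (n + 1))) := by
    rw [mul_pow] at h3
    linear_combination h3
  have h6 := mul_left_cancel₀ (pow_ne_zero (n + 1) hϖ) h5
  refine ⟨η' * d * (1 + ε * ϖ ^ n), ?_, ?_⟩
  · exact Λ.mul_mem (Λ.mul_mem hη' hd) (Λ.add_mem Λ.one_mem (Λ.mul_mem hC.mε (Λ.pow_mem hC.mϖ n)))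
  · linear_combination η' * h6 - (g ε * η ^ n - ε) * h2

theorem eps_inv [IsDomain M] (hC : Cst Λ τ ϖ ε c κ l μ n) (hϖ : ϖ ≠ 0) (hg : ∀ c ∈ Λ, g c ∈ Λ)
    {η η' : M} (hη : η ∈ Λ) (hη' : η' ∈ Λ) (h1 : g ϖ = η * ϖ) (h2 : η * η' = 1)
    (hτ : ∀ m, g (τ m) = τ (τ (g m))) : ∃ a ∈ Λ, g ε * η ^ n = - ε + a * ϖ := by
  obtain ⟨d, hd, hda⟩ := hC.diff η hη
  obtain ⟨d', hd', hda'⟩ := hC.diff ε hC.mε
  obtain ⟨d'', hd'', hda''⟩ := hC.diff d hd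
  obtain ⟨w, hw, hwa⟩ := st3_pow (Λ := Λ) hC.mϖ hC.mε (n + 1) hC.pos
  obtain ⟨a3, ha3, h33⟩ := hC.three
  have hP : (ϖ + ε * ϖ ^ (n + 1)) ^ (n + 1) = ϖ ^ (n + 1) * (1 + w * ϖ) := by
    rw [← hwa, ← mul_pow]
    ring
  have h4 : τ η = η + d * ϖ ^ (n + 1) := by rw [← hda]; ring
  have h4' : τ ε = ε + d' * ϖ ^ (n + 1) := by rw [← hda']; ring
  have h4'' : τ d = d + d'' * ϖ ^ (n + 1) := by rw [← hda'']; ring
  have h5 : τ (τ η) = η + d * ϖ ^ (n + 1) +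
      (d + d'' * ϖ ^ (n + 1)) * (ϖ ^ (n + 1) * (1 + w * ϖ)) := by
    rw [h4, map_add, map_mul, map_pow, hC.unif, hP, h4, h4'']
  have h6 : τ (τ ϖ) = ϖ + ε * ϖ ^ (n + 1) +
      (ε + d' * ϖ ^ (n + 1)) * (ϖ ^ (n + 1) * (1 + w * ϖ)) := by
    rw [hC.unif, map_add, map_mul, map_pow, hC.unif, hP, h4']
  have h3 := hτ ϖ
  rw [h1, map_mul, map_mul, h5, h6, hC.unif, map_add, map_mul, map_pow, h1, mul_pow] at h3
  set e : M := ε * w + d' * ϖ ^ n * (1 + w * ϖ) with he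
  set D : M := d + (d + d'' * ϖ ^ (n + 1)) * (1 + w * ϖ) with hD
  have h7 : ϖ ^ (n + 1) * (g ε * η ^ (n + 1)) =
      ϖ ^ (n + 1) * (η * (2 * ε + e * ϖ) + D * (ϖ + ϖ ^ (n + 1) * (2 * ε + e * ϖ))) := by
    rw [he, hD]
    linear_combination h3
  have h8 := mul_left_cancel₀ (pow_ne_zero (n + 1) hϖ) h7
  have h1w : (1 + w * ϖ) ∈ Λ := Λ.add_mem Λ.one_mem (Λ.mul_mem hw hC.mϖ)
  have heΛ : e ∈ Λ := Λ.add_mem (Λ.mul_mem hC.mε hw)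
    (Λ.mul_mem (Λ.mul_mem hd' (Λ.pow_mem hC.mϖ n)) h1w)
  have hDΛ : D ∈ Λ := Λ.add_mem hd
    (Λ.mul_mem (Λ.add_mem hd (Λ.mul_mem hd'' (Λ.pow_mem hC.mϖ (n + 1)))) h1w)
  have h2ε : 2 * ε + e * ϖ ∈ Λ := by
    rw [two_mul]
    exact Λ.add_mem (Λ.add_mem hC.mε hC.mε) (Λ.mul_mem heΛ hC.mϖ)
  refine ⟨a3 * ε + e + η' * D * (1 + ϖ ^ n * (2 * ε + e * ϖ)), ?_, ?_⟩
  · exact Λ.add_mem (Λ.add_mem (Λ.mul_mem ha3 hC.mε) heΛ)
      (Λ.mul_mem (Λ.mul_mem hη' hDΛ) (Λ.add_mem Λ.one_mem (Λ.mul_mem (Λ.pow_mem hC.mϖ n) h2ε)))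
  · clear_value e D
    linear_combination η' * h8 - (g ε * η ^ n - (2 * ε + e * ϖ)) * h2 + ε * h33
-- END ST3

-- BEGIN ST4
/-- TASK ST4 (two statements). Let `θ = 1 + ϖ ^ n ζ` with `ζ = m ε + a ϖ`. Then `g θ = 1 + (η ϖ) ^ n (m g ε + g a η ϖ)`, so
`g θ - θ` (first case) is `ϖ ^ n m (g ε η ^ n - ε) + ϖ ^ (n + 1) (..)`, by `eps_comm` a multiple of `ϖ ^ (n + 1)`.
Second case: `g θ = 1 - ϖ ^ n m ε + ϖ ^ (n + 1) (..)`, so `1 + θ + g θ = 3 + ϖ ^ (n + 1) (..)`; `three_mem`. -/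
theorem theta_comm [IsDomain M] (hC : Cst Λ τ ϖ ε c κ l μ n) (hϖ : ϖ ≠ 0) (hG : GHyp Λ τ g ϖ)
    (hτ : ∀ m, g (τ m) = τ (g m)) {θ ζ : M} {m : ℕ} (hθ : θ = 1 + ϖ ^ n * ζ)
    (hζ : ∃ a ∈ Λ, ζ = m * ε + a * ϖ) : ∃ t ∈ Λ, g θ - θ = t * ϖ ^ (n + 1) := by
  obtain ⟨η, hη, η', hη', h1, h2⟩ := hG.unif
  obtain ⟨b, hb, hbe⟩ := eps_comm hC hϖ hG.lam hη hη' h1 h2 hτ
  obtain ⟨a, ha, rfl⟩ := hζ
  refine ⟨m * b + η ^ (n + 1) * g a - a, ?_, ?_⟩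
  · exact Λ.sub_mem (Λ.add_mem (Λ.mul_mem (natCast_mem Λ m) hb)
      (Λ.mul_mem (Λ.pow_mem hη (n + 1)) (hG.lam a ha))) ha
  · rw [hθ, map_add, map_one, map_mul, map_pow, map_add, map_mul, map_mul, h1, map_natCast, mul_pow]
    linear_combination ϖ ^ n * m * hbe

theorem theta_inv [IsDomain M] (hC : Cst Λ τ ϖ ε c κ l μ n) (hϖ : ϖ ≠ 0) (hG : GHyp Λ τ g ϖ)
    (hτ : ∀ m, g (τ m) = τ (τ (g m))) {θ ζ : M} {m : ℕ} (hθ : θ = 1 + ϖ ^ n * ζ)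
    (hζ : ∃ a ∈ Λ, ζ = m * ε + a * ϖ) : ∃ t ∈ Λ, 1 + θ + g θ = t * ϖ ^ (n + 1) := by
  obtain ⟨η, hη, η', hη', h1, h2⟩ := hG.unif
  obtain ⟨b, hb, hbe⟩ := eps_inv hC hϖ hG.lam hη hη' h1 h2 hτ
  obtain ⟨a, ha, rfl⟩ := hζ
  obtain ⟨t, ht, h3⟩ := three_mem hC
  refine ⟨t + (m * b + η ^ (n + 1) * g a + a), ?_, ?_⟩
  · exact Λ.add_mem ht (Λ.add_mem (Λ.add_mem (Λ.mul_mem (natCast_mem Λ m) hb)
      (Λ.mul_mem (Λ.pow_mem hη (n + 1)) (hG.lam a ha))) ha)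
  · rw [hθ, map_add, map_one, map_mul, map_pow, map_add, map_mul, map_mul, h1, map_natCast, mul_pow]
    linear_combination ϖ ^ n * m * hbe + h3
-- END ST4

end Consts

section Sets

variable {M I : Type} [CommRing M] [IsDomain M] {Λ : Subring M} {x : I → M} {τ g : M →+* M}
  {ϖ ε c κ l μ : M} {n : ℕ}

-- BEGIN ST5
/-- TASK ST5 (two statements). The linear forms. `lF k = τ (x k) - x k`. If `g τ = τ g` then `g (lF k) = lF k'` with `g (x k) = x k'`. If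
`g τ = τ τ g`: `g (lF k) = τ (τ (x k')) - x k'`, `τ (τ (x k')) = x k''` (`hstar` twice), and
`lF k'' = τ (τ (τ (x k'))) - τ (τ (x k')) = x k' - x k'' = - g (lF k)`. -/
theorem lF_comm (hgx : ∀ k, ∃ k', g (x k) = x k') (hτ : ∀ m, g (τ m) = τ (g m)) (k : I) :
    ∃ k', g (x k) = x k' ∧ g (lF x τ k) = lF x τ k' := by
  obtain ⟨k', hk'⟩ := hgx k
  refine ⟨k', hk', ?_⟩
  unfold lF
  rw [map_sub, hτ, hk']

theorem lF_inv (hgx : ∀ k, ∃ k', g (x k) = x k') (hstar : ∀ l, ∃ l', τ (x l) = x l')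
    (hτ3 : ∀ m, τ (τ (τ m)) = m) (hτ : ∀ m, g (τ m) = τ (τ (g m))) (k : I) :
    ∃ k', g (lF x τ k) = - lF x τ k' := by
  obtain ⟨k', hk'⟩ := hgx k
  obtain ⟨l1, h1⟩ := hstar k'
  obtain ⟨l2, h2⟩ := hstar l1
  refine ⟨l2, ?_⟩
  unfold lF
  rw [map_sub, hτ, hk', ← h2, ← h1, hτ3, neg_sub]
-- END ST5

-- BEGIN ST6
/-- TASK ST6 (two statements). The forms `τ ℓ - θ ℓ`, `ℓ = lF k`, for a constant `θ`. If `g τ = τ g`, `g ℓ_k = ℓ_k'`: `g (τ ℓ_k - θ ℓ_k) = (τ ℓ_k' - θ ℓ_k') - (g θ - θ) ℓ_k'`.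
If `g τ = τ τ g`, `g ℓ_k = - ℓ_k'`: `g (τ ℓ_k) = τ (τ (g ℓ_k)) = - τ (τ ℓ_k') = ℓ_k' + τ ℓ_k'` (the trace of `ℓ` is zero by `hτ3`), so
`g (τ ℓ_k - θ ℓ_k) = τ ℓ_k' + (1 + g θ) ℓ_k' = (τ ℓ_k' - θ ℓ_k') + (1 + θ + g θ) ℓ_k'`. -/
theorem form_comm {θ : M} {k k' : I} (hτ : ∀ m, g (τ m) = τ (g m))
    (hk : g (lF x τ k) = lF x τ k') :
    g (τ (lF x τ k) - θ * lF x τ k) =
      (τ (lF x τ k') - θ * lF x τ k') - (g θ - θ) * lF x τ k' := by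
  rw [map_sub, map_mul, hτ, hk]
  ring

theorem form_inv {θ : M} {k k' : I} (hτ3 : ∀ m, τ (τ (τ m)) = m)
    (hτ : ∀ m, g (τ m) = τ (τ (g m))) (hk : g (lF x τ k) = - lF x τ k') :
    g (τ (lF x τ k) - θ * lF x τ k) =
      (τ (lF x τ k') - θ * lF x τ k') + (1 + θ + g θ) * lF x τ k' := by
  rw [map_sub, map_mul, hτ, hk]
  have h1 : τ (τ (lF x τ k')) = - lF x τ k' - τ (lF x τ k') := by
    unfold lF
    rw [map_sub, map_sub, hτ3]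
    ring
  rw [map_neg, map_neg, h1]
  ring
-- END ST6

variable (hC : Cst Λ τ ϖ ε c κ l μ n) (hϖ0 : ϖ ≠ 0) (hG : GHyp Λ τ g ϖ)
  (hgx : ∀ k, ∃ k', g (x k) = x k') (hstar : ∀ l, ∃ l', τ (x l) = x l')
  (hτ3 : ∀ m, τ (τ (τ m)) = m)

include hC hϖ0 hG hgx hstar hτ3

-- BEGIN ST7
theorem st7_key {θ ζ : M} {m : ℕ} (hθ : θ = 1 + ϖ ^ n * ζ)
    (hζ : ∃ a ∈ Λ, ζ = m * ε + a * ϖ) :
    ∃ s ∈ Λ, ∃ t ∈ Λ, ∀ k, ∃ k', g (lF x τ k) = s * lF x τ k' ∧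
      g (τ (lF x τ k) - θ * lF x τ k) =
        (τ (lF x τ k') - θ * lF x τ k') + t * (ϖ ^ (n + 1) * lF x τ k') := by
  rcases hG.comm with hτ | hτ
  · obtain ⟨t, ht, h1⟩ := theta_comm hC hϖ0 hG hτ hθ hζ
    refine ⟨1, Λ.one_mem, -t, Λ.neg_mem ht, fun k => ?_⟩
    obtain ⟨k', -, h2⟩ := lF_comm hgx hτ k
    refine ⟨k', by rw [one_mul]; exact h2, ?_⟩
    rw [form_comm hτ h2, h1]
    ring
  · obtain ⟨t, ht, h1⟩ := theta_inv hC hϖ0 hG hτ hθ hζ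
    refine ⟨-1, Λ.neg_mem Λ.one_mem, t, ht, fun k => ?_⟩
    obtain ⟨k', h2⟩ := lF_inv hgx hstar hτ3 hτ k
    refine ⟨k', by rw [neg_one_mul]; exact h2, ?_⟩
    rw [form_inv hτ3 hτ h2, h1]
    ring

theorem st7_V : ∃ s ∈ Λ, ∃ t ∈ Λ, ∀ k, ∃ k', g (lF x τ k) = s * lF x τ k' ∧
    g (vF x τ (1 + ϖ ^ n * κ) k) =
      vF x τ (1 + ϖ ^ n * κ) k' + t * (ϖ ^ (n + 1) * lF x τ k') := by
  obtain ⟨a, ha, h1⟩ := hC.cκ
  exact st7_key hC hϖ0 hG hgx hstar hτ3 (m := n + 1) rfl ⟨a, ha, by rw [h1]; push_cast; ring⟩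

theorem st7_S : ∃ s ∈ Λ, ∃ t ∈ Λ, ∀ k, ∃ k', g (lF x τ k) = s * lF x τ k' ∧
    g (sF x τ ϖ (1 + ϖ ^ n * κ) c n k) =
      sF x τ ϖ (1 + ϖ ^ n * κ) c n k' + t * (ϖ ^ (n + 1) * lF x τ k') := by
  obtain ⟨a, ha, h1⟩ := hC.cκ
  obtain ⟨a', ha', h2⟩ := hC.cc
  obtain ⟨s, hs, t, ht, h⟩ := st7_key hC hϖ0 hG hgx hstar hτ3
    (θ := 1 + ϖ ^ n * (κ + c)) (ζ := κ + c) (m := n + 2) rfl
    ⟨a + a', Λ.add_mem ha ha', by
      have h3 : κ + c = ((n + 1) * ε + a * ϖ) + (ε + a' * ϖ) := by rw [← h1, ← h2]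
      rw [h3]
      push_cast
      ring⟩
  have h4 : ∀ k, sF x τ ϖ (1 + ϖ ^ n * κ) c n k =
      τ (lF x τ k) - (1 + ϖ ^ n * (κ + c)) * lF x τ k := by
    intro k
    unfold sF vF
    ring
  refine ⟨s, hs, t, ht, fun k => ?_⟩
  obtain ⟨k', h5, h6⟩ := h k
  exact ⟨k', h5, by rw [h4, h4]; exact h6⟩

theorem st7_smul {T : Set M} {a b : M} (ha : a ∈ Λ) (hb : b ∈ Submodule.span Λ T) :
    a * b ∈ Submodule.span Λ T :=
  Submodule.smul_mem _ (⟨a, ha⟩ : Λ) hb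

/-- TASK ST7 (five statements). `XS`, `LS`: ST5. `VS`: `vF k = τ ℓ_k - a ℓ_k` with `a = 1 + ϖ ^ n κ`, `hC.cκ` (`m = n + 1`; ST4, ST6). `SS`:
`sF k = τ ℓ_k - b ℓ_k`, `b = a + c ϖ ^ n = 1 + ϖ ^ n (κ + c)`, `κ + c = (n + 2) ε + (..) ϖ` (`hC.cc`). `MS`: if `g ℓ_k = ℓ_k'`, `g v_k = v_k' + δ ℓ_k'` with the same `δ` for all `k` then
`g (ℓ_k v_l - ℓ_l v_k) = ℓ_k' v_l' - ℓ_l' v_k'`; second case the same with the sign `-`. -/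
theorem mapS_XS : MapS Λ g (XS x) (XS x) := by
  rintro _ ⟨k, rfl⟩
  obtain ⟨k', hk'⟩ := hgx k
  rw [hk']
  exact Submodule.subset_span ⟨k', rfl⟩

theorem mapS_LS : MapS Λ g (LS x τ) (LS x τ) := by
  rintro _ ⟨k, rfl⟩
  obtain ⟨s, hs, t, ht, h⟩ := st7_V hC hϖ0 hG hgx hstar hτ3
  obtain ⟨k', h1, -⟩ := h k
  rw [h1]
  exact st7_smul hC hϖ0 hG hgx hstar hτ3 hs (Submodule.subset_span ⟨k', rfl⟩)

theorem mapS_VS : MapS Λ g (VS x τ (1 + ϖ ^ n * κ))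
    (VS x τ (1 + ϖ ^ n * κ) ∪ ({ϖ ^ (n + 1)} : Set M) * LS x τ) := by
  rintro _ ⟨k, rfl⟩
  obtain ⟨s, hs, t, ht, h⟩ := st7_V hC hϖ0 hG hgx hstar hτ3
  obtain ⟨k', -, h1⟩ := h k
  rw [h1]
  exact Submodule.add_mem _ (Submodule.subset_span (Or.inl ⟨k', rfl⟩))
    (st7_smul hC hϖ0 hG hgx hstar hτ3 ht
      (Submodule.subset_span (Or.inr (Set.mul_mem_mul rfl ⟨k', rfl⟩))))

theorem mapS_SS : MapS Λ g (SS x τ ϖ (1 + ϖ ^ n * κ) c n)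
    (SS x τ ϖ (1 + ϖ ^ n * κ) c n ∪ ({ϖ ^ (n + 1)} : Set M) * LS x τ) := by
  rintro _ ⟨k, rfl⟩
  obtain ⟨s, hs, t, ht, h⟩ := st7_S hC hϖ0 hG hgx hstar hτ3
  obtain ⟨k', -, h1⟩ := h k
  rw [h1]
  exact Submodule.add_mem _ (Submodule.subset_span (Or.inl ⟨k', rfl⟩))
    (st7_smul hC hϖ0 hG hgx hstar hτ3 ht
      (Submodule.subset_span (Or.inr (Set.mul_mem_mul rfl ⟨k', rfl⟩))))

theorem mapS_MS : MapS Λ g (MS x τ (1 + ϖ ^ n * κ)) (MS x τ (1 + ϖ ^ n * κ)) := by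
  rintro _ ⟨⟨k, l⟩, rfl⟩
  obtain ⟨s, hs, t, ht, h⟩ := st7_V hC hϖ0 hG hgx hstar hτ3
  obtain ⟨k', h1, h2⟩ := h k
  obtain ⟨l', h3, h4⟩ := h l
  have h5 : g (lF x τ k * vF x τ (1 + ϖ ^ n * κ) l - lF x τ l * vF x τ (1 + ϖ ^ n * κ) k) =
      s * (lF x τ k' * vF x τ (1 + ϖ ^ n * κ) l' - lF x τ l' * vF x τ (1 + ϖ ^ n * κ) k') := by
    rw [map_sub, map_mul, map_mul, h1, h2, h3, h4]
    ring
  change g (lF x τ k * vF x τ (1 + ϖ ^ n * κ) l - lF x τ l * vF x τ (1 + ϖ ^ n * κ) k) ∈ _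
  rw [h5]
  exact st7_smul hC hϖ0 hG hgx hstar hτ3 hs (Submodule.subset_span ⟨(k', l'), rfl⟩)
-- END ST7

-- BEGIN ST8
/-- TASK ST8 (two statements). `AS k = ϖ ^ k X ∪ L`: ST1 and ST7. `KS l = AS (l / 2) * AS ((l + 1) / 2) ∪ V X` with `l ≤ 2 n + 2`:
`V X` is mapped to the span of `(V ∪ ϖ ^ (n + 1) L) X`; `ϖ ^ (n + 1) ℓ x = ℓ (ϖ ^ (n + 1) x)`, `(l + 1) / 2 ≤ n + 1`, so it is
`ϖ ^ (n + 1 - (l + 1) / 2) • (ℓ * (ϖ ^ ((l + 1) / 2) * x))` in the span of `AS (l / 2) * AS ((l + 1) / 2)` (`ϖ ∈ Λ`: `hC.mϖ`). -/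
theorem mapS_AS (k : ℕ) : MapS Λ g (AS x τ ϖ k) (AS x τ ϖ k) := by
  obtain ⟨η, hη, η', hη', h1, h2⟩ := hG.unif
  exact MapS.union
    (((mapS_singleton hη h1 k).mul (mapS_XS hC hϖ0 hG hgx hstar hτ3)).of_subset
      Set.subset_union_left)
    ((mapS_LS hC hϖ0 hG hgx hstar hτ3).of_subset Set.subset_union_right)

theorem mapS_KS {l' : ℕ} (hl : l' ≤ 2 * n + 2) :
    MapS Λ g (KS x τ ϖ (1 + ϖ ^ n * κ) l') (KS x τ ϖ (1 + ϖ ^ n * κ) l') := by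
  have hA := mapS_AS hC hϖ0 hG hgx hstar hτ3 (l' / 2)
  have hA' := mapS_AS hC hϖ0 hG hgx hstar hτ3 ((l' + 1) / 2)
  have hV := mapS_VS hC hϖ0 hG hgx hstar hτ3
  have hX := mapS_XS hC hϖ0 hG hgx hstar hτ3
  refine MapS.union ((hA.mul hA').of_subset Set.subset_union_left) (MapS.of_le (hV.mul hX) ?_)
  rintro b ⟨v, hv, y, hy, rfl⟩
  rcases hv with hv | hv
  · exact Submodule.subset_span (Or.inr (Set.mul_mem_mul hv hy))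
  · obtain ⟨w, hw, ℓ, hℓ, rfl⟩ := hv
    rw [Set.mem_singleton_iff] at hw
    subst hw
    have h3 : (fun x1 x2 : M => x1 * x2) ((fun x1 x2 : M => x1 * x2) (ϖ ^ (n + 1)) ℓ) y =
        (⟨ϖ ^ (n + 1 - (l' + 1) / 2), Λ.pow_mem hC.mϖ _⟩ : Λ) •
          (ℓ * (ϖ ^ ((l' + 1) / 2) * y)) := by
      have h4 : ϖ ^ (n + 1) = ϖ ^ (n + 1 - (l' + 1) / 2) * ϖ ^ ((l' + 1) / 2) := by
        rw [← pow_add]
        congr 1
        omega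
      change ϖ ^ (n + 1) * ℓ * y =
        ϖ ^ (n + 1 - (l' + 1) / 2) * (ℓ * (ϖ ^ ((l' + 1) / 2) * y))
      rw [h4]
      ring
    rw [h3]
    refine Submodule.smul_mem _ _ (Submodule.subset_span (Or.inl ?_))
    exact Set.mul_mem_mul (Or.inr hℓ) (Or.inl (Set.mul_mem_mul rfl hy))
-- END ST8

-- BEGIN ST9
/-- TASK ST9 (two statements). `RS m`, `m < n`: `KS * KS` (ST8, `2 m + 2 ≤ 2 n + 2`); `ϖ ^ m A A A X` (ST7, ST8); `ϖ ^ m ϖ ^ (m + 1) V X X X` is mapped to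
the span of itself and of `ϖ ^ m ϖ ^ (m + 1) ϖ ^ (n + 1) L X X X`, where `ϖ ^ (m + 1) ϖ ^ (n + 1) ℓ x x' x'' = ϖ ^ (n - m) (ℓ (ϖ ^ (m + 1) x) (ϖ ^ (m + 1) x') x'')` is in the span of
`A A A X`, `A = AS (m + 1)`; `ϖ ^ m MS (X X)`: ST7. `ZS`: `S X X X` is mapped to `(S ∪ ϖ ^ (n + 1) L) X X X`, and `ϖ ^ (n + 1) L (X X X)` is one of the parts of `ZS`; the rest is clear. -/
theorem mapS_RS {m : ℕ} (hm : m < n) :
    MapS Λ g (RS x τ ϖ (1 + ϖ ^ n * κ) m) (RS x τ ϖ (1 + ϖ ^ n * κ) m) := by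
  have hX := mapS_XS hC hϖ0 hG hgx hstar hτ3
  have hV := mapS_VS hC hϖ0 hG hgx hstar hτ3
  have hM := mapS_MS hC hϖ0 hG hgx hstar hτ3
  have hA := mapS_AS hC hϖ0 hG hgx hstar hτ3 (m + 1)
  have hK := mapS_KS hC hϖ0 hG hgx hstar hτ3 (show 2 * m + 2 ≤ 2 * n + 2 by omega)
  obtain ⟨η, hη, η', hη', h1, h2⟩ := hG.unif
  unfold RS
  refine MapS.union (MapS.of_subset (hK.mul hK) Set.subset_union_left)
    (MapS.of_subset ((mapS_singleton hη h1 m).mul ?_) Set.subset_union_right)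
  refine MapS.union (MapS.union ?_ ?_) ?_
  · exact MapS.of_subset (((hA.mul hA).mul hA).mul hX)
      (Set.subset_union_left.trans Set.subset_union_left)
  · refine MapS.of_le ((mapS_singleton hη h1 (m + 1)).mul (hV.mul ((hX.mul hX).mul hX))) ?_
    rintro b ⟨p, hp, q, ⟨v, hv, y, hy, rfl⟩, rfl⟩
    rcases hv with hv | hv
    · exact Submodule.subset_span
        (Or.inl (Or.inr ⟨p, hp, v * y, ⟨v, hv, y, hy, rfl⟩, rfl⟩))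
    · obtain ⟨y12, ⟨y1, hy1, y2, hy2, rfl⟩, y3, hy3, rfl⟩ := hy
      obtain ⟨w, hw, ℓ, hℓ, rfl⟩ := hv
      rw [Set.mem_singleton_iff] at hp hw
      subst hp hw
      have h3 : (fun x1 x2 : M => x1 * x2) (ϖ ^ (m + 1))
          ((fun x1 x2 : M => x1 * x2) ((fun x1 x2 : M => x1 * x2) (ϖ ^ (n + 1)) ℓ)
            ((fun x1 x2 : M => x1 * x2) ((fun x1 x2 : M => x1 * x2) y1 y2) y3)) =
          (⟨ϖ ^ (n - m), Λ.pow_mem hC.mϖ _⟩ : Λ) •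
            (ℓ * (ϖ ^ (m + 1) * y1) * (ϖ ^ (m + 1) * y2) * y3) := by
        have h4 : ϖ ^ (n + 1) = ϖ ^ (n - m) * ϖ ^ (m + 1) := by
          rw [← pow_add]
          congr 1
          omega
        change ϖ ^ (m + 1) * ((ϖ ^ (n + 1) * ℓ) * ((y1 * y2) * y3)) =
          ϖ ^ (n - m) * (ℓ * (ϖ ^ (m + 1) * y1) * (ϖ ^ (m + 1) * y2) * y3)
        rw [h4]
        ring
      rw [h3]
      refine Submodule.smul_mem _ _ (Submodule.subset_span (Or.inl (Or.inl ?_)))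
      refine Set.mul_mem_mul (Set.mul_mem_mul (Set.mul_mem_mul (Or.inr hℓ) (Or.inl ?_))
        (Or.inl ?_)) hy3
      · exact Set.mul_mem_mul rfl hy1
      · exact Set.mul_mem_mul rfl hy2
  · exact MapS.of_subset (hM.mul (hX.mul hX)) Set.subset_union_right

theorem mapS_ZS : MapS Λ g (ZS x τ ϖ (1 + ϖ ^ n * κ) c n) (ZS x τ ϖ (1 + ϖ ^ n * κ) c n) := by
  have hX := mapS_XS hC hϖ0 hG hgx hstar hτ3
  have hL := mapS_LS hC hϖ0 hG hgx hstar hτ3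
  have hS := mapS_SS hC hϖ0 hG hgx hstar hτ3
  obtain ⟨η, hη, η', hη', h1, h2⟩ := hG.unif
  unfold ZS
  refine MapS.union (MapS.union (MapS.union ?_ ?_) ?_) ?_
  · refine MapS.of_subset (hS.mul ((hX.mul hX).mul hX)) ?_
    rw [Set.union_mul, mul_assoc ({ϖ ^ (n + 1)} : Set M)]
    refine Set.union_subset ?_ ?_
    · exact (Set.subset_union_left.trans Set.subset_union_left).trans Set.subset_union_left
    · exact Set.subset_union_right.trans Set.subset_union_left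
  · exact MapS.of_subset ((hL.mul hL).mul (hX.mul hX))
      ((Set.subset_union_right.trans Set.subset_union_left).trans Set.subset_union_left)
  · exact MapS.of_subset ((mapS_singleton hη h1 (n + 1)).mul (hL.mul ((hX.mul hX).mul hX)))
      (Set.subset_union_right.trans Set.subset_union_left)
  · exact MapS.of_subset ((mapS_singleton hη h1 (2 * n + 1)).mul
      (((hX.mul hX).mul hX).mul hX)) Set.subset_union_right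
-- END ST9

/-- **The centre is stable under the decomposition group.** -/
theorem mapS_BW (j : ℕ) :
    MapS Λ g (BW x τ ϖ (1 + ϖ ^ n * κ) c n j) (BW x τ ϖ (1 + ϖ ^ n * κ) c n j) := by
  have hX := mapS_XS hC hϖ0 hG hgx hstar hτ3
  obtain ⟨η, hη, η', hη', h1, h2⟩ := hG.unif
  unfold BW
  refine MapS.union (MapS.of_subset ?_ Set.subset_union_left)
    (MapS.of_subset ((mapS_singleton hη h1 j).mul (((hX.mul hX).mul hX).mul hX))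
      Set.subset_union_right)
  split_ifs with h3 h4 h5
  · exact (mapS_KS hC hϖ0 hG hgx hstar hτ3 h3).mul (hX.mul hX)
  · exact ((hX.mul hX).mul hX).mul hX
  · exact mapS_RS hC hϖ0 hG hgx hstar hτ3 (by omega)
  · exact mapS_ZS hC hϖ0 hG hgx hstar hτ3

end Sets

end Pool.Agent.Lib.MP_6a3dac_ag.GI
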