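import Pool.Agent.Lib.MP_6a3dac_ag.GI.Defs
import Pool.Agent.Lib.MP_6a3dac_ag.GI.Stab

/-!
# The combination of the centres at the primes over a prime
-/

set_option autoImplicit false
set_option linter.unusedSectionVars false
set_option linter.unusedVariables false

namespace Pool.Agent.Lib.MP_6a3dac_ag.GI

open Pool.Agent.Lib.MP_6a3dac_ag Pool.Agent.Lib.MP_6a3dac_ag.QD Pool.Agent.Lib.MP_6a3dac_ag.W3
open scoped Pointwise

section Arith

variable {R O G : Type} [CommRing R] [CommRing O] [Algebra R O] [Group G] [Finite G]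
  [MulSemiringAction G O]

-- BEGIN CO1
/-- TASK CO1 (two statements). Mathlib: `Algebra.IsInvariant` (instances from `hG.of_fix`, `SMulCommClass` from `hG.fix`),
`Algebra.IsInvariant.isIntegral`, `Algebra.IsInvariant.exists_smul_of_under_eq`. -/
theorem GalExt.isIntegral (hG : GalExt R O G) : Algebra.IsIntegral R O := by
  have h : Algebra.IsInvariant R O G := ⟨fun c hc => hG.of_fix c hc⟩
  exact Algebra.IsInvariant.isIntegral R O G

theorem GalExt.exists_smul (hG : GalExt R O G) {P P' : Ideal O} [P.IsPrime] [P'.IsPrime]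
    (h : P.comap (algebraMap R O) = P'.comap (algebraMap R O)) :
    ∃ g : G, ∀ c, c ∈ P' ↔ g⁻¹ • c ∈ P := by
  have h1 : Algebra.IsInvariant R O G := ⟨fun c hc => hG.of_fix c hc⟩
  have h2 : SMulCommClass G R O := ⟨fun g a c => by
    rw [Algebra.smul_def, Algebra.smul_def, smul_mul', hG.fix]⟩
  obtain ⟨g, hg⟩ := Algebra.IsInvariant.exists_smul_of_under_eq R O G P P' h
  refine ⟨g, fun c => ?_⟩
  rw [hg]
  exact Ideal.mem_pointwise_smul_iff_inv_smul_mem
-- END CO1

end Arith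

section Dedekind

variable {R O L M G : Type} [CommRing R] [CommRing O] [IsDedekindDomain O] [Algebra R O]
  [Field L] [Algebra R L] [Algebra O L] [IsScalarTower R O L] [CommRing M] [IsDomain M]
  [Algebra L M] [Algebra R M] [IsScalarTower R L M] [Algebra O M] [IsScalarTower O L M]

-- BEGIN CO2
private theorem co2_map (n : O) : algebraMap O M n = oM O L M n := by
  rw [IsScalarTower.algebraMap_apply O L M]
  rfl

/-- TASK CO2 (two statements). Here and below `lamP O L M P` for an ideal `P` of `O` is taken with `R := O`. First: `n ∉ p` gives `algebraMap R O n ∉ P`. Second: the `n : O` with `oM n * c ∈ oM O` form an ideal `𝔡`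
of `O` which is not contained in a prime over `p`; if `𝔡 ∩ R ≤ p` then by `Ideal.exists_ideal_over_prime_of_isIntegral` (`O` is integral over `R`) there is a prime over `p`
containing `𝔡`. So there is `n ∈ R`, `n ∉ p`, with `algebraMap R O n ∈ 𝔡`. -/
theorem lamP_le {p : Ideal R} [p.IsPrime] {P : Ideal O} [P.IsPrime]
    (hP : P.comap (algebraMap R O) = p) : lamP O L M p ≤ lamP O L M P := by
  rintro m ⟨n, hn, c, hc, l, hl⟩
  refine ⟨algebraMap R O n, ?_, c, ?_, l, hl⟩
  · intro h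
    apply hn
    rw [← hP]
    exact h
  · rw [co2_map (L := L), oM_algebraMap]
    exact hc

theorem mem_lamP_of_forall [Algebra.IsIntegral R O] {p : Ideal R} [p.IsPrime] {c : M}
    (hc : ∃ l, algebraMap L M l = c)
    (h : ∀ (P : Ideal O) [P.IsPrime], P.comap (algebraMap R O) = p → c ∈ lamP O L M P) :
    c ∈ lamP O L M p := by
  let D : Ideal O :=
    { carrier := {n | ∃ d : O, oM O L M n * c = oM O L M d}
      add_mem' := by
        rintro a b ⟨d, hd⟩ ⟨e, he⟩
        exact ⟨d + e, by rw [map_add, map_add, add_mul, hd, he]⟩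
      zero_mem' := ⟨0, by rw [map_zero, zero_mul]⟩
      smul_mem' := by
        rintro a b ⟨d, hd⟩
        exact ⟨a * d, by rw [smul_eq_mul, map_mul, map_mul, mul_assoc, hd]⟩ }
  by_contra hcon
  have hD : D.comap (algebraMap R O) ≤ p := by
    rintro n ⟨d, hd⟩
    by_contra hn
    exact hcon ⟨n, hn, d, by rw [← oM_algebraMap (O := O) (L := L)]; exact hd, hc⟩
  obtain ⟨Q, hQ, hQp, hQc⟩ := Ideal.exists_ideal_over_prime_of_isIntegral p D hD
  obtain ⟨n, hn, d, hd, -⟩ := h Q hQc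
  refine hn (hQ ⟨d, ?_⟩)
  rw [← co2_map]
  exact hd
-- END CO2

-- BEGIN CO3
/-- TASK CO3 (two statements). First: `P ∣ (y)` (`Ideal.dvd_span_singleton`), `(y) = P * J`, `J ≤ P` would give `y ∈ P ^ 2`; take `n ∈ J`, `n ∉ P`, then
`n * c ∈ J * P = (y)`. Second: finitely many primes over `p` (`hS`); Chinese remainder theorem
`IsDedekindDomain.exists_forall_sub_mem_ideal` with the exponents `2` and elements of `P ∖ P ^ 2` (`P ^ 2 ≠ P`); then the first statement. If there is no prime over `p` take `1`. -/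
theorem unif_of_notMem_sq {P : Ideal O} [P.IsPrime] (hP0 : P ≠ ⊥) {y : O} (hy : y ∈ P)
    (hy2 : y ∉ P ^ 2) {c : O} (hc : c ∈ P) : ∃ n, n ∉ P ∧ ∃ d, n * c = d * y := by
  obtain ⟨J, hJ⟩ := Ideal.dvd_span_singleton.2 hy
  have h1 : ¬ J ≤ P := by
    intro h
    apply hy2
    have h2 : y ∈ P * J := by
      rw [← hJ]
      exact Ideal.mem_span_singleton_self y
    rw [pow_two]
    exact Ideal.mul_mono_right h h2
  obtain ⟨n, hn, hnP⟩ := SetLike.not_le_iff_exists.1 h1
  refine ⟨n, hnP, ?_⟩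
  have h2 : n * c ∈ Ideal.span {y} := by
    rw [hJ, mul_comm P J]
    exact Ideal.mul_mem_mul hn hc
  obtain ⟨d, hd⟩ := Ideal.mem_span_singleton'.1 h2
  exact ⟨d, hd.symm⟩

theorem exists_common_unif {S : Set (Ideal O)} (hS : S.Finite) (hS1 : ∀ P ∈ S, P.IsPrime)
    (hS2 : ∀ P ∈ S, P ≠ ⊥) :
    ∃ y : O, y ≠ 0 ∧ ∀ P ∈ S, y ∈ P ∧ ∀ c ∈ P, ∃ n, n ∉ P ∧ ∃ d, n * c = d * y := by
  classical
  by_cases hne : S.Nonempty
  · have hex : ∀ P : hS.toFinset, ∃ z : O, z ∈ (P : Ideal O) ∧ z ∉ (P : Ideal O) ^ 2 := by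
      rintro ⟨P, hP⟩
      rw [Set.Finite.mem_toFinset] at hP
      have h1 := Ideal.pow_right_strictAnti P (hS2 P hP) (hS1 P hP).ne_top
        (show (1 : ℕ) < 2 by norm_num)
      obtain ⟨z, hz, hz2⟩ := SetLike.exists_of_lt h1
      refine ⟨z, ?_, hz2⟩
      have h2 : z ∈ P ^ 1 := hz
      rwa [pow_one] at h2
    choose z hz hz2 using hex
    obtain ⟨y, hy⟩ := IsDedekindDomain.exists_forall_sub_mem_ideal (s := hS.toFinset)
      (fun P : Ideal O => P) (fun _ => 2)
      (fun P hP => Ideal.prime_of_isPrime (hS2 P (hS.mem_toFinset.1 hP))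
        (hS1 P (hS.mem_toFinset.1 hP)))
      (fun P _ P' _ h => h) (fun P => z P)
    have key : ∀ P ∈ S, y ∈ P ∧ y ∉ P ^ 2 := by
      intro P hP
      have hP' : P ∈ hS.toFinset := hS.mem_toFinset.2 hP
      have h1 : y - z ⟨P, hP'⟩ ∈ P ^ 2 := hy P hP'
      have h2 : z ⟨P, hP'⟩ ∈ P := hz ⟨P, hP'⟩
      have h3 : z ⟨P, hP'⟩ ∉ P ^ 2 := hz2 ⟨P, hP'⟩
      constructor
      · have h4 := P.add_mem (Ideal.pow_le_self two_ne_zero h1) h2
        rwa [sub_add_cancel] at h4
      · intro h4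
        apply h3
        have h5 := (P ^ 2).sub_mem h4 h1
        rwa [sub_sub_cancel] at h5
    refine ⟨y, ?_, fun P hP => ⟨(key P hP).1, fun c hc => ?_⟩⟩
    · obtain ⟨P, hP⟩ := hne
      intro h0
      apply (key P hP).2
      rw [h0]
      exact Ideal.zero_mem _
    · have := hS1 P hP
      exact unif_of_notMem_sq (hS2 P hP) (key P hP).1 (key P hP).2 hc
  · rw [Set.not_nonempty_iff_eq_empty] at hne
    refine ⟨1, one_ne_zero, fun P hP => ?_⟩
    rw [hne] at hP
    exact absurd hP (Set.notMem_empty P)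
-- END CO3

variable [Group G] [Finite G] [MulSemiringAction G O] [MulSemiringAction G M]

-- BEGIN CO4
/-- TASK CO4. There are finitely many primes over `p`, they are the `g P` (CO1). With the element `y` of CO3: for `g ∈ G` and a prime `P'` over `p` also `g y ∈ P'` (`y` is in
`g⁻¹ P'`, a prime over `p`), so `n (g y) = d y`, `n ∉ P'`; the fraction `η = g y / y` (an element of the image of `L`) is in `lamP O L M P'` for all `P'`, hence in
`lamP O L M p` (CO2). -/
theorem exists_unif (hG : GalExt R O G) (hOL : Function.Injective (algebraMap O L))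
    (hO : ∀ (g : G) c, g • oM O L M c = oM O L M (g • c))
    {p : Ideal R} [p.IsPrime] (hp0 : p ≠ ⊥) {P : Ideal O} [P.IsPrime]
    (hP : P.comap (algebraMap R O) = p) :
    ∃ y : O, y ≠ 0 ∧ (∀ g : G, ∃ η ∈ lamP O L M p, g • oM O L M y = η * oM O L M y) ∧
      y ∈ P ∧ ∀ c ∈ P, ∃ n, n ∉ P ∧ ∃ d, n * c = d * y := by
  have hint : Algebra.IsIntegral R O := hG.isIntegral
  -- the primes over `p`
  have hS : {P' : Ideal O | P'.IsPrime ∧ P'.comap (algebraMap R O) = p}.Finite := by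
    have h1 : (Set.range fun g : G => {c : O | g⁻¹ • c ∈ P}).Finite := Set.finite_range _
    refine Set.Finite.of_finite_image (f := fun P' : Ideal O => (P' : Set O))
      (h1.subset ?_) SetLike.coe_injective.injOn
    rintro _ ⟨P', ⟨hP', hP'p⟩, rfl⟩
    obtain ⟨g, hg⟩ := hG.exists_smul (hP.trans hP'p.symm)
    exact ⟨g, Set.ext fun c => (hg c).symm⟩
  have hbot : ∀ P' : Ideal O, P'.comap (algebraMap R O) = p → P' ≠ ⊥ := by
    rintro P' h1 rfl
    refine hp0 ?_
    rw [← h1, eq_bot_iff]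
    intro a ha
    rw [Ideal.mem_comap, Ideal.mem_bot] at ha
    rw [Ideal.mem_bot]
    exact hG.inj (ha.trans (map_zero _).symm)
  obtain ⟨y, hy0, hy⟩ := exists_common_unif hS (fun P' h => h.1) fun P' h => hbot P' h.2
  refine ⟨y, hy0, fun g => ?_, hy P ⟨inferInstance, hP⟩⟩
  have hy0' : algebraMap O L y ≠ 0 := fun h => hy0 (hOL (h.trans (map_zero _).symm))
  refine ⟨algebraMap L M (algebraMap O L (g • y) / algebraMap O L y), ?_, ?_⟩
  · refine mem_lamP_of_forall ⟨_, rfl⟩ fun P' hP' hP'p => ?_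
    -- `g • y ∈ P'`
    have hgP : (P'.comap (MulSemiringAction.toRingHom G O g)).comap (algebraMap R O) = p := by
      rw [← hP'p]
      ext a
      rw [Ideal.mem_comap, Ideal.mem_comap, Ideal.mem_comap]
      change g • algebraMap R O a ∈ P' ↔ _
      rw [hG.fix]
    have h2 : g • y ∈ P' := (hy (P'.comap (MulSemiringAction.toRingHom G O g))
      ⟨Ideal.comap_isPrime _ _, hgP⟩).1
    obtain ⟨n, hn, d, hnd⟩ := (hy P' ⟨hP', hP'p⟩).2 _ h2
    refine ⟨n, hn, d, ?_, _, rfl⟩
    rw [IsScalarTower.algebraMap_apply O L M, ← map_mul, oM, RingHom.comp_apply]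
    congr 1
    rw [← mul_div_assoc, div_eq_iff hy0', ← map_mul, ← map_mul, hnd]
  · rw [hO, oM, RingHom.comp_apply, RingHom.comp_apply, ← map_mul, div_mul_cancel₀ _ hy0']
-- END CO4

-- BEGIN CO5
private theorem co5_exists {P : Ideal O} [hP : P.IsPrime] (hP0 : P ≠ ⊥) (g : G) :
    ∃ t : O, t ∉ P ∧ (¬ (∀ c ∈ P, g • c ∈ P) → g • t ∈ P) := by
  by_cases h : ∀ c ∈ P, g • c ∈ P
  · exact ⟨1, fun h1 => hP.ne_top ((Ideal.eq_top_iff_one _).mpr h1), fun h2 => absurd h h2⟩
  · have h1 : ∃ t ∈ P.comap (MulSemiringAction.toRingHom G O g), t ∉ P := by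
      by_contra hne
      push Not at hne
      have hle : P.comap (MulSemiringAction.toRingHom G O g) ≤ P := hne
      have hpr : (P.comap (MulSemiringAction.toRingHom G O g)).IsPrime := Ideal.comap_isPrime _ _
      have hbot : P.comap (MulSemiringAction.toRingHom G O g) ≠ ⊥ := by
        intro h0
        obtain ⟨c, hc, hc0⟩ := Submodule.exists_mem_ne_zero_of_ne_bot hP0
        have hc1 : g⁻¹ • c ∈ P.comap (MulSemiringAction.toRingHom G O g) := by
          rw [Ideal.mem_comap]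
          change g • g⁻¹ • c ∈ P
          rw [smul_inv_smul]
          exact hc
        rw [h0, Ideal.mem_bot] at hc1
        exact hc0 ((smul_eq_zero_iff_eq g⁻¹).1 hc1)
      have hmax : (P.comap (MulSemiringAction.toRingHom G O g)).IsMaximal :=
        hpr.isMaximal hbot
      have heq := hmax.eq_of_le hP.ne_top hle
      refine h fun c hc => ?_
      have hc2 : c ∈ P.comap (MulSemiringAction.toRingHom G O g) := by
        rw [heq]
        exact hc
      exact hc2
    obtain ⟨t, ht, htP⟩ := h1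
    exact ⟨t, htP, fun _ => ht⟩

/-- TASK CO5. For every `g` with not `g P ≤ P` the prime `P_g = {c | g • c ∈ P}` (a maximal ideal) is not contained in `P`: choose `t_g ∈ P_g`, `t_g ∉ P`. Take
`e = ∏ t_g ^ N` over these `g`; `g • e` is a multiple of `(g • t_g) ^ N`. -/
theorem exists_e {P : Ideal O} [P.IsPrime] (hP0 : P ≠ ⊥) (N : ℕ) :
    ∃ e : O, e ∉ P ∧ ∀ g : G, ¬ (∀ c ∈ P, g • c ∈ P) → g • e ∈ P ^ N := by
  classical
  have hfin := Fintype.ofFinite G
  choose t ht ht' using fun g : G => co5_exists (G := G) hP0 g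
  refine ⟨∏ g, t g ^ N, ?_, ?_⟩
  · intro h
    obtain ⟨g, -, hg⟩ := (Ideal.IsPrime.prod_mem_iff).1 h
    exact ht g (Ideal.IsPrime.mem_of_pow_mem inferInstance N hg)
  · intro g hg
    rw [← Finset.mul_prod_erase Finset.univ (fun g => t g ^ N) (Finset.mem_univ g), smul_mul',
      smul_pow']
    exact Ideal.mul_mem_right _ _ (Ideal.pow_mem_pow (ht' g hg) N)
-- END CO5

-- BEGIN CO6
/-- TASK CO6. `WfDvdMonoid.max_power_factor`: `(n) = P ^ v * J`, `J` not contained in `P`. Take `N = v` and `t ∈ J`, `t ∉ P`: for `c ∈ P ^ v`, `t c ∈ (n)`, `t c = d n`, and `oM t` is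
a unit of `lamP O L M P`. -/
theorem exists_pow_le (hOL : Function.Injective (algebraMap O L)) {P : Ideal O} [P.IsPrime]
    (hP0 : P ≠ ⊥) {n : O} (hn : n ≠ 0) :
    ∃ N : ℕ, ∀ c ∈ P ^ N, ∃ a ∈ lamP O L M P, oM O L M c = a * oM O L M n := by
  classical
  have hspan : Ideal.span {n} ≠ (⊥ : Ideal O) := by
    simpa [Ideal.span_singleton_eq_bot] using hn
  have hPirr : ¬ IsUnit P := by
    rw [Ideal.isUnit_iff]
    exact Ideal.IsPrime.ne_top inferInstance
  obtain ⟨v, J, hJ, hPJ⟩ := WfDvdMonoid.max_power_factor (a₀ := Ideal.span {n}) (x := P)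
    hspan (by
      have := Ideal.prime_of_isPrime hP0 (inferInstance : P.IsPrime)
      exact this.irreducible)
  have hJP : ¬ J ≤ P := by
    intro h
    exact hJ (Ideal.dvd_iff_le.mpr h)
  obtain ⟨t, htJ, htP⟩ := SetLike.not_le_iff_exists.mp hJP
  refine ⟨v, fun c hc => ?_⟩
  have htc : c * t ∈ Ideal.span {n} := by
    rw [hPJ]
    exact Ideal.mul_mem_mul hc htJ
  obtain ⟨d, hd⟩ := Ideal.mem_span_singleton'.mp htc
  have ht0 : t ≠ 0 := fun h => htP (by rw [h]; exact P.zero_mem)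
  have htL : algebraMap O L t ≠ 0 := fun h => ht0 (hOL (by rw [h, map_zero]))
  refine ⟨algebraMap L M (algebraMap O L d / algebraMap O L t), ?_, ?_⟩
  · refine ⟨t, htP, d, ?_, _, rfl⟩
    rw [IsScalarTower.algebraMap_apply O L M, oM, RingHom.comp_apply, ← map_mul]
    congr 1
    field_simp
  · rw [oM, RingHom.comp_apply, RingHom.comp_apply, ← map_mul]
    congr 1
    rw [eq_comm, div_mul_eq_mul_div, div_eq_iff htL, ← map_mul, ← map_mul, hd]
-- END CO6

end Dedekind

section Graded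

variable {O L M I : Type} [CommRing O] [IsDomain O] [Field L] [Algebra O L] [IsFractionRing O L]
  [CommRing M] [Algebra L M] {ℳ : ℕ → Submodule L M} [GradedAlgebra ℳ] {x : I → M}

-- BEGIN CO7
/-- TASK CO7 (two statements). First: `m` is a linear combination of products of the `x i` (`Algebra.adjoin_eq_span`, `hgen`), a product of `k` of them is in `ℳ k`; take the component of
degree `δ` of both sides. (`(Set.range x) ^ δ` is the set of the products of `δ` of them.) Second: common denominators for one element, then for a finite set. -/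
theorem mem_span_pow (hxdeg : ∀ i, x i ∈ ℳ 1) (hgen : Algebra.adjoin L (Set.range x) = ⊤)
    {δ : ℕ} {m : M} (hm : m ∈ ℳ δ) : m ∈ Submodule.span L ((Set.range x) ^ δ) := by
  have hmon : ∀ z ∈ Submonoid.closure (Set.range x), ∃ k : ℕ, z ∈ (Set.range x) ^ k ∧ z ∈ ℳ k := by
    intro z hz
    induction hz using Submonoid.closure_induction with
    | mem y hy =>
      obtain ⟨i, rfl⟩ := hy
      exact ⟨1, by rw [pow_one]; exact ⟨i, rfl⟩, hxdeg i⟩
    | one => exact ⟨0, by rw [pow_zero]; exact Set.mem_one.2 rfl, SetLike.GradedOne.one_mem⟩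
    | mul a b _ _ ha hb =>
      obtain ⟨k, h1, h2⟩ := ha
      obtain ⟨k', h1', h2'⟩ := hb
      exact ⟨k + k', by rw [pow_add]; exact Set.mul_mem_mul h1 h1',
        SetLike.GradedMul.mul_mem h2 h2'⟩
  have hall : ∀ y ∈ Submodule.span L (Submonoid.closure (Set.range x) : Set M), ∀ n : ℕ,
      ((DirectSum.decompose ℳ y n : ℳ n) : M) ∈ Submodule.span L ((Set.range x) ^ n) := by
    intro y hy
    induction hy using Submodule.span_induction with
    | mem z hz =>
      intro n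
      obtain ⟨k, h1, h2⟩ := hmon z hz
      by_cases hk : k = n
      · subst hk
        rw [DirectSum.decompose_of_mem_same ℳ h2]
        exact Submodule.subset_span h1
      · rw [DirectSum.decompose_of_mem_ne ℳ h2 hk]
        exact Submodule.zero_mem _
    | zero =>
      intro n
      rw [DirectSum.decompose_zero]
      exact Submodule.zero_mem _
    | add a b _ _ ha hb =>
      intro n
      rw [DirectSum.decompose_add]
      exact Submodule.add_mem _ (ha n) (hb n)
    | smul c a _ ha =>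
      intro n
      rw [DirectSum.decompose_smul]
      exact Submodule.smul_mem _ c (ha n)
  have h1 : m ∈ Submodule.span L (Submonoid.closure (Set.range x) : Set M) := by
    rw [← Algebra.adjoin_eq_span, hgen]
    trivial
  have h2 := hall m h1 δ
  rwa [DirectSum.decompose_of_mem_same ℳ hm] at h2

theorem co7_one {δ : ℕ} {m : M} (hm : m ∈ Submodule.span L ((Set.range x) ^ δ))
    {Λ : Subring M} (hΛ : ∀ c : O, oM O L M c ∈ Λ) :
    ∃ n : O, n ≠ 0 ∧ oM O L M n * m ∈ Submodule.span Λ ((Set.range x) ^ δ) := by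
  have hsm : ∀ (n : O) (b : M), b ∈ Submodule.span Λ ((Set.range x) ^ δ) →
      oM O L M n * b ∈ Submodule.span Λ ((Set.range x) ^ δ) := fun n b hb =>
    Submodule.smul_mem _ (⟨oM O L M n, hΛ n⟩ : Λ) hb
  induction hm using Submodule.span_induction with
  | mem z hz => exact ⟨1, one_ne_zero, hsm 1 z (Submodule.subset_span hz)⟩
  | zero => exact ⟨1, one_ne_zero, hsm 1 0 (Submodule.zero_mem _)⟩
  | add a b _ _ ha hb =>
    obtain ⟨n, h1, h2⟩ := ha
    obtain ⟨n', h1', h2'⟩ := hb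
    refine ⟨n * n', mul_ne_zero h1 h1', ?_⟩
    have e : oM O L M (n * n') * (a + b) =
        oM O L M n' * (oM O L M n * a) + oM O L M n * (oM O L M n' * b) := by
      rw [map_mul]
      ring
    rw [e]
    exact Submodule.add_mem _ (hsm n' _ h2) (hsm n _ h2')
  | smul c a _ ha =>
    obtain ⟨n, h1, h2⟩ := ha
    obtain ⟨u, v, hv, rfl⟩ := IsFractionRing.div_surjective (A := O) c
    have hv0 : v ≠ 0 := nonZeroDivisors.ne_zero hv
    have hvL : algebraMap O L v ≠ 0 := fun h =>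
      hv0 ((IsFractionRing.to_map_eq_zero_iff (K := L)).1 h)
    refine ⟨v * n, mul_ne_zero hv0 h1, ?_⟩
    have e : oM O L M (v * n) * ((algebraMap O L u / algebraMap O L v) • a) =
        oM O L M u * (oM O L M n * a) := by
      have e1 : oM O L M v *
          algebraMap L M (algebraMap O L u / algebraMap O L v) = oM O L M u := by
        change algebraMap L M (algebraMap O L v) *
          algebraMap L M (algebraMap O L u / algebraMap O L v) =
          algebraMap L M (algebraMap O L u)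
        rw [← map_mul, mul_div_cancel₀ _ hvL]
      rw [Algebra.smul_def, map_mul, ← e1]
      ring
    rw [e]
    exact hsm u _ h2

theorem exists_denom (hxdeg : ∀ i, x i ∈ ℳ 1) (hgen : Algebra.adjoin L (Set.range x) = ⊤)
    {δ : ℕ} {S : Set M} (hS : S.Finite) (hSδ : ∀ m ∈ S, m ∈ ℳ δ) {Λ : Subring M}
    (hΛ : ∀ c : O, oM O L M c ∈ Λ) :
    ∃ n : O, n ≠ 0 ∧ ∀ m ∈ S, oM O L M n * m ∈ Submodule.span Λ ((Set.range x) ^ δ) := by
  induction S, hS using Set.Finite.induction_on with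
  | empty => exact ⟨1, one_ne_zero, fun m hm => absurd hm (Set.notMem_empty m)⟩
  | @insert a S _ _ ih =>
    obtain ⟨n, h1, h2⟩ := ih fun m hm => hSδ m (Set.mem_insert_of_mem _ hm)
    obtain ⟨n', h1', h2'⟩ := co7_one (mem_span_pow hxdeg hgen (hSδ a (Set.mem_insert _ _))) hΛ
    have hsm : ∀ (n : O) (b : M), b ∈ Submodule.span Λ ((Set.range x) ^ δ) →
        oM O L M n * b ∈ Submodule.span Λ ((Set.range x) ^ δ) := fun n b hb =>
      Submodule.smul_mem _ (⟨oM O L M n, hΛ n⟩ : Λ) hb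
    have hmul : ∀ p q : O, oM O L M (p * q) = oM O L M p * oM O L M q := fun p q =>
      map_mul _ p q
    refine ⟨n * n', mul_ne_zero h1 h1', fun m hm => ?_⟩
    rcases Set.mem_insert_iff.1 hm with rfl | hm
    · rw [hmul, mul_assoc]
      exact hsm n _ h2'
    · rw [mul_comm n, hmul, mul_assoc]
      exact hsm n' _ (h2 m hm)
-- END CO7

end Graded

section Sets

variable {R O L M F I G : Type} [CommRing R] [CommRing O] [IsDedekindDomain O] [Algebra R O]
  [Field L] [Algebra R L] [Algebra O L] [IsScalarTower R O L] [IsFractionRing O L] [CommRing M]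
  [IsDomain M] [Algebra L M] [Algebra R M] [IsScalarTower R L M] [Algebra O M]
  [IsScalarTower O L M] {ℳ : ℕ → Submodule L M} [GradedAlgebra ℳ] {x : I → M}
  [Group G] [Finite G] [MulSemiringAction G O] [MulSemiringAction G M] [Finite I]

-- BEGIN CO8
/-- TASK CO8. The finite set of all `g • b`, `b ∈ B j`, `j ≤ r`, has a common denominator `n ≠ 0` (CO7 with `Λ = lamP O L M P`). `N` from CO6 for `n ϖ ^ r`, `e` from CO5. Then for `g` with not `g P ≤ P`:
`g • (oM e * b) = oM (g • e) * (g • b) = a * oM ϖ ^ r * (oM n * (g • b))`. -/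
theorem exists_good_e {P : Ideal O} [P.IsPrime] (hP0 : P ≠ ⊥)
    (hO : ∀ (g : G) c, g • oM O L M c = oM O L M (g • c))
    (hgr : ∀ (g : G) n m, m ∈ ℳ n → g • m ∈ ℳ n) (hxdeg : ∀ i, x i ∈ ℳ 1)
    (hgen : Algebra.adjoin L (Set.range x) = ⊤) {δ r : ℕ} {B : ℕ → Set M}
    (hfin : ∀ j, (B j).Finite) (hdeg : ∀ j, ∀ b ∈ B j, b ∈ ℳ δ) {ϖ : O} (hϖ : ϖ ≠ 0) :
    ∃ e : O, e ∉ P ∧ ∀ g : G, ¬ (∀ c ∈ P, g • c ∈ P) → ∀ j ≤ r, ∀ b ∈ B j,
      g • (oM O L M e * b) ∈
        Submodule.span (lamP O L M P) (({oM O L M ϖ ^ r} : Set M) * (Set.range x) ^ δ) := by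
  have hOL : Function.Injective (algebraMap O L) := IsFractionRing.injective O L
  -- the conjugates
  have hSfin : (⋃ g : G, ⋃ j ∈ Finset.range (r + 1), (fun b : M => g • b) '' B j).Finite :=
    Set.finite_iUnion fun g => Set.Finite.biUnion (Finset.finite_toSet _) fun j _ =>
      (hfin j).image _
  have hmem : ∀ (g : G), ∀ j ≤ r, ∀ b ∈ B j,
      g • b ∈ ⋃ g : G, ⋃ j ∈ Finset.range (r + 1), (fun b : M => g • b) '' B j := by
    intro g j hj b hb
    rw [Set.mem_iUnion]
    refine ⟨g, ?_⟩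
    rw [Set.mem_iUnion₂]
    exact ⟨j, Finset.mem_range.2 (by omega), b, hb, rfl⟩
  have hSδ : ∀ m ∈ (⋃ g : G, ⋃ j ∈ Finset.range (r + 1), (fun b : M => g • b) '' B j),
      m ∈ ℳ δ := by
    intro m hm
    rw [Set.mem_iUnion] at hm
    obtain ⟨g, hm⟩ := hm
    rw [Set.mem_iUnion₂] at hm
    obtain ⟨j, -, b, hb, rfl⟩ := hm
    exact hgr g δ b (hdeg j b hb)
  obtain ⟨n, hn, hnS⟩ := exists_denom hxdeg hgen hSfin hSδ (Λ := lamP O L M P)
    (fun c => oM_mem_lamP P c)
  obtain ⟨N, hN⟩ := exists_pow_le (M := M) hOL hP0 (n := n * ϖ ^ r)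
    (mul_ne_zero hn (pow_ne_zero _ hϖ))
  obtain ⟨e, he, he'⟩ := exists_e (G := G) hP0 N
  refine ⟨e, he, fun g hg j hj b hb => ?_⟩
  obtain ⟨a, ha, hae⟩ := hN (g • e) (he' g hg)
  have h1 : g • (oM O L M e * b) = a * (oM O L M ϖ ^ r * (oM O L M n * (g • b))) := by
    rw [smul_mul', hO, hae, map_mul, map_pow]
    ring
  rw [h1]
  have h2 : oM O L M ϖ ^ r * (oM O L M n * (g • b)) ∈
      Submodule.span (lamP O L M P) (({oM O L M ϖ ^ r} : Set M) * (Set.range x) ^ δ) :=
    mul_mem_span (Submodule.subset_span rfl) (hnS _ (hmem g j hj b hb))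
  exact Submodule.smul_mem _ (⟨a, ha⟩ : lamP O L M P) h2
-- END CO8

/-- The combined sets: the conjugates of the `y ^ j x_i ^ δ` and of the `e b`. -/
def combB (G : Type) [Group G] [MulSemiringAction G M] (x : I → M) (y e : M) (δ : ℕ)
    (B : ℕ → Set M) (j : ℕ) : Set M :=
  {m | ∃ g : G, (∃ i, m = g • (y ^ j * x i ^ δ)) ∨ ∃ b ∈ B j, m = g • (e * b)}

-- BEGIN CO9
/-- TASK CO9. The combined sets satisfy the hypotheses. `fin`: finitely many `g`, `i`, `b`. `deg`: `oM_deg`, `hgr`. `pow`: `g = 1`. `star`: exact, `c = 1`. -/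
theorem centG_combB {p : Ideal R} [p.IsPrime] {y e : O} (hy : y ≠ 0)
    (hη : ∀ g : G, ∃ η ∈ lamP O L M p, g • oM O L M y = η * oM O L M y)
    (hgr : ∀ (g : G) n m, m ∈ ℳ n → g • m ∈ ℳ n) (hxdeg : ∀ i, x i ∈ ℳ 1)
    {δ r : ℕ} (hδ : 1 ≤ δ) {B : ℕ → Set M} (hfin : ∀ j, (B j).Finite)
    (hdeg : ∀ j, ∀ b ∈ B j, b ∈ ℳ δ) :
    CentG ℳ x G p y δ r (combB G x (oM O L M y) (oM O L M e) δ B) where
  ϖ0 := hy
  δpos := hδ
  fin j := by
    have h1 : combB G x (oM O L M y) (oM O L M e) δ B j ⊆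
        (⋃ g : G, Set.range fun i => g • (oM O L M y ^ j * x i ^ δ)) ∪
          ⋃ g : G, (fun b => g • (oM O L M e * b)) '' B j := by
      rintro m ⟨g, ⟨i, rfl⟩ | ⟨b, hb, rfl⟩⟩
      · exact Or.inl (Set.mem_iUnion.2 ⟨g, i, rfl⟩)
      · exact Or.inr (Set.mem_iUnion.2 ⟨g, b, hb, rfl⟩)
    exact ((Set.finite_iUnion fun g => Set.finite_range _).union
      (Set.finite_iUnion fun g => (hfin j).image _)).subset h1
  deg j := by
    have hpow : ∀ (c : O) (k : ℕ), oM O L M c ^ k ∈ ℳ 0 := fun c k => by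
      rw [← map_pow]
      exact oM_deg (ℳ := ℳ) _
    rintro m ⟨g, ⟨i, rfl⟩ | ⟨b, hb, rfl⟩⟩
    · refine hgr g δ _ ?_
      have h1 := SetLike.mul_mem_graded (hpow y j) (SetLike.pow_mem_graded δ (hxdeg i))
      rwa [zero_add, smul_eq_mul, mul_one] at h1
    · refine hgr g δ _ ?_
      have h1 := SetLike.mul_mem_graded (oM_deg (ℳ := ℳ) e) (hdeg j b hb)
      rwa [zero_add] at h1
  pow j i := ⟨1, Or.inl ⟨i, (one_smul G _).symm⟩⟩
  η := hη
  star g j := by
    rintro m ⟨h, hm⟩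
    refine ⟨1, Subring.one_mem _, g • m, ⟨g * h, ?_⟩, (one_mul _).symm⟩
    rcases hm with ⟨i, rfl⟩ | ⟨b, hb, rfl⟩
    · exact Or.inl ⟨i, smul_smul _ _ _⟩
    · exact Or.inr ⟨b, hb, smul_smul _ _ _⟩
-- END CO9

-- BEGIN CO10
/-- TASK CO10. The elements of the combined sets, at `P`. For `g • (y ^ j x_i ^ δ)`: `g • oM y = η oM y`, `oM y = θ oM ϖ` with `θ ∈ lamP O L M P` (`hϖ` for `c = y`), so it is
a multiple of `oM ϖ ^ j x_{i'} ^ δ ∈ B j`. For `g • (e b)` with `g P ≤ P`: `g • oM e ∈ lamP O L M P` and `hstab`. For the other `g`: `he`. -/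
theorem combB_mem {p : Ideal R} [p.IsPrime] {P : Ideal O} [P.IsPrime]
    (hP : P.comap (algebraMap R O) = p)
    (hO : ∀ (g : G) c, g • oM O L M c = oM O L M (g • c))
    (hstar : ∀ (g : G) l, ∃ l', g • x l = x l')
    {y e ϖ : O} (hη : ∀ g : G, ∃ η ∈ lamP O L M p, g • oM O L M y = η * oM O L M y)
    (hy : y ∈ P) (hϖ : ∀ c ∈ P, ∃ n, n ∉ P ∧ ∃ d, n * c = d * ϖ)
    {δ r : ℕ} {B : ℕ → Set M} (hpow : ∀ j i, oM O L M ϖ ^ j * x i ^ δ ∈ B j)
    (hstab : ∀ g : G, (∀ c ∈ P, g • c ∈ P) → ∀ j, ∀ b ∈ B j,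
      g • b ∈ Submodule.span (lamP O L M P) (B j))
    (he : ∀ g : G, ¬ (∀ c ∈ P, g • c ∈ P) → ∀ j ≤ r, ∀ b ∈ B j, g • (oM O L M e * b) ∈
        Submodule.span (lamP O L M P) (({oM O L M ϖ ^ r} : Set M) * (Set.range x) ^ δ))
    {j : ℕ} (hj : j ≤ r) {b : M} (hb : b ∈ combB G x (oM O L M y) (oM O L M e) δ B j) :
    b ∈ Submodule.span (lamP O L M P) (B j ∪ ({oM O L M ϖ ^ r} : Set M) * (Set.range x) ^ δ) := by
  obtain ⟨g, ⟨i, rfl⟩ | ⟨b', hb', rfl⟩⟩ := hb
  · obtain ⟨η, hη1, hη2⟩ := hη g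
    obtain ⟨θ, hθ1, hθ2⟩ : ∃ θ ∈ lamP O L M P, oM O L M y = θ * oM O L M ϖ := by
      obtain ⟨n, hn, d, hd⟩ := hϖ y hy
      have hn0 : algebraMap O L n ≠ 0 := by
        intro h0
        have h1 : n = 0 := IsFractionRing.injective O L (h0.trans (map_zero _).symm)
        exact hn (h1 ▸ P.zero_mem)
      have h1 : algebraMap O M n = algebraMap L M (algebraMap O L n) :=
        IsScalarTower.algebraMap_apply O L M n
      have h2 : algebraMap O L n * (algebraMap O L d / algebraMap O L n) = algebraMap O L d := by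
        field_simp
      have h3 : algebraMap O L n * algebraMap O L y = algebraMap O L d * algebraMap O L ϖ := by
        rw [← map_mul, ← map_mul, hd]
      have h4 : algebraMap O L y = algebraMap O L d / algebraMap O L n * algebraMap O L ϖ := by
        rw [div_mul_eq_mul_div, ← h3]
        field_simp
      refine ⟨algebraMap L M (algebraMap O L d / algebraMap O L n), ⟨n, hn, d, ?_, _, rfl⟩, ?_⟩
      · rw [h1, ← map_mul, h2]
        rfl
      · change algebraMap L M (algebraMap O L y) = _ * algebraMap L M (algebraMap O L ϖ)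
        rw [← map_mul, ← h4]
    obtain ⟨i', hi'⟩ := hstar g i
    have h5 : g • (oM O L M y ^ j * x i ^ δ) = (η * θ) ^ j * (oM O L M ϖ ^ j * x i' ^ δ) := by
      rw [smul_mul', smul_pow', smul_pow', hη2, hi', hθ2]
      ring
    rw [h5]
    have h6 : (η * θ) ^ j ∈ lamP O L M P :=
      (lamP O L M P).pow_mem ((lamP O L M P).mul_mem (lamP_le hP hη1) hθ1) j
    exact Submodule.smul_mem _ (⟨(η * θ) ^ j, h6⟩ : lamP O L M P)
      (Submodule.subset_span (Or.inl (hpow j i')))
  · by_cases hg : ∀ c ∈ P, g • c ∈ P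
    · rw [smul_mul', hO]
      exact Submodule.smul_mem _ (⟨oM O L M (g • e), oM_mem_lamP P (g • e)⟩ : lamP O L M P)
        (Submodule.span_mono Set.subset_union_left (hstab g hg j b' hb'))
    · exact Submodule.span_mono Set.subset_union_right (he g hg j hj b' hb')
-- END CO10

end Sets

section Sit

variable {M F I : Type} [CommRing M] [Field F] {ι : M →+* F} {x : I → M} {D : Subring F}
  {i : I} {β : ℕ → M}

-- BEGIN CO11
/-- TASK CO11. The fractions of a linear combination. For a subring `S` of `F` containing `ι Λ`: if `b ∈ span Λ T` and `ι t / z ∈ S` for all `t ∈ T` then `ι b / z ∈ S`. -/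
theorem frac_mem {Λ : Subring M} {S : Subring F} (hΛ : ∀ c ∈ Λ, ι c ∈ S) {T : Set M} {z : F}
    (hT : ∀ t ∈ T, ι t / z ∈ S) {b : M} (hb : b ∈ Submodule.span Λ T) : ι b / z ∈ S := by
  induction hb using Submodule.span_induction with
  | mem t ht => exact hT t ht
  | zero =>
    rw [map_zero, zero_div]
    exact S.zero_mem
  | add a b _ _ ha hb =>
    rw [map_add, add_div]
    exact S.add_mem ha hb
  | smul c b _ hb =>
    have h1 : ι (c • b) / z = ι c * (ι b / z) := by
      change ι ((c : M) * b) / z = _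
      rw [map_mul, mul_div_assoc]
    rw [h1]
    exact S.mul_mem (hΛ c c.2) hb

/-- The elements of `(range x) ^ δ`. -/
theorem frac_pow_mem {S : Subring F} (h0 : ι (x i) ≠ 0) (hc : ∀ k, ι (x k) / ι (x i) ∈ S) {δ : ℕ} {t : M}
    (ht : t ∈ (Set.range x) ^ δ) : ι t / ι (x i) ^ δ ∈ S := by
  induction δ generalizing t with
  | zero =>
    rw [pow_zero, Set.mem_one] at ht
    rw [ht, map_one, pow_zero, div_one]
    exact S.one_mem
  | succ δ ih =>
    rw [pow_succ] at ht
    obtain ⟨t', ht', _, ⟨k, rfl⟩, rfl⟩ := ht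
    change ι (t' * x k) / ι (x i) ^ (δ + 1) ∈ S
    rw [map_mul, pow_succ, mul_div_mul_comm]
    exact S.mul_mem (ih ht') (hc k)
-- END CO11

-- BEGIN CO12
/-- The fractions of the elements `ϖ ^ r t`. -/
theorem co12_frac {Λ' : Subring M} {B : ℕ → Set M} {r δ j : ℕ} {ϖ : M} {S : Subring F} {z : F}
    (hS : ∀ c ∈ Λ', ι c ∈ S) (hϖ : ϖ ∈ Λ') (h0 : ι (x i) ≠ 0)
    (hc : ∀ k, ι (x k) / ι (x i) ∈ S) (hj : j ≤ r) {t : M}
    (ht : t ∈ ({ϖ ^ r} : Set M) * (Set.range x) ^ δ) :
    ∃ s ∈ S, ι t / z = s * (ι (ϖ ^ j * x i ^ δ) / z) := by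
  obtain ⟨a, ha, t', ht', rfl⟩ := Set.mem_mul.1 ht
  obtain rfl : a = ϖ ^ r := ha
  refine ⟨ι ϖ ^ (r - j) * (ι t' / ι (x i) ^ δ),
    S.mul_mem (S.pow_mem (hS _ hϖ) _) (frac_pow_mem h0 hc ht'), ?_⟩
  have h1 : ι ϖ ^ r = ι ϖ ^ (r - j) * ι ϖ ^ j := by rw [← pow_add, Nat.sub_add_cancel hj]
  have h2 : ι (x i) ^ δ ≠ 0 := pow_ne_zero _ h0
  rw [map_mul, map_mul, map_pow, map_pow, map_pow, h1]
  field_simp

/-- One of the fractions is a unit. -/
theorem co12_unit {Λ Λ' : Subring M} {B B' : ℕ → Set M} {r δ : ℕ} {ϖ e e' : M}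
    (hD : LocSit ι x B' Λ r D i β) (hΛD : ∀ c ∈ Λ', ι c ∈ D) (hϖ : ϖ ∈ Λ')
    (he : e ∈ Λ') (he' : e' ∈ Λ') (hee : e * e' = 1) (heB : ∀ j, ∀ b ∈ B j, e * b ∈ B' j)
    (hpow : ∀ j i, ϖ ^ j * x i ^ δ ∈ B j)
    (hB' : ∀ j ≤ r, ∀ b ∈ B' j,
      b ∈ Submodule.span Λ' (B j ∪ ({ϖ ^ r} : Set M) * (Set.range x) ^ δ))
    {j : ℕ} (hj : j ∈ Finset.Icc 1 r) :
    (∀ b ∈ B j, ι b / ι (β j) ∈ D) ∧ ∃ b ∈ B j, ι b ≠ 0 ∧ ι (β j) / ι b ∈ D := by
  have hz : ι (β j) ≠ 0 := hD.β_ne j hj
  have hjr : j ≤ r := (Finset.mem_Icc.1 hj).2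
  have hB : ∀ b ∈ B j, ι b / ι (β j) ∈ D := by
    intro b hb
    have h1 := hD.ratio j hj _ (heB j b hb)
    have h2 := D.mul_mem (hΛD _ he') h1
    have h3 : ι e' * (ι (e * b) / ι (β j)) = ι b / ι (β j) := by
      have h4 : ι e' * ι e = 1 := by rw [← map_mul, mul_comm e' e, hee, map_one]
      rw [map_mul, mul_div_assoc, ← mul_assoc, h4, one_mul]
    rwa [h3] at h2
  refine ⟨hB, ?_⟩
  by_contra hcon
  have := hD.loc
  have hmax : ∀ b (hb : b ∈ B j), (⟨ι b / ι (β j), hB b hb⟩ : D) ∈ IsLocalRing.maximalIdeal D := by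
    intro b hb
    rw [IsLocalRing.mem_maximalIdeal, mem_nonunits_iff]
    rintro hu
    obtain ⟨w, hw⟩ := hu.exists_right_inv
    have hw' : (ι b / ι (β j)) * (w : F) = 1 := congrArg Subtype.val hw
    have hb0 : ι b ≠ 0 := by
      intro h0
      rw [h0, zero_div, zero_mul] at hw'
      exact zero_ne_one hw'
    refine hcon ⟨b, hb, hb0, ?_⟩
    have h5 : ι (β j) / ι b = (w : F) := by
      field_simp at hw' ⊢
      rw [← hw']
    rw [h5]
    exact w.2
  have hall : ∀ m ∈ Submodule.span Λ' (B j ∪ ({ϖ ^ r} : Set M) * (Set.range x) ^ δ),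
      ∃ d ∈ IsLocalRing.maximalIdeal D, (d : F) = ι m / ι (β j) := by
    intro m hm
    induction hm using Submodule.span_induction with
    | mem t ht =>
      rcases ht with ht | ht
      · exact ⟨_, hmax t ht, rfl⟩
      · obtain ⟨s, hs, hst⟩ := co12_frac (B := B) (z := ι (β j)) hΛD hϖ hD.ne hD.coord hjr ht
        exact ⟨⟨s, hs⟩ * ⟨_, hB _ (hpow j i)⟩, Ideal.mul_mem_left _ _ (hmax _ (hpow j i)),
          hst.symm⟩
    | zero => exact ⟨0, Ideal.zero_mem _, by simp⟩
    | add a b _ _ ha hb =>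
      obtain ⟨d, hd, hda⟩ := ha
      obtain ⟨d', hd', hdb⟩ := hb
      exact ⟨d + d', Ideal.add_mem _ hd hd', by
        rw [Subring.coe_add, hda, hdb, map_add, add_div]⟩
    | smul c a _ ha =>
      obtain ⟨d, hd, hda⟩ := ha
      exact ⟨⟨ι c, hΛD _ c.2⟩ * d, Ideal.mul_mem_left _ _ hd, by
        rw [Subring.coe_mul, hda, Subring.smul_def, smul_eq_mul, map_mul, mul_div_assoc]⟩
  obtain ⟨d, hd, hd1⟩ := hall _ (hB' j hjr _ (hD.β_mem j hj))
  rw [div_self hz] at hd1
  obtain rfl : d = 1 := Subtype.ext hd1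
  exact (Ideal.ne_top_iff_one _).1 (IsLocalRing.maximalIdeal.isMaximal D).ne_top hd

/-- TASK CO12. **Comparison of the centres.** Let `j` be given, `1 ≤ j ≤ r`, `y = ι (x i) ^ δ`. All `ι b / ι (β j)`, `b ∈ B j`, are in `D` (`e b ∈ B' j`, `e` is a unit, `he`). One of them is a unit of `D`: `β j`
is in `span Λ' (B j ∪ ϖ ^ r (range x) ^ δ)` (`hB'`), and `ϖ ^ r t`, `t ∈ (range x) ^ δ`, is a multiple of `ϖ ^ j x_i ^ δ ∈ B j` in the sense of fractions (`frac_pow_mem`), so `1 = ι (β j) / ι (β j)` is a linear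
combination with coefficients in `D` of the `ι b / ι (β j)`, `b ∈ B j` (`Submodule.span_induction`; the set of the `m : M` for which `ι m / ι (β j)` is such a combination); in a local ring one of the elements is a unit (otherwise
all are in the maximal ideal). Choose `β' j ∈ B j` like this. `β_ne`, `ratio` are clear. `gen`: let `R'` be given; by `hD.gen` it is enough that `R'` contains `ι Λ` (`Λ ≤ Λ'`) and the
`ι b / ι (β j)`, `b ∈ B' j`. By CO11 and `hB'`, `ι b / ι (β' j) ∈ R'` (for `ϖ ^ r t`: `(ϖ ^ (r - j)) (ι t / ι (x i) ^ δ) (ι (ϖ ^ j x_i ^ δ) / ι (β' j))`), in particular `ι (β j) / ι (β' j) ∈ R'`, its inverse is in `D`, so in `R'`. -/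
theorem LocSit.compare {Λ Λ' : Subring M} (hΛ : Λ ≤ Λ') {B B' : ℕ → Set M} {r δ : ℕ} {ϖ e e' : M}
    (hD : LocSit ι x B' Λ r D i β) (hΛD : ∀ c ∈ Λ', ι c ∈ D) (hϖ : ϖ ∈ Λ')
    (he : e ∈ Λ') (he' : e' ∈ Λ') (hee : e * e' = 1) (heB : ∀ j, ∀ b ∈ B j, e * b ∈ B' j)
    (hpow : ∀ j i, ϖ ^ j * x i ^ δ ∈ B j)
    (hB' : ∀ j ≤ r, ∀ b ∈ B' j,
      b ∈ Submodule.span Λ' (B j ∪ ({ϖ ^ r} : Set M) * (Set.range x) ^ δ)) :
    ∃ β' : ℕ → M, LocSit ι x B Λ' r D i β' := by
  classical
  have key := fun j (hj : j ∈ Finset.Icc 1 r) =>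
    co12_unit hD hΛD hϖ he he' hee heB hpow hB' hj
  have key1 : ∀ j, ∃ b : M, j ∈ Finset.Icc 1 r → b ∈ B j ∧ ι b ≠ 0 ∧ ι (β j) / ι b ∈ D := by
    intro j
    by_cases hj : j ∈ Finset.Icc 1 r
    · obtain ⟨b, h1, h2, h3⟩ := (key j hj).2
      exact ⟨b, fun _ => ⟨h1, h2, h3⟩⟩
    · exact ⟨0, fun h => absurd h hj⟩
  choose β' hβ' using key1
  refine ⟨β', hD.loc, hΛD, hD.ne, hD.coord, fun j hj => (hβ' j hj).1, fun j hj => (hβ' j hj).2.1,
    fun j hj b hb => ?_, fun R' hR hinv hlam hcoord hrat => ?_⟩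
  · have hz := hD.β_ne j hj
    have h1 := D.mul_mem ((key j hj).1 b hb) (hβ' j hj).2.2
    have h2 : ι b / ι (β j) * (ι (β j) / ι (β' j)) = ι b / ι (β' j) := div_mul_div_cancel₀ hz
    rwa [h2] at h1
  · refine hD.gen R' hR hinv (fun c hc => hlam c (hΛ hc)) hcoord fun j hj b hb => ?_
    have hjr : j ≤ r := (Finset.mem_Icc.1 hj).2
    have hz := hD.β_ne j hj
    have hz' := (hβ' j hj).2.1
    have hfr : ∀ m ∈ B' j, ι m / ι (β' j) ∈ R' := by
      intro m hm
      refine frac_mem hlam ?_ (hB' j hjr m hm)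
      rintro t (ht | ht)
      · exact hrat j hj t ht
      · obtain ⟨s, hs, hst⟩ := co12_frac (B := B) (z := ι (β' j)) hlam hϖ hD.ne hcoord hjr ht
        rw [hst]
        exact R'.mul_mem hs (hrat j hj _ (hpow j i))
    have h1 : ι (β' j) / ι (β j) ∈ R' := by
      refine hinv _ (hfr _ (hD.β_mem j hj)) _ ((key j hj).1 _ (hβ' j hj).1) ?_
      rw [div_mul_div_cancel₀ hz', div_self hz]
    have h2 : ι b / ι (β' j) * (ι (β' j) / ι (β j)) = ι b / ι (β j) := div_mul_div_cancel₀ hz'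
    rw [← h2]
    exact R'.mul_mem (hfr b hb) h1
-- END CO12

end Sit

section Translate

variable {M F I G : Type} [CommRing M] [Field F] {ι : M →+* F} {x : I → M} {D : Subring F}
  {i : I} {β : ℕ → M} [Group G] [Finite G] [MulSemiringAction G M] [MulSemiringAction G F]

-- BEGIN CO13
theorem co13_mem {g : G} {z : F} :
    z ∈ D.map (MulSemiringAction.toRingHom G F g) ↔ g⁻¹ • z ∈ D := by
  rw [Subring.mem_map]
  constructor
  · rintro ⟨w, hw, rfl⟩
    rw [MulSemiringAction.toRingHom_apply, inv_smul_smul]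
    exact hw
  · intro h
    exact ⟨g⁻¹ • z, h, by rw [MulSemiringAction.toRingHom_apply, smul_inv_smul]⟩

theorem co13_div (h : G) (a b : F) : h • (a / b) = (h • a) / (h • b) :=
  map_div₀ (MulSemiringAction.toRingHom G F h) a b

/-- TASK CO13. Translation by `g`: the ring `g D`, the chart `x i' = g x_i`, `β' j = g • β j`. -/
theorem LocSit.smul (hF : ∀ (g : G) m, g • ι m = ι (g • m))
    (hstar : ∀ (g : G) l, ∃ l', g • x l = x l') {Λ : Subring M} {B : ℕ → Set M}
    (hΛ : ∀ g : G, ∀ c ∈ Λ, g • c ∈ Λ) (hB : ∀ (g : G) (j : ℕ), ∀ b ∈ B j, g • b ∈ B j) {r : ℕ}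
    (hD : LocSit ι x B Λ r D i β) (g : G) :
    ∃ (i' : I) (β' : ℕ → M),
      LocSit ι x B Λ r (D.map (MulSemiringAction.toRingHom G F g)) i' β' := by
  obtain ⟨i', hi'⟩ := hstar g i
  have h0 : ∀ z : F, z ≠ 0 → g • z ≠ 0 := fun z hz =>
    (map_ne_zero (MulSemiringAction.toRingHom G F g)).2 hz
  refine ⟨i', fun j => g • β j, ?_, ?_, ?_, ?_, ?_, ?_, ?_, ?_⟩
  · have := hD.loc
    exact (D.equivMapOfInjective (MulSemiringAction.toRingHom G F g)
      (MulSemiringAction.toRingHom G F g).injective).isLocalRing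
  · intro c hc
    rw [co13_mem, hF]
    exact hD.lam _ (hΛ _ c hc)
  · rw [← hi', ← hF]
    exact h0 _ hD.ne
  · intro k
    obtain ⟨k', hk'⟩ := hstar g⁻¹ k
    rw [co13_mem, co13_div, hF, hF, hk', ← hi', inv_smul_smul]
    exact hD.coord k'
  · intro j hj
    exact hB g j _ (hD.β_mem j hj)
  · intro j hj
    rw [← hF]
    exact h0 _ (hD.β_ne j hj)
  · intro j hj b hb
    rw [co13_mem, co13_div, hF, hF, inv_smul_smul]
    exact hD.ratio j hj _ (hB _ j b hb)
  · intro R' hR' hinv hlam hcoord hratio z hz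
    rw [co13_mem] at hz
    have h1 : D ≤ R'.comap (MulSemiringAction.toRingHom G F g) := by
      refine hD.gen _ ?_ ?_ ?_ ?_ ?_
      · intro w hw
        rw [Subring.mem_comap, MulSemiringAction.toRingHom_apply] at hw
        have h2 := hR' hw
        rwa [co13_mem, inv_smul_smul] at h2
      · intro a ha b hb hab
        rw [Subring.mem_comap, MulSemiringAction.toRingHom_apply] at ha ⊢
        refine hinv _ ha _ ?_ ?_
        · rw [co13_mem, inv_smul_smul]
          exact hb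
        · rw [← smul_mul', hab, smul_one]
      · intro c hc
        rw [Subring.mem_comap, MulSemiringAction.toRingHom_apply, hF]
        exact hlam _ (hΛ _ c hc)
      · intro k
        obtain ⟨k', hk'⟩ := hstar g k
        rw [Subring.mem_comap, MulSemiringAction.toRingHom_apply, co13_div, hF, hF, hk', hi']
        exact hcoord k'
      · intro j hj b hb
        rw [Subring.mem_comap, MulSemiringAction.toRingHom_apply, co13_div, hF, hF]
        exact hratio j hj _ (hB _ j b hb)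
    have h2 := h1 hz
    rwa [Subring.mem_comap, MulSemiringAction.toRingHom_apply, smul_inv_smul] at h2
-- END CO13

-- BEGIN CO14
theorem co14_inertia {g h : G} :
    InertiaG (D.map (MulSemiringAction.toRingHom G F g)) (g * h * g⁻¹) ↔ InertiaG D h := by
  have hm : ∀ z : F, z ∈ D → g • z ∈ D.map (MulSemiringAction.toRingHom G F g) := fun z hz =>
    ⟨z, hz, rfl⟩
  have hm' : ∀ z : F, z ∈ D.map (MulSemiringAction.toRingHom G F g) → g⁻¹ • z ∈ D := by
    rintro _ ⟨w, hw, rfl⟩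
    rw [MulSemiringAction.toRingHom_apply, inv_smul_smul]
    exact hw
  constructor
  · rintro ⟨h1, h2⟩
    refine ⟨fun z hz => ?_, fun z hz w hw hzw => ?_⟩
    · have h3 := hm' _ (h1 _ (hm z hz))
      rwa [mul_smul, mul_smul, inv_smul_smul, inv_smul_smul] at h3
    · refine h2 _ (hm z hz) _ (hm w hw) ?_
      rw [mul_smul, mul_smul, inv_smul_smul, ← smul_sub, ← smul_mul', hzw, smul_one]
  · rintro ⟨h1, h2⟩
    refine ⟨fun z hz => ?_, fun z hz w hw hzw => ?_⟩
    · rw [mul_smul, mul_smul]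
      exact hm _ (h1 _ (hm' z hz))
    · refine h2 _ (hm' z hz) _ (hm' w hw) ?_
      have h3 : g⁻¹ • (((g * h * g⁻¹) • z - z) * w) = 1 := by rw [hzw, smul_one]
      rwa [smul_mul', smul_sub, mul_smul, mul_smul, inv_smul_smul] at h3

/-- TASK CO14. The inertia group of `g D` is `g H g⁻¹`, and `z ↦ g • z` is an isomorphism of the rings of invariants (`IsRegularLocalRing.of_ringEquiv`). -/
theorem Good.of_map {g : G} (h : Good G (D.map (MulSemiringAction.toRingHom G F g))) :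
    Good G D := by
  obtain ⟨H', h1, h2⟩ := h
  have hH : ∀ k : G, k ∈ H'.comap (MulAut.conj g).toMonoidHom ↔ g * k * g⁻¹ ∈ H' := fun k =>
    Iff.rfl
  refine ⟨H'.comap (MulAut.conj g).toMonoidHom, fun k => ?_, ?_⟩
  · rw [hH, h1, co14_inertia]
  · let E : fixG H' (D.map (MulSemiringAction.toRingHom G F g)) ≃+*
        fixG (H'.comap (MulAut.conj g).toMonoidHom) D :=
      { toFun := fun z => ⟨g⁻¹ • (z : F), by
          obtain ⟨w, hw, hz⟩ := z.2.1
          rw [← hz, MulSemiringAction.toRingHom_apply, inv_smul_smul]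
          exact hw, fun k hk => by
          have h3 := z.2.2 _ ((hH k).1 hk)
          rw [mul_smul, mul_smul] at h3
          rw [eq_inv_smul_iff]
          exact h3⟩
        invFun := fun z => ⟨g • (z : F), ⟨(z : F), z.2.1, rfl⟩, fun k hk => by
          have h3 := z.2.2 (g⁻¹ * k * g) ((hH _).2 (by
            have h4 : g * (g⁻¹ * k * g) * g⁻¹ = k := by group
            rw [h4]
            exact hk))
          rw [mul_smul, mul_smul, inv_smul_eq_iff] at h3
          exact h3⟩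
        left_inv := fun z => Subtype.ext (smul_inv_smul g (z : F))
        right_inv := fun z => Subtype.ext (inv_smul_smul g (z : F))
        map_mul' := fun z w => Subtype.ext (smul_mul' g⁻¹ (z : F) (w : F))
        map_add' := fun z w => Subtype.ext (smul_add g⁻¹ (z : F) (w : F)) }
    exact IsRegularLocalRing.of_ringEquiv E
-- END CO14

end Translate

section Final

variable {R O L M F I G : Type} [CommRing R] [IsDedekindDomain R] [CommRing O]
  [IsDedekindDomain O] [Algebra R O]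
  [Field L] [Algebra R L] [Algebra O L] [IsScalarTower R O L] [IsFractionRing O L] [CommRing M]
  [IsDomain M] [Algebra L M] [Algebra R M] [IsScalarTower R L M] [Algebra O M]
  [IsScalarTower O L M] {ℳ : ℕ → Submodule L M} [GradedAlgebra ℳ] {x : I → M} [Field F]
  {ι : M →+* F} [Group G] [Finite G] [MulSemiringAction G O] [MulSemiringAction G M]
  [MulSemiringAction G F] [Finite I]

-- BEGIN CO15
/-- TASK CO15 (two statements). First: let `𝔮` be the prime ideal of the `c : O` for which `ι (oM c)` is not a unit of `D`. `𝔮 ∩ R ≤ p` (elements of `R ∖ p` are units of `lamP O L M p`). By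
`Ideal.exists_ideal_over_prime_of_isIntegral` there is a prime `P' ≥ 𝔮` over `p`. The elements of `O ∖ P'` are units of `D`. Second: `P' = g P` with CO1, and translate. -/
theorem exists_prime_lam (hG : GalExt R O G) {p : Ideal R} [p.IsPrime] {D : Subring F}
    (hD : IsLocalRing D) (hΛ : ∀ c ∈ lamP O L M p, ι c ∈ D) :
    ∃ (P : Ideal O) (_ : P.IsPrime), P.comap (algebraMap R O) = p ∧
      ∀ c ∈ lamP O L M P, ι c ∈ D := by
  have hOL : Function.Injective (algebraMap O L) := IsFractionRing.injective O L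
  have hRL : Function.Injective (algebraMap R L) := by
    rw [IsScalarTower.algebraMap_eq R O L]
    exact hOL.comp hG.inj
  obtain ⟨f, hf⟩ : ∃ f : O →+* D, ∀ c, ((f c : D) : F) = ι (oM O L M c) :=
    ⟨(ι.comp (oM O L M)).codRestrict D fun c => hΛ _ (oM_mem_lamP p c), fun _ => rfl⟩
  have hint : Algebra.IsIntegral R O := hG.isIntegral
  have hle : ((IsLocalRing.maximalIdeal D).comap f).comap (algebraMap R O) ≤ p := by
    intro n hn
    by_contra hnp
    obtain ⟨l, hl⟩ := exists_inv (L := L) (M := M) hRL hnp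
    have hmem : algebraMap L M l ∈ lamP O L M p := ⟨n, hnp, 1, by rw [hl, map_one], l, rfl⟩
    rw [Ideal.mem_comap, Ideal.mem_comap, IsLocalRing.mem_maximalIdeal] at hn
    refine hn (IsUnit.of_mul_eq_one ⟨ι (algebraMap L M l), hΛ _ hmem⟩ (Subtype.ext ?_))
    rw [Subring.coe_mul, hf, oM_algebraMap, ← map_mul, hl, map_one, Subring.coe_one]
  obtain ⟨P, hPge, hP, hPp⟩ := Ideal.exists_ideal_over_prime_of_isIntegral p
    ((IsLocalRing.maximalIdeal D).comap f) hle
  refine ⟨P, hP, hPp, fun c hc => ?_⟩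
  obtain ⟨n, hn, c', hc', -⟩ := hc
  have hu : IsUnit (f n) := by
    by_contra hcon
    exact hn (hPge (Ideal.mem_comap.2 ((IsLocalRing.mem_maximalIdeal _).2 hcon)))
  obtain ⟨w, hw⟩ := hu.exists_right_inv
  have hw' : ι (oM O L M n) * (w : F) = 1 := by
    have h3 := congrArg Subtype.val hw
    rwa [Subring.coe_mul, hf, Subring.coe_one] at h3
  have hn' : algebraMap O M n = oM O L M n := by
    rw [oM, RingHom.comp_apply, ← IsScalarTower.algebraMap_apply O L M]
  rw [hn'] at hc'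
  have h4 : ι c = ι (oM O L M c') * (w : F) := by
    rw [← hc', map_mul]
    linear_combination (-ι c) * hw'
  rw [h4]
  exact D.mul_mem (hΛ _ (oM_mem_lamP p c')) w.2

theorem exists_smul_lam (hG : GalExt R O G) (hO : ∀ (g : G) c, g • oM O L M c = oM O L M (g • c))
    (hF : ∀ (g : G) m, g • ι m = ι (g • m)) (hOL : Function.Injective (algebraMap O L))
    {p : Ideal R} [p.IsPrime] {P : Ideal O} [P.IsPrime]
    (hP : P.comap (algebraMap R O) = p) {D : Subring F}
    (hD : IsLocalRing D) (hΛ : ∀ c ∈ lamP O L M p, ι c ∈ D) :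
    ∃ g : G, ∀ c ∈ lamP O L M P, ι c ∈ D.map (MulSemiringAction.toRingHom G F g) := by
  obtain ⟨P', hP', hPp, hD'⟩ := exists_prime_lam hG hD hΛ
  obtain ⟨g, hg⟩ := hG.exists_smul (P := P) (P' := P') (hP.trans hPp.symm)
  refine ⟨g⁻¹, fun c hc => ?_⟩
  obtain ⟨n, hn, c', hc', -⟩ := hc
  have hn' : ∀ n : O, algebraMap O M n = oM O L M n := by
    intro n
    rw [oM, RingHom.comp_apply, ← IsScalarTower.algebraMap_apply O L M]
  have h1 : oM O L M (g • n) * (g • c) = oM O L M (g • c') := by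
    rw [← hO, ← hO, ← hc', smul_mul', hn']
  have hgn : g • n ≠ 0 := by
    intro h
    have h2 : n = 0 := by
      have h3 := congrArg (fun z => g⁻¹ • z) h
      simpa using h3
    exact hn (by rw [h2]; exact P.zero_mem)
  have hLn : algebraMap O L (g • n) ≠ 0 := fun h => hgn (hOL (h.trans (map_zero _).symm))
  have h2 : oM O L M (g • n) * algebraMap L M (algebraMap O L (g • n))⁻¹ = 1 := by
    rw [oM, RingHom.comp_apply, ← map_mul, mul_inv_cancel₀ hLn, map_one]
  have h3 : algebraMap L M (algebraMap O L (g • c') * (algebraMap O L (g • n))⁻¹) = g • c := by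
    rw [map_mul]
    have h4 : algebraMap L M (algebraMap O L (g • c')) = oM O L M (g • c') := rfl
    rw [h4, ← h1]
    linear_combination (g • c) * h2
  have h5 : g • c ∈ lamP O L M P' := by
    refine ⟨g • n, ?_, g • c', ?_, _, h3⟩
    · rw [hg, inv_smul_smul]
      exact hn
    · rw [hn', h1]
  refine ⟨ι (g • c), hD' _ h5, ?_⟩
  rw [MulSemiringAction.toRingHom_apply, hF, inv_smul_smul]
-- END CO15

/-- The centre and the local theorem at a prime `P` of `O`. -/
structure LocP (ℳ : ℕ → Submodule L M) (x : I → M) (ι : M →+* F) (G : Type) [Group G]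
    [MulSemiringAction G O] [MulSemiringAction G M] [MulSemiringAction G F]
    (P : Ideal O) [P.IsPrime] (ϖ : O) (δ r : ℕ) (B : ℕ → Set M) : Prop where
  mem : ϖ ∈ P
  unif : ∀ c ∈ P, ∃ n, n ∉ P ∧ ∃ d, n * c = d * ϖ
  δpos : 1 ≤ δ
  fin : ∀ j, (B j).Finite
  deg : ∀ j, ∀ b ∈ B j, b ∈ ℳ δ
  pow : ∀ j i, oM O L M ϖ ^ j * x i ^ δ ∈ B j
  stab : ∀ g : G, (∀ c ∈ P, g • c ∈ P) → ∀ j, ∀ b ∈ B j,
    g • b ∈ Submodule.span (lamP O L M P) (B j)
  good : ∀ (D : Subring F) (i : I) (β : ℕ → M), LocSit ι x B (lamP O L M P) r D i β → Good G D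

-- BEGIN CO16
omit [IsDedekindDomain R] [IsDedekindDomain O] [IsFractionRing O L] [Field F] [Finite I]
  [Finite G] [Algebra O M] [IsScalarTower O L M] [MulSemiringAction G F] in
private theorem co16_lam (hG : GalExt R O G) (hOL : Function.Injective (algebraMap O L))
    (hO : ∀ (g : G) c, g • oM O L M c = oM O L M (g • c)) {p : Ideal R} [p.IsPrime] (g : G)
    {c : M} (hc : c ∈ lamP O L M p) : g • c ∈ lamP O L M p := by
  obtain ⟨n, hn, c', hc', l, hl⟩ := hc
  have h1 : algebraMap R M n * (g • c) = oM O L M (g • c') := by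
    have h2 : g • algebraMap R M n = algebraMap R M n := by
      rw [← oM_algebraMap (O := O) (L := L) (M := M) n, hO, hG.fix]
    rw [← hO, ← hc', smul_mul', h2]
  have hn0 : algebraMap R L n ≠ 0 := by
    intro h0
    rw [IsScalarTower.algebraMap_apply R O L] at h0
    have h2 : algebraMap R O n = 0 := hOL (h0.trans (map_zero _).symm)
    have h3 : n = 0 := hG.inj (h2.trans (map_zero _).symm)
    rw [h3] at hn
    exact hn (Ideal.zero_mem p)
  have hnM : algebraMap R M n ≠ 0 := by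
    rw [IsScalarTower.algebraMap_apply R L M]
    intro h0
    exact hn0 ((algebraMap L M).injective (h0.trans (map_zero _).symm))
  refine ⟨n, hn, g • c', h1, algebraMap O L (g • c') / algebraMap R L n, ?_⟩
  refine mul_left_cancel₀ hnM ?_
  rw [h1, oM, RingHom.comp_apply, IsScalarTower.algebraMap_apply R L M, ← map_mul,
    mul_div_cancel₀ _ hn0]

/-- TASK CO16. **The combination of the centres at the primes over `p`.** `y` from CO4, `e` from CO8 (`ϖ ≠ 0` since `P ≠ ⊥` and `unif`; `P ≠ ⊥` since `p ≠ ⊥`), `B' = combB ..`, CO9. Let `D` be given.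
By CO15 there is `g` such that `g D` contains `ι (lamP O L M P)`; by CO13 it is in the situation of `B'` again (`lamP O L M p` is stable by `hO` and `hG.fix`; `combB` is stable). By CO12 (`heB`: `g = 1`; `hB'`: CO10; `e` is a unit since
`e ∉ P`; `Λ ≤ Λ'`: CO2) it is in the situation of `B`, so `Good` by `hL.good`; CO14. -/
theorem exists_centG (hG : GalExt R O G) (hO : ∀ (g : G) c, g • oM O L M c = oM O L M (g • c))
    (hF : ∀ (g : G) m, g • ι m = ι (g • m))
    (hgr : ∀ (g : G) n m, m ∈ ℳ n → g • m ∈ ℳ n) (hxdeg : ∀ i, x i ∈ ℳ 1)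
    (hstar : ∀ (g : G) l, ∃ l', g • x l = x l') (hgen : Algebra.adjoin L (Set.range x) = ⊤)
    {p : Ideal R} [p.IsPrime] (hp0 : p ≠ ⊥) {P : Ideal O} [P.IsPrime]
    (hP : P.comap (algebraMap R O) = p) {ϖ : O} {δ r : ℕ} {B : ℕ → Set M}
    (hL : LocP ℳ x ι G P ϖ δ r B) :
    ∃ (ϖ' : O) (δ' r' : ℕ) (B' : ℕ → Set M), CentG ℳ x G p ϖ' δ' r' B' ∧
      ∀ (D : Subring F) (i : I) (β : ℕ → M), LocSit ι x B' (lamP O L M p) r' D i β →
        Good G D := by
  have hOL : Function.Injective (algebraMap O L) := IsFractionRing.injective O L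
  have hP0 : P ≠ ⊥ := by
    rintro rfl
    refine hp0 ?_
    rw [← hP, eq_bot_iff]
    intro a ha
    rw [Ideal.mem_comap, Ideal.mem_bot] at ha
    rw [Ideal.mem_bot]
    exact hG.inj (ha.trans (map_zero _).symm)
  have hϖ0 : ϖ ≠ 0 := by
    intro h0
    obtain ⟨c, hc, hc0⟩ := Submodule.exists_mem_ne_zero_of_ne_bot hP0
    obtain ⟨n, hn, d, hnd⟩ := hL.unif c hc
    rw [h0, mul_zero] at hnd
    rcases mul_eq_zero.1 hnd with h | h
    · rw [h] at hn
      exact hn (Ideal.zero_mem P)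
    · exact hc0 h
  obtain ⟨y, hy0, hη, hyP, -⟩ := exists_unif (L := L) (M := M) hG hOL hO hp0 hP
  obtain ⟨e, heP, he⟩ := exists_good_e (r := r) hP0 hO hgr hxdeg hgen hL.fin hL.deg hϖ0
  refine ⟨y, δ, r, combB G x (oM O L M y) (oM O L M e) δ B,
    centG_combB hy0 hη hgr hxdeg hL.δpos hL.fin hL.deg, fun D i β hD => ?_⟩
  obtain ⟨g, hg⟩ := exists_smul_lam hG hO hF hOL hP hD.loc hD.lam
  have hB : ∀ (g : G) (j : ℕ), ∀ b ∈ combB G x (oM O L M y) (oM O L M e) δ B j,
      g • b ∈ combB G x (oM O L M y) (oM O L M e) δ B j := by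
    rintro g j m ⟨h, hm⟩
    refine ⟨g * h, ?_⟩
    rcases hm with ⟨i, rfl⟩ | ⟨b, hb, rfl⟩
    · exact Or.inl ⟨i, smul_smul _ _ _⟩
    · exact Or.inr ⟨b, hb, smul_smul _ _ _⟩
  obtain ⟨i', β', hD'⟩ := LocSit.smul hF hstar (fun g c hc => co16_lam hG hOL hO g hc) hB hD g
  -- the inverse of `e`
  have he0 : algebraMap O L e ≠ 0 := by
    intro h0
    have h1 : e = 0 := hOL (h0.trans (map_zero _).symm)
    rw [h1] at heP
    exact heP (Ideal.zero_mem P)
  have hee : oM O L M e * algebraMap L M (algebraMap O L e)⁻¹ = 1 := by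
    rw [oM, RingHom.comp_apply, ← map_mul, mul_inv_cancel₀ he0, map_one]
  have he' : algebraMap L M (algebraMap O L e)⁻¹ ∈ lamP O L M P :=
    ⟨e, heP, 1, by
      rw [IsScalarTower.algebraMap_apply O L M, ← map_mul, mul_inv_cancel₀ he0, map_one, map_one],
      _, rfl⟩
  obtain ⟨β'', hD''⟩ := LocSit.compare (lamP_le hP) hD' hg (oM_mem_lamP P ϖ) (oM_mem_lamP P e)
    he' hee (fun j b hb => ⟨1, Or.inr ⟨b, hb, (one_smul G _).symm⟩⟩) hL.pow
    (fun j hj b hb => combB_mem hP hO hstar hη hyP hL.unif hL.pow hL.stab he hj hb)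
  exact Good.of_map (hL.good _ _ _ hD'')
-- END CO16

end Final

end Pool.Agent.Lib.MP_6a3dac_ag.GI
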