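import Pool.Agent.Lib.MP_6a3dac_ag.QD.Abs

/-!
# Galois groups acting on graded rings: the basic notions
-/

set_option autoImplicit false
set_option linter.unusedSectionVars false
set_option linter.unusedVariables false

namespace Pool.Agent.Lib.MP_6a3dac_ag.GI

open Pool.Agent.Lib.MP_6a3dac_ag Pool.Agent.Lib.MP_6a3dac_ag.QD

/-- `O` is a Galois extension of `R` with the group `G`. -/
structure GalExt (R O G : Type) [CommRing R] [CommRing O] [Algebra R O] [Group G]
    [MulSemiringAction G O] : Prop where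
  inj : Function.Injective (algebraMap R O)
  fix : ∀ (g : G) (a : R), g • algebraMap R O a = algebraMap R O a
  of_fix : ∀ c : O, (∀ g : G, g • c = c) → ∃ a, algebraMap R O a = c
  faithful : ∀ g : G, g ≠ 1 → ∃ c : O, g • c ≠ c

/-- `O` is unramified at `p`: no `g ≠ 1` acts trivially modulo a prime over `p`. -/
def UnramG {R : Type} (O G : Type) [CommRing R] [CommRing O] [Algebra R O] [Group G]
    [MulSemiringAction G O] (p : Ideal R) : Prop :=
  ∀ g : G, g ≠ 1 → ∃ n, n ∉ p ∧ algebraMap R O n ∈ Ideal.span (Set.range fun c : O => g • c - c)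

/-- The hypotheses on the generators of the ideals at one prime. -/
structure CentG {R O L M I : Type} [CommRing R] [CommRing O] [Algebra R O] [Field L] [Algebra R L]
    [Algebra O L] [IsScalarTower R O L] [CommRing M] [Algebra L M] [Algebra R M]
    [IsScalarTower R L M] (ℳ : ℕ → Submodule L M) [GradedAlgebra ℳ] (x : I → M)
    (G : Type) [Group G] [MulSemiringAction G M] (p : Ideal R) [p.IsPrime] (ϖ : O) (δ r : ℕ)
    (B : ℕ → Set M) : Prop where
  ϖ0 : ϖ ≠ 0
  δpos : 1 ≤ δ
  fin : ∀ j, (B j).Finite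
  deg : ∀ j, ∀ b ∈ B j, b ∈ ℳ δ
  pow : ∀ j i, oM O L M ϖ ^ j * x i ^ δ ∈ B j
  η : ∀ g : G, ∃ η ∈ lamP O L M p, g • oM O L M ϖ = η * oM O L M ϖ
  star : ∀ (g : G) (j : ℕ), ∀ b ∈ B j, ∃ c ∈ lamP O L M p, ∃ b' ∈ B j, g • b = c * b'

section Field

variable {G F : Type} [Group G] [Field F] [MulSemiringAction G F]

/-- The elements of `D` fixed by the subgroup `H`. -/
def fixG (H : Subgroup G) (D : Subring F) : Subring F where
  carrier := {z | z ∈ D ∧ ∀ h ∈ H, h • z = z}
  mul_mem' := by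
    rintro a b ⟨ha, ha'⟩ ⟨hb, hb'⟩
    exact ⟨D.mul_mem ha hb, fun h hh => by rw [smul_mul', ha' h hh, hb' h hh]⟩
  one_mem' := ⟨D.one_mem, fun h _ => smul_one h⟩
  add_mem' := by
    rintro a b ⟨ha, ha'⟩ ⟨hb, hb'⟩
    exact ⟨D.add_mem ha hb, fun h hh => by rw [smul_add, ha' h hh, hb' h hh]⟩
  zero_mem' := ⟨D.zero_mem, fun h _ => smul_zero h⟩
  neg_mem' := by
    rintro a ⟨ha, ha'⟩
    exact ⟨D.neg_mem ha, fun h hh => by rw [smul_neg, ha' h hh]⟩

theorem mem_fixG {H : Subgroup G} {D : Subring F} {z : F} :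
    z ∈ fixG H D ↔ z ∈ D ∧ ∀ h ∈ H, h • z = z := Iff.rfl

/-- The elements which map the local ring `D` to itself and act trivially on its residue field
(`G` is finite, so these `g` are automorphisms of `D`). -/
def InertiaG (D : Subring F) (g : G) : Prop :=
  (∀ z ∈ D, g • z ∈ D) ∧ ∀ z ∈ D, ∀ w ∈ D, (g • z - z) * w ≠ 1

/-- The ring of invariants of the inertia group of `D` is regular. -/
def Good (G : Type) [Group G] [MulSemiringAction G F] (D : Subring F) : Prop :=
  ∃ H : Subgroup G, (∀ g, g ∈ H ↔ InertiaG D g) ∧ IsRegularLocalRing (fixG H D)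

end Field

end Pool.Agent.Lib.MP_6a3dac_ag.GI
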