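import Pool.Agent.Lib.MP_6a3dac_ag.GI.Defs

/-!
# Galois extensions of number fields
-/

set_option autoImplicit false

namespace Pool.Agent.Lib.MP_6a3dac_ag.GI

open NumberField

variable (E N : Type) [Field E] [NumberField E] [Field N] [NumberField N] [Algebra E N]

theorem coe_gal_smul (g : N ≃ₐ[E] N) (c : 𝓞 N) : ((g • c : 𝓞 N) : N) = g (c : N) := rfl

theorem mapRingHom_gal (g : N ≃ₐ[E] N) (c : 𝓞 N) :
    RingOfIntegers.mapRingHom (g : N →+* N) c = g • c := rfl

/-- The ring of integers of a Galois extension. -/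
theorem galExt_of_isGalois [IsGalois E N] : GalExt (𝓞 E) (𝓞 N) (N ≃ₐ[E] N) where
  inj := FaithfulSMul.algebraMap_injective (𝓞 E) (𝓞 N)
  fix g a := by
    apply RingOfIntegers.ext
    rw [coe_gal_smul]
    change g (algebraMap (𝓞 N) N (algebraMap (𝓞 E) (𝓞 N) a)) =
      algebraMap (𝓞 N) N (algebraMap (𝓞 E) (𝓞 N) a)
    rw [← IsScalarTower.algebraMap_apply, IsScalarTower.algebraMap_apply (𝓞 E) E N, g.commutes]
  of_fix c hc := by
    have h1 : (c : N) ∈ Set.range (algebraMap E N) := by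
      rw [IsGalois.mem_range_algebraMap_iff_fixed]
      intro g
      exact congrArg (fun z : 𝓞 N => (z : N)) (hc g)
    obtain ⟨e, he⟩ := h1
    have h2 : IsIntegral ℤ e := by
      rw [← isIntegral_algebraMap_iff (algebraMap E N).injective, he]
      exact RingOfIntegers.isIntegral_coe c
    refine ⟨⟨e, h2⟩, RingOfIntegers.ext ?_⟩
    rw [← he]
    change algebraMap (𝓞 N) N (algebraMap (𝓞 E) (𝓞 N) ⟨e, h2⟩) = _
    rw [← IsScalarTower.algebraMap_apply, IsScalarTower.algebraMap_apply (𝓞 E) E N]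
    rfl
  faithful g hg := by
    by_contra hne
    push Not at hne
    apply hg
    apply AlgEquiv.ext
    intro z
    obtain ⟨a, b, hb, rfl⟩ := IsFractionRing.div_surjective (𝓞 N) z
    have h1 : ∀ c : 𝓞 N, g (algebraMap (𝓞 N) N c) = algebraMap (𝓞 N) N c := fun c =>
      congrArg (fun z : 𝓞 N => (z : N)) (hne c)
    rw [map_div₀, h1, h1]
    rfl

theorem finite_quotient {P : Ideal (𝓞 N)} (hP : P ≠ ⊥) : Finite (𝓞 N ⧸ P) :=
  Ideal.finiteQuotientOfFreeOfNeBot P hP

end Pool.Agent.Lib.MP_6a3dac_ag.GI
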