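import Pool.Agent.Lib.MP_6a3dac_ag.GI.StmtGr
import Pool.Agent.Lib.MP_6a3dac_ag.QWPresSch

/-!
# The schemes
-/

set_option autoImplicit false

namespace Pool.Agent.Lib.MP_6a3dac_ag

open MvPolynomial CategoryTheory Limits AlgebraicGeometry NumberField

namespace ConjData

attribute [local irreducible] hCommRing hAlgebra descRing descAlgebra

variable {K O N Φ G : Type} [CommRing K] [CommRing O] [CommRing N] [Algebra K N]
  (D : ConjData K O N Φ G) {n : ℕ} (𝔞 : HomIdeal O n) [Finite Φ] [Nonempty Φ]

/-- The graded algebra structure (its decomposition map is determined by the grading). -/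
noncomputable instance grAlgebra : GradedAlgebra (D.gr 𝔞) :=
  { (D.isInternal_gr 𝔞).chooseDecomposition, D.gradedMonoid_gr 𝔞 with }

/-- The scheme over `K` to which the product of the conjugates descends. -/
noncomputable def scheme : Scheme.{0} := Proj (D.gr 𝔞)

/-- Its structure morphism. -/
noncomputable def toBase : D.scheme 𝔞 ⟶ Spec (CommRingCat.of K) := projTo K (D.gr 𝔞)

end ConjData

section NumberFields

variable (E L N : Type) [Field E] [Field L] [Field N] [Algebra E L] [Algebra E N]

/-- The embeddings of `L` in `N` over `E`, restricted to the ring of integers of `L`, with the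
automorphisms of `N` over `E`. -/
noncomputable def embData : ConjData E (𝓞 L) N (L →ₐ[E] N) (N ≃ₐ[E] N) where
  ψ φ := (φ : L →+* N).comp (algebraMap (𝓞 L) L)
  s g := g
  π g φ := (g : N →ₐ[E] N).comp φ
  comm _ _ _ := rfl

variable {L N}

/-- The inertia group of the prime `P` of the ring of integers of `N`: the automorphisms of `N` over
`E` which act trivially modulo `P`. -/
def inertiaAt (P : Ideal (𝓞 N)) : Set (N ≃ₐ[E] N) :=
  {g | ∀ c : 𝓞 N, RingOfIntegers.mapRingHom (g : N →+* N) c - c ∈ P}

variable {E}

/-- The conjugate `Y^φ` of `Y = Proj (O_L[x_1, ..., x_n] / 𝔞)` is not smooth at the prime `P` of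
the ring of integers of `N`, i.e. `Y` is not smooth over the localization of the ring of integers
of `L` at the inverse image of `P` under `φ`. -/
def BadAt {n : ℕ} (𝔞 : HomIdeal (𝓞 L) n) (P : Ideal (𝓞 N)) [P.IsPrime] (φ : L →ₐ[E] N) : Prop :=
  ¬ SmoothOver 𝔞 (P.comap (RingOfIntegers.mapRingHom (φ : L →+* N)))

end NumberFields

end Pool.Agent.Lib.MP_6a3dac_ag
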