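import Pool.Agent.Lib.MP_6a3dac_ag.GI.Geo
import Pool.Agent.Lib.MP_6a3dac_ag.GI.Num
import Pool.Agent.Lib.MP_6a3dac_ag.GI.StmtSch
import Pool.Agent.Lib.MP_6a3dac_ag.W3.T1d

/-!
# The theorem on Weil restrictions
-/

set_option autoImplicit false

namespace Pool.Agent.Lib.MP_6a3dac_ag

open CategoryTheory Limits AlgebraicGeometry NumberField MvPolynomial

attribute [local instance] MvPolynomial.gradedAlgebra

theorem oneBad_of {E L N : Type} [Field E] [Field L] [Field N]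
    [Algebra E L] [Algebra E N] {n : ℕ} {𝔞 : HomIdeal (𝓞 L) n} {P : Ideal (𝓞 N)} [P.IsPrime]
    (hsm : ∀ φ : L →ₐ[E] N, BadAt 𝔞 P φ →
      (∀ ψ : L →ₐ[E] N, BadAt 𝔞 P ψ → ψ = φ) ∧ Nat.card (inertiaAt E P) = 1) :
    GI.OneBad 𝔞.toHom (fun φ : L →ₐ[E] N => RingOfIntegers.mapRingHom (φ : L →+* N))
      (N ≃ₐ[E] N) P := by
  intro φ hφ
  obtain ⟨h1, h2⟩ := hsm φ hφ
  refine ⟨h1, fun g hg => ?_⟩
  by_contra hne
  push Not at hne
  rw [Nat.card_eq_one_iff_unique] at h2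
  obtain ⟨h3, -⟩ := h2
  have h4 : (1 : N ≃ₐ[E] N) ∈ inertiaAt E P := by
    intro c
    have h5 : RingOfIntegers.mapRingHom ((1 : N ≃ₐ[E] N) : N →+* N) c = c := rfl
    rw [h5, sub_self]
    exact P.zero_mem
  have h6 : g ∈ inertiaAt E P := hne
  exact hg (congrArg Subtype.val (Subsingleton.elim (⟨g, h6⟩ : inertiaAt E P) ⟨1, h4⟩))

theorem exists_model_weilRestriction (E L N : Type) [Field E] [NumberField E] [Field L]
    [NumberField L] [Field N] [NumberField N] [Algebra E L] [Algebra E N] [IsGalois E N]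
    [Nonempty (L →ₐ[E] N)]
    (hin : ∀ (P : Ideal (𝓞 N)) [P.IsPrime], P ≠ ⊥ → Nat.card (inertiaAt E P) ≤ 3) (n : ℕ)
    (𝔞 : HomIdeal (𝓞 L) n) (hflat : Flat (hProjTo 𝔞))
    (hreg : ∀ y : hProj 𝔞, IsRegularLocalRing ((hProj 𝔞).presheaf.stalk y))
    (hgeom : GeomDomain 𝔞)
    (hsm : ∀ (P : Ideal (𝓞 N)) [P.IsPrime], P ≠ ⊥ → ∀ φ : L →ₐ[E] N, BadAt 𝔞 P φ →
      (∀ ψ : L →ₐ[E] N, BadAt 𝔞 P ψ → ψ = φ) ∧ Nat.card (inertiaAt E P) = 1) :
    ∃ (Y : Scheme.{0}) (g : Y ⟶ Spec (CommRingCat.of (𝓞 E))),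
      IsProper g ∧ Flat g ∧ (∀ y : Y, IsRegularLocalRing (Y.presheaf.stalk y)) ∧
      ∃ e : pullback g (Spec.map (CommRingCat.ofHom (algebraMap (𝓞 E) E))) ≅
          (embData E L N).scheme 𝔞,
        e.hom ≫ (embData E L N).toBase 𝔞 =
          pullback.snd g (Spec.map (CommRingCat.ofHom (algebraMap (𝓞 E) E))) := by
  have hf : Fintype (L →ₐ[E] N) := Fintype.ofFinite _
  have hdom : IsDomain ((embData E L N).MRing 𝔞) :=
    W3.isDomain_multRing (𝔟 := 𝔞.toHom.toIdeal) hgeom _ fun φ =>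
      (φ : L →+* N).injective.comp (IsFractionRing.injective (𝓞 L) L)
  refine GI.exists_model_weil_galois (R := 𝓞 E) (S := 𝓞 N) (O := 𝓞 L) (N := N) (G := N ≃ₐ[E] N)
    (ψ := (embData E L N).ψ) (π := (embData E L N).π) 𝔞.toHom
    (fun g φ c => rfl) (fun g h φ => rfl) (fun φ => rfl) (RingOfIntegers.not_isField E)
    (GI.galExt_of_isGalois E N) (fun P _ hP => hin P hP) (fun P _ hP => GI.finite_quotient N hP)
    (fun a1 a2 a3 hM hF => ?_)
    ((embData E L N).inv 𝔞) (fun z => (embData E L N).mem_inv_iff 𝔞 z) ((embData E L N).gr 𝔞)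
    ((embData E L N).grAlgebra 𝔞) (fun k a => (embData E L N).mem_gr_iff 𝔞 k a)
  refine GI.geoHyp_weil (R := 𝓞 E) (S := 𝓞 N) (O := 𝓞 L) (N := N) (G := N ≃ₐ[E] N)
    (ψ := (embData E L N).ψ) (π := (embData E L N).π) 𝔞.toHom
    (GI.galExt_of_isGalois E N) (f := fun φ => RingOfIntegers.mapRingHom (φ : L →+* N))
    (fun φ => ?_) (fun φ c => ?_) hflat hreg
    (fun g φ c => rfl) (fun g h φ => rfl) (fun φ => rfl) (fun g c => rfl) (fun φ c => rfl)
    (fun P _ hP => oneBad_of (hsm P hP)) (GI.fracι 𝔞.toHom.toIdeal)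
    (IsFractionRing.injective ((embData E L N).MRing 𝔞)
      (FractionRing ((embData E L N).MRing 𝔞))) hM hF
  · intro a b hab
    apply RingOfIntegers.ext
    exact (φ : L →+* N).injective (congrArg (fun z : 𝓞 N => (z : N)) hab)
  · apply RingOfIntegers.ext
    change φ (algebraMap (𝓞 L) L (algebraMap (𝓞 E) (𝓞 L) c)) =
      algebraMap (𝓞 N) N (algebraMap (𝓞 E) (𝓞 N) c)
    rw [← IsScalarTower.algebraMap_apply (𝓞 E) (𝓞 L) L,
      ← IsScalarTower.algebraMap_apply (𝓞 E) (𝓞 N) N, IsScalarTower.algebraMap_apply (𝓞 E) E L,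
      IsScalarTower.algebraMap_apply (𝓞 E) E N, φ.commutes]

end Pool.Agent.Lib.MP_6a3dac_ag
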