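import Pool.Agent.Lib.MP_6a3dac_ag.Mg.G029
import Mathlib

/-!
# Unramified primes: regularity of base changes
-/

set_option autoImplicit false
set_option linter.unusedSectionVars false
set_option linter.unusedVariables false

namespace Pool.Agent.Lib.MP_6a3dac_ag.GI

open Pool.Agent.Lib.MP_6a3dac_ag TensorProduct

/-- A localization at a prime is a localization of the localization at an element outside. -/
theorem isLocalization_of_away {S Sf SP : Type} [CommRing S] [CommRing Sf] [CommRing SP]
    [Algebra S Sf] [Algebra S SP] [Algebra Sf SP] [IsScalarTower S Sf SP] {P : Ideal S}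
    [P.IsPrime] {f : S} (hf : f ∉ P) [IsLocalization.Away f Sf] [IsLocalization.AtPrime SP P] :
    IsLocalization (Submonoid.map (algebraMap S Sf) P.primeCompl) SP := by
  have hle : Submonoid.powers f ≤ P.primeCompl := by
    rw [Submonoid.powers_le]
    exact hf
  exact IsLocalization.isLocalization_of_submonoid_le Sf SP (Submonoid.powers f) P.primeCompl hle

/-- **Regularity of the base change along an unramified local extension.** -/
theorem isRegularRing_baseChange_unram {A S SP C : Type} [CommRing A] [CommRing S] [Algebra A S]
    [Module.Flat A S] [Algebra.FinitePresentation A S] (P : Ideal S) [P.IsPrime]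
    [hU : Algebra.IsUnramifiedAt A P] [CommRing SP] [Algebra S SP] [IsLocalization.AtPrime SP P]
    [Algebra A SP] [IsScalarTower A S SP] [CommRing C] [Algebra A C] [IsRegularRing C] :
    IsRegularRing (SP ⊗[A] C) := by
  have hE : Algebra.IsEtaleAt A P := Algebra.IsEtaleAt.of_isUnramifiedAt_of_flat P
  obtain ⟨f, hf, het⟩ := Algebra.exists_etale_of_isEtaleAt (R := A) P
  have h1 : IsRegularRing (C ⊗[A] Localization.Away f) :=
    isRegularRing_of_smooth C (C ⊗[A] Localization.Away f)
  have h2 : IsRegularRing (Localization.Away f ⊗[A] C) :=
    IsRegularRing.of_ringEquiv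
      (Algebra.TensorProduct.comm A C (Localization.Away f)).toRingEquiv
  have hu : IsUnit (algebraMap S SP f) :=
    IsLocalization.map_units SP (⟨f, hf⟩ : P.primeCompl)
  let : Algebra (Localization.Away f) SP :=
    (IsLocalization.Away.lift f hu : Localization.Away f →+* SP).toAlgebra
  have hst : IsScalarTower S (Localization.Away f) SP := IsScalarTower.of_algebraMap_eq fun s =>
    (IsLocalization.Away.lift_eq f hu s).symm
  have hst' : IsScalarTower A (Localization.Away f) SP := by
    refine IsScalarTower.of_algebraMap_eq fun a => ?_
    rw [IsScalarTower.algebraMap_apply A S SP, IsScalarTower.algebraMap_apply A S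
      (Localization.Away f), IsScalarTower.algebraMap_apply S (Localization.Away f) SP]
  have hloc := isLocalization_of_away (Sf := Localization.Away f) (SP := SP) hf
  have h3 : IsRegularRing (SP ⊗[Localization.Away f] (Localization.Away f ⊗[A] C)) :=
    isRegularRing_baseChange (O := Localization.Away f) (O' := SP)
      (C := Localization.Away f ⊗[A] C)
      (Submonoid.map (algebraMap S (Localization.Away f)) P.primeCompl)
  exact IsRegularRing.of_ringEquiv
    (Algebra.TensorProduct.cancelBaseChange A (Localization.Away f) (Localization.Away f) SP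
      C).toRingEquiv

/-- A prime with trivial inertia group is unramified. -/
theorem isUnramifiedAt_of_inertia {R S : Type} (G : Type) [CommRing R] [CommRing S] [Algebra R S]
    [IsDomain R] [IsDomain S] [Module.Finite R S] [Module.Flat R S] [Group G] [Finite G]
    [MulSemiringAction G S] [IsGaloisGroup G R S] (P : Ideal S) [P.IsPrime]
    [PerfectField (P.under R).ResidueField] (hP : ∀ g : G, g ≠ 1 → ∃ c : S, g • c - c ∉ P) :
    Algebra.IsUnramifiedAt R P := by
  have h1 := Ideal.card_inertia_eq_ramificationIdxIn (G := G) (P.under R) P
  have h2 : P.inertia G = ⊥ := by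
    rw [eq_bot_iff]
    intro g hg
    rw [Subgroup.mem_bot]
    by_contra hg1
    obtain ⟨c, hc⟩ := hP g hg1
    exact hc (hg c)
  have h3 : Nat.card (P.inertia G) = 1 := by
    rw [h2]
    exact Subgroup.card_bot
  rw [h3, Ideal.ramificationIdxIn_eq_ramificationIdx (P.under R) P G] at h1
  exact Ideal.ramificationIdx_eq_one_iff.mp h1.symm

/-- The version for an intermediate ring. -/
theorem isUnramifiedAt_mid_of_inertia {R A S : Type} (G : Type) [CommRing R] [CommRing A]
    [CommRing S] [Algebra R S] [Algebra R A] [Algebra A S] [IsScalarTower R A S]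
    [IsDomain R] [IsDomain S] [Module.Finite R S] [Module.Flat R S] [Group G] [Finite G]
    [MulSemiringAction G S] [IsGaloisGroup G R S] (P : Ideal S) [P.IsPrime]
    [PerfectField (P.under R).ResidueField] (hP : ∀ g : G, g ≠ 1 → ∃ c : S, g • c - c ∉ P) :
    Algebra.IsUnramifiedAt A P := by
  have h := isUnramifiedAt_of_inertia (R := R) G P hP
  exact Algebra.IsUnramifiedAt.of_restrictScalars R P

end Pool.Agent.Lib.MP_6a3dac_ag.GI
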