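import Pool.Agent.Lib.MP_6a3dac_ag.GI.T2
import Pool.Agent.Lib.MP_6a3dac_ag.GI.Unram
import Pool.Agent.Lib.MP_6a3dac_ag.GI.Defs

/-!
# The arithmetic input: flatness, smoothness and regularity of the factors
-/

set_option autoImplicit false
set_option linter.unusedSectionVars false
set_option linter.unusedVariables false

namespace Pool.Agent.Lib.MP_6a3dac_ag.GI

open MvPolynomial TensorProduct Pool.Agent.Lib.MP_6a3dac_ag Pool.Agent.Lib.MP_6a3dac_ag.W3
  CategoryTheory AlgebraicGeometry

attribute [local instance] MvPolynomial.gradedAlgebra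

section Unramified

variable {R S G : Type} [CommRing R] [CommRing S] [Algebra R S] [Group G] [Finite G]
  [MulSemiringAction G S]

/-- Galois coordinates. -/
theorem exists_coordinates (hG : GalExt R S G) {P : Ideal S} [P.IsPrime]
    (hP : ∀ g : G, g ≠ 1 → ∃ c : S, g • c - c ∉ P) :
    ∃ (J : Type) (_ : Fintype J) (x y : J → S), (∀ g : G, g ≠ 1 → ∑ i, x i * g • y i = 0) ∧
      ∑ i, x i * y i ∉ P := by
  classical
  let := Fintype.ofFinite G
  choose! c hc using hP
  -- the maps of the tensor product
  let α : G → S →ₐ[R] S := fun g =>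
    { MulSemiringAction.toRingHom G S g with
      commutes' := fun r => hG.fix g r }
  let μ : G → S ⊗[R] S →ₐ[R] S := fun g =>
    Algebra.TensorProduct.productMap (AlgHom.id R S) (α g)
  have hμ : ∀ g a b, μ g (a ⊗ₜ b) = a * g • b := fun g a b => by
    change Algebra.TensorProduct.productMap (AlgHom.id R S) (α g) (a ⊗ₜ b) = _
    rw [Algebra.TensorProduct.productMap_apply_tmul]
    rfl
  let ε : S ⊗[R] S := ∏ v ∈ Finset.univ.erase (1 : G), (1 ⊗ₜ c v - (v • c v) ⊗ₜ 1)
  have hε : ∀ g, μ g ε = ∏ v ∈ Finset.univ.erase (1 : G), (g • c v - v • c v) := by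
    intro g
    change μ g (∏ v ∈ _, _) = _
    rw [map_prod]
    refine Finset.prod_congr rfl fun v _ => ?_
    rw [map_sub, hμ, hμ, one_mul, smul_one, mul_one]
  have key : ∀ z : S ⊗[R] S, ∃ (J : Type) (_ : Fintype J) (x y : J → S),
      z = ∑ i, x i ⊗ₜ y i := by
    intro z
    induction z using TensorProduct.induction_on with
    | zero => exact ⟨Empty, inferInstance, fun i => i.elim, fun i => i.elim, by simp⟩
    | tmul a b => exact ⟨Unit, inferInstance, fun _ => a, fun _ => b, by simp⟩
    | add s t hs ht =>
      obtain ⟨J, iJ, x, y, rfl⟩ := hs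
      obtain ⟨J', iJ', x', y', rfl⟩ := ht
      exact ⟨J ⊕ J', inferInstance, Sum.elim x x', Sum.elim y y', by
        rw [Fintype.sum_sum_type]; simp⟩
  obtain ⟨J, iJ, x, y, hxy⟩ := key ε
  have hsum : ∀ g, μ g ε = ∑ i, x i * g • y i := by
    intro g
    rw [hxy, map_sum]
    exact Finset.sum_congr rfl fun i _ => hμ g _ _
  refine ⟨J, iJ, x, y, ?_, ?_⟩
  · intro g hg
    rw [← hsum, hε]
    exact Finset.prod_eq_zero (Finset.mem_erase.mpr ⟨hg, Finset.mem_univ g⟩) (sub_self _)
  · have h1 := hsum 1
    simp only [one_smul] at h1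
    rw [← h1, hε]
    intro h2
    rw [Ideal.IsPrime.prod_mem_iff] at h2
    obtain ⟨v, hv, h3⟩ := h2
    rw [one_smul] at h3
    apply hc v (Finset.ne_of_mem_erase hv)
    rw [← neg_sub]
    exact P.neg_mem h3

/-- **Primes with trivial inertia group are unramified.** -/
theorem isUnramifiedAt_of_galExt (hG : GalExt R S G) [Algebra.EssFiniteType R S] (P : Ideal S)
    [hPp : P.IsPrime] (hP : ∀ g : G, g ≠ 1 → ∃ c : S, g • c - c ∉ P) :
    Algebra.IsUnramifiedAt R P := by
  classical
  let := Fintype.ofFinite G
  obtain ⟨J, _, x, y, hxy, hn⟩ := exists_coordinates hG hP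
  obtain ⟨n, hn'⟩ : ∃ n, n = ∑ i, x i * y i := ⟨_, rfl⟩
  rw [← hn'] at hn
  have htr : ∀ t : S, ∃ r : R, algebraMap R S r = ∑ g : G, g • t := by
    intro t
    apply hG.of_fix
    intro g
    rw [Finset.smul_sum]
    simp only [← mul_smul]
    exact Fintype.sum_equiv (Equiv.mulLeft g) _ _ fun _ => rfl
  choose tr htr using htr
  have hxy' : ∀ g : G, ∑ i, x i * g • y i = if g = 1 then n else 0 := by
    intro g
    split_ifs with h
    · rw [h, hn']
      simp only [one_smul]
    · exact hxy g h
  have hyx : ∀ g : G, ∑ i, y i * g • x i = if g = 1 then n else 0 := by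
    intro g
    have h1 : ∑ i, y i * g • x i = g • ∑ i, x i * g⁻¹ • y i := by
      rw [Finset.smul_sum]
      refine Finset.sum_congr rfl fun i _ => ?_
      rw [smul_mul', smul_inv_smul, mul_comm]
    rw [h1, hxy']
    by_cases hg : g = 1
    · rw [hg, inv_one, if_pos rfl, one_smul]
    · rw [if_neg (by rwa [inv_eq_one]), if_neg hg, smul_zero]
  have e1 : ∀ t, n * t = ∑ j, x j * algebraMap R S (tr (y j * t)) := by
    intro t
    have h1 : ∑ j, x j * algebraMap R S (tr (y j * t)) =
        ∑ g : G, (∑ j, x j * g • y j) * g • t := by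
      simp only [htr, Finset.mul_sum, Finset.sum_mul]
      rw [Finset.sum_comm]
      refine Finset.sum_congr rfl fun g _ => Finset.sum_congr rfl fun j _ => ?_
      rw [smul_mul']
      ring
    rw [h1]
    simp only [hxy', ite_mul, zero_mul, Finset.sum_ite_eq', Finset.mem_univ, if_true, one_smul]
  have e2 : ∀ t, n * t = ∑ j, y j * algebraMap R S (tr (x j * t)) := by
    intro t
    have h1 : ∑ j, y j * algebraMap R S (tr (x j * t)) =
        ∑ g : G, (∑ j, y j * g • x j) * g • t := by
      simp only [htr, Finset.mul_sum, Finset.sum_mul]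
      rw [Finset.sum_comm]
      refine Finset.sum_congr rfl fun g _ => Finset.sum_congr rfl fun j _ => ?_
      rw [smul_mul']
      ring
    rw [h1]
    simp only [hyx, ite_mul, zero_mul, Finset.sum_ite_eq', Finset.mem_univ, if_true, one_smul]
  -- the differential
  let D := KaehlerDifferential.D R S
  have hD : ∀ c, n • D (n * c) = 0 := by
    intro c
    have h1 : ∀ j, D (n * (c * y j)) = ∑ i, algebraMap R S (tr (x i * (c * y j))) • D (y i) := by
      intro j
      rw [e2, map_sum]
      refine Finset.sum_congr rfl fun i _ => ?_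
      rw [Derivation.leibniz, Derivation.map_algebraMap, smul_zero, zero_add]
    have h2 : ∑ j, x j • D (n * (c * y j)) = (n * c) • ∑ i, x i • D (y i) := by
      simp only [h1, Finset.smul_sum, smul_smul]
      rw [Finset.sum_comm]
      refine Finset.sum_congr rfl fun i _ => ?_
      rw [← Finset.sum_smul]
      congr 1
      have h3 := e1 (c * x i)
      rw [mul_assoc n c (x i), h3]
      refine Finset.sum_congr rfl fun j _ => ?_
      rw [show x i * (c * y j) = y j * (c * x i) by ring]
    have h3 : ∑ j, x j • D (n * (c * y j)) = (n * c) • ∑ i, x i • D (y i) + n • D (n * c) := by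
      have h4 : ∀ j, x j • D (n * (c * y j)) =
          (n * c) • (x j • D (y j)) + (x j * y j) • D (n * c) := by
        intro j
        rw [← mul_assoc, Derivation.leibniz, smul_add, smul_smul, smul_smul, smul_smul,
          mul_comm (x j) (n * c)]
      simp only [h4]
      rw [Finset.sum_add_distrib, ← Finset.smul_sum, ← Finset.sum_smul, ← hn']
    rw [h2] at h3
    exact left_eq_add.mp h3
  have hD2 : ∀ c, (n * n) • D c = 0 := by
    intro c
    have h1 := hD c
    have h2 := hD 1
    rw [mul_one] at h2
    rw [Derivation.leibniz, smul_add, smul_smul, smul_comm n c, h2, smul_zero, add_zero] at h1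
    exact h1
  have hall : ∀ m : Ω[S⁄R], (n * n) • m = 0 := by
    intro m
    have hm : m ∈ Submodule.span S (Set.range (KaehlerDifferential.D R S)) := by
      rw [KaehlerDifferential.span_range_derivation]
      exact Submodule.mem_top
    induction hm using Submodule.span_induction with
    | mem m hm =>
      obtain ⟨c, rfl⟩ := hm
      exact hD2 c
    | zero => exact smul_zero _
    | add a b _ _ ha hb => rw [smul_add, ha, hb, add_zero]
    | smul a b _ hb => rw [smul_comm, hb, smul_zero]
  have hmem : (⟨P, hPp⟩ : PrimeSpectrum S) ∈ Algebra.unramifiedLocus R S := by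
    rw [Algebra.unramifiedLocus_eq_compl_support, Set.mem_compl_iff, Module.notMem_support_iff']
    intro m
    exact ⟨n * n, hPp.mul_notMem hn hn, hall m⟩
  exact hmem

end Unramified

section Fac

variable {O S : Type} [CommRing O] [CommRing S] {n : ℕ}
  {𝔞 : HomogeneousIdeal (homogeneousSubmodule (Fin n) O)}

/-- The factors are flat. -/
theorem flat_fac (hfl : Flat (projTo O (coordGr 𝔞))) {O' : Type} [CommRing O'] (h : O →+* O')
    (a : Fin n) : Module.Flat O' (Fac h (chId 𝔞 a)) := by
  let := h.toAlgebra
  have hC := flat_chartRing 𝔞 a hfl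
  obtain ⟨e⟩ := nonempty_facEquiv (O := O) (O' := O')
    (aeval (chartX 𝔞 a) : MvPolynomial (Fin n) O →ₐ[O] ChartRing 𝔞 a) (aeval_chartX_surjective a)
  have h1 : Module.Flat O' (O' ⊗[O] ChartRing 𝔞 a) := inferInstance
  exact Module.Flat.of_linearEquiv e.toLinearEquiv

/-- The factors are smooth at the primes of good reduction. -/
theorem smooth_fac (f : O →+* S) (P : Ideal S) [P.IsPrime] (a : Fin n)
    (hsm : Algebra.Smooth (Localization.AtPrime (P.comap f)) (LocChart 𝔞 (P.comap f) a)) :
    Algebra.Smooth (Localization.AtPrime P)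
      (Fac ((algebraMap S (Localization.AtPrime P)).comp f) (chId 𝔞 a)) := by
  let : Algebra O S := f.toAlgebra
  let : Algebra (Localization.AtPrime (P.comap f)) (Localization.AtPrime P) :=
    (Localization.localRingHom (P.comap f) P f rfl).toAlgebra
  have hst : IsScalarTower O (Localization.AtPrime (P.comap f)) (Localization.AtPrime P) := by
    refine IsScalarTower.of_algebraMap_eq fun c => ?_
    change _ = Localization.localRingHom (P.comap f) P f rfl (algebraMap O _ c)
    rw [Localization.localRingHom_to_map, IsScalarTower.algebraMap_apply O S]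
    rfl
  obtain ⟨e⟩ := nonempty_facEquiv (O := O) (O' := Localization.AtPrime P)
    (aeval (chartX 𝔞 a) : MvPolynomial (Fin n) O →ₐ[O] ChartRing 𝔞 a) (aeval_chartX_surjective a)
  have h1 : Algebra.Smooth (Localization.AtPrime P)
      (Localization.AtPrime P ⊗[Localization.AtPrime (P.comap f)]
        (Localization.AtPrime (P.comap f) ⊗[O] ChartRing 𝔞 a)) := inferInstance
  have h2 := Algebra.Smooth.of_equiv (Algebra.TensorProduct.cancelBaseChange O
    (Localization.AtPrime (P.comap f)) (Localization.AtPrime P) (Localization.AtPrime P)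
    (ChartRing 𝔞 a))
  exact Algebra.Smooth.of_equiv e.symm

/-- **The factors are regular at the unramified primes.** -/
theorem regular_fac {R G : Type} [CommRing R] [Algebra R S] [Group G] [Finite G]
    [MulSemiringAction G S] (hG : GalExt R S G) [Module.Finite R S] [Algebra R O]
    [IsDedekindDomain O] [IsDomain S] (f : O →+* S) (hf : Function.Injective f)
    (hfR : ∀ c, f (algebraMap R O c) = algebraMap R S c) (P : Ideal S) [P.IsPrime]
    (hP : ∀ g : G, g ≠ 1 → ∃ c : S, g • c - c ∉ P) (a : Fin n)
    (hreg : IsRegularRing (ChartRing 𝔞 a)) :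
    IsRegularRing (Fac ((algebraMap S (Localization.AtPrime P)).comp f) (chId 𝔞 a)) := by
  let : Algebra O S := f.toAlgebra
  have hst : IsScalarTower R O S := IsScalarTower.of_algebraMap_eq fun c => (hfR c).symm
  have hfin : Module.Finite O S := Module.Finite.of_restrictScalars_finite R O S
  have hU : Algebra.IsUnramifiedAt R P := isUnramifiedAt_of_galExt hG P hP
  have hU' : Algebra.IsUnramifiedAt O P := Algebra.IsUnramifiedAt.of_restrictScalars R P
  have htf : Module.IsTorsionFree O S := by
    have : FaithfulSMul O S := (faithfulSMul_iff_algebraMap_injective O S).mpr hf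
    infer_instance
  have hfl : Module.Flat O S := inferInstance
  have hfp : Algebra.FinitePresentation O S := by
    have : Algebra.FiniteType O S := inferInstance
    exact Algebra.FinitePresentation.of_finiteType.mp this
  have h1 := isRegularRing_baseChange_unram (A := O) (S := S) (SP := Localization.AtPrime P)
    (C := ChartRing 𝔞 a) P
  obtain ⟨e⟩ := nonempty_facEquiv (O := O) (O' := Localization.AtPrime P)
    (aeval (chartX 𝔞 a) : MvPolynomial (Fin n) O →ₐ[O] ChartRing 𝔞 a) (aeval_chartX_surjective a)
  exact IsRegularRing.of_ringEquiv e.symm.toRingEquiv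

end Fac

end Pool.Agent.Lib.MP_6a3dac_ag.GI
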