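import Pool.Agent.Lib.MP_6a3dac_ag.GI.T4
import Pool.Agent.Lib.MP_6a3dac_ag.QD.Arith
import Pool.Agent.Lib.MP_6a3dac_ag.W3.T3g

/-!
# The local rings of the product of the conjugates at a prime
-/

set_option autoImplicit false
set_option linter.unusedSectionVars false
set_option linter.unusedVariables false

namespace Pool.Agent.Lib.MP_6a3dac_ag.GI

open MvPolynomial TensorProduct IsLocalRing Pool.Agent.Lib.MP_6a3dac_ag
  Pool.Agent.Lib.MP_6a3dac_ag.W3 Pool.Agent.Lib.MP_6a3dac_ag.QD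

attribute [local instance] MvPolynomial.gradedAlgebra

section Prime

variable {O S N F : Type} [CommRing O] [CommRing S] [IsDomain S] [Field N] [Algebra S N]
  [IsFractionRing S N] [Field F] [Algebra N F] [Algebra S F] [IsScalarTower S N F] {n : ℕ}
  {Φ : Type} [Fintype Φ] {𝔞 : HomogeneousIdeal (homogeneousSubmodule (Fin n) O)}
  {ψ : Φ → O →+* N} (ιP : MultRing ψ 𝔞.toIdeal →ₐ[N] F)

theorem segMap_algebraMap (l : N) :
    segMap ιP (algebraMap N (segAlg ψ 𝔞.toIdeal) l) = algebraMap N F l :=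
  ιP.commutes l

theorem segMap_oM (c : S) :
    segMap ιP (oM S N (segAlg ψ 𝔞.toIdeal) c) = algebraMap S F c := by
  rw [oM, RingHom.comp_apply, segMap_algebraMap, ← IsScalarTower.algebraMap_apply]

theorem segMap_algebraMap' (c : S) :
    segMap ιP (algebraMap S (segAlg ψ 𝔞.toIdeal) c) = algebraMap S F c := by
  rw [IsScalarTower.algebraMap_apply S N (segAlg ψ 𝔞.toIdeal), segMap_algebraMap,
    ← IsScalarTower.algebraMap_apply]

variable {P : Ideal S} [hP : P.IsPrime]

/-- The elements outside of the prime are units of the local ring. -/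
theorem unit_of_notMem' {D : Subring F}
    (hΛD : ∀ c ∈ lamP S N (segAlg ψ 𝔞.toIdeal) P, segMap ιP c ∈ D) (s : S) (hs : s ∉ P) :
    ∃ w ∈ D, algebraMap S F s * w = 1 := by
  have hSN : Function.Injective (algebraMap S N) := IsFractionRing.injective S N
  have hs0 : algebraMap S N s ≠ 0 := by
    rw [Ne, map_eq_zero_iff _ hSN]
    rintro rfl
    exact hs P.zero_mem
  refine ⟨segMap ιP (algebraMap N (segAlg ψ 𝔞.toIdeal) (algebraMap S N s)⁻¹), hΛD _ ?_, ?_⟩
  · refine ⟨s, hs, 1, ?_, _, rfl⟩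
    rw [map_one, IsScalarTower.algebraMap_apply S N (segAlg ψ 𝔞.toIdeal), ← map_mul,
      mul_inv_cancel₀ hs0, map_one]
  · rw [segMap_algebraMap, IsScalarTower.algebraMap_apply S N F, ← map_mul, mul_inv_cancel₀ hs0,
      map_one]

theorem algebraMap_mem' {D : Subring F}
    (hΛD : ∀ c ∈ lamP S N (segAlg ψ 𝔞.toIdeal) P, segMap ιP c ∈ D) (c : S) :
    algebraMap S F c ∈ D := by
  rw [← segMap_oM ιP]
  exact hΛD _ (oM_mem_lamP P c)

section Loc

variable {O' : Type} [CommRing O'] [Algebra S O'] [Algebra O' F] [IsScalarTower S O' F]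
  [IsLocalization.AtPrime O' P]

theorem exists_of_mem_lamP' (hSF : Function.Injective (algebraMap S F))
    {m : segAlg ψ 𝔞.toIdeal} (hm : m ∈ lamP S N (segAlg ψ 𝔞.toIdeal) P) :
    ∃ c : O', algebraMap O' F c = segMap ιP m := by
  obtain ⟨n', hn, c, hc, l, rfl⟩ := hm
  refine ⟨IsLocalization.mk' O' c (⟨n', hn⟩ : P.primeCompl), ?_⟩
  have h1 := congrArg (algebraMap O' F) (IsLocalization.mk'_spec O' c
    (⟨n', hn⟩ : P.primeCompl))
  rw [map_mul, ← IsScalarTower.algebraMap_apply S O' F,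
    ← IsScalarTower.algebraMap_apply S O' F] at h1
  have h2 := congrArg (segMap ιP) hc
  rw [map_mul, segMap_oM, segMap_algebraMap'] at h2
  have h3 : algebraMap S F n' ≠ 0 := by
    rw [Ne, map_eq_zero_iff _ hSF]
    rintro rfl
    exact hn P.zero_mem
  apply mul_right_cancel₀ h3
  rw [h1, ← h2, mul_comm]

theorem exists_lamP_of_loc' {D : Subring F}
    (hunit : ∀ s, s ∉ P → ∃ w ∈ D, algebraMap S F s * w = 1) (c : O') :
    ∃ m ∈ lamP S N (segAlg ψ 𝔞.toIdeal) P,
      ∃ s ∈ lamP S N (segAlg ψ 𝔞.toIdeal) P, (∃ w ∈ D, segMap ιP s * w = 1) ∧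
      algebraMap O' F c * segMap ιP s = segMap ιP m := by
  obtain ⟨a, s, rfl⟩ := IsLocalization.exists_mk'_eq P.primeCompl c
  refine ⟨_, oM_mem_lamP P a, _, oM_mem_lamP P (s : S), ?_, ?_⟩
  · rw [segMap_oM]
    exact hunit s s.2
  · rw [segMap_oM, segMap_oM]
    have h1 := congrArg (algebraMap O' F) (IsLocalization.mk'_spec O' a s)
    rwa [map_mul, ← IsScalarTower.algebraMap_apply S O' F,
      ← IsScalarTower.algebraMap_apply S O' F] at h1

end Loc

variable (P) in
/-- The homomorphism to the localization. -/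
noncomputable abbrev toLoc (f : O →+* S) : O →+* Localization.AtPrime P :=
  (algebraMap S (Localization.AtPrime P)).comp f

variable {f : Φ → O →+* S} (hψ : ∀ φ c, algebraMap S N (f φ c) = ψ φ c)
  (hιP : Function.Injective ιP)

include hψ hιP in
/-- **The local rings of the product of the conjugates.** -/
theorem exists_around_prime {i : Φ → Fin n}
    (hflat : ∀ φ, Module.Flat (Localization.AtPrime P) (Fac (toLoc P (f φ)) (chId 𝔞 (i φ))))
    {φ₀ : Φ} (hreg : IsRegularRing (Fac (toLoc P (f φ₀)) (chId 𝔞 (i φ₀))))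
    (hsm : ∀ φ, φ ≠ φ₀ →
      Algebra.Smooth (Localization.AtPrime P) (Fac (toLoc P (f φ)) (chId 𝔞 (i φ))))
    (D : Subring F) (hloc : IsLocalRing D)
    (hΛD : ∀ c ∈ lamP S N (segAlg ψ 𝔞.toIdeal) P, segMap ιP c ∈ D)
    (hx0 : segMap ιP (xx₃ 𝔞.toIdeal ψ i) ≠ 0)
    (hcoord : ∀ k, segMap ιP (xx₃ 𝔞.toIdeal ψ k) / segMap ιP (xx₃ 𝔞.toIdeal ψ i) ∈ D) :
    ∃ A, QD.Around (segMap ιP) (xx₃ 𝔞.toIdeal ψ) (lamP S N (segAlg ψ 𝔞.toIdeal) P) D i A := by
  have hSN : Function.Injective (algebraMap S N) := IsFractionRing.injective S N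
  have hSF : Function.Injective (algebraMap S F) := by
    rw [IsScalarTower.algebraMap_eq S N F]
    exact (algebraMap N F).injective.comp hSN
  let := locAlg S N P
  have := locAlg_tower S N P
  let : Algebra (Localization.AtPrime P) F :=
    ((algebraMap N F).comp (algebraMap (Localization.AtPrime P) N)).toAlgebra
  have : IsScalarTower (Localization.AtPrime P) N F := IsScalarTower.of_algebraMap_eq' rfl
  have hT0 : IsScalarTower S (Localization.AtPrime P) F :=
    IsScalarTower.of_algebraMap_eq fun c => by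
      change _ = algebraMap N F (algebraMap _ N (algebraMap S _ c))
      rw [← IsScalarTower.algebraMap_apply S (Localization.AtPrime P) N,
        ← IsScalarTower.algebraMap_apply]
  have hψ' : ∀ φ c, algebraMap (Localization.AtPrime P) N (toLoc P (f φ) c) = ψ φ c :=
    fun φ c => by
      rw [toLoc, RingHom.comp_apply, ← IsScalarTower.algebraMap_apply, hψ]
  have ha := ne_of_segX ιP hx0
  obtain ⟨G, i1, i2, π, H, hfl, -, hrg⟩ := exists_prodChart (fun φ => toLoc P (f φ))
    fun φ => chId 𝔞 (i φ)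
  have hflG := hfl hflat
  obtain ⟨g, hg⟩ := exists_prodF hψ' ιP H ha
  have hinj := prodF_injective hψ' ιP H (locAlg_injective S N P) hιP ha hg
  have hunit := unit_of_notMem' ιP hΛD
  exact ⟨_, prod_around ιP H hg hinj (hrg φ₀ hreg hsm)
    (fun m hm => exists_of_mem_lamP' ιP hSF hm) (fun c => exists_lamP_of_loc' ιP hunit c)
    (algebraMap_mem_of_units (algebraMap_mem' ιP hΛD) hunit) hcoord⟩

/-- The uniformizer generates the maximal ideal. -/
theorem isMaximal_unif {ϖ : S} (hϖP : ϖ ∈ P) (hunif : ∀ c ∈ P, ∃ n, n ∉ P ∧ ∃ d, n * c = d * ϖ) :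
    (Ideal.span {algebraMap S (Localization.AtPrime P) ϖ}).IsMaximal := by
  have h1 : Ideal.span {algebraMap S (Localization.AtPrime P) ϖ} =
      maximalIdeal (Localization.AtPrime P) := by
    apply le_antisymm
    · rw [Ideal.span_singleton_le_iff_mem, IsLocalization.AtPrime.to_map_mem_maximal_iff _ P]
      exact hϖP
    · intro z hz
      obtain ⟨a, s, rfl⟩ := IsLocalization.exists_mk'_eq P.primeCompl z
      have ha : a ∈ P := by
        rwa [IsLocalization.AtPrime.mk'_mem_maximal_iff (Localization.AtPrime P) P] at hz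
      obtain ⟨m, hm, d, hd⟩ := hunif a ha
      have h2 := congrArg (algebraMap S (Localization.AtPrime P)) hd
      rw [map_mul, map_mul] at h2
      have h3 := IsLocalization.mk'_spec (Localization.AtPrime P) a s
      have hu : IsUnit (algebraMap S (Localization.AtPrime P) m) :=
        IsLocalization.map_units (Localization.AtPrime P) (⟨m, hm⟩ : P.primeCompl)
      have hu' : IsUnit (algebraMap S (Localization.AtPrime P) s) :=
        IsLocalization.map_units (Localization.AtPrime P) s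
      obtain ⟨w, hw⟩ := hu.exists_left_inv
      obtain ⟨w', hw'⟩ := hu'.exists_left_inv
      rw [Ideal.mem_span_singleton']
      refine ⟨w * w' * algebraMap S _ d, ?_⟩
      linear_combination (-(w * w')) * h2 + (w * w' * algebraMap S _ m) * h3.symm.symm * (-1) +
        (IsLocalization.mk' (Localization.AtPrime P) a s) * hw' +
        (w' * algebraMap S _ (s : S) * IsLocalization.mk' (Localization.AtPrime P) a s) * hw
  rw [h1]
  exact maximalIdeal.isMaximal _

section Str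

variable {τS : S →+* S} {τF : F →+* F} {t : Φ → Φ} {ϖ : S} {r : ℕ}

/-- The arithmetic of a ramified prime in terms of the ring `S`. -/
theorem hdiv_of_ram {τM : segAlg ψ 𝔞.toIdeal →+* segAlg ψ 𝔞.toIdeal}
    (hτM : ∀ c, τM (oM S N (segAlg ψ 𝔞.toIdeal) c) = oM S N (segAlg ψ 𝔞.toIdeal) (τS c))
    (h : Ram S N (segAlg ψ 𝔞.toIdeal) τM P ϖ r)
    (hSN : Function.Injective (algebraMap S N))
    (hinj : Function.Injective (algebraMap N (segAlg ψ 𝔞.toIdeal))) (c : S) :
    ∃ y, ∃ m, m ∉ P ∧ algebraMap S S m * (τS c - c) = y * ϖ ^ r := by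
  obtain ⟨d, ⟨m, hm, y, hy, -⟩, hd⟩ := h.diff _ (oM_mem_lamP P c)
  refine ⟨y, m, hm, ?_⟩
  have h1 : Function.Injective (oM S N (segAlg ψ 𝔞.toIdeal)) := by
    rw [oM]
    exact hinj.comp hSN
  apply h1
  have h2 : algebraMap S (segAlg ψ 𝔞.toIdeal) m = oM S N (segAlg ψ 𝔞.toIdeal) m := by
    rw [oM, RingHom.comp_apply, ← IsScalarTower.algebraMap_apply]
  rw [hτM, ← map_sub] at hd
  rw [h2] at hy
  rw [Algebra.algebraMap_self, RingHom.id_apply, map_mul, hd, map_mul, map_pow, ← hy]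
  ring

variable (hft : ∀ φ c, f (t φ) c = τS (f φ c))
  (hτx : ∀ φ k, τF (ιP (cl ψ 𝔞.toIdeal φ k)) = ιP (cl ψ 𝔞.toIdeal (t φ) k))
  (hτP : ∀ c, τS c - c ∈ P) (hr : 1 ≤ r) (hϖ0 : ϖ ≠ 0)
  (hdiv : ∀ c, ∃ y, ∃ m, m ∉ P ∧ algebraMap S S m * (τS c - c) = y * ϖ ^ r) (hϖP : ϖ ∈ P)
  (hunif : ∀ c ∈ P, ∃ n, n ∉ P ∧ ∃ d, n * c = d * ϖ)

include hψ hιP hft hτx hτP hr hϖ0 hdiv hϖP hunif in
/-- **The local structure at a ramified prime, order two.** -/
theorem exists_strAt2_prime [IsRegularRing S] (ht : ∀ φ, t (t φ) = φ) {i : Φ → Fin n}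
    (hi : ∀ φ, i (t φ) = i φ)
    (hflat : ∀ φ, Module.Flat (Localization.AtPrime P) (Fac (toLoc P (f φ)) (chId 𝔞 (i φ))))
    (hsm : ∀ φ, Algebra.Smooth (Localization.AtPrime P) (Fac (toLoc P (f φ)) (chId 𝔞 (i φ))))
    (D : Subring F) (hloc : IsLocalRing D)
    (hΛD : ∀ c ∈ lamP S N (segAlg ψ 𝔞.toIdeal) P, segMap ιP c ∈ D)
    (hx0 : segMap ιP (xx₃ 𝔞.toIdeal ψ i) ≠ 0)
    (hcoord : ∀ k, segMap ιP (xx₃ 𝔞.toIdeal ψ k) / segMap ιP (xx₃ 𝔞.toIdeal ψ i) ∈ D)
    (hϖD : ∀ w ∈ D, segMap ιP (oM S N (segAlg ψ 𝔞.toIdeal) ϖ) * w ≠ 1)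
    (hd : ∀ k, ∀ w ∈ D, (τF (segMap ιP (xx₃ 𝔞.toIdeal ψ k) / segMap ιP (xx₃ 𝔞.toIdeal ψ i)) -
      segMap ιP (xx₃ 𝔞.toIdeal ψ k) / segMap ιP (xx₃ 𝔞.toIdeal ψ i)) * w ≠ 1) :
    StrAt2 (segMap ιP) τF (xx₃ 𝔞.toIdeal ψ) (lamP S N (segAlg ψ 𝔞.toIdeal) P)
      (oM S N (segAlg ψ 𝔞.toIdeal) ϖ) r D i := by
  have hSN : Function.Injective (algebraMap S N) := IsFractionRing.injective S N
  have hSF : Function.Injective (algebraMap S F) := by
    rw [IsScalarTower.algebraMap_eq S N F]
    exact (algebraMap N F).injective.comp hSN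
  let := locAlg S N P
  have := locAlg_tower S N P
  let : Algebra (Localization.AtPrime P) F :=
    ((algebraMap N F).comp (algebraMap (Localization.AtPrime P) N)).toAlgebra
  have : IsScalarTower (Localization.AtPrime P) N F := IsScalarTower.of_algebraMap_eq' rfl
  have hT0 : IsScalarTower S (Localization.AtPrime P) F :=
    IsScalarTower.of_algebraMap_eq fun c => by
      change _ = algebraMap N F (algebraMap _ N (algebraMap S _ c))
      rw [← IsScalarTower.algebraMap_apply S (Localization.AtPrime P) N,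
        ← IsScalarTower.algebraMap_apply]
  have hψ' : ∀ φ c, algebraMap (Localization.AtPrime P) N (toLoc P (f φ) c) = ψ φ c :=
    fun φ c => by
      rw [toLoc, RingHom.comp_apply, ← IsScalarTower.algebraMap_apply, hψ]
  have ha := ne_of_segX ιP hx0
  obtain ⟨G, i1, i2, π, H, hfl, hsmG, -⟩ := exists_prodChart (fun φ => toLoc P (f φ))
    fun φ => chId 𝔞 (i φ)
  have hflG := hfl hflat
  have hsG := hsmG hsm
  have hregP : IsRegularRing (Localization.AtPrime P) :=
    isRegularRing_of_isLocalization P.primeCompl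
  have hregG : IsRegularRing G := isRegularRing_of_smooth (Localization.AtPrime P) G
  obtain ⟨g, hg⟩ := exists_prodF hψ' ιP H ha
  have hinj := prodF_injective hψ' ιP H (locAlg_injective S N P) hιP ha hg
  have hunit := unit_of_notMem' ιP hΛD
  have key := prod_around ιP H hg hinj hregG
    (fun m hm => exists_of_mem_lamP' ιP hSF hm) (fun c => exists_lamP_of_loc' ιP hunit c)
    (algebraMap_mem_of_units (algebraMap_mem' ιP hΛD) hunit) hcoord
  have hcc : P = P.comap τS := comap_eq_self hτP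
  refine strAt2_of_chart ιP H hg hinj (s := Localization.localRingHom P P τS hcc) (t := t)
    (fun φ c => ?_) hi hτx hr (delta_loc (R := S) (by rw [Algebra.algebraMap_self,
      Ideal.comap_id]) hcc hdiv) key ?_ hϖD ?_ hd (isMaximal_unif hϖP hunif) ht
  · rw [toLoc, toLoc, RingHom.comp_apply, RingHom.comp_apply, hft, Localization.localRingHom_to_map]
  · rw [segMap_oM, ← IsScalarTower.algebraMap_apply]
  · rw [segMap_oM, Ne, map_eq_zero_iff _ hSF]
    exact hϖ0

include hψ hιP hft hτx hτP hϖ0 hdiv hϖP hunif in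
/-- **The local structure at a ramified prime, order three.** -/
theorem exists_strAt3_prime [IsRegularRing S] (ht : ∀ φ, t (t (t φ)) = φ) {m : ℕ} (hm : r = m + 1)
    {i : Φ → Fin n} (hi : ∀ φ, i (t φ) = i φ)
    (hflat : ∀ φ, Module.Flat (Localization.AtPrime P) (Fac (toLoc P (f φ)) (chId 𝔞 (i φ))))
    (hsm : ∀ φ, Algebra.Smooth (Localization.AtPrime P) (Fac (toLoc P (f φ)) (chId 𝔞 (i φ))))
    (D : Subring F) (hloc : IsLocalRing D)
    (hΛD : ∀ c ∈ lamP S N (segAlg ψ 𝔞.toIdeal) P, segMap ιP c ∈ D)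
    (hx0 : segMap ιP (xx₃ 𝔞.toIdeal ψ i) ≠ 0)
    (hcoord : ∀ k, segMap ιP (xx₃ 𝔞.toIdeal ψ k) / segMap ιP (xx₃ 𝔞.toIdeal ψ i) ∈ D)
    (hϖD : ∀ w ∈ D, segMap ιP (oM S N (segAlg ψ 𝔞.toIdeal) ϖ) * w ≠ 1)
    (hd : ∀ k, ∀ w ∈ D, (τF (segMap ιP (xx₃ 𝔞.toIdeal ψ k) / segMap ιP (xx₃ 𝔞.toIdeal ψ i)) -
      segMap ιP (xx₃ 𝔞.toIdeal ψ k) / segMap ιP (xx₃ 𝔞.toIdeal ψ i)) * w ≠ 1) :
    StrAt (segMap ιP) τF (xx₃ 𝔞.toIdeal ψ) (lamP S N (segAlg ψ 𝔞.toIdeal) P)
      (oM S N (segAlg ψ 𝔞.toIdeal) ϖ) m D i := by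
  have hSN : Function.Injective (algebraMap S N) := IsFractionRing.injective S N
  have hSF : Function.Injective (algebraMap S F) := by
    rw [IsScalarTower.algebraMap_eq S N F]
    exact (algebraMap N F).injective.comp hSN
  let := locAlg S N P
  have := locAlg_tower S N P
  let : Algebra (Localization.AtPrime P) F :=
    ((algebraMap N F).comp (algebraMap (Localization.AtPrime P) N)).toAlgebra
  have : IsScalarTower (Localization.AtPrime P) N F := IsScalarTower.of_algebraMap_eq' rfl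
  have hT0 : IsScalarTower S (Localization.AtPrime P) F :=
    IsScalarTower.of_algebraMap_eq fun c => by
      change _ = algebraMap N F (algebraMap _ N (algebraMap S _ c))
      rw [← IsScalarTower.algebraMap_apply S (Localization.AtPrime P) N,
        ← IsScalarTower.algebraMap_apply]
  have hψ' : ∀ φ c, algebraMap (Localization.AtPrime P) N (toLoc P (f φ) c) = ψ φ c :=
    fun φ c => by
      rw [toLoc, RingHom.comp_apply, ← IsScalarTower.algebraMap_apply, hψ]
  have ha := ne_of_segX ιP hx0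
  obtain ⟨G, i1, i2, π, H, hfl, hsmG, -⟩ := exists_prodChart (fun φ => toLoc P (f φ))
    fun φ => chId 𝔞 (i φ)
  have hflG := hfl hflat
  have hsG := hsmG hsm
  have hregP : IsRegularRing (Localization.AtPrime P) :=
    isRegularRing_of_isLocalization P.primeCompl
  have hregG : IsRegularRing G := isRegularRing_of_smooth (Localization.AtPrime P) G
  obtain ⟨g, hg⟩ := exists_prodF hψ' ιP H ha
  have hinj := prodF_injective hψ' ιP H (locAlg_injective S N P) hιP ha hg
  have hunit := unit_of_notMem' ιP hΛD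
  have key := prod_around ιP H hg hinj hregG
    (fun m hm => exists_of_mem_lamP' ιP hSF hm) (fun c => exists_lamP_of_loc' ιP hunit c)
    (algebraMap_mem_of_units (algebraMap_mem' ιP hΛD) hunit) hcoord
  have hcc : P = P.comap τS := comap_eq_self hτP
  refine strAt3_of_chart ιP H hg hinj (s := Localization.localRingHom P P τS hcc) (t := t)
    (fun φ c => ?_) hi hτx (delta_loc (R := S) (by rw [Algebra.algebraMap_self,
      Ideal.comap_id]) hcc hdiv) key ?_ hϖD ?_ hd (isMaximal_unif hϖP hunif) ht hm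
  · rw [toLoc, toLoc, RingHom.comp_apply, RingHom.comp_apply, hft, Localization.localRingHom_to_map]
  · rw [segMap_oM, ← IsScalarTower.algebraMap_apply]
  · rw [segMap_oM, Ne, map_eq_zero_iff _ hSF]
    exact hϖ0

end Str

end Prime

end Pool.Agent.Lib.MP_6a3dac_ag.GI
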