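import Pool.Agent.Lib.MP_6a3dac_ag.GI.Asm2
import Pool.Agent.Lib.MP_6a3dac_ag.GI.T5
import Pool.Agent.Lib.MP_6a3dac_ag.GI.T6

/-!
# The geometric hypotheses for products of conjugates
-/

set_option autoImplicit false
set_option linter.unusedSectionVars false
set_option linter.unusedVariables false

namespace Pool.Agent.Lib.MP_6a3dac_ag.GI

open Pool.Agent.Lib.MP_6a3dac_ag Pool.Agent.Lib.MP_6a3dac_ag.QD Pool.Agent.Lib.MP_6a3dac_ag.W3
open CategoryTheory Limits AlgebraicGeometry IsDedekindDomain MvPolynomial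

attribute [local instance] MvPolynomial.gradedAlgebra

variable {R S N O Φ G : Type} [CommRing R] [CommRing S] [IsDedekindDomain S] [Algebra R S]
  [Module.Finite R S] [Field N] [Algebra S N] [IsFractionRing S N] [CommRing O]
  [IsDedekindDomain O] [Algebra R O] [Fintype Φ] [Nonempty Φ] {n : ℕ} {ψ : Φ → O →+* N}
  (𝔞 : HomogeneousIdeal (homogeneousSubmodule (Fin n) O)) [Group G] [Finite G]
  [MulSemiringAction G S] (hG : GalExt R S G)
  {f : Φ → O →+* S} (hfi : ∀ φ, Function.Injective (f φ))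
  (hfR : ∀ φ c, f φ (algebraMap R O c) = algebraMap R S c)
  (hfl : Flat (projTo O (coordGr 𝔞)))
  (hreg : ∀ y : ProjectiveSpectrum (coordGr 𝔞),
    IsRegularLocalRing ((Proj (coordGr 𝔞)).presheaf.stalk y))

/-- The condition on the bad reduction at the prime `P`. -/
def OneBad (f : Φ → O →+* S) (G : Type) [Group G] [MulSemiringAction G S] (P : Ideal S)
    [P.IsPrime] : Prop :=
  ∀ φ, ¬ SmoothAt 𝔞 (P.comap (f φ)) →
    (∀ φ', ¬ SmoothAt 𝔞 (P.comap (f φ')) → φ' = φ) ∧ ∀ g : G, g ≠ 1 → ∃ c : S, g • c - c ∉ P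

theorem smooth_of_smoothAt (P : Ideal S) [P.IsPrime] {φ : Φ}
    (h : SmoothAt 𝔞 (P.comap (f φ))) (a : Fin n) :
    Algebra.Smooth (Localization.AtPrime P) (Fac (toLoc P (f φ)) (chId 𝔞 a)) :=
  smooth_fac (f φ) P a (smooth_chartRing 𝔞 _ a h)

include hG hfi hfR hfl hreg in
theorem exists_reg_factor (P : Ideal S) [P.IsPrime] (hP : OneBad 𝔞 f G P) (i : Φ → Fin n) :
    ∃ φ₀, IsRegularRing (Fac (toLoc P (f φ₀)) (chId 𝔞 (i φ₀))) ∧ ∀ φ, φ ≠ φ₀ →
      Algebra.Smooth (Localization.AtPrime P) (Fac (toLoc P (f φ)) (chId 𝔞 (i φ))) := by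
  by_cases h : ∃ φ₀, ¬ SmoothAt 𝔞 (P.comap (f φ₀))
  · obtain ⟨φ₀, h0⟩ := h
    obtain ⟨h1, h2⟩ := hP φ₀ h0
    refine ⟨φ₀, regular_fac hG (f φ₀) (hfi φ₀) (hfR φ₀) P h2 (i φ₀)
      (isRegularRing_chartRing 𝔞 (i φ₀) hreg), fun φ hφ => smooth_of_smoothAt 𝔞 P ?_ _⟩
    by_contra h3
    exact hφ (h1 φ h3)
  · push Not at h
    obtain ⟨φ₀⟩ := ‹Nonempty Φ›
    have h1 := smooth_of_smoothAt 𝔞 P (h φ₀) (i φ₀)
    have h2 : IsRegularRing (Localization.AtPrime P) :=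
      isRegularRing_of_isLocalization P.primeCompl
    exact ⟨φ₀, isRegularRing_of_smooth (Localization.AtPrime P) _,
      fun φ _ => smooth_of_smoothAt 𝔞 P (h φ) _⟩

/-- If a nontrivial automorphism acts trivially modulo `P` then everything is smooth at `P`. -/
theorem smooth_of_inertia (P : Ideal S) [P.IsPrime] (hP : OneBad 𝔞 f G P) {g : G} (hg : g ≠ 1)
    (hgP : ∀ c : S, g • c - c ∈ P) (φ : Φ) (a : Fin n) :
    Algebra.Smooth (Localization.AtPrime P) (Fac (toLoc P (f φ)) (chId 𝔞 a)) := by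
  refine smooth_of_smoothAt 𝔞 P ?_ a
  by_contra h
  obtain ⟨c, hc⟩ := (hP φ h).2 g hg
  exact hc (hgP c)

variable [MulSemiringAction G N] {π : G → Φ → Φ}
  (hs : ∀ (g : G) φ c, MulSemiringAction.toRingHom G N g (ψ φ c) = ψ (π g φ) c)
  (hmul : ∀ g h φ, π (g * h) φ = π g (π h φ)) (hone : ∀ φ, π 1 φ = φ)
  (hSN : ∀ (g : G) (c : S), algebraMap S N (g • c) = g • algebraMap S N c)
  (hψ : ∀ φ c, algebraMap S N (f φ c) = ψ φ c)
  (hP : ∀ (P : Ideal S) [P.IsPrime], P ≠ ⊥ → OneBad 𝔞 f G P)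

include hSN hψ hs in
theorem smul_f (g : G) (φ : Φ) (c : O) : f (π g φ) c = g • f φ c := by
  apply IsFractionRing.injective S N
  rw [hSN, hψ, hψ]
  exact (hs g φ c).symm

include hG hfi hfR hfl hreg hs hmul hone hSN hψ hP in
theorem geoHyp_weil {F : Type} [Field F] [Algebra N F] (ιP : MultRing ψ 𝔞.toIdeal →ₐ[N] F)
    (hιP : Function.Injective ιP)
    [MulSemiringAction G (segAlg ψ 𝔞.toIdeal)] [MulSemiringAction G F]
    [GradedAlgebra (segGr ψ 𝔞.toIdeal)]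
    (hM : ∀ (g : G) (z : segAlg ψ 𝔞.toIdeal),
      ((g • z : segAlg ψ 𝔞.toIdeal) : MultRing ψ 𝔞.toIdeal) = permRing 𝔞.toIdeal (hs g) z)
    (hF : ∀ (g : G) (z : MultRing ψ 𝔞.toIdeal), g • ιP z = ιP (permRing 𝔞.toIdeal (hs g) z)) :
    GeoHyp S N (segAlg ψ 𝔞.toIdeal) F (Φ → Fin n) G
        (segGr ψ 𝔞.toIdeal) (segι 𝔞 ιP) (xS ψ 𝔞.toIdeal) (cstI π n) := by
  let : Algebra S F := ((algebraMap N F).comp (algebraMap S N)).toAlgebra
  have : IsScalarTower S N F := IsScalarTower.of_algebraMap_eq' rfl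
  have hNi : Function.Injective (algebraMap N (segAlg ψ 𝔞.toIdeal)) := by
    have h1 : Function.Injective ((ιP : MultRing ψ 𝔞.toIdeal →+* F).comp
        (algebraMap N (MultRing ψ 𝔞.toIdeal))) := RingHom.injective _
    intro a b hab
    exact h1 (congrArg (fun z : segAlg ψ 𝔞.toIdeal => ιP (z : MultRing ψ 𝔞.toIdeal)) hab)
  have hcl : ∀ τ : G, ∀ φ k, act τ (ιP (cl ψ 𝔞.toIdeal φ k)) = ιP (cl ψ 𝔞.toIdeal (π τ φ) k) := by
    intro τ φ k
    have h1 := hF τ (cl ψ 𝔞.toIdeal φ k)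
    rw [permRing_cl] at h1
    exact h1
  refine geoHyp_seg 𝔞 hs hmul hone hSN ιP hιP hM hF ?_ ?_ ?_
  · intro P _ hP0 D i hD hΛD hx0 hcoord
    obtain ⟨φ₀, h1, h2⟩ := exists_reg_factor 𝔞 hG hfi hfR hfl hreg P (hP P hP0) i
    exact exists_around_prime ιP hψ hιP (fun φ => flat_fac hfl _ _) h1 h2 D hD hΛD
      hx0 hcoord
  · intro P _ hP0 τ hτ hτP ϖ s hram hϖP hunif D i hi hD hΛD hx0 hcoord hϖD hd
    have hτ1 : τ ≠ 1 := by
      rintro rfl
      rw [orderOf_one] at hτ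
      omega
    have ht : ∀ φ, π τ (π τ φ) = φ := fun φ => by
      rw [← hmul, ← pow_two, ← hτ, pow_orderOf_eq_one, hone]
    exact exists_strAt2_prime ιP hψ hιP (τS := act τ) (τF := act τ) (t := π τ)
      (r := s) (smul_f hs hSN hψ τ) (hcl τ) hτP hram.pos hram.ϖ0
      (hdiv_of_ram (τM := act τ) (smul_oM 𝔞 hs hSN hM τ) hram (IsFractionRing.injective S N) hNi)
      hϖP hunif ht hi (fun φ => flat_fac hfl _ _)
      (fun φ => smooth_of_inertia 𝔞 P (hP P hP0) hτ1 hτP φ _) D hD hΛD hx0 hcoord hϖD hd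
  · intro P _ hP0 τ hτ hτP ϖ m hram hm hϖP hunif D i hi hD hΛD hx0 hcoord hϖD hd
    have hτ1 : τ ≠ 1 := by
      rintro rfl
      rw [orderOf_one] at hτ
      omega
    have ht : ∀ φ, π τ (π τ (π τ φ)) = φ := fun φ => by
      rw [← hmul, ← hmul, ← pow_three', ← hτ, pow_orderOf_eq_one, hone]
    exact exists_strAt3_prime ιP hψ hιP (τS := act τ) (τF := act τ) (t := π τ)
      (r := m + 1) (smul_f hs hSN hψ τ) (hcl τ) hτP hram.ϖ0
      (hdiv_of_ram (τM := act τ) (smul_oM 𝔞 hs hSN hM τ) hram (IsFractionRing.injective S N) hNi)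
      hϖP hunif ht rfl hi (fun φ => flat_fac hfl _ _)
      (fun φ => smooth_of_inertia 𝔞 P (hP P hP0) hτ1 hτP φ _) D hD hΛD hx0 hcoord hϖD hd

end Pool.Agent.Lib.MP_6a3dac_ag.GI
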