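import Pool.Agent.Lib.MP_6a3dac_ag.QWGens

/-!
# Invariants of finite groups: integrality and finite generation
-/

set_option autoImplicit false
set_option linter.unusedSectionVars false
set_option linter.unusedVariables false

namespace Pool.Agent.Lib.MP_6a3dac_ag.GI

open Pool.Agent.Lib.MP_6a3dac_ag

/-- The action on a stable subalgebra. -/
@[reducible] def actOn (G : Type) {R M : Type} [Group G] [CommRing R] [CommRing M] [Algebra R M]
    [MulSemiringAction G M] (T : Subalgebra R M) (hT : ∀ g : G, ∀ t ∈ T, g • t ∈ T) :
    MulSemiringAction G T where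
  smul g t := ⟨g • (t : M), hT g t t.2⟩
  one_smul t := Subtype.ext (one_smul G (t : M))
  mul_smul g g' t := Subtype.ext (mul_smul g g' (t : M))
  smul_zero g := Subtype.ext (smul_zero g)
  smul_add g t t' := Subtype.ext (smul_add g (t : M) t')
  smul_one g := Subtype.ext (smul_one g)
  smul_mul g t t' := Subtype.ext (smul_mul' g (t : M) t')

-- BEGIN IN1
/-- TASK IN1. `Algebra.IsInvariant.isIntegral` (Mathlib). -/
theorem isIntegral_of_group {S T : Type} (G : Type) [CommRing S] [CommRing T] [Algebra S T]
    [Group G] [Finite G] [MulSemiringAction G T]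
    (hfix : ∀ t : T, (∀ g : G, g • t = t) → ∃ s : S, algebraMap S T s = t) :
    Algebra.IsIntegral S T := by
  have : Algebra.IsInvariant S T G := ⟨hfix⟩
  exact Algebra.IsInvariant.isIntegral S T G

/-- TASK IN1. The model is `fg_comap_of_order3` in W3/G3a.lean (`fg_comap_of_involution` in
QWGens.lean); the action on `T` is `actOn G T hTG` (`letI`), and integrality is
`isIntegral_of_group`. -/
theorem fg_comap_of_group {R A M : Type} (G : Type) [Group G] [Finite G] [CommRing R]
    [IsNoetherianRing R] [CommRing A] [Algebra R A] [CommRing M] [Algebra R M]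
    [MulSemiringAction G M] (j : A →ₐ[R] M) (hj : Function.Injective j)
    (hfix : ∀ m, (∀ g : G, g • m = m) → ∃ a, j a = m)
    (T : Subalgebra R M) (hTG : ∀ g : G, ∀ t ∈ T, g • t ∈ T) (hT : T.FG) : (T.comap j).FG := by
  let S : Subalgebra R A := T.comap j
  let jT : S →ₐ[R] T := (j.comp S.val).codRestrict T fun s => s.2
  have hjTinj : Function.Injective jT := by
    intro a b hab
    apply Subtype.ext
    apply hj
    exact congrArg Subtype.val hab
  have hlift : ∀ t : T, (∀ g : G, g • (t : M) = t) → ∃ s : S, jT s = t := by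
    intro t ht
    obtain ⟨a, ha⟩ := hfix t ht
    exact ⟨⟨a, by change j a ∈ T; rw [ha]; exact t.2⟩, Subtype.ext ha⟩
  let : Algebra S T := jT.toRingHom.toAlgebra
  have hst : IsScalarTower R S T := IsScalarTower.of_algebraMap_eq fun r => (jT.commutes r).symm
  let : MulSemiringAction G T := actOn G T hTG
  have hint : Algebra.IsIntegral S T := by
    refine isIntegral_of_group G ?_
    intro t ht
    exact hlift t fun g => congrArg Subtype.val (ht g)
  have hft : Algebra.FiniteType R T := (Subalgebra.fg_iff_finiteType T).mp hT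
  have hft' : Algebra.FiniteType S T := Algebra.FiniteType.of_restrictScalars_finiteType R S T
  have hfin : Module.Finite S T := Algebra.IsIntegral.finite
  have h1 : (⊤ : Subalgebra R S).FG := fg_of_fg_of_fg R S T hft.out hfin.fg_top hjTinj
  rw [Subalgebra.fg_iff_finiteType]
  exact ⟨h1⟩
-- END IN1

end Pool.Agent.Lib.MP_6a3dac_ag.GI
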