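import Pool.Agent.Lib.MP_6a3dac_ag.W3.T1g

/-!
# The generators of the Segre algebra and norm relations
-/

set_option autoImplicit false

namespace Pool.Agent.Lib.MP_6a3dac_ag.GI

open Pool.Agent.Lib.MP_6a3dac_ag Pool.Agent.Lib.MP_6a3dac_ag.W3

section Norm

variable {O N Φ : Type} [CommRing O] [CommRing N] [Fintype Φ] {n : ℕ} (ψ : Φ → O →+* N)
  (𝔟 : Ideal (MvPolynomial (Fin n) O))

/-- The generators of the Segre algebra. -/
noncomputable def xS (k : Φ → Fin n) : segAlg ψ 𝔟 := ⟨segX ψ 𝔟 k, segX_mem ψ 𝔟 k⟩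

theorem coe_xS (k : Φ → Fin n) : (xS ψ 𝔟 k : MultRing ψ 𝔟) = ∏ φ, cl ψ 𝔟 φ (k φ) := rfl

/-- Representatives of the classes of an equivalence relation. -/
theorem exists_rep {Φ : Type} (r : Setoid Φ) : ∃ rep : Φ → Φ, (∀ φ, r (rep φ) φ) ∧
    ∀ φ φ', r φ φ' → rep φ = rep φ' :=
  ⟨fun φ => (Quotient.mk r φ).out, fun φ => Quotient.mk_out φ, fun φ φ' h =>
    congrArg Quotient.out (Quotient.sound h)⟩

variable {ψ} {s : N →+* N} {π : Φ → Φ} (hs : ∀ φ c, s (ψ φ c) = ψ (π φ) c)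

theorem permSeg_xS (hπ : Function.Bijective π) {ρ : Φ → Φ} (hρ : ∀ φ, ρ (π φ) = φ)
    (k : Φ → Fin n) : permSeg 𝔟 hs hπ (xS ψ 𝔟 k) = xS ψ 𝔟 fun φ => k (ρ φ) := by
  apply Subtype.ext
  rw [coe_permSeg]
  exact permRing_segX 𝔟 hs hπ fun φ => by rw [hρ]

/-- The norm relation for an automorphism of order two. -/
theorem norm_two (hπ : Function.Bijective π) (h2 : ∀ φ, π (π φ) = φ) (i : Φ → Fin n) :
    ∃ a b : Φ → Fin n, (∀ φ, a (π φ) = a φ) ∧
      xS ψ 𝔟 i * permSeg 𝔟 hs hπ (xS ψ 𝔟 i) = xS ψ 𝔟 a * xS ψ 𝔟 b := by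
  classical
  obtain ⟨rep, h1, h3⟩ := exists_rep (Φ := Φ) ⟨fun φ φ' => φ' = φ ∨ φ' = π φ,
    ⟨fun φ => Or.inl rfl, fun {a b} h => by
      rcases h with rfl | rfl
      · exact Or.inl rfl
      · exact Or.inr (h2 _).symm, fun {a b c} h h' => by
      rcases h with rfl | rfl <;> rcases h' with rfl | rfl
      · exact Or.inl rfl
      · exact Or.inr rfl
      · exact Or.inr rfl
      · exact Or.inl (h2 _)⟩⟩
  refine ⟨fun φ => i (rep φ), fun φ => if rep φ = φ then i (π φ) else i φ, fun φ => ?_, ?_⟩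
  · exact congrArg i (h3 φ (π φ) (Or.inr rfl)).symm
  · rw [permSeg_xS 𝔟 hs hπ h2]
    apply Subtype.ext
    rw [Subalgebra.coe_mul, Subalgebra.coe_mul]
    simp only [coe_xS]
    rw [← Finset.prod_mul_distrib, ← Finset.prod_mul_distrib]
    refine Finset.prod_congr rfl fun φ _ => ?_
    rcases h1 φ with h | h
    · rw [← h, if_pos rfl]
    · by_cases h' : rep φ = φ
      · rw [if_pos h', h']
      · have h4 : rep φ = π φ := by
          have h5 := congrArg π h
          rw [h2] at h5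
          exact h5.symm
        rw [if_neg h', h4, mul_comm]

/-- The norm relation for an automorphism of order three. -/
theorem norm_three (hπ : Function.Bijective π) (h3 : ∀ φ, π (π (π φ)) = φ) (i : Φ → Fin n) :
    ∃ a b c : Φ → Fin n, (∀ φ, a (π φ) = a φ) ∧
      xS ψ 𝔟 i * permSeg 𝔟 hs hπ (xS ψ 𝔟 i) * permSeg 𝔟 hs hπ (permSeg 𝔟 hs hπ (xS ψ 𝔟 i)) =
        xS ψ 𝔟 a * xS ψ 𝔟 b * xS ψ 𝔟 c := by
  classical
  obtain ⟨rep, h1, h4⟩ := exists_rep (Φ := Φ) ⟨fun φ φ' => φ' = φ ∨ φ' = π φ ∨ φ' = π (π φ),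
    ⟨fun φ => Or.inl rfl, fun {a b} h => by
      rcases h with rfl | rfl | rfl
      · exact Or.inl rfl
      · exact Or.inr (Or.inr (h3 _).symm)
      · exact Or.inr (Or.inl (h3 _).symm), fun {a b c} h h' => by
      rcases h with rfl | rfl | rfl <;> rcases h' with rfl | rfl | rfl
      · exact Or.inl rfl
      · exact Or.inr (Or.inl rfl)
      · exact Or.inr (Or.inr rfl)
      · exact Or.inr (Or.inl rfl)
      · exact Or.inr (Or.inr rfl)
      · exact Or.inl (h3 _)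
      · exact Or.inr (Or.inr rfl)
      · exact Or.inl (h3 _)
      · exact Or.inr (Or.inl (by rw [h3]))⟩⟩
  refine ⟨fun φ => i (rep φ), fun φ => if rep φ = φ then i (π φ) else i φ,
    fun φ => if rep φ = φ ∨ rep φ = π φ then i (π (π φ)) else i (π φ), fun φ => ?_, ?_⟩
  · exact congrArg i (h4 φ (π φ) (Or.inr (Or.inl rfl))).symm
  · rw [permSeg_xS 𝔟 hs hπ (ρ := fun φ => π (π φ)) h3,
      permSeg_xS 𝔟 hs hπ (ρ := fun φ => π (π φ)) h3]
    apply Subtype.ext
    rw [Subalgebra.coe_mul, Subalgebra.coe_mul, Subalgebra.coe_mul, Subalgebra.coe_mul]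
    simp only [coe_xS, h3]
    rw [← Finset.prod_mul_distrib, ← Finset.prod_mul_distrib, ← Finset.prod_mul_distrib,
      ← Finset.prod_mul_distrib]
    refine Finset.prod_congr rfl fun φ _ => ?_
    have h5 : rep φ = φ ∨ rep φ = π φ ∨ rep φ = π (π φ) := by
      rcases h1 φ with h | h | h
      · exact Or.inl h.symm
      · have h6 := congrArg (fun z => π (π z)) h
        simp only [h3] at h6
        exact Or.inr (Or.inr h6.symm)
      · have h6 := congrArg π h
        simp only [h3] at h6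
        exact Or.inr (Or.inl h6.symm)
    by_cases h6 : rep φ = φ
    · rw [if_pos h6, if_pos (Or.inl h6), h6]
      ring
    · by_cases h7 : rep φ = π φ
      · rw [if_neg h6, if_pos (Or.inr h7), h7]
        ring
      · have h8 : rep φ = π (π φ) := by tauto
        rw [if_neg h6, if_neg (by tauto), h8]
        ring

end Norm

end Pool.Agent.Lib.MP_6a3dac_ag.GI
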