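import Pool.Agent.Lib.MP_6a3dac_ag.GI.Defs

/-!
# Units and nonunits of local subrings of a field
-/

set_option autoImplicit false
set_option linter.unusedSectionVars false
set_option linter.unusedVariables false

namespace Pool.Agent.Lib.MP_6a3dac_ag.GI

open Pool.Agent.Lib.MP_6a3dac_ag IsLocalRing

variable {F : Type} [Field F]

/-- `z` is a unit of `D`. -/
def IsU (D : Subring F) (z : F) : Prop := z ∈ D ∧ ∃ w ∈ D, z * w = 1

/-- `z` is an element of `D`, but not a unit of `D`. -/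
def IsN (D : Subring F) (z : F) : Prop := z ∈ D ∧ ∀ w ∈ D, z * w ≠ 1

-- BEGIN RG1a
/-- TASK RG1. -/
theorem IsU.ne_zero {D : Subring F} {z : F} (h : IsU D z) : z ≠ 0 := by
  rintro rfl
  obtain ⟨-, w, -, h⟩ := h
  rw [zero_mul] at h
  exact zero_ne_one h

/-- TASK RG1. -/
theorem IsU.inv_mem {D : Subring F} {z : F} (h : IsU D z) : z⁻¹ ∈ D := by
  obtain ⟨-, w, hw, h⟩ := h
  rwa [← eq_inv_of_mul_eq_one_right h]

/-- TASK RG1. -/
theorem isU_one (D : Subring F) : IsU D 1 := ⟨D.one_mem, 1, D.one_mem, one_mul 1⟩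

/-- TASK RG1. -/
theorem isN_zero (D : Subring F) : IsN D 0 := by
  refine ⟨D.zero_mem, fun w _ h => ?_⟩
  rw [zero_mul] at h
  exact zero_ne_one h

/-- TASK RG1. -/
theorem isU_or_isN {D : Subring F} {z : F} (hz : z ∈ D) : IsU D z ∨ IsN D z := by
  by_cases h : ∃ w ∈ D, z * w = 1
  · exact Or.inl ⟨hz, h⟩
  · exact Or.inr ⟨hz, fun w hw h1 => h ⟨w, hw, h1⟩⟩

/-- TASK RG1. -/
theorem IsU.not_isN {D : Subring F} {z : F} (h : IsU D z) : ¬ IsN D z := by
  rintro ⟨-, h1⟩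
  obtain ⟨-, w, hw, h2⟩ := h
  exact h1 w hw h2

/-- TASK RG1. -/
theorem IsU.mul {D : Subring F} {z w : F} (hz : IsU D z) (hw : IsU D w) : IsU D (z * w) := by
  obtain ⟨h1, a, ha, h2⟩ := hz
  obtain ⟨h1', b, hb, h2'⟩ := hw
  refine ⟨D.mul_mem h1 h1', a * b, D.mul_mem ha hb, ?_⟩
  rw [mul_mul_mul_comm, h2, h2', one_mul]

/-- TASK RG1. -/
theorem IsU.neg {D : Subring F} {z : F} (hz : IsU D z) : IsU D (-z) := by
  obtain ⟨h1, a, ha, h2⟩ := hz
  exact ⟨D.neg_mem h1, -a, D.neg_mem ha, by rw [neg_mul_neg, h2]⟩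

/-- TASK RG1. -/
theorem IsU.prod {α : Type} {D : Subring F} (s : Finset α) (f : α → F) (hf : ∀ a ∈ s, IsU D (f a)) :
    IsU D (∏ a ∈ s, f a) := by
  classical
  induction s using Finset.induction_on with
  | empty =>
    rw [Finset.prod_empty]
    exact isU_one D
  | insert a s ha ih =>
    rw [Finset.prod_insert ha]
    exact (hf a (Finset.mem_insert_self _ _)).mul
      (ih fun b hb => hf b (Finset.mem_insert_of_mem hb))

/-- TASK RG1. -/
theorem IsN.neg {D : Subring F} {z : F} (hz : IsN D z) : IsN D (-z) := by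
  refine ⟨D.neg_mem hz.1, fun w hw h => hz.2 (-w) (D.neg_mem hw) ?_⟩
  rw [mul_neg, ← neg_mul]
  exact h

/-- TASK RG1. -/
theorem IsN.mul_left {D : Subring F} {z c : F} (hz : IsN D z) (hc : c ∈ D) : IsN D (c * z) := by
  refine ⟨D.mul_mem hc hz.1, fun w hw h => hz.2 (c * w) (D.mul_mem hc hw) ?_⟩
  rw [← h]
  ring

/-- TASK RG1. -/
theorem IsN.mul_right {D : Subring F} {z c : F} (hz : IsN D z) (hc : c ∈ D) : IsN D (z * c) := by
  rw [mul_comm]
  exact hz.mul_left hc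

/-- TASK RG1. -/
theorem IsU.left {D : Subring F} {z w : F} (h : IsU D (z * w)) (hz : z ∈ D) (hw : w ∈ D) :
    IsU D z := by
  obtain ⟨-, a, ha, h2⟩ := h
  exact ⟨hz, w * a, D.mul_mem hw ha, by rw [← mul_assoc, h2]⟩

/-- TASK RG1. -/
theorem IsU.right {D : Subring F} {z w : F} (h : IsU D (z * w)) (hz : z ∈ D) (hw : w ∈ D) :
    IsU D w := by
  rw [mul_comm] at h
  exact h.left hw hz

/-- TASK RG1. -/
theorem isN_prod {α : Type} {D : Subring F} (s : Finset α) (f : α → F) (hf : ∀ a ∈ s, f a ∈ D)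
    {a : α} (ha : a ∈ s) (h : IsN D (f a)) : IsN D (∏ a ∈ s, f a) := by
  classical
  rw [← Finset.mul_prod_erase s f ha]
  exact h.mul_right (D.prod_mem fun b hb => hf b (Finset.mem_of_mem_erase hb))

/-- TASK RG1. -/
theorem isUnit_iff_isU {D : Subring F} (z : D) : IsUnit z ↔ IsU D (z : F) := by
  rw [isUnit_iff_exists_inv]
  constructor
  · rintro ⟨w, hw⟩
    refine ⟨z.2, w, w.2, ?_⟩
    rw [← Subring.coe_mul, hw, Subring.coe_one]
  · rintro ⟨-, w, hw, h⟩
    exact ⟨⟨w, hw⟩, Subtype.ext h⟩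

-- END RG1a

-- BEGIN RG1b
/-- TASK RG1. `IsLocalRing.nonunits_add`, by `isUnit_iff_isU`. -/
theorem IsN.add {D : Subring F} (hD : IsLocalRing D) {z w : F} (hz : IsN D z) (hw : IsN D w) :
    IsN D (z + w) := by
  rcases isU_or_isN (D.add_mem hz.1 hw.1) with h | h
  · exfalso
    have hz' : (⟨z, hz.1⟩ : D) ∈ nonunits D := fun hu => ((isUnit_iff_isU _).1 hu).not_isN hz
    have hw' : (⟨w, hw.1⟩ : D) ∈ nonunits D := fun hu => ((isUnit_iff_isU _).1 hu).not_isN hw
    exact IsLocalRing.nonunits_add hz' hw'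
      ((isUnit_iff_isU ((⟨z, hz.1⟩ : D) + ⟨w, hw.1⟩)).2 h)
  · exact h

/-- TASK RG1. -/
theorem IsN.sub {D : Subring F} (hD : IsLocalRing D) {z w : F} (hz : IsN D z) (hw : IsN D w) :
    IsN D (z - w) := by
  rw [sub_eq_add_neg]
  exact hz.add hD hw.neg

/-- TASK RG1. -/
theorem IsN.sum {α : Type} {D : Subring F} (hD : IsLocalRing D) (s : Finset α) (f : α → F)
    (hf : ∀ a ∈ s, IsN D (f a)) : IsN D (∑ a ∈ s, f a) := by
  classical
  induction s using Finset.induction_on with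
  | empty =>
    rw [Finset.sum_empty]
    exact isN_zero D
  | insert a s ha ih =>
    rw [Finset.sum_insert ha]
    exact (hf a (Finset.mem_insert_self a s)).add hD
      (ih fun b hb => hf b (Finset.mem_insert_of_mem hb))

/-- TASK RG1. -/
theorem IsU.sub {D : Subring F} (hD : IsLocalRing D) {z w : F} (hz : IsU D z) (hw : IsN D w) :
    IsU D (z - w) := by
  rcases isU_or_isN (D.sub_mem hz.1 hw.1) with h | h
  · exact h
  · have h1 := h.add hD hw
    rw [sub_add_cancel] at h1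
    exact absurd h1 hz.not_isN

/-- TASK RG1. -/
theorem exists_isU_of_sum {α : Type} {D : Subring F} (hD : IsLocalRing D) (s : Finset α)
    (f : α → F) (hf : ∀ a ∈ s, f a ∈ D) (h : IsU D (∑ a ∈ s, f a)) : ∃ a ∈ s, IsU D (f a) := by
  by_contra hcon
  refine h.not_isN (IsN.sum hD s f fun a ha => ?_)
  rcases isU_or_isN (hf a ha) with h1 | h1
  · exact absurd ⟨a, ha, h1⟩ hcon
  · exact h1

/-- TASK RG1. `g⁻¹` is a power of `g` (`isOfFinOrder_of_finite`, or: the map `z ↦ g • z` on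
`D` has the iterate `g ^ (n - 1)`). -/
theorem inv_smul_mem {G : Type} [Group G] [Finite G] [MulSemiringAction G F] {D : Subring F} {g : G}
    (hg : ∀ z ∈ D, g • z ∈ D) : ∀ z ∈ D, g⁻¹ • z ∈ D := by
  have h1 : ∀ (n : ℕ), ∀ z ∈ D, g ^ n • z ∈ D := by
    intro n
    induction n with
    | zero =>
      intro z hz
      rw [pow_zero, one_smul]
      exact hz
    | succ n ih =>
      intro z hz
      rw [pow_succ', mul_smul]
      exact hg _ (ih z hz)
  have h2 : g⁻¹ = g ^ (orderOf g - 1) := by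
    refine inv_eq_of_mul_eq_one_right ?_
    rw [← pow_succ', Nat.sub_add_cancel (orderOf_pos g), pow_orderOf_eq_one]
  intro z hz
  rw [h2]
  exact h1 _ z hz

/-- TASK RG1. -/
theorem IsU.smul {G : Type} [Group G] [MulSemiringAction G F] {D : Subring F} {g : G}
    (hg : ∀ z ∈ D, g • z ∈ D) {z : F} (hz : IsU D z) : IsU D (g • z) := by
  obtain ⟨h1, w, hw, h2⟩ := hz
  refine ⟨hg z h1, g • w, hg w hw, ?_⟩
  rw [← smul_mul', h2, smul_one]

/-- TASK RG1. Use `inv_smul_mem`. -/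
theorem IsN.smul {G : Type} [Group G] [Finite G] [MulSemiringAction G F] {D : Subring F} {g : G}
    (hg : ∀ z ∈ D, g • z ∈ D) {z : F} (hz : IsN D z) : IsN D (g • z) := by
  refine ⟨hg z hz.1, fun w hw h => hz.2 (g⁻¹ • w) (inv_smul_mem hg w hw) ?_⟩
  have h1 := congrArg (fun y => g⁻¹ • y) h
  simp only [smul_mul', smul_one, inv_smul_smul] at h1
  exact h1
-- END RG1b

end Pool.Agent.Lib.MP_6a3dac_ag.GI
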