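import Pool.Agent.Lib.MP_6a3dac_ag.GI.RG1

/-!
# The inertia group of a local ring
-/

set_option autoImplicit false
set_option linter.unusedSectionVars false
set_option linter.unusedVariables false

namespace Pool.Agent.Lib.MP_6a3dac_ag.GI

open Pool.Agent.Lib.MP_6a3dac_ag IsLocalRing Polynomial

variable {F G : Type} [Field F] [Group G] [MulSemiringAction G F]

/-- The elements which map `D` to itself. -/
def decG [Finite G] (D : Subring F) : Subgroup G where
  carrier := {g | ∀ z ∈ D, g • z ∈ D}
  mul_mem' := by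
    intro a b ha hb z hz
    rw [mul_smul]
    exact ha _ (hb z hz)
  one_mem' := by
    intro z hz
    rw [one_smul]
    exact hz
  inv_mem' := by
    intro a ha
    exact inv_smul_mem ha

theorem mem_decG [Finite G] {D : Subring F} {g : G} : g ∈ decG D ↔ ∀ z ∈ D, g • z ∈ D := Iff.rfl

-- BEGIN RG2a
/-- The coefficients of a product of linear factors. -/
theorem rg2a_coeff {α : Type} (s : Finset α) (D : Subring F) (r : α → F) (hr : ∀ h ∈ s, r h ∈ D)
    (k : ℕ) : (∏ h ∈ s, (X - C (r h))).coeff k ∈ D := by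
  have h1 : ∀ k, (∏ h ∈ s, (X - C (r h))).coeff k ∈ D := by
    refine Finset.prod_induction _ (fun P : F[X] => ∀ k, P.coeff k ∈ D) ?_ ?_ ?_
    · intro P Q hP hQ k
      rw [coeff_mul]
      exact D.sum_mem fun i _ => D.mul_mem (hP _) (hQ _)
    · intro k
      rw [coeff_one]
      split_ifs
      · exact D.one_mem
      · exact D.zero_mem
    · intro h hh k
      rw [coeff_sub, coeff_X, coeff_C]
      refine D.sub_mem ?_ ?_
      · split_ifs
        · exact D.one_mem
        · exact D.zero_mem
      · split_ifs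
        · exact hr h hh
        · exact D.zero_mem
  exact h1 k

/-- TASK RG2a. The polynomial `P = ∏ h ∈ s, (X - C (h • w))` (`s` = the set of elements of `H`): its
coefficients lie in `D` (induction on the finset; or `P` is the image of a polynomial over `D`), they are
fixed by `H` (for `g ∈ H` the polynomial `P.map g` is the product of the `X - C (g • h • w)`, and
`h ↦ g h` permutes `s`), and `∑ (g • a_k) z ^ k` is the value at `z` of `P.map g`
(`MulSemiringAction.toRingHom G F g`, `Polynomial.map_prod`, `Polynomial.eval_prod`,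
`Polynomial.eval_eq_sum_range`, `n = P.natDegree + 1`). -/
theorem exists_coeff (H : Subgroup G) (s : Finset G) (hs : ∀ g, g ∈ s ↔ g ∈ H) (D : Subring F)
    (w : F) (hw : ∀ h ∈ H, h • w ∈ D) : ∃ (n : ℕ) (a : ℕ → F), (∀ k, a k ∈ fixG H D) ∧
      ∀ (g : G) (z : F), ∑ k ∈ Finset.range n, (g • a k) * z ^ k = ∏ h ∈ s, (z - g • h • w) := by
  have hmap : ∀ g : G, (∏ h ∈ s, (X - C (h • w))).map (MulSemiringAction.toRingHom G F g) =
      ∏ h ∈ s, (X - C (g • h • w)) := by
    intro g
    rw [Polynomial.map_prod]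
    refine Finset.prod_congr rfl fun h _ => ?_
    rw [Polynomial.map_sub, Polynomial.map_X, Polynomial.map_C]
    rfl
  have hco : ∀ (g : G) (k : ℕ), g • (∏ h ∈ s, (X - C (h • w))).coeff k =
      (∏ h ∈ s, (X - C (g • h • w))).coeff k := by
    intro g k
    rw [← hmap g, coeff_map]
    rfl
  refine ⟨(∏ h ∈ s, (X - C (h • w))).natDegree + 1, fun k => (∏ h ∈ s, (X - C (h • w))).coeff k,
    fun k => ⟨?_, fun g hg => ?_⟩, fun g z => ?_⟩
  · exact rg2a_coeff s D (fun h => h • w) (fun h hh => hw h ((hs h).1 hh)) k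
  · rw [hco g k]
    congr 1
    refine Finset.prod_equiv (Equiv.mulLeft g) (fun h => ?_) fun h _ => ?_
    · rw [hs, hs]
      exact (H.mul_mem_cancel_left hg).symm
    · rw [Equiv.coe_mulLeft, mul_smul]
  · have h1 : ∏ h ∈ s, (z - g • h • w) = (∏ h ∈ s, (X - C (g • h • w))).eval z := by
      rw [eval_prod]
      refine Finset.prod_congr rfl fun h _ => ?_
      rw [eval_sub, eval_X, eval_C]
    rw [h1, eval_eq_sum_range' (n := (∏ h ∈ s, (X - C (h • w))).natDegree + 1)]
    · exact Finset.sum_congr rfl fun k _ => by rw [hco g k]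
    · rw [← hmap g]
      exact Nat.lt_succ_of_le natDegree_map_le
-- END RG2a

-- BEGIN RG2b
/-- TASK RG2b. **The decomposition group acts faithfully on the residue field of the ring of invariants
of the inertia group.** As `g ∉ H` and `g` maps `D` to `D` there is `z ∈ D` with `g • z - z` a unit of
`D` (`InertiaG`, `isU_or_isN`). Let `a_k` be as in `exists_coeff` for `z`. `∑ a_k z ^ k = 0`
(`g = 1`: the factor of `h = 1` is `0`) and `∑ (g • a_k) z ^ k = ∏ (z - g • h • z)` is a unit: each factor
`z - g • h • z = (z - g • z) - g • (h • z - z)` is a unit minus a nonunit (`IsU.sub`, `IsN.smul`, `h ∈ H`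
is inert). So `∑ (g • a_k - a_k) z ^ k` is a unit and some term is a unit (`exists_isU_of_sum`), so
`g • a_k - a_k` is a unit (`IsU.left`). -/
theorem exists_fix_diff [Finite G] {D : Subring F} (hD : IsLocalRing D) (H : Subgroup G)
    (hH : ∀ g, g ∈ H ↔ InertiaG D g) {g : G} (hg : ∀ z ∈ D, g • z ∈ D) (hgH : g ∉ H) :
    ∃ c ∈ fixG H D, IsU D (c - g • c) := by
  classical
  have h1 : ∃ z ∈ D, IsU D (g • z - z) := by
    by_contra hcon
    push Not at hcon
    apply hgH
    rw [hH]
    refine ⟨hg, fun z hz w hw heq => ?_⟩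
    exact hcon z hz ⟨D.sub_mem (hg z hz) hz, w, hw, heq⟩
  obtain ⟨z, hz, hzu⟩ := h1
  have hfin : Set.Finite (H : Set G) := Set.toFinite _
  have hs : ∀ x, x ∈ hfin.toFinset ↔ x ∈ H := by
    intro x
    rw [Set.Finite.mem_toFinset]
    rfl
  obtain ⟨n, a, ha, hval⟩ := exists_coeff H hfin.toFinset hs D z
    (fun h hh => ((hH h).1 hh).1 z hz)
  have e0 : ∑ k ∈ Finset.range n, a k * z ^ k = 0 := by
    have h2 := hval 1 z
    simp only [one_smul] at h2
    rw [h2]
    exact Finset.prod_eq_zero ((hs 1).2 H.one_mem) (by rw [one_smul, sub_self])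
  have e1 : IsU D (∑ k ∈ Finset.range n, (g • a k) * z ^ k) := by
    rw [hval g z]
    apply IsU.prod
    intro h hh
    have hh' := (hH h).1 ((hs h).1 hh)
    have hN : IsN D (h • z - z) :=
      ⟨D.sub_mem (hh'.1 z hz) hz, fun w hw => hh'.2 z hz w hw⟩
    have hU : IsU D (z - g • z) := by
      have := hzu.neg
      rwa [neg_sub] at this
    have h3 := IsU.sub hD hU (IsN.smul hg hN)
    rw [smul_sub] at h3
    have h4 : z - g • h • z = z - g • z - (g • h • z - g • z) := by ring
    rw [h4]
    exact h3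
  have e2 : IsU D (∑ k ∈ Finset.range n, (a k - g • a k) * z ^ k) := by
    have h5 : ∑ k ∈ Finset.range n, (a k - g • a k) * z ^ k
        = - ∑ k ∈ Finset.range n, (g • a k) * z ^ k := by
      rw [← zero_sub, ← e0, ← Finset.sum_sub_distrib]
      refine Finset.sum_congr rfl fun k _ => ?_
      ring
    rw [h5]
    exact e1.neg
  have hmem : ∀ k, a k - g • a k ∈ D := fun k =>
    D.sub_mem (ha k).1 (hg _ (ha k).1)
  obtain ⟨k, -, hk⟩ := exists_isU_of_sum hD (Finset.range n)
    (fun k => (a k - g • a k) * z ^ k)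
    (fun k _ => D.mul_mem (hmem k) (D.pow_mem hz k)) e2
  exact ⟨a k, ha k, IsU.left hk (hmem k) (D.pow_mem hz k)⟩
-- END RG2b

end Pool.Agent.Lib.MP_6a3dac_ag.GI
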