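import Pool.Agent.Lib.MP_6a3dac_ag.GI.RG2

/-!
# Denominators
-/

set_option autoImplicit false
set_option linter.unusedSectionVars false
set_option linter.unusedVariables false

namespace Pool.Agent.Lib.MP_6a3dac_ag.GI

open Pool.Agent.Lib.MP_6a3dac_ag IsLocalRing

variable {F G : Type} [Field F] [Group G] [Finite G] [MulSemiringAction G F]

/-- The semilocal ring `B`, stable under `G`, and its localization `D`. -/
structure SemiLoc (G : Type) {F : Type} [Field F] [Group G] [MulSemiringAction G F]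
    (B D : Subring F) : Prop where
  le : B ≤ D
  stab : ∀ g : G, ∀ b ∈ B, g • b ∈ B
  loc : ∀ z ∈ D, ∃ q ∈ B, IsU D q ∧ z * q ∈ B

-- BEGIN RG3a
private theorem rg3a_smul_prod (K : Subgroup G) (s : Finset G) (hs : ∀ x, x ∈ s ↔ x ∈ K) (q : F)
    {g : G} (hg : g ∈ K) : g • ∏ k ∈ s, k • q = ∏ k ∈ s, k • q := by
  have h1 : g • ∏ k ∈ s, k • q = ∏ k ∈ s, g • k • q :=
    map_prod (MulSemiringAction.toRingHom G F g) _ _
  rw [h1]
  refine Finset.prod_equiv (Equiv.mulLeft g) ?_ ?_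
  · intro i
    rw [hs, hs, Equiv.coe_mulLeft]
    exact (K.mul_mem_cancel_left hg).symm
  · intro i _
    rw [Equiv.coe_mulLeft, mul_smul]

/-- TASK RG3a. Invariant denominators: `q = ∏ k ∈ K, k • q₀` (over the finite set of elements of `K`,
`(Set.toFinite (K : Set G)).toFinset`), where `z q₀ ∈ B`. It is a unit of `D` (`IsU.prod`, `IsU.smul`),
invariant under `K` (reindexing), and `z q = (z q₀) ∏ k ≠ 1, k • q₀ ∈ B` (`Finset.mul_prod_erase`). -/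
theorem SemiLoc.fix_loc {B D : Subring F} (h : SemiLoc G B D) (K : Subgroup G)
    (hK : ∀ g ∈ K, ∀ z ∈ D, g • z ∈ D) {z : F} (hz : z ∈ D) :
    ∃ q ∈ B, IsU D q ∧ (∀ g ∈ K, g • q = q) ∧ z * q ∈ B := by
  classical
  obtain ⟨q₀, hq₀, hu, hzq⟩ := h.loc z hz
  have hfin : Set.Finite (K : Set G) := Set.toFinite _
  have hs : ∀ x, x ∈ hfin.toFinset ↔ x ∈ K := by
    intro x
    rw [Set.Finite.mem_toFinset]
    rfl
  refine ⟨∏ k ∈ hfin.toFinset, k • q₀, B.prod_mem fun k _ => h.stab k q₀ hq₀,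
    IsU.prod _ _ fun k hk => IsU.smul (hK k ((hs k).1 hk)) hu,
    fun g hg => rg3a_smul_prod K _ hs q₀ hg, ?_⟩
  rw [← Finset.mul_prod_erase _ _ ((hs 1).2 K.one_mem), one_smul, ← mul_assoc]
  exact B.mul_mem hzq (B.prod_mem fun k _ => h.stab k q₀ hq₀)
-- END RG3a

-- BEGIN RG3b
private theorem rg3b_smul_prod (K : Subgroup G) (s : Finset G) (hs : ∀ x, x ∈ s ↔ x ∈ K) (q : F)
    {g : G} (hg : g ∈ K) : g • ∏ k ∈ s, k • q = ∏ k ∈ s, k • q := by
  have h1 : g • ∏ k ∈ s, k • q = ∏ k ∈ s, g • k • q :=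
    map_prod (MulSemiringAction.toRingHom G F g) _ _
  rw [h1]
  refine Finset.prod_equiv (Equiv.mulLeft g) ?_ ?_
  · intro i
    rw [hs, hs, Equiv.coe_mulLeft]
    exact (K.mul_mem_cancel_left hg).symm
  · intro i _
    rw [Equiv.coe_mulLeft, mul_smul]

/-- TASK RG3b. `e = ∏ h ∈ H, h • e₁`. For `g` not stabilizing `D` and `h ∈ H` also `g h` does not
stabilize `D` (otherwise `g = (g h) h⁻¹` does), so all factors `g • h • e₁` are nonunits (`isN_prod`,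
`mul_smul`). -/
theorem SemiLoc.exists_split {B D : Subring F} (h : SemiLoc G B D) (H : Subgroup G)
    (hH : ∀ g ∈ H, ∀ z ∈ D, g • z ∈ D) {e₁ : F} (he₁ : e₁ ∈ B) (he₁' : IsU D e₁)
    (hsplit : ∀ g : G, ¬ (∀ z ∈ D, g • z ∈ D) → IsN D (g • e₁)) :
    ∃ e ∈ fixG H B, IsU D e ∧ ∀ g : G, ¬ (∀ z ∈ D, g • z ∈ D) → IsN D (g • e) := by
  classical
  have hfin : Set.Finite (H : Set G) := Set.toFinite _
  have hs : ∀ x, x ∈ hfin.toFinset ↔ x ∈ H := by
    intro x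
    rw [Set.Finite.mem_toFinset]
    rfl
  refine ⟨∏ k ∈ hfin.toFinset, k • e₁, ⟨B.prod_mem fun k _ => h.stab k e₁ he₁,
    fun g hg => rg3b_smul_prod H _ hs e₁ hg⟩,
    IsU.prod _ _ fun k hk => IsU.smul (hH k ((hs k).1 hk)) he₁', ?_⟩
  intro g hg
  have h1 : g • ∏ k ∈ hfin.toFinset, k • e₁ = ∏ k ∈ hfin.toFinset, g • k • e₁ :=
    map_prod (MulSemiringAction.toRingHom G F g) _ _
  rw [h1]
  have hmem : ∀ b ∈ B, b ∈ D := fun b hb => h.le hb
  refine isN_prod _ _ (fun k _ => hmem _ (h.stab g _ (h.stab k e₁ he₁))) ((hs 1).2 H.one_mem) ?_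
  rw [one_smul]
  exact hsplit g hg
-- END RG3b

-- BEGIN RG3c
/-- TASK RG3c. If `v` stabilizes `D` take `c₀ ∈ fixG H D` with `c₀ - v • c₀` a unit (`exists_fix_diff`)
and `q` as in `fix_loc` for `K = decG D`, `z = c₀`; `c = c₀ * q`:
`c - v • c = (c₀ - v • c₀) * q`. If `v` does not stabilize `D` take `c = e` of `exists_split`:
`e - v • e` is a unit minus a nonunit. -/
theorem SemiLoc.exists_diff {B D : Subring F} (h : SemiLoc G B D) (hD : IsLocalRing D)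
    (H : Subgroup G) (hH : ∀ g, g ∈ H ↔ InertiaG D g) {e₁ : F} (he₁ : e₁ ∈ B) (he₁' : IsU D e₁)
    (hsplit : ∀ g : G, ¬ (∀ z ∈ D, g • z ∈ D) → IsN D (g • e₁)) {v : G} (hv : v ∉ H) :
    ∃ c ∈ fixG H B, IsU D (c - v • c) := by
  by_cases hvD : ∀ z ∈ D, v • z ∈ D
  · obtain ⟨c₀, hc₀, hu⟩ := exists_fix_diff hD H hH hvD hv
    obtain ⟨q, hq, hqu, hqf, hzq⟩ := h.fix_loc (decG D) (fun g hg => hg) (mem_fixG.1 hc₀).1
    refine ⟨c₀ * q, mem_fixG.2 ⟨hzq, fun g hg => ?_⟩, ?_⟩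
    · rw [smul_mul', (mem_fixG.1 hc₀).2 g hg, hqf g ((hH g).1 hg).1]
    · rw [smul_mul', hqf v hvD, ← sub_mul]
      exact hu.mul hqu
  · obtain ⟨e, he, heu, hes⟩ := h.exists_split H (fun g hg => ((hH g).1 hg).1) he₁ he₁' hsplit
    exact ⟨e, he, heu.sub hD (hes v hvD)⟩
-- END RG3c

end Pool.Agent.Lib.MP_6a3dac_ag.GI
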