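import Pool.Agent.Lib.MP_6a3dac_ag.GI.RG3

/-!
# Galois coordinates
-/

set_option autoImplicit false
set_option linter.unusedSectionVars false
set_option linter.unusedVariables false

namespace Pool.Agent.Lib.MP_6a3dac_ag.GI

open Pool.Agent.Lib.MP_6a3dac_ag IsLocalRing

variable {F G : Type} [Field F] [Group G] [MulSemiringAction G F]

/-- The functions on `G` of the form `g ↦ ∑ x_i (g • y_i)` with `x_i`, `y_i` in `B'`. -/
def Bil (B' : Subring F) (φ : G → F) : Prop :=
  ∃ (J : Type) (_ : Fintype J) (x y : J → F), (∀ i, x i ∈ B') ∧ (∀ i, y i ∈ B') ∧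
    ∀ g : G, φ g = ∑ i, x i * (g • y i)

-- BEGIN RG4a
/-- TASK RG4a. -/
theorem Bil.const {B' : Subring F} {c : F} (hc : c ∈ B') : Bil B' (fun _ : G => c) := by
  exact ⟨Unit, inferInstance, fun _ => c, fun _ => 1, fun _ => hc, fun _ => B'.one_mem,
    fun g => by simp⟩

/-- TASK RG4a. -/
theorem Bil.act {B' : Subring F} {c : F} (hc : c ∈ B') : Bil B' (fun g : G => g • c) := by
  exact ⟨Unit, inferInstance, fun _ => 1, fun _ => c, fun _ => B'.one_mem, fun _ => hc,
    fun g => by simp⟩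

/-- TASK RG4a. The index type is the sum. -/
theorem Bil.add {B' : Subring F} {φ ψ : G → F} (hφ : Bil B' φ) (hψ : Bil B' ψ) :
    Bil B' (fun g => φ g + ψ g) := by
  obtain ⟨J, _, x, y, hx, hy, h1⟩ := hφ
  obtain ⟨J', _, x', y', hx', hy', h2⟩ := hψ
  refine ⟨J ⊕ J', inferInstance, Sum.elim x x', Sum.elim y y', ?_, ?_, fun g => ?_⟩
  · rintro (j | j)
    · exact hx j
    · exact hx' j
  · rintro (j | j)
    · exact hy j
    · exact hy' j
  · change φ g + ψ g = _
    rw [h1, h2, Fintype.sum_sum_type]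
    rfl

/-- TASK RG4a. The index type is the product. -/
theorem Bil.mul {B' : Subring F} {φ ψ : G → F} (hφ : Bil B' φ) (hψ : Bil B' ψ) :
    Bil B' (fun g => φ g * ψ g) := by
  obtain ⟨J, _, x, y, hx, hy, h1⟩ := hφ
  obtain ⟨J', _, x', y', hx', hy', h2⟩ := hψ
  refine ⟨J × J', inferInstance, fun p => x p.1 * x' p.2, fun p => y p.1 * y' p.2,
    fun p => Subring.mul_mem _ (hx _) (hx' _), fun p => Subring.mul_mem _ (hy _) (hy' _),
    fun g => ?_⟩
  change φ g * ψ g = _
  rw [h1, h2, Finset.sum_mul_sum, Fintype.sum_prod_type]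
  refine Finset.sum_congr rfl fun i _ => Finset.sum_congr rfl fun j _ => ?_
  change x i * g • y i * (x' j * g • y' j) = x i * x' j * g • (y i * y' j)
  rw [smul_mul']
  ring

/-- TASK RG4a. -/
theorem Bil.pow {B' : Subring F} {φ : G → F} (hφ : Bil B' φ) (n : ℕ) :
    Bil B' (fun g => φ g ^ n) := by
  induction n with
  | zero =>
    have h1 : (fun g => φ g ^ 0) = fun _ : G => (1 : F) := by
      funext g
      exact pow_zero _
    rw [h1]
    exact Bil.const B'.one_mem
  | succ n ih =>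
    have h1 : (fun g => φ g ^ (n + 1)) = fun g => φ g ^ n * φ g := by
      funext g
      exact pow_succ _ _
    rw [h1]
    exact ih.mul hφ

/-- TASK RG4a. -/
theorem Bil.sum {α : Type} {B' : Subring F} (s : Finset α) (φ : α → G → F)
    (hφ : ∀ a ∈ s, Bil B' (φ a)) : Bil B' (fun g => ∑ a ∈ s, φ a g) := by
  classical
  induction s using Finset.induction_on with
  | empty =>
    have h1 : (fun g => ∑ a ∈ (∅ : Finset α), φ a g) = fun _ : G => (0 : F) := by
      funext g
      exact Finset.sum_empty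
    rw [h1]
    exact Bil.const B'.zero_mem
  | insert a s ha ih =>
    have h1 : (fun g => ∑ b ∈ insert a s, φ b g) = fun g => φ a g + ∑ b ∈ s, φ b g := by
      funext g
      exact Finset.sum_insert ha
    rw [h1]
    exact (hφ a (Finset.mem_insert_self a s)).add
      (ih fun b hb => hφ b (Finset.mem_insert_of_mem hb))

/-- TASK RG4a. -/
theorem Bil.prod {α : Type} {B' : Subring F} (s : Finset α) (φ : α → G → F)
    (hφ : ∀ a ∈ s, Bil B' (φ a)) : Bil B' (fun g => ∏ a ∈ s, φ a g) := by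
  classical
  induction s using Finset.induction_on with
  | empty =>
    have h1 : (fun g => ∏ a ∈ (∅ : Finset α), φ a g) = fun _ : G => (1 : F) := by
      funext g
      exact Finset.prod_empty
    rw [h1]
    exact Bil.const B'.one_mem
  | insert a s ha ih =>
    have h1 : (fun g => ∏ b ∈ insert a s, φ b g) = fun g => φ a g * ∏ b ∈ s, φ b g := by
      funext g
      exact Finset.prod_insert ha
    rw [h1]
    exact (hφ a (Finset.mem_insert_self a s)).mul
      (ih fun b hb => hφ b (Finset.mem_insert_of_mem hb))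
-- END RG4a

-- BEGIN RG4b
/-- TASK RG4b. **Galois coordinates.** Let `s` be the finite set of elements of `H` and `t` the finite
set of elements of `G` not in `H`; for `v ∈ t` let `c_v ∈ fixG H B` with `c_v - v • c_v` a unit of `D`
(`choose!`). Put `φ g = ∏ v ∈ t, ∏ h ∈ s, (g • c_v - h • v • c_v)`. By `exists_coeff` (for the ring
`D := B`, `w = v • c_v`, its `g = 1`, `z = g • c_v`) the inner product is
`∑ k, a_k (g • c_v) ^ k` with `a_k ∈ fixG H B`, so `φ` is `Bil (fixG H B)` (`Bil.prod`, `Bil.sum`,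
`Bil.mul`, `Bil.const`, `Bil.pow`, `Bil.act`). `φ g = 0` for `g ∉ H` (factor `v = g`, `h = 1`).
`φ 1 = ∏ ∏ (c_v - h • v • c_v)` is a unit: `c_v - h • v • c_v = h • (c_v - v • c_v)`
(`c_v` is fixed by `h`), `IsU.smul`, `IsU.prod`. -/
theorem SemiLoc.exists_coord [Finite G] {B D : Subring F} (h : SemiLoc G B D) (H : Subgroup G)
    (hH : ∀ g ∈ H, ∀ z ∈ D, g • z ∈ D)
    (hdiff : ∀ v : G, v ∉ H → ∃ c ∈ fixG H B, IsU D (c - v • c)) :
    ∃ (J : Type) (_ : Fintype J) (x y : J → F), (∀ i, x i ∈ fixG H B) ∧ (∀ i, y i ∈ fixG H B) ∧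
      (∀ g : G, g ∉ H → ∑ i, x i * (g • y i) = 0) ∧ IsU D (∑ i, x i * y i) := by
  classical
  have := Fintype.ofFinite G
  choose! c hc hcu using hdiff
  obtain ⟨s, hs⟩ : ∃ s : Finset G, ∀ g, g ∈ s ↔ g ∈ H :=
    ⟨Finset.univ.filter (· ∈ H), fun g => by simp⟩
  obtain ⟨t, ht⟩ : ∃ t : Finset G, ∀ g, g ∈ t ↔ g ∉ H :=
    ⟨Finset.univ.filter (· ∉ H), fun g => by simp⟩
  have hB : Bil (fixG H B) (fun g : G => ∏ v ∈ t, ∏ h ∈ s, (g • c v - h • v • c v)) := by
    refine Bil.prod t (fun v (g : G) => ∏ h ∈ s, (g • c v - h • v • c v)) fun v hv => ?_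
    have hcv := hc v ((ht v).1 hv)
    obtain ⟨n, a, ha, hsum⟩ := exists_coeff H s hs B (v • c v)
      (fun h' _ => h.stab _ _ (h.stab _ _ hcv.1))
    have h1 : (fun g : G => ∏ h ∈ s, (g • c v - h • v • c v)) =
        fun g : G => ∑ k ∈ Finset.range n, a k * (g • c v) ^ k := by
      funext g
      have h2 := hsum 1 (g • c v)
      simp only [one_smul] at h2
      exact h2.symm
    rw [h1]
    exact Bil.sum (Finset.range n) (fun k (g : G) => a k * (g • c v) ^ k) fun k _ =>
      (Bil.const (ha k)).mul ((Bil.act hcv).pow k)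
  obtain ⟨J, hJ, x, y, hx, hy, hxy⟩ := hB
  refine ⟨J, hJ, x, y, hx, hy, fun g hg => ?_, ?_⟩
  · rw [← hxy g]
    refine Finset.prod_eq_zero ((ht g).2 hg) (Finset.prod_eq_zero ((hs 1).2 H.one_mem) ?_)
    rw [one_smul, sub_self]
  · have h1 := hxy 1
    simp only [one_smul] at h1
    rw [← h1]
    refine IsU.prod _ _ fun v hv => IsU.prod _ _ fun h' hh' => ?_
    have hvH := (ht v).1 hv
    have hhH := (hs h').1 hh'
    have h2 : c v - h' • v • c v = h' • (c v - v • c v) := by
      rw [smul_sub, (hc v hvH).2 h' hhH]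
    rw [h2]
    exact (hcu v hvH).smul (hH h' hhH)
-- END RG4b

end Pool.Agent.Lib.MP_6a3dac_ag.GI
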