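import Pool.Agent.Lib.MP_6a3dac_ag.GI.RG4
import Pool.Agent.Lib.MP_6a3dac_ag.Mg.G006

/-!
# Regularity of the ring of invariants of a semilocal ring
-/

set_option autoImplicit false
set_option linter.unusedSectionVars false
set_option linter.unusedVariables false

namespace Pool.Agent.Lib.MP_6a3dac_ag.GI

open Pool.Agent.Lib.MP_6a3dac_ag IsLocalRing

variable {F G : Type} [Field F] [Group G] [Finite G] [MulSemiringAction G F]

/-- The relative trace. -/
noncomputable def trG (H : Subgroup G) (c : F) : F :=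
  letI : Fintype (G ⧸ H) := Fintype.ofFinite _
  ∑ u : G ⧸ H, (Quotient.out u : G) • c

-- BEGIN RG5a
theorem rg5a_out (H : Subgroup G) {c : F} (hc : ∀ h ∈ H, h • c = c) (a : G) :
    a • c = (Quotient.out (a : G ⧸ H) : G) • c := by
  have h1 : (Quotient.out (a : G ⧸ H) : G)⁻¹ * a ∈ H :=
    QuotientGroup.eq.1 (QuotientGroup.out_eq' (a : G ⧸ H))
  have h2 := hc _ h1
  rw [mul_smul, inv_smul_eq_iff] at h2
  exact h2

/-- TASK RG5a. -/
theorem trG_add (H : Subgroup G) (c d : F) : trG H (c + d) = trG H c + trG H d := by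
  unfold trG
  rw [← Finset.sum_add_distrib]
  exact Finset.sum_congr rfl fun u _ => smul_add _ _ _

/-- TASK RG5a. -/
theorem trG_mul (H : Subgroup G) {a : F} (ha : ∀ g : G, g • a = a) (c : F) :
    trG H (a * c) = a * trG H c := by
  unfold trG
  rw [Finset.mul_sum]
  refine Finset.sum_congr rfl fun u _ => ?_
  rw [smul_mul', ha]

/-- TASK RG5a. For `c` fixed by `H` the element `g • c` depends only on the coset `g H`: the trace is
invariant (`g • (out u • c) = out (g • u) • c`, since `(out (g • u))⁻¹ * (g * out u) ∈ H`,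
`QuotientGroup.mk_out_eq_mul` / `QuotientGroup.eq`; reindexing with `MulAction.toPerm g`). -/
theorem smul_trG (H : Subgroup G) {c : F} (hc : ∀ h ∈ H, h • c = c) (g : G) :
    g • trG H c = trG H c := by
  let _ : Fintype (G ⧸ H) := Fintype.ofFinite _
  unfold trG
  rw [Finset.smul_sum]
  refine Eq.trans (Finset.sum_congr rfl fun u _ => ?_)
    (Equiv.sum_comp (MulAction.toPerm g : Equiv.Perm (G ⧸ H))
      (fun u : G ⧸ H => (Quotient.out u : G) • c))
  have h1 : (MulAction.toPerm g : Equiv.Perm (G ⧸ H)) u = ((g * Quotient.out u : G) : G ⧸ H) := by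
    rw [MulAction.toPerm_apply]
    conv_lhs => rw [← QuotientGroup.out_eq' u]
    rfl
  rw [h1, ← rg5a_out H hc, mul_smul]

/-- TASK RG5a. -/
theorem trG_mem {B : Subring F} (hB : ∀ g : G, ∀ b ∈ B, g • b ∈ B) (H : Subgroup G) {c : F}
    (hc : c ∈ B) : trG H c ∈ B := by
  unfold trG
  exact Subring.sum_mem _ fun u _ => hB _ _ hc

/-- TASK RG5a. The dual basis formula: `∑ i x_i Tr (y_i c) = ∑ u (out u • c) ∑ i x_i (out u • y_i)`, only
the class of `1` contributes: `out u ∉ H` for `u ≠ 1` and `out 1 ∈ H`. -/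
theorem sum_mul_trG (H : Subgroup G) {J : Type} [Fintype J] (x y : J → F)
    (hy : ∀ i, ∀ h ∈ H, h • y i = y i) (hxy : ∀ g : G, g ∉ H → ∑ i, x i * (g • y i) = 0) {c : F}
    (hc : ∀ h ∈ H, h • c = c) : ∑ i, x i * trG H (y i * c) = c * ∑ i, x i * y i := by
  let _ : Fintype (G ⧸ H) := Fintype.ofFinite _
  have h1 : ∀ i, x i * trG H (y i * c) = ∑ u : G ⧸ H,
      ((Quotient.out u : G) • c) * (x i * ((Quotient.out u : G) • y i)) := by
    intro i
    unfold trG
    rw [Finset.mul_sum]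
    refine Finset.sum_congr rfl fun u _ => ?_
    rw [smul_mul']
    ring
  rw [Finset.sum_congr rfl fun i _ => h1 i, Finset.sum_comm,
    Finset.sum_eq_single ((1 : G) : G ⧸ H)]
  · have h2 : (Quotient.out ((1 : G) : G ⧸ H) : G) ∈ H := by
      have h3 := QuotientGroup.eq.1 (QuotientGroup.out_eq' ((1 : G) : G ⧸ H))
      rw [mul_one] at h3
      exact (H.inv_mem_iff).1 h3
    rw [hc _ h2, Finset.mul_sum]
    exact Finset.sum_congr rfl fun i _ => by rw [hy i _ h2]
  · intro u _ hu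
    have h2 : (Quotient.out u : G) ∉ H := by
      intro h3
      apply hu
      rw [← QuotientGroup.out_eq' u]
      refine QuotientGroup.eq.2 ?_
      rw [mul_one]
      exact H.inv_mem h3
    rw [← Finset.mul_sum, hxy _ h2, mul_zero]
  · intro h2
    exact absurd (Finset.mem_univ _) h2
-- END RG5a

-- BEGIN RG5b
/-- TASK RG5b. `out u • (c * e)` is a nonunit of `D` for all `u`: if `out u` stabilizes `D` then
`out u • c` is a nonunit (`IsN.smul`), otherwise `out u • e` is a nonunit; the other factor lies in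
`B ≤ D`. `IsN.sum`. -/
theorem SemiLoc.isN_trG {B D : Subring F} (h : SemiLoc G B D) (hD : IsLocalRing D)
    (H : Subgroup G) {c e : F} (hc : c ∈ B) (hc' : IsN D c) (he : e ∈ B)
    (hsplit : ∀ g : G, ¬ (∀ z ∈ D, g • z ∈ D) → IsN D (g • e)) : IsN D (trG H (c * e)) := by
  unfold trG
  apply IsN.sum hD
  intro u _
  rw [smul_mul']
  by_cases hg : ∀ z ∈ D, (Quotient.out u : G) • z ∈ D
  · exact (hc'.smul hg).mul_right (h.le (h.stab _ e he))
  · exact (hsplit _ hg).mul_left (h.le (h.stab _ c hc))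
-- END RG5b

-- BEGIN RG5c
private theorem rg5c_fix {F G : Type} [Field F] [Group G] [MulSemiringAction G F] {h : G} {z w : F}
    (hz : h • z = z) (hzw : z * w = 1) : h • w = w := by
  have h1 : z * (h • w) = 1 := by
    have h2 := congrArg (fun t => h • t) hzw
    simp only [smul_mul', smul_one] at h2
    rwa [hz] at h2
  exact mul_left_cancel₀ (left_ne_zero_of_mul_eq_one hzw) (h1.trans hzw.symm)

/-- TASK RG5c. Units of `fixG H D` (for `H` stabilizing `D`) are the elements which are units of `D`: the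
inverse in `D` is fixed. -/
theorem isUnit_fixG_iff {D : Subring F} (H : Subgroup G) (z : fixG H D) :
    IsUnit z ↔ IsU D (z : F) := by
  constructor
  · intro hz
    obtain ⟨w, hw⟩ := hz.exists_right_inv
    exact ⟨z.2.1, (w : F), w.2.1, congrArg Subtype.val hw⟩
  · rintro ⟨-, w, hw, hzw⟩
    have hfix : ∀ h ∈ H, h • w = w := fun h hh => rg5c_fix (z.2.2 h hh) hzw
    exact IsUnit.of_mul_eq_one (⟨w, hw, hfix⟩ : fixG H D) (Subtype.ext hzw)

/-- TASK RG5c. The ring of invariants `fixG ⊤ B` is local: its units are the elements which are units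
of `D`. -/
theorem isUnit_fixG_top_iff {B D : Subring F} (h : SemiLoc G B D)
    (hdom : ∀ a ∈ fixG (⊤ : Subgroup G) B, IsU D a → a⁻¹ ∈ B) (z : fixG (⊤ : Subgroup G) B) :
    IsUnit z ↔ IsU D (z : F) := by
  constructor
  · intro hz
    obtain ⟨w, hw⟩ := hz.exists_right_inv
    exact ⟨h.le z.2.1, (w : F), h.le w.2.1, congrArg Subtype.val hw⟩
  · intro hz
    have hw : (z : F)⁻¹ ∈ B := hdom z z.2 hz
    have hzw : (z : F) * (z : F)⁻¹ = 1 := mul_inv_cancel₀ hz.ne_zero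
    have hfix : ∀ g ∈ (⊤ : Subgroup G), g • (z : F)⁻¹ = (z : F)⁻¹ :=
      fun g hg => rg5c_fix (z.2.2 g hg) hzw
    exact IsUnit.of_mul_eq_one (⟨(z : F)⁻¹, hw, hfix⟩ : fixG (⊤ : Subgroup G) B) (Subtype.ext hzw)

/-- TASK RG5c. -/
theorem isLocalRing_fixG_top {B D : Subring F} (h : SemiLoc G B D) (hD : IsLocalRing D)
    (hdom : ∀ a ∈ fixG (⊤ : Subgroup G) B, IsU D a → a⁻¹ ∈ B) :
    IsLocalRing (fixG (⊤ : Subgroup G) B) := by
  refine IsLocalRing.of_nonunits_add ?_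
  intro a b ha hb
  rw [mem_nonunits_iff, isUnit_fixG_top_iff h hdom] at ha hb ⊢
  have ha' : IsN D (a : F) := (isU_or_isN (h.le a.2.1)).resolve_left ha
  have hb' : IsN D (b : F) := (isU_or_isN (h.le b.2.1)).resolve_left hb
  intro hu
  exact hu.not_isN (ha'.add hD hb')
-- END RG5c

-- BEGIN RG5d
private theorem rg5d_trG_zero (H : Subgroup G) : trG H (0 : F) = 0 := by
  have h1 := trG_add (F := F) H 0 0
  rw [add_zero] at h1
  exact left_eq_add.1 h1

private theorem rg5d_trG_fix {B D : Subring F} (h : SemiLoc G B D) (H : Subgroup G) {c : F}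
    (hc : c ∈ fixG H B) : trG H c ∈ fixG (⊤ : Subgroup G) B :=
  ⟨trG_mem h.stab H hc.1, fun g _ => smul_trG H hc.2 g⟩

/-- TASK RG5d. **Purity.** Let `φ : fixG ⊤ B → fixG H D` be the inclusion and `J` an ideal. Let `P b` be the
property: `b ∈ fixG H B` and for every `y ∈ fixG H B` there is `a ∈ J` with `(a : F) = trG H (y * b)`;
`P` is stable under sums and multiplication with elements of `fixG H B`. By
`Submodule.span_induction` every `z ∈ J.map φ` has `q ∈ fixG H B`, a unit of `D`, with `P (z * q)`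
(for `z = φ a`, `q = 1`: `trG (y a) = a trG y`; for `c • z` use `fix_loc` for `c ∈ fixG H D`,
`K = H`). For `x` with `φ x ∈ J.map φ`: `x q = b` with `P b`; `x * trG (y_i q) = trG (y_i b) ∈ J`. By
`sum_mul_trG` for `c = q` the sum `∑ x_i trG (y_i q) = q ∑ x_i y_i` is a unit of `D`, so some
`trG (y_i q)` is a unit of `D` (`exists_isU_of_sum`, `IsU.right`), hence of `fixG ⊤ B`
(`isUnit_fixG_top_iff`), and `x ∈ J`. -/
theorem SemiLoc.pure {B D : Subring F} (h : SemiLoc G B D) (hD : IsLocalRing D)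
    (hdom : ∀ a ∈ fixG (⊤ : Subgroup G) B, IsU D a → a⁻¹ ∈ B) (H : Subgroup G)
    (hH : ∀ g ∈ H, ∀ z ∈ D, g • z ∈ D) {J : Type} [Fintype J] (x y : J → F)
    (hx : ∀ i, x i ∈ fixG H B) (hy : ∀ i, y i ∈ fixG H B)
    (hxy : ∀ g : G, g ∉ H → ∑ i, x i * (g • y i) = 0) (hxy' : IsU D (∑ i, x i * y i))
    (φ : fixG (⊤ : Subgroup G) B →+* fixG H D) (hφ : ∀ a, (φ a : F) = a)
    (I : Ideal (fixG (⊤ : Subgroup G) B)) : (I.map φ).comap φ = I := by
  have key : ∀ z ∈ I.map φ, ∃ q ∈ fixG H B, IsU D q ∧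
      ∀ y ∈ fixG H B, ∃ a ∈ I, (a : F) = trG H (y * ((z : F) * q)) := by
    intro z hz
    rw [Ideal.map] at hz
    induction hz using Submodule.span_induction with
    | mem z hz =>
      obtain ⟨a, ha, rfl⟩ := hz
      refine ⟨1, (fixG H B).one_mem, isU_one D, fun y hy => ?_⟩
      refine ⟨a * ⟨trG H y, rg5d_trG_fix h H hy⟩, I.mul_mem_right _ ha, ?_⟩
      rw [hφ, mul_one, mul_comm y, trG_mul H (fun g => a.2.2 g trivial)]
      rfl
    | zero =>
      refine ⟨1, (fixG H B).one_mem, isU_one D, fun y hy => ⟨0, I.zero_mem, ?_⟩⟩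
      have h1 : y * (((0 : fixG H D) : F) * 1) = 0 := by
        rw [show ((0 : fixG H D) : F) = 0 from rfl]; ring
      rw [h1, rg5d_trG_zero]
      rfl
    | add z₁ z₂ _ _ h₁ h₂ =>
      obtain ⟨q₁, hq₁, hu₁, H₁⟩ := h₁
      obtain ⟨q₂, hq₂, hu₂, H₂⟩ := h₂
      refine ⟨q₁ * q₂, mul_mem hq₁ hq₂, hu₁.mul hu₂, fun y hy => ?_⟩
      obtain ⟨a₁, ha₁, e₁⟩ := H₁ (y * q₂) (mul_mem hy hq₂)
      obtain ⟨a₂, ha₂, e₂⟩ := H₂ (y * q₁) (mul_mem hy hq₁)
      refine ⟨a₁ + a₂, I.add_mem ha₁ ha₂, ?_⟩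
      have h1 : ((a₁ + a₂ : fixG (⊤ : Subgroup G) B) : F) = a₁ + a₂ := rfl
      rw [h1, e₁, e₂, ← trG_add]
      congr 1
      rw [show ((z₁ + z₂ : fixG H D) : F) = z₁ + z₂ from rfl]
      ring
    | smul c z _ hz =>
      obtain ⟨q, hq, hu, Hz⟩ := hz
      obtain ⟨q', hq', hu', hf', hm'⟩ := h.fix_loc H hH c.2.1
      have hq'' : q' ∈ fixG H B := ⟨hq', hf'⟩
      have hcq : (c : F) * q' ∈ fixG H B :=
        ⟨hm', fun g hg => by rw [smul_mul', c.2.2 g hg, hf' g hg]⟩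
      refine ⟨q * q', mul_mem hq hq'', hu.mul hu', fun y hy => ?_⟩
      obtain ⟨a, ha, e⟩ := Hz (y * (c * q')) (mul_mem hy hcq)
      refine ⟨a, ha, ?_⟩
      rw [e]
      congr 1
      rw [show ((c • z : fixG H D) : F) = c * z from rfl]
      ring
  refine le_antisymm (fun a ha => ?_) Ideal.le_comap_map
  obtain ⟨q, hq, hu, Hq⟩ := key _ (Ideal.mem_comap.1 ha)
  have h1 : IsU D (∑ i, x i * trG H (y i * q)) := by
    rw [sum_mul_trG H x y (fun i => (hy i).2) hxy hq.2]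
    exact hu.mul hxy'
  obtain ⟨i, -, hi⟩ := exists_isU_of_sum hD Finset.univ _
    (fun i _ => mul_mem (h.le (hx i).1) (h.le (rg5d_trG_fix h H (mul_mem (hy i) hq)).1)) h1
  have h2 : IsU D (trG H (y i * q)) :=
    hi.right (h.le (hx i).1) (h.le (rg5d_trG_fix h H (mul_mem (hy i) hq)).1)
  have h3 : IsUnit (⟨trG H (y i * q), rg5d_trG_fix h H (mul_mem (hy i) hq)⟩ :
      fixG (⊤ : Subgroup G) B) := (isUnit_fixG_top_iff h hdom _).2 h2
  obtain ⟨b, hb, e⟩ := Hq (y i) (hy i)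
  rw [← Ideal.mul_unit_mem_iff_mem I h3]
  convert hb using 1
  apply Subtype.ext
  rw [e, hφ]
  change (a : F) * trG H (y i * q) = _
  rw [← trG_mul H (fun g => a.2.2 g trivial)]
  congr 1
  ring
-- END RG5d

-- BEGIN RG5e
/-- TASK RG5e. **The maximal ideal.** Let `z` be a nonunit of `fixG H D` (`isUnit_fixG_iff`), `q` as in
`fix_loc` (`K = H`), `b = z q ∈ fixG H B`, a nonunit of `D`. By `sum_mul_trG` for `c = b * e`:
`∑ x_i trG (y_i * (b * e)) = b e δ`, `δ = ∑ x_i y_i`; the traces are nonunits by `isN_trG`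
(`c = y_i * b`), so lie in the maximal ideal of `fixG ⊤ B` (`isUnit_fixG_top_iff`, `smul_trG`,
`trG_mem`), and `x_i ∈ fixG H D`. So `z * (q e δ)` lies in the extended ideal and `q e δ` is a unit of
`fixG H D`. -/
theorem SemiLoc.map_maximalIdeal {B D : Subring F} (h : SemiLoc G B D) (hD : IsLocalRing D)
    (hdom : ∀ a ∈ fixG (⊤ : Subgroup G) B, IsU D a → a⁻¹ ∈ B) (H : Subgroup G)
    (hH : ∀ g ∈ H, ∀ z ∈ D, g • z ∈ D) {J : Type} [Fintype J] (x y : J → F)
    (hx : ∀ i, x i ∈ fixG H B) (hy : ∀ i, y i ∈ fixG H B)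
    (hxy : ∀ g : G, g ∉ H → ∑ i, x i * (g • y i) = 0) (hxy' : IsU D (∑ i, x i * y i)) {e : F}
    (he : e ∈ fixG H B) (he' : IsU D e)
    (hsplit : ∀ g : G, ¬ (∀ z ∈ D, g • z ∈ D) → IsN D (g • e))
    [IsLocalRing (fixG (⊤ : Subgroup G) B)] [IsLocalRing (fixG H D)]
    (φ : fixG (⊤ : Subgroup G) B →+* fixG H D) (hφ : ∀ a, (φ a : F) = a) :
    (maximalIdeal (fixG (⊤ : Subgroup G) B)).map φ = maximalIdeal (fixG H D) := by
  refine le_antisymm ?_ ?_
  · rw [Ideal.map_le_iff_le_comap]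
    intro a ha
    rw [Ideal.mem_comap, mem_maximalIdeal, mem_nonunits_iff, isUnit_fixG_iff, hφ]
    rw [mem_maximalIdeal, mem_nonunits_iff, isUnit_fixG_top_iff h hdom] at ha
    exact ha
  · intro z hz
    rw [mem_maximalIdeal, mem_nonunits_iff, isUnit_fixG_iff] at hz
    have hzN : IsN D (z : F) := (isU_or_isN z.2.1).resolve_left hz
    obtain ⟨q, hq, hu, hf, hzq⟩ := h.fix_loc H hH z.2.1
    have hq' : q ∈ fixG H B := ⟨hq, hf⟩
    have hb : (z : F) * q ∈ fixG H B :=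
      ⟨hzq, fun g hg => by rw [smul_mul', z.2.2 g hg, hf g hg]⟩
    have hbN : IsN D ((z : F) * q) := hzN.mul_right hu.1
    have hle : ∀ {c : F}, c ∈ fixG H B → c ∈ fixG H D := fun hc => ⟨h.le hc.1, hc.2⟩
    have hδ : ∑ i, x i * y i ∈ fixG H B := sum_mem fun i _ => mul_mem (hx i) (hy i)
    have hfix : ∀ i, trG H (y i * ((z : F) * q * e)) ∈ fixG (⊤ : Subgroup G) B := fun i =>
      ⟨trG_mem h.stab H (mul_mem (hy i) (mul_mem hb he)).1,
        fun g _ => smul_trG H (mul_mem (hy i) (mul_mem hb he)).2 g⟩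
    have hmax : ∀ i, (⟨_, hfix i⟩ : fixG (⊤ : Subgroup G) B) ∈
        maximalIdeal (fixG (⊤ : Subgroup G) B) := by
      intro i
      rw [mem_maximalIdeal, mem_nonunits_iff, isUnit_fixG_top_iff h hdom]
      intro h1
      refine h1.not_isN ?_
      change IsN D (trG H (y i * ((z : F) * q * e)))
      rw [← mul_assoc]
      exact h.isN_trG hD H (mul_mem (hy i) hb).1 (hbN.mul_left (h.le (hy i).1)) he.1 hsplit
    have h2 : ∑ i, (⟨x i, hle (hx i)⟩ : fixG H D) * φ ⟨_, hfix i⟩ ∈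
        (maximalIdeal (fixG (⊤ : Subgroup G) B)).map φ :=
      sum_mem fun i _ => Ideal.mul_mem_left _ _ (Ideal.mem_map_of_mem φ (hmax i))
    have hw : IsUnit (⟨q * (e * ∑ i, x i * y i),
        mul_mem (hle hq') (mul_mem (hle he) (hle hδ))⟩ : fixG H D) :=
      (isUnit_fixG_iff H _).2 (hu.mul (he'.mul hxy'))
    rw [← Ideal.mul_unit_mem_iff_mem _ hw]
    convert h2 using 1
    apply Subtype.ext
    have h3 : ((∑ i, (⟨x i, hle (hx i)⟩ : fixG H D) * φ ⟨_, hfix i⟩ : fixG H D) : F) =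
        ∑ i, x i * trG H (y i * ((z : F) * q * e)) := by
      rw [AddSubmonoidClass.coe_finsetSum]
      refine Finset.sum_congr rfl fun i _ => ?_
      change x i * (φ ⟨_, hfix i⟩ : F) = _
      rw [hφ]
    rw [h3, sum_mul_trG H x y (fun i => (hy i).2) hxy (mul_mem hb he).2]
    change (z : F) * (q * (e * ∑ i, x i * y i)) = _
    ring
-- END RG5e

-- BEGIN RG5f
/-- TASK RG5f. **Regularity of the ring of invariants.** `hgood` gives `H` and the regularity of
`fixG H D`; `exists_split`, `exists_diff`, `exists_coord`; `φ` is the inclusion;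
`isRegularLocalRing_of_comap_map` (Descent.lean) with `pure`, `map_maximalIdeal`,
`isLocalRing_fixG_top`. -/
theorem SemiLoc.isRegular {B D : Subring F} (h : SemiLoc G B D) (hD : IsLocalRing D)
    (hdom : ∀ a ∈ fixG (⊤ : Subgroup G) B, IsU D a → a⁻¹ ∈ B) {e₁ : F} (he₁ : e₁ ∈ B)
    (he₁' : IsU D e₁) (hsplit : ∀ g : G, ¬ (∀ z ∈ D, g • z ∈ D) → IsN D (g • e₁))
    (hgood : Good G D) : IsRegularLocalRing (fixG (⊤ : Subgroup G) B) := by
  obtain ⟨H, hH, hreg⟩ := hgood
  have hH' : ∀ g ∈ H, ∀ z ∈ D, g • z ∈ D := fun g hg => ((hH g).mp hg).1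
  obtain ⟨e, he, he', hse⟩ := h.exists_split H hH' he₁ he₁' hsplit
  obtain ⟨J, hJ, x, y, hx, hy, hxy, hxy'⟩ := h.exists_coord H hH' fun v hv =>
    h.exists_diff hD H hH he₁ he₁' hsplit hv
  have hloc : IsLocalRing (fixG (⊤ : Subgroup G) B) := isLocalRing_fixG_top h hD hdom
  have hloc' : IsLocalRing (fixG H D) := hreg.toIsLocalRing
  let φ : fixG (⊤ : Subgroup G) B →+* fixG H D :=
    Subring.inclusion fun z hz => ⟨h.le hz.1, fun g _ => hz.2 g (Subgroup.mem_top g)⟩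
  have hφ : ∀ a, (φ a : F) = a := fun a => rfl
  exact isRegularLocalRing_of_comap_map φ
    (fun I => h.pure hD hdom H hH' x y hx hy hxy hxy' φ hφ I)
    (h.map_maximalIdeal hD hdom H hH' x y hx hy hxy hxy' he he' hse φ hφ) hreg
-- END RG5f

end Pool.Agent.Lib.MP_6a3dac_ag.GI
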