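import Pool.Agent.Lib.MP_6a3dac_ag.GI.RG5
import Pool.Agent.Lib.MP_6a3dac_ag.GI.Int
import Pool.Agent.Lib.MP_6a3dac_ag.QWGraded

/-!
# Regularity of the invariants of a finite group acting on a graded ring
-/

set_option autoImplicit false
set_option linter.unusedSectionVars false
set_option linter.unusedVariables false

namespace Pool.Agent.Lib.MP_6a3dac_ag.GI

open Pool.Agent.Lib.MP_6a3dac_ag HomogeneousLocalization

section

variable {R K A L M F : Type} [CommRing R] [CommRing K] [CommRing A] [Algebra R K] [Algebra K A]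
  [Algebra R A] [IsScalarTower R K A] [CommRing L] [CommRing M] [Algebra R L] [Algebra L M]
  [Algebra R M] [IsScalarTower R L M] [Field F]
  (𝒜 : ℕ → Submodule K A) [GradedAlgebra 𝒜] (ℳ : ℕ → Submodule L M) [GradedAlgebra ℳ]
  (j : A →+* M) (ι : M →+* F) (S : Subalgebra R A) (T : Subalgebra R M)

/-- The fractions with numerator in `T` and denominator in `S ∖ y`. -/
def midLoc (hgr : ∀ n a, a ∈ 𝒜 n → j a ∈ ℳ n) (hST : ∀ a, a ∈ S → j a ∈ T) (y : Ideal S)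
    [hyp : y.IsPrime] : Subring F where
  carrier := {z | ∃ (n : ℕ) (a : T) (s : S), (a : M) ∈ ℳ n ∧ (s : A) ∈ 𝒜 n ∧ s ∉ y ∧
    z * ι (j s) = ι a}
  mul_mem' := by
    rintro z w ⟨n, a, s, ha, hs, hsy, h1⟩ ⟨m, b, t, hb, ht, hty, h2⟩
    refine ⟨n + m, a * b, s * t, SetLike.mul_mem_graded ha hb, SetLike.mul_mem_graded hs ht,
      hyp.mul_notMem hsy hty, ?_⟩
    rw [Subalgebra.coe_mul, Subalgebra.coe_mul, map_mul, map_mul, map_mul, ← h1, ← h2]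
    ring
  one_mem' := ⟨0, 1, 1, SetLike.GradedOne.one_mem, SetLike.GradedOne.one_mem,
    fun h => hyp.ne_top ((Ideal.eq_top_iff_one _).mpr h), by simp⟩
  add_mem' := by
    rintro z w ⟨n, a, s, ha, hs, hsy, h1⟩ ⟨m, b, t, hb, ht, hty, h2⟩
    refine ⟨n + m, a * ⟨j t, hST _ t.2⟩ + ⟨j s, hST _ s.2⟩ * b, s * t,
      (ℳ (n + m)).add_mem (SetLike.mul_mem_graded ha (hgr m t ht))
      (SetLike.mul_mem_graded (hgr n s hs) hb), SetLike.mul_mem_graded hs ht,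
      hyp.mul_notMem hsy hty, ?_⟩
    rw [Subalgebra.coe_add, Subalgebra.coe_mul, Subalgebra.coe_mul, Subalgebra.coe_mul,
      map_mul, map_add, map_mul, map_mul, map_mul, ← h1, ← h2]
    ring
  zero_mem' := ⟨0, 0, 1, (ℳ 0).zero_mem, SetLike.GradedOne.one_mem,
    fun h => hyp.ne_top ((Ideal.eq_top_iff_one _).mpr h), by simp⟩
  neg_mem' := by
    rintro z ⟨n, a, s, ha, hs, hsy, h1⟩
    exact ⟨n, -a, s, (ℳ n).neg_mem ha, hs, hsy, by
      rw [Subalgebra.coe_neg, map_neg, ← h1]; ring⟩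

variable {G : Type} [Group G] [Finite G] [MulSemiringAction G M] [MulSemiringAction G F]

-- BEGIN RE1
/-- TASK RE1. The semilocal ring `midLoc` and the local ring `homLoc ℳ ι T Q`. The model is the proof of
`regular_homLoc_of_split` in W3/G3c.lean (there `BF` is `midLoc`): `hBD` (for `le`), `hBτ` (for
`stab`), and the bullet '`D` is a localization of `B`' (for `loc`; with the element `s₀` of positive
degree `d`). -/
theorem semiLoc_midLoc (hι : Function.Injective ι) (hgr : ∀ n a, a ∈ 𝒜 n ↔ j a ∈ ℳ n)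
    (hGgr : ∀ (g : G) n m, m ∈ ℳ n → g • m ∈ ℳ n) (hfix' : ∀ (g : G) a, g • j a = j a)
    (hST : ∀ a, a ∈ S ↔ j a ∈ T) (hTG : ∀ g : G, ∀ t ∈ T, g • t ∈ T)
    (hGF : ∀ (g : G) m, g • ι m = ι (g • m)) (y : Ideal S) [y.IsPrime] (Q : Ideal T) [Q.IsPrime]
    (hQ : ∀ (s : S) (t : T), (t : M) = j s → (t ∈ Q ↔ s ∈ y)) {d : ℕ} (hd : 0 < d) {s₀ : S}
    (hs₀ : (s₀ : A) ∈ 𝒜 d) (hs₀y : s₀ ∉ y) :
    SemiLoc G (midLoc 𝒜 ℳ j ι S T (fun n a => (hgr n a).mp) (fun a => (hST a).mp) y)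
      (homLoc ℳ ι T Q) := by
  classical
  have hyp : y.IsPrime := inferInstance
  have hQp : Q.IsPrime := inferInstance
  let jT : S →+* T := (j.comp (S.val : S →+* A)).codRestrict T.toSubring fun s => (hST s).mp s.2
  have hjT : ∀ s : S, ((jT s : T) : M) = j s := fun _ => rfl
  have hQ' : ∀ s : S, jT s ∈ Q ↔ s ∈ y := fun s => hQ s (jT s) rfl
  have hι0 : ∀ t : T, t ∉ Q → ι t ≠ 0 := fun t ht => map_ne_zero_of_notMem ι T Q hι ht
  have hs₀Q : jT s₀ ∉ Q := (hQ' s₀).not.mpr hs₀y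
  have hs₀0 : ι (j s₀) ≠ 0 := hι0 _ hs₀Q
  have hle : midLoc 𝒜 ℳ j ι S T (fun n a => (hgr n a).mp) (fun a => (hST a).mp) y ≤
      homLoc ℳ ι T Q := by
    rintro z ⟨n, a, s, ha, hs, hsy, h1⟩
    exact ⟨n, a, jT s, ha, (hgr n s).mp hs, (hQ' s).not.mpr hsy, h1⟩
  refine ⟨hle, ?_, ?_⟩
  · rintro g z ⟨n, a, s, ha, hs, hsy, h1⟩
    refine ⟨n, ⟨g • (a : M), hTG g a a.2⟩, s, hGgr g n a ha, hs, hsy, ?_⟩
    change g • z * ι (j s) = ι (g • (a : M))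
    rw [← hGF, ← h1, smul_mul', hGF, hfix']
  · rintro z ⟨n, a, s, ha, hs, hsQ, h1⟩
    have hsd : ((s ^ d : T) : M) ∈ ℳ (d * n) := by
      rw [SubmonoidClass.coe_pow]
      exact SetLike.pow_mem_graded d hs
    have hsn : ((s₀ ^ n : S) : A) ∈ 𝒜 (d * n) := by
      rw [SubmonoidClass.coe_pow, mul_comm]
      exact SetLike.pow_mem_graded n hs₀
    have hsny : s₀ ^ n ∉ y := fun h => hs₀y (hyp.mem_of_pow_mem n h)
    have hqB : ι (s : M) ^ d / ι (j s₀) ^ n ∈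
        midLoc 𝒜 ℳ j ι S T (fun n a => (hgr n a).mp) (fun a => (hST a).mp) y := by
      refine ⟨d * n, s ^ d, s₀ ^ n, hsd, hsn, hsny, ?_⟩
      rw [SubmonoidClass.coe_pow, SubmonoidClass.coe_pow, map_pow, map_pow, map_pow,
        div_mul_cancel₀ _ (pow_ne_zero _ hs₀0)]
    have hbB : ι (a : M) * ι (s : M) ^ (d - 1) / ι (j s₀) ^ n ∈
        midLoc 𝒜 ℳ j ι S T (fun n a => (hgr n a).mp) (fun a => (hST a).mp) y := by
      refine ⟨d * n, a * s ^ (d - 1), s₀ ^ n, ?_, hsn, hsny, ?_⟩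
      · rw [Subalgebra.coe_mul, SubmonoidClass.coe_pow]
        have h2 : d * n = n + (d - 1) * n := by
          obtain ⟨d', rfl⟩ : ∃ d', d = d' + 1 := ⟨d - 1, by omega⟩
          rw [Nat.add_sub_cancel]; ring
        rw [h2]
        exact SetLike.mul_mem_graded ha (SetLike.pow_mem_graded _ hs)
      · rw [Subalgebra.coe_mul, SubmonoidClass.coe_pow, SubmonoidClass.coe_pow, map_pow,
          map_mul, map_pow, map_pow, div_mul_cancel₀ _ (pow_ne_zero _ hs₀0)]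
    refine ⟨_, hqB, ?_, ?_⟩
    · rw [← isUnit_iff_isU (⟨_, hle hqB⟩ : homLoc ℳ ι T Q),
        isUnit_homLoc_iff ℳ ι T Q hι _ (n := d * n) (a := s ^ d) (s := jT (s₀ ^ n)) hsd
        ((hgr _ _).mp hsn) ((hQ' _).not.mpr hsny)]
      · exact fun h => hsQ (hQp.mem_of_pow_mem d h)
      · change (ι (s : M) ^ d / ι (j s₀) ^ n) * ι (j ((s₀ ^ n : S) : A)) = ι ((s ^ d : T) : M)
        rw [SubmonoidClass.coe_pow, SubmonoidClass.coe_pow, map_pow, map_pow, map_pow,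
          div_mul_cancel₀ _ (pow_ne_zero _ hs₀0)]
    · have h3 : z * (ι (s : M) ^ d / ι (j s₀) ^ n) =
          ι (a : M) * ι (s : M) ^ (d - 1) / ι (j s₀) ^ n := by
        rw [← h1, ← mul_div_assoc]
        congr 1
        obtain ⟨d', rfl⟩ : ∃ d', d = d' + 1 := ⟨d - 1, by omega⟩
        rw [Nat.add_sub_cancel, pow_succ]
        ring
      rw [h3]
      exact hbB
-- END RE1

-- BEGIN RE2
/-- TASK RE2. The invariants of `midLoc` are the local ring of `S` at `y` (`hmem` in the proof of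
`regular_homLoc_of_split` in W3/G3c.lean). -/
theorem homLoc_eq_fixG (hι : Function.Injective ι) (hgr : ∀ n a, a ∈ 𝒜 n ↔ j a ∈ ℳ n)
    (hfix : ∀ m, (∀ g : G, g • m = m) → ∃ a, j a = m) (hfix' : ∀ (g : G) a, g • j a = j a)
    (hST : ∀ a, a ∈ S ↔ j a ∈ T) (hGF : ∀ (g : G) m, g • ι m = ι (g • m)) (y : Ideal S)
    [y.IsPrime] (Q : Ideal T) [Q.IsPrime]
    (hQ : ∀ (s : S) (t : T), (t : M) = j s → (t ∈ Q ↔ s ∈ y)) :
    homLoc 𝒜 (ι.comp j) S y = fixG (⊤ : Subgroup G)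
      (midLoc 𝒜 ℳ j ι S T (fun n a => (hgr n a).mp) (fun a => (hST a).mp) y) := by
  classical
  let jT : S →+* T := (j.comp (S.val : S →+* A)).codRestrict T.toSubring fun s => (hST s).mp s.2
  have hjT : ∀ s : S, ((jT s : T) : M) = j s := fun _ => rfl
  have hlift : ∀ t : T, (∀ g : G, g • (t : M) = t) → ∃ s : S, jT s = t := by
    intro t ht
    obtain ⟨a, ha⟩ := hfix t ht
    exact ⟨⟨a, (hST a).mpr (by rw [ha]; exact t.2)⟩, Subtype.ext ha⟩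
  have hQ' : ∀ s : S, jT s ∈ Q ↔ s ∈ y := fun s => hQ s (jT s) rfl
  have hι0 : ∀ t : T, t ∉ Q → ι t ≠ 0 := fun t ht => map_ne_zero_of_notMem ι T Q hι ht
  ext z
  rw [mem_fixG]
  constructor
  · rintro ⟨n, a, s, ha, hs, hsy, h1⟩
    change z * ι (j s) = ι (j a) at h1
    have hsQ : jT s ∉ Q := (hQ' s).not.mpr hsy
    refine ⟨⟨n, jT a, s, (hgr n a).mp ha, hs, hsy, h1⟩, fun g _ => ?_⟩
    apply mul_right_cancel₀ (hι0 _ hsQ)
    rw [hjT, h1]
    calc g • z * ι (j s) = g • z * g • (ι (j s)) := by rw [hGF, hfix']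
      _ = g • (ι (j a)) := by rw [← smul_mul', h1]
      _ = ι (j a) := by rw [hGF, hfix']
  · rintro ⟨⟨n, a, s, ha, hs, hsy, h1⟩, hz⟩
    obtain ⟨c, hc⟩ := hlift a (by
      intro g
      apply hι
      rw [← hGF, ← h1, smul_mul', hGF, hfix', hz g (Subgroup.mem_top g)])
    have hc' : j c = (a : M) := congrArg Subtype.val hc
    refine ⟨n, c, s, ?_, hs, hsy, ?_⟩
    · rw [hgr, hc']
      exact ha
    · change z * ι (j s) = ι (j c)
      rw [h1, hc']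

/-- TASK RE2. Units of the invariants (the bullet 'units of the invariants' in the proof of
`regular_homLoc_of_split` in W3/G3c.lean); `IsU` is defined in GI/RG1.lean (`isUnit_iff_isU`,
`isUnit_homLoc_iff`). -/
theorem inv_mem_midLoc (hj : Function.Injective j) (hι : Function.Injective ι)
    (hgr : ∀ n a, a ∈ 𝒜 n ↔ j a ∈ ℳ n) (hfix : ∀ m, (∀ g : G, g • m = m) → ∃ a, j a = m)
    (hfix' : ∀ (g : G) a, g • j a = j a) (hST : ∀ a, a ∈ S ↔ j a ∈ T)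
    (hGF : ∀ (g : G) m, g • ι m = ι (g • m)) (y : Ideal S) [y.IsPrime] (Q : Ideal T) [Q.IsPrime]
    (hQ : ∀ (s : S) (t : T), (t : M) = j s → (t ∈ Q ↔ s ∈ y)) (a : F)
    (ha : a ∈ fixG (⊤ : Subgroup G)
      (midLoc 𝒜 ℳ j ι S T (fun n a => (hgr n a).mp) (fun a => (hST a).mp) y))
    (hu : IsU (homLoc ℳ ι T Q) a) :
    a⁻¹ ∈ midLoc 𝒜 ℳ j ι S T (fun n a => (hgr n a).mp) (fun a => (hST a).mp) y := by
  classical
  let jT : S →+* T := (j.comp (S.val : S →+* A)).codRestrict T.toSubring fun s => (hST s).mp s.2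
  have hjT : ∀ s : S, ((jT s : T) : M) = j s := fun _ => rfl
  have hQ' : ∀ s : S, jT s ∈ Q ↔ s ∈ y := fun s => hQ s (jT s) rfl
  have hι0 : ∀ t : T, t ∉ Q → ι t ≠ 0 := fun t ht => map_ne_zero_of_notMem ι T Q hι ht
  rw [← homLoc_eq_fixG 𝒜 ℳ j ι S T hι hgr hfix hfix' hST hGF y Q hQ] at ha
  obtain ⟨n, b, s, hb, hs, hsy, h1⟩ := ha
  change a * ι (j s) = ι (j b) at h1
  have hby : b ∉ y := by
    rw [← hQ']
    exact (isUnit_homLoc_iff ℳ ι T Q hι ⟨a, hu.1⟩ (n := n) (a := jT b) (s := jT s)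
      ((hgr _ _).mp hb) ((hgr _ _).mp hs) ((hQ' _).not.mpr hsy) h1).mp
      ((isUnit_iff_isU (⟨a, hu.1⟩ : homLoc ℳ ι T Q)).2 hu)
  have hb0 : ι (j b) ≠ 0 := hι0 (jT b) ((hQ' b).not.mpr hby)
  have hs0 : ι (j s) ≠ 0 := hι0 (jT s) ((hQ' s).not.mpr hsy)
  have ha0 : a = ι (j b) / ι (j s) := by rw [← h1, mul_div_cancel_right₀ _ hs0]
  refine ⟨n, jT s, b, (hgr _ _).mp hs, hb, hby, ?_⟩
  rw [ha0, inv_div, hjT, div_mul_cancel₀ _ hb0]
-- END RE2

-- BEGIN RE3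
/-- TASK RE3. If `g` does not map `D = homLoc ℳ ι T Q` to itself there is a homogeneous `t ∉ Q` with
`g • t ∈ Q`: otherwise `g • (a / s) = (g • a) / (g • s)`. -/
theorem exists_homog_of_not_stab (hι : Function.Injective ι)
    (hGgr : ∀ (g : G) n m, m ∈ ℳ n → g • m ∈ ℳ n) (hTG : ∀ g : G, ∀ t ∈ T, g • t ∈ T)
    (hGF : ∀ (g : G) m, g • ι m = ι (g • m)) (Q : Ideal T) [Q.IsPrime] {g : G}
    (hg : ¬ (∀ z ∈ homLoc ℳ ι T Q, g • z ∈ homLoc ℳ ι T Q)) :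
    ∃ n, ∃ t : T, (t : M) ∈ ℳ n ∧ t ∉ Q ∧ (⟨g • (t : M), hTG g t t.2⟩ : T) ∈ Q := by
  by_contra hcon
  push Not at hcon
  apply hg
  rintro z ⟨n, a, s, ha, hs, hsQ, h1⟩
  refine ⟨n, ⟨g • (a : M), hTG g a a.2⟩, ⟨g • (s : M), hTG g s s.2⟩, hGgr g n a ha,
    hGgr g n s hs, hcon n s hs hsQ, ?_⟩
  change g • z * ι (g • (s : M)) = ι (g • (a : M))
  rw [← hGF, ← hGF, ← smul_mul', h1]

/-- TASK RE3. The splitting element: let `t` be the product of the elements `t_g` of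
`exists_homog_of_not_stab` over the finite set of all `g` which do not stabilize `D`, homogeneous of some
degree `k`, `t ∉ Q`, `g • t ∈ Q` for all these `g`. Then `e₁ = ι t ^ d / ι (j s₀) ^ k` (see `heB` and the
last bullets of the proof of `regular_homLoc_of_split` in W3/G3c.lean; `isUnit_homLoc_iff`,
`isUnit_iff_isU`). -/
theorem exists_split_elt (hι : Function.Injective ι) (hgr : ∀ n a, a ∈ 𝒜 n ↔ j a ∈ ℳ n)
    (hGgr : ∀ (g : G) n m, m ∈ ℳ n → g • m ∈ ℳ n) (hfix' : ∀ (g : G) a, g • j a = j a)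
    (hST : ∀ a, a ∈ S ↔ j a ∈ T) (hTG : ∀ g : G, ∀ t ∈ T, g • t ∈ T)
    (hGF : ∀ (g : G) m, g • ι m = ι (g • m)) (y : Ideal S) [y.IsPrime] (Q : Ideal T) [Q.IsPrime]
    (hQ : ∀ (s : S) (t : T), (t : M) = j s → (t ∈ Q ↔ s ∈ y)) {d : ℕ} (hd : 0 < d) {s₀ : S}
    (hs₀ : (s₀ : A) ∈ 𝒜 d) (hs₀y : s₀ ∉ y) :
    ∃ e ∈ midLoc 𝒜 ℳ j ι S T (fun n a => (hgr n a).mp) (fun a => (hST a).mp) y,
      IsU (homLoc ℳ ι T Q) e ∧ ∀ g : G, ¬ (∀ z ∈ homLoc ℳ ι T Q, g • z ∈ homLoc ℳ ι T Q) →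
        IsN (homLoc ℳ ι T Q) (g • e) := by
  classical
  have hyp : y.IsPrime := inferInstance
  have hQp : Q.IsPrime := inferInstance
  let jT : S →+* T := (j.comp (S.val : S →+* A)).codRestrict T.toSubring fun s => (hST s).mp s.2
  have hjT : ∀ s : S, ((jT s : T) : M) = j s := fun _ => rfl
  have hQ' : ∀ s : S, jT s ∈ Q ↔ s ∈ y := fun s => hQ s (jT s) rfl
  have hι0 : ∀ t : T, t ∉ Q → ι t ≠ 0 := fun t ht => map_ne_zero_of_notMem ι T Q hι ht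
  let gT : G → T →+* T := fun g => ((MulSemiringAction.toRingHom G M g).comp
    (T.val : T →+* M)).codRestrict T.toSubring fun t => hTG g t t.2
  have hgT : ∀ (g : G) (t : T), ((gT g t : T) : M) = g • (t : M) := fun _ _ => rfl
  -- the elements `t_g`
  have hex : ∀ g : G, ∃ n, ∃ t : T, (t : M) ∈ ℳ n ∧ t ∉ Q ∧
      (¬ (∀ z ∈ homLoc ℳ ι T Q, g • z ∈ homLoc ℳ ι T Q) → gT g t ∈ Q) := by
    intro g
    by_cases hg : ∀ z ∈ homLoc ℳ ι T Q, g • z ∈ homLoc ℳ ι T Q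
    · exact ⟨0, 1, SetLike.GradedOne.one_mem, fun h => hQp.ne_top ((Ideal.eq_top_iff_one _).mpr h),
        fun h => absurd hg h⟩
    · obtain ⟨n, t, h1, h2, h3⟩ := exists_homog_of_not_stab ℳ ι T hι hGgr hTG hGF Q hg
      exact ⟨n, t, h1, h2, fun _ => h3⟩
  choose n t htn htQ htg using hex
  let s : Finset G := (Set.toFinite (Set.univ : Set G)).toFinset
  have hs : ∀ g : G, g ∈ s := fun g => by simp [s]
  let w : T := ∏ g ∈ s, t g
  have hwk : (w : M) ∈ ℳ (∑ g ∈ s, n g) := by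
    change ((∏ g ∈ s, t g : T) : M) ∈ _
    rw [SubmonoidClass.coe_finsetProd]
    exact SetLike.prod_mem_graded _ _ _ fun g _ => htn g
  have hwQ : w ∉ Q := by
    intro hw
    obtain ⟨g, -, hg⟩ := hQp.prod_mem_iff.mp hw
    exact htQ g hg
  have hwg : ∀ g : G, ¬ (∀ z ∈ homLoc ℳ ι T Q, g • z ∈ homLoc ℳ ι T Q) → gT g w ∈ Q := by
    intro g hg
    change gT g (∏ g ∈ s, t g) ∈ Q
    rw [map_prod]
    exact hQp.prod_mem_iff.mpr ⟨g, hs g, htg g hg⟩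
  generalize hk : ∑ g ∈ s, n g = k at hwk
  have hs₀Q : jT s₀ ∉ Q := (hQ' s₀).not.mpr hs₀y
  have hs₀0 : ι (j s₀) ≠ 0 := hι0 _ hs₀Q
  have htd : ((w ^ d : T) : M) ∈ ℳ (d * k) := by
    rw [SubmonoidClass.coe_pow]
    exact SetLike.pow_mem_graded d hwk
  have hs₀k : ((s₀ ^ k : S) : A) ∈ 𝒜 (d * k) := by
    rw [SubmonoidClass.coe_pow, mul_comm]
    exact SetLike.pow_mem_graded k hs₀
  have hs₀ky : s₀ ^ k ∉ y := fun h => hs₀y (hyp.mem_of_pow_mem k h)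
  have heB : ι (w : M) ^ d / ι (j s₀) ^ k ∈
      midLoc 𝒜 ℳ j ι S T (fun n a => (hgr n a).mp) (fun a => (hST a).mp) y := by
    refine ⟨d * k, w ^ d, s₀ ^ k, htd, hs₀k, hs₀ky, ?_⟩
    rw [SubmonoidClass.coe_pow, SubmonoidClass.coe_pow, map_pow, map_pow, map_pow,
      div_mul_cancel₀ _ (pow_ne_zero _ hs₀0)]
  have hBD : ∀ z ∈ midLoc 𝒜 ℳ j ι S T (fun n a => (hgr n a).mp) (fun a => (hST a).mp) y,
      z ∈ homLoc ℳ ι T Q := by
    rintro z ⟨n, a, s, ha, hs, hsy, h1⟩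
    exact ⟨n, a, jT s, ha, (hgr n s).mp hs, (hQ' s).not.mpr hsy, h1⟩
  refine ⟨ι (w : M) ^ d / ι (j s₀) ^ k, heB, ?_, ?_⟩
  · have h1 := (isUnit_iff_isU (⟨ι (w : M) ^ d / ι (j s₀) ^ k, hBD _ heB⟩ :
      homLoc ℳ ι T Q)).mp
    apply h1
    rw [isUnit_homLoc_iff ℳ ι T Q hι _ (n := d * k) (a := w ^ d) (s := jT (s₀ ^ k)) htd
      ((hgr _ _).mp hs₀k) ((hQ' _).not.mpr hs₀ky)]
    · exact fun h => hwQ (hQp.mem_of_pow_mem d h)
    · change (ι (w : M) ^ d / ι (j s₀) ^ k) * ι (j ((s₀ ^ k : S) : A)) = ι ((w ^ d : T) : M)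
      rw [SubmonoidClass.coe_pow, SubmonoidClass.coe_pow, map_pow, map_pow, map_pow,
        div_mul_cancel₀ _ (pow_ne_zero _ hs₀0)]
  · intro g hg
    have htd' : ((gT g w ^ d : T) : M) ∈ ℳ (d * k) := by
      rw [SubmonoidClass.coe_pow]
      exact SetLike.pow_mem_graded d (hGgr g k w hwk)
    have heq : (g • (ι (w : M) ^ d / ι (j s₀) ^ k)) * ι (j ((s₀ ^ k : S) : A)) =
        ι ((gT g w ^ d : T) : M) := by
      rw [SubmonoidClass.coe_pow, SubmonoidClass.coe_pow, map_pow, map_pow, map_pow, hgT,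
        smul_div₀', smul_pow', smul_pow', hGF, hGF, hfix',
        div_mul_cancel₀ _ (pow_ne_zero _ hs₀0)]
    have hmem : g • (ι (w : M) ^ d / ι (j s₀) ^ k) ∈ homLoc ℳ ι T Q :=
      ⟨d * k, gT g w ^ d, jT (s₀ ^ k), htd', (hgr _ _).mp hs₀k, (hQ' _).not.mpr hs₀ky, heq⟩
    rcases isU_or_isN hmem with h1 | h1
    · exfalso
      have h2 := (isUnit_iff_isU (⟨g • (ι (w : M) ^ d / ι (j s₀) ^ k), hmem⟩ :
        homLoc ℳ ι T Q)).mpr h1
      rw [isUnit_homLoc_iff ℳ ι T Q hι _ (n := d * k) (a := gT g w ^ d) (s := jT (s₀ ^ k)) htd'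
        ((hgr _ _).mp hs₀k) ((hQ' _).not.mpr hs₀ky) heq] at h2
      exact h2 (Ideal.pow_mem_of_mem _ (hwg g hg) d hd)
    · exact h1
-- END RE3

-- BEGIN RE4
/-- TASK RE4. **Regularity of the ring of invariants at all homogeneous primes.** The model is
`regAt_of_order3` in W3/G3c.lean: going up with `isIntegral_of_group` and `actOn`, the element `s₀` of
positive degree, `isRegularLocalRing_of_homLoc`; then rewrite with `homLoc_eq_fixG` and use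
`SemiLoc.isRegular` (RG5.lean) with `semiLoc_midLoc`, `inv_mem_midLoc`, `exists_split_elt`. -/
theorem regAt_of_group (hj : Function.Injective j) (hι : Function.Injective ι)
    (hgr : ∀ n a, a ∈ 𝒜 n ↔ j a ∈ ℳ n) (hGgr : ∀ (g : G) n m, m ∈ ℳ n → g • m ∈ ℳ n)
    (hfix : ∀ m, (∀ g : G, g • m = m) → ∃ a, j a = m) (hfix' : ∀ (g : G) a, g • j a = j a)
    (hST : ∀ a, a ∈ S ↔ j a ∈ T) (hTG : ∀ g : G, ∀ t ∈ T, g • t ∈ T)
    (hGF : ∀ (g : G) m, g • ι m = ι (g • m))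
    (H : ∀ (Q : Ideal T) (_ : Q.IsPrime), (∃ n, 0 < n ∧ ∃ t : T, (t : M) ∈ ℳ n ∧ t ∉ Q) →
      Good G (homLoc ℳ ι T Q)) : RegAt 𝒜 S := by
  classical
  intro hS y hyp hyh hirr
  let := subGradedAlgebra 𝒜 hS
  -- going up
  let jT : S →+* T := (j.comp (S.val : S →+* A)).codRestrict T.toSubring fun s => (hST s).mp s.2
  have hjT : ∀ s : S, ((jT s : T) : M) = j s := fun _ => rfl
  have hjTinj : Function.Injective jT := by
    intro a b hab
    apply Subtype.ext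
    apply hj
    rw [← hjT, ← hjT, hab]
  have hlift : ∀ t : T, (∀ g : G, g • (t : M) = t) → ∃ s : S, jT s = t := by
    intro t ht
    obtain ⟨a, ha⟩ := hfix t ht
    exact ⟨⟨a, (hST a).mpr (by rw [ha]; exact t.2)⟩, Subtype.ext ha⟩
  obtain ⟨Q, hQp, hQ⟩ : ∃ Q : Ideal T, Q.IsPrime ∧ ∀ s : S, jT s ∈ Q ↔ s ∈ y := by
    let : Algebra S T := jT.toAlgebra
    let : MulSemiringAction G T := actOn G T hTG
    have : Algebra.IsIntegral S T := by
      refine isIntegral_of_group G (fun t ht => ?_)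
      exact hlift t fun g => congrArg Subtype.val (ht g)
    obtain ⟨Q, -, hQp, hQ⟩ := Ideal.exists_ideal_over_prime_of_isIntegral y (⊥ : Ideal T) (by
      intro s hs
      have h1 : jT s = 0 := hs
      rw [hjTinj (h1.trans (map_zero jT).symm)]
      exact y.zero_mem)
    refine ⟨Q, hQp, fun s => ?_⟩
    rw [← hQ]
    rfl
  have hQ3 : ∀ (s : S) (t : T), (t : M) = j s → (t ∈ Q ↔ s ∈ y) := by
    intro s t hst
    have h1 : t = jT s := Subtype.ext hst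
    rw [h1, hQ]
  -- an element of positive degree
  obtain ⟨d, hd, s₀, hs₀, hs₀y⟩ : ∃ d, 0 < d ∧ ∃ s : S, (s : A) ∈ 𝒜 d ∧ s ∉ y := by
    by_contra hcon
    push Not at hcon
    apply hirr
    rw [HomogeneousIdeal.toIdeal_irrelevant_le]
    intro i hi s hs
    exact hcon i hi s hs
  have hgood := H Q hQp ⟨d, hd, jT s₀, (hgr _ _).mp hs₀, (hQ s₀).not.mpr hs₀y⟩
  apply isRegularLocalRing_of_homLoc 𝒜 (ι.comp j) S y (hι.comp hj) hS
  obtain ⟨e₁, he₁, he₁', hsplit⟩ :=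
    exists_split_elt 𝒜 ℳ j ι S T hι hgr hGgr hfix' hST hTG hGF y Q hQ3 hd hs₀ hs₀y
  rw [homLoc_eq_fixG 𝒜 ℳ j ι S T hι hgr hfix hfix' hST hGF y Q hQ3]
  exact (semiLoc_midLoc 𝒜 ℳ j ι S T hι hgr hGgr hfix' hST hTG hGF y Q hQ3 hd hs₀
    hs₀y).isRegular (isLocalRing_homLoc ℳ ι T Q hι)
    (fun a ha hu => inv_mem_midLoc 𝒜 ℳ j ι S T hj hι hgr hfix hfix' hST hGF y Q hQ3 a ha hu)
    he₁ he₁' hsplit hgood
-- END RE4

end

end Pool.Agent.Lib.MP_6a3dac_ag.GI
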