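import Pool.Agent.Lib.MP_6a3dac_ag.QWPres

/-!
# Products of conjugates of projective schemes and their descent

The definitions used in the statement of the theorem on Weil restrictions.
-/

set_option autoImplicit false

namespace Pool.Agent.Lib.MP_6a3dac_ag

open MvPolynomial

/-- A family `ψ` of ring homomorphisms `O → N`, where `N` is an algebra over `K`, and a family `s`
of endomorphisms of `N` over `K` which permutes it. -/
structure ConjData (K O N Φ G : Type) [CommRing K] [CommRing O] [CommRing N] [Algebra K N] where
  /-- the family of ring homomorphisms -/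
  ψ : Φ → O →+* N
  /-- the endomorphisms -/
  s : G → N →ₐ[K] N
  /-- the maps of the index set -/
  π : G → Φ → Φ
  /-- the composition of `ψ φ` and `s g` is `ψ (π g φ)` -/
  comm : ∀ g φ c, s g (ψ φ c) = ψ (π g φ) c

namespace ConjData

variable {K O N Φ G : Type} [CommRing K] [CommRing O] [CommRing N] [Algebra K N]
  (D : ConjData K O N Φ G) {n : ℕ} (𝔞 : HomIdeal O n)

/-- The map `f ↦ f^φ(x_(φ,1), ..., x_(φ,n))` from `O[x_1, ..., x_n]` to the polynomial ring over `N`
in the variables `x_(φ,i)`, where `f^φ` is obtained from `f` by applying `ψ φ` to the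
coefficients. -/
noncomputable def conjHom (n : ℕ) (φ : Φ) :
    MvPolynomial (Fin n) O →+* MvPolynomial (Φ × Fin n) N :=
  eval₂Hom (C.comp (D.ψ φ)) fun i => X (φ, i)

/-- The ideal generated by the polynomials `f^φ(x_(φ,1), ..., x_(φ,n))` for all elements `f` of
`𝔞` and all `φ`. -/
noncomputable def conjIdeal : Ideal (MvPolynomial (Φ × Fin n) N) :=
  ⨆ φ : Φ, 𝔞.ideal.map (D.conjHom n φ)

/-- The multihomogeneous coordinate ring of the product of the conjugates `Y^φ`, where `Y` is the
projective scheme over `O` defined by `𝔞` and `Y^φ` is its base change to `N` by `ψ φ`. -/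
def Coord : Type := MvPolynomial (Φ × Fin n) N ⧸ D.conjIdeal 𝔞

noncomputable instance coordRing : CommRing (D.Coord 𝔞) :=
  Ideal.Quotient.commRing (D.conjIdeal 𝔞)

noncomputable instance coordAlgebra : Algebra K (D.Coord 𝔞) :=
  Ideal.instAlgebraQuotient K (D.conjIdeal 𝔞)

/-- The class of a polynomial. -/
noncomputable def cls : MvPolynomial (Φ × Fin n) N →ₐ[K] D.Coord 𝔞 :=
  Ideal.Quotient.mkₐ K (D.conjIdeal 𝔞)

/-- The map of the polynomial ring given by the element `g`: it maps `x_(φ,i)` to `x_(π g φ,i)` and
is `s g` on the constants. -/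
noncomputable def act (n : ℕ) (g : G) :
    MvPolynomial (Φ × Fin n) N →ₐ[K] MvPolynomial (Φ × Fin n) N :=
  aevalTower ((Algebra.algHom K N (MvPolynomial (Φ × Fin n) N)).comp (D.s g))
    fun i => X (D.π g i.1, i.2)

/-- The homogeneous coordinate ring of the Segre embedding of the product of the conjugates, as a
`K`-algebra: it is generated by the constants in `N` and the products of coordinates, one for each
`φ`. -/
noncomputable def segre : Subalgebra K (D.Coord 𝔞) :=
  Algebra.adjoin K (Set.range (fun c : N => D.cls 𝔞 (C c)) ∪
    Set.range (fun k : Φ → Fin n => D.cls 𝔞 (∏ᶠ φ, X (φ, k φ))))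

/-- The elements of the homogeneous coordinate ring of the Segre embedding which are represented by
a polynomial that has the same class as its images under all `g`. -/
noncomputable def inv : Subalgebra K (D.Coord 𝔞) :=
  D.segre 𝔞 ⊓ (⨅ g, AlgHom.equalizer (D.cls 𝔞) ((D.cls 𝔞).comp (D.act n g))).map (D.cls 𝔞)

/-- The homogeneous coordinate ring of the scheme over `K` to which the product of the conjugates
descends. -/
def Desc : Type := D.inv 𝔞

noncomputable instance descRing : CommRing (D.Desc 𝔞) := (D.inv 𝔞).toCommRing

noncomputable instance descAlgebra : Algebra K (D.Desc 𝔞) := (D.inv 𝔞).algebra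

/-- The inclusion in the multihomogeneous coordinate ring. -/
noncomputable def incl : D.Desc 𝔞 →ₐ[K] D.Coord 𝔞 := (D.inv 𝔞).val

/-- The degree-`k` part of the homogeneous coordinate ring: the elements represented by homogeneous
polynomials of degree `d k`, where `d` is the number of the conjugates. -/
noncomputable def gr (k : ℕ) : Submodule K (D.Desc 𝔞) :=
  (((homogeneousSubmodule (Φ × Fin n) N (Nat.card Φ * k)).restrictScalars K).map
    (D.cls 𝔞).toLinearMap).comap (D.incl 𝔞).toLinearMap

end ConjData

end Pool.Agent.Lib.MP_6a3dac_ag
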