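import Pool.Agent.Lib.MP_6a3dac_ag.GI.Stmt
import Pool.Agent.Lib.MP_6a3dac_ag.QWPresGr
import Pool.Agent.Lib.MP_6a3dac_ag.W3.T1g

/-!
# The gradings
-/

set_option autoImplicit false

namespace Pool.Agent.Lib.MP_6a3dac_ag

open MvPolynomial

theorem adjoin_restrictScalars_eq' {K L : Type} [CommRing K] [CommRing L] [Algebra K L]
    {P : Type} [CommRing P] [Algebra K P] [Algebra L P]
    [IsScalarTower K L P] (s : Set P) (z : P) :
    z ∈ Algebra.adjoin K (Set.range (algebraMap L P) ∪ s) ↔ z ∈ Algebra.adjoin L s := by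
  constructor
  · intro hz
    induction hz using Algebra.adjoin_induction with
    | mem x hx =>
      rcases hx with ⟨c, rfl⟩ | hx
      · exact Subalgebra.algebraMap_mem _ _
      · exact Algebra.subset_adjoin hx
    | algebraMap c =>
      rw [IsScalarTower.algebraMap_apply K L P]
      exact Subalgebra.algebraMap_mem _ _
    | add x y _ _ hx hy => exact add_mem hx hy
    | mul x y _ _ hx hy => exact mul_mem hx hy
  · intro hz
    induction hz using Algebra.adjoin_induction with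
    | mem x hx => exact Algebra.subset_adjoin (Or.inr hx)
    | algebraMap c => exact Algebra.subset_adjoin (Or.inl ⟨c, rfl⟩)
    | add x y _ _ hx hy => exact add_mem hx hy
    | mul x y _ _ hx hy => exact mul_mem hx hy

namespace ConjData

attribute [local instance] MvPolynomial.gradedAlgebra

variable {K O N Φ G : Type} [CommRing K] [CommRing O] [CommRing N] [Algebra K N]
  (D : ConjData K O N Φ G) {n : ℕ} (𝔞 : HomIdeal O n)

/-- The multihomogeneous coordinate ring. -/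
abbrev MRing : Type := W3.MultRing D.ψ 𝔞.toHom.toIdeal

theorem comm' (g : G) (φ : Φ) (c : O) : ((D.s g : N →ₐ[K] N) : N →+* N) (D.ψ φ c) =
    D.ψ (D.π g φ) c := D.comm g φ c

/-- The action of the Galois group. -/
noncomputable def galRing (g : G) : D.MRing 𝔞 →+* D.MRing 𝔞 :=
  W3.permRing (s := ((D.s g : N →ₐ[K] N) : N →+* N)) (π := D.π g) 𝔞.toHom.toIdeal (D.comm' g)

theorem galRing_mk (g : G) (P : MvPolynomial (Φ × Fin n) N) :
    D.galRing 𝔞 g (D.cls 𝔞 P) = D.cls 𝔞 (D.act n g P) := by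
  have h : ((D.act n g : MvPolynomial (Φ × Fin n) N →ₐ[K] _) :
      MvPolynomial (Φ × Fin n) N →+* MvPolynomial (Φ × Fin n) N) =
      W3.permPoly ((D.s g : N →ₐ[K] N) : N →+* N) (D.π g) n := by
    apply MvPolynomial.ringHom_ext
    · intro r
      rw [W3.permPoly_C]
      simp only [act, RingHom.coe_coe, aevalTower_C]
      rfl
    · intro i
      rw [W3.permPoly_X]
      simp only [act, RingHom.coe_coe, aevalTower_X]
  have h2 : D.act n g P = W3.permPoly ((D.s g : N →ₐ[K] N) : N →+* N) (D.π g) n P :=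
    RingHom.congr_fun h P
  rw [h2]
  exact W3.permRing_mk 𝔞.toHom.toIdeal (D.comm' g) P

theorem mem_segre_iff [Fintype Φ] (z : D.MRing 𝔞) :
    (z : D.Coord 𝔞) ∈ D.segre 𝔞 ↔ z ∈ W3.segAlg D.ψ 𝔞.toHom.toIdeal := by
  have h1 : (Set.range fun k : Φ → Fin n => D.cls 𝔞 (∏ᶠ φ, X (φ, k φ))) =
      Set.range (W3.segX D.ψ 𝔞.toHom.toIdeal) := by
    apply congrArg Set.range
    funext k
    rw [finprod_eq_prod_of_fintype, map_prod]
    rfl
  rw [segre, h1]
  exact adjoin_restrictScalars_eq' (K := K) (L := N) (P := D.MRing 𝔞) _ z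

theorem galRing_mk' (g : G) (z : D.MRing 𝔞) (P : MvPolynomial (Φ × Fin n) N)
    (hP : D.cls 𝔞 P = z) : D.galRing 𝔞 g z = D.cls 𝔞 (D.act n g P) := by
  subst hP
  exact D.galRing_mk 𝔞 g P

theorem mem_inv_iff [Fintype Φ] (z : D.MRing 𝔞) :
    (z : D.Coord 𝔞) ∈ D.inv 𝔞 ↔
      z ∈ W3.segAlg D.ψ 𝔞.toHom.toIdeal ∧ ∀ g, D.galRing 𝔞 g z = z := by
  constructor
  · rintro ⟨h1, P, hP1, hP2⟩
    refine ⟨(D.mem_segre_iff 𝔞 z).mp h1, fun g => ?_⟩
    have h3 : P ∈ AlgHom.equalizer (D.cls 𝔞) ((D.cls 𝔞).comp (D.act n g)) :=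
      (Algebra.mem_iInf.mp hP1) g
    rw [D.galRing_mk' 𝔞 g z P hP2]
    exact ((AlgHom.mem_equalizer _ _ _).mp h3).symm.trans hP2
  · rintro ⟨h1, h2⟩
    obtain ⟨P, hP⟩ := Ideal.Quotient.mk_surjective z
    have hP' : D.cls 𝔞 P = z := hP
    refine ⟨(D.mem_segre_iff 𝔞 z).mpr h1, P, Algebra.mem_iInf.mpr fun g => ?_, hP⟩
    refine (AlgHom.mem_equalizer _ _ _).mpr ?_
    have h3 := h2 g
    rw [D.galRing_mk' 𝔞 g z P hP'] at h3
    exact hP'.trans h3.symm

theorem mem_gr_iff [Fintype Φ] (k : ℕ) (z : D.Desc 𝔞) :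
    z ∈ D.gr 𝔞 k ↔ (D.incl 𝔞 z : D.MRing 𝔞) ∈
      W3.multGr D.ψ 𝔞.toHom.toIdeal (Fintype.card Φ * k) := by
  rw [← Nat.card_eq_fintype_card]
  exact Iff.rfl

theorem isInternal_gr [Finite Φ] [Nonempty Φ] : DirectSum.IsInternal (D.gr 𝔞) := by
  have := Fintype.ofFinite Φ
  let := W3.multGradedAlgebra D.ψ 𝔞.toHom.toIdeal 𝔞.toHom.2
  have h1 : IsHomog (W3.multGr D.ψ 𝔞.toHom.toIdeal)
      (D.inv 𝔞 : Subalgebra K (D.MRing 𝔞)) :=
    W3.isHomog_invariants _ _ _ (D.galRing 𝔞)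
      (fun g z i => W3.permRing_decompose 𝔞.toHom.toIdeal (D.comm' g) z i)
      (D.mem_inv_iff 𝔞)
  have h2 := W3.isInternal_of_isHomog_seg D.ψ 𝔞.toHom.toIdeal h1
    (fun z hz => ((D.mem_inv_iff 𝔞 z).mp hz).1)
  have h3 : (D.gr 𝔞) = fun k => ((W3.multGr D.ψ
      𝔞.toHom.toIdeal (Fintype.card Φ * k)).restrictScalars K).comap
        (D.inv 𝔞 : Subalgebra K (D.MRing 𝔞)).val.toLinearMap := by
    funext k
    apply SetLike.ext
    intro z
    exact D.mem_gr_iff 𝔞 k z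
  rw [h3]
  exact h2

theorem gradedMonoid_gr : SetLike.GradedMonoid (D.gr 𝔞) where
  one_mem := by
    have := W3.gradedMonoid_multGr D.ψ 𝔞.toHom.toIdeal
    change (1 : D.MRing 𝔞) ∈ W3.multGr D.ψ 𝔞.toHom.toIdeal (Nat.card Φ * 0)
    rw [mul_zero]
    exact SetLike.GradedOne.one_mem (A := W3.multGr D.ψ 𝔞.toHom.toIdeal)
  mul_mem i j a b ha hb := by
    have := W3.gradedMonoid_multGr D.ψ 𝔞.toHom.toIdeal
    have h := SetLike.mul_mem_graded (A := W3.multGr D.ψ 𝔞.toHom.toIdeal) ha hb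
    rw [← mul_add] at h
    exact h

end ConjData

end Pool.Agent.Lib.MP_6a3dac_ag
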