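import Pool.Agent.Lib.MP_6a3dac_ag.W3.T2c

/-!
# Products of affine charts

`Fac h 𝔠` is the base change along `h : O →+* O'` of the affine scheme in `n` variables over `O` with
the ideal `𝔠`; `ProdChart h 𝔠 π` says that `G` with the maps `π φ` from the polynomial ring over `O`
is the coordinate ring of the product over `O'` of the base changes `Fac (h φ) (𝔠 φ)`.
-/

set_option autoImplicit false
set_option linter.unusedSectionVars false

namespace Pool.Agent.Lib.MP_6a3dac_ag.GI

open MvPolynomial TensorProduct Pool.Agent.Lib.MP_6a3dac_ag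

section Fac

variable {O O' : Type} [CommRing O] [CommRing O'] {n : ℕ}

/-- The base change of an affine chart. -/
abbrev Fac (h : O →+* O') (𝔠 : Ideal (MvPolynomial (Fin n) O)) : Type :=
  MvPolynomial (Fin n) O' ⧸ 𝔠.map (MvPolynomial.map h)

/-- The coordinate ring of a product of affine charts. -/
structure ProdChart {Φ : Type} (h : Φ → O →+* O') (𝔠 : Φ → Ideal (MvPolynomial (Fin n) O))
    {G : Type} [CommRing G] [Algebra O' G] (π : Φ → MvPolynomial (Fin n) O →+* G) : Prop where
  const : ∀ φ c, π φ (C c) = algebraMap O' G (h φ c)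
  rel : ∀ φ, ∀ f ∈ 𝔠 φ, π φ f = 0
  lift : ∀ (T : Type) [CommRing T] [Algebra O' T] (u : Φ → MvPolynomial (Fin n) O →+* T),
    (∀ φ c, u φ (C c) = algebraMap O' T (h φ c)) → (∀ φ, ∀ f ∈ 𝔠 φ, u φ f = 0) →
    ∃ g : G →ₐ[O'] T, ∀ φ f, g (π φ f) = u φ f
  gen : Algebra.adjoin O' {g | ∃ φ k, π φ (X k) = g} = ⊤

/-- Maps out of `Fac`. -/
theorem exists_fac_hom {h : O →+* O'} {𝔠 : Ideal (MvPolynomial (Fin n) O)} {T : Type} [CommRing T]
    [Algebra O' T] (u : MvPolynomial (Fin n) O →+* T) (hu : ∀ c, u (C c) = algebraMap O' T (h c))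
    (h0 : ∀ f ∈ 𝔠, u f = 0) :
    ∃ g : Fac h 𝔠 →ₐ[O'] T, ∀ f, g (Ideal.Quotient.mk _ (MvPolynomial.map h f)) = u f := by
  let g₀ : MvPolynomial (Fin n) O' →ₐ[O'] T := aeval fun k => u (X k)
  have h1 : ∀ f, g₀ (MvPolynomial.map h f) = u f := by
    have h2 : (g₀ : MvPolynomial (Fin n) O' →+* T).comp (MvPolynomial.map h) = u := by
      apply MvPolynomial.ringHom_ext
      · intro c
        rw [RingHom.comp_apply, map_C, hu]
        exact g₀.commutes (h c)
      · intro k
        rw [RingHom.comp_apply, map_X]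
        exact aeval_X _ _
    exact fun f => RingHom.congr_fun h2 f
  have h3 : 𝔠.map (MvPolynomial.map h) ≤ RingHom.ker g₀ := by
    rw [Ideal.map_le_iff_le_comap]
    intro f hf
    rw [Ideal.mem_comap, RingHom.mem_ker, h1, h0 f hf]
  exact ⟨Ideal.Quotient.liftₐ _ g₀ fun g hg => h3 hg, fun f => h1 f⟩

/-- `Fac` is the base change. -/
theorem nonempty_facEquiv {C' : Type} [CommRing C'] [Algebra O C'] [Algebra O O']
    (q : MvPolynomial (Fin n) O →ₐ[O] C') (hq : Function.Surjective q) :
    Nonempty (Fac (algebraMap O O') (RingHom.ker q) ≃ₐ[O'] O' ⊗[O] C') := by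
  let qr : MvPolynomial (Fin n) O →+* C' := q
  obtain ⟨α, hα⟩ := exists_fac_hom (h := algebraMap O O') (𝔠 := RingHom.ker q)
    (T := O' ⊗[O] C')
    ((Algebra.TensorProduct.includeRight : C' →ₐ[O] O' ⊗[O] C').toRingHom.comp qr)
    (fun c => by
      change (Algebra.TensorProduct.includeRight : C' →ₐ[O] O' ⊗[O] C') (q (C c)) = _
      rw [show (C c : MvPolynomial (Fin n) O) = algebraMap O _ c from rfl, AlgHom.commutes,
        AlgHom.commutes, ← IsScalarTower.algebraMap_apply]) (fun f hf => by
      change (Algebra.TensorProduct.includeRight : C' →ₐ[O] O' ⊗[O] C') (q f) = _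
      rw [RingHom.mem_ker.mp hf, map_zero])
  have hα' : ∀ f, α (Ideal.Quotient.mk _ (MvPolynomial.map (algebraMap O O') f)) = 1 ⊗ₜ q f :=
    fun f => hα f
  let β₀ : MvPolynomial (Fin n) O →ₐ[O] Fac (algebraMap O O') (RingHom.ker q) :=
    { (Ideal.Quotient.mk ((RingHom.ker q).map (MvPolynomial.map (algebraMap O O')))).comp
        (MvPolynomial.map (algebraMap O O')) with
      commutes' := fun c => by
        change Ideal.Quotient.mk _ (MvPolynomial.map (algebraMap O O') (C c)) = _
        rw [map_C]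
        rfl }
  have hβ₀ : ∀ f, β₀ f = Ideal.Quotient.mk _ (MvPolynomial.map (algebraMap O O') f) := fun f => rfl
  have hβ₀' : ∀ f ∈ RingHom.ker q, β₀ f = 0 := fun f hf => by
    rw [hβ₀, Ideal.Quotient.eq_zero_iff_mem]
    exact Ideal.mem_map_of_mem _ hf
  let β₁ : C' →ₐ[O] Fac (algebraMap O O') (RingHom.ker q) :=
    (Ideal.Quotient.liftₐ (RingHom.ker q) β₀ hβ₀').comp
      (Ideal.quotientKerAlgEquivOfSurjective hq).symm.toAlgHom
  have hβ₁ : ∀ f, β₁ (q f) = Ideal.Quotient.mk _ (MvPolynomial.map (algebraMap O O') f) := by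
    intro f
    have h1 : (Ideal.quotientKerAlgEquivOfSurjective hq).symm (q f) =
        Ideal.Quotient.mk (RingHom.ker q) f := by
      rw [AlgEquiv.symm_apply_eq]
      rfl
    change Ideal.Quotient.liftₐ (RingHom.ker q) β₀ hβ₀'
      ((Ideal.quotientKerAlgEquivOfSurjective hq).symm (q f)) = _
    rw [h1]
    rfl
  let β : O' ⊗[O] C' →ₐ[O'] Fac (algebraMap O O') (RingHom.ker q) :=
    Algebra.TensorProduct.lift (Algebra.ofId O' _) β₁ fun _ _ => Commute.all _ _
  have hβ : ∀ c, β (1 ⊗ₜ c) = β₁ c := by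
    intro c
    change Algebra.TensorProduct.lift _ _ _ _ = _
    rw [Algebra.TensorProduct.lift_tmul, map_one, one_mul]
  refine ⟨AlgEquiv.ofAlgHom α β ?_ ?_⟩
  · apply Algebra.TensorProduct.ext
    · ext
    · apply AlgHom.ext
      intro c
      obtain ⟨f, rfl⟩ := hq c
      change α (β (1 ⊗ₜ q f)) = 1 ⊗ₜ q f
      rw [hβ, hβ₁, hα']
  · apply Ideal.Quotient.algHom_ext
    apply MvPolynomial.algHom_ext
    intro k
    change β (α (Ideal.Quotient.mk _ (X k))) = Ideal.Quotient.mk _ (X k)
    have h1 : (X k : MvPolynomial (Fin n) O') = MvPolynomial.map (algebraMap O O') (X k) := by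
      rw [map_X]
    rw [h1, hα', hβ, hβ₁]

theorem ProdChart.induction {Φ : Type} {h : Φ → O →+* O'}
    {𝔠 : Φ → Ideal (MvPolynomial (Fin n) O)} {G : Type} [CommRing G] [Algebra O' G]
    {π : Φ → MvPolynomial (Fin n) O →+* G} (H : ProdChart h 𝔠 π) (U : Subring G)
    (h1 : ∀ c : O', algebraMap O' G c ∈ U) (h2 : ∀ φ f, π φ f ∈ U) (g : G) : g ∈ U := by
  have hg : g ∈ Algebra.adjoin O' {g | ∃ φ k, π φ (X k) = g} := by rw [H.gen]; exact Algebra.mem_top
  induction hg using Algebra.adjoin_induction with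
  | mem x hx =>
    obtain ⟨φ, k, rfl⟩ := hx
    exact h2 φ _
  | algebraMap c => exact h1 c
  | add a b _ _ ha hb => exact U.add_mem ha hb
  | mul a b _ _ ha hb => exact U.mul_mem ha hb

theorem fac_gen (h : O →+* O') (𝔠 : Ideal (MvPolynomial (Fin n) O)) :
    Algebra.adjoin O' (Set.range fun k => (Ideal.Quotient.mk _ (X k) : Fac h 𝔠)) = ⊤ := by
  rw [eq_top_iff]
  rintro z -
  obtain ⟨z, rfl⟩ := Ideal.Quotient.mk_surjective z
  have hz : z ∈ Algebra.adjoin O' (Set.range (X : Fin n → MvPolynomial (Fin n) O')) := by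
    rw [MvPolynomial.adjoin_range_X]
    exact Algebra.mem_top
  induction hz using Algebra.adjoin_induction with
  | mem x hx =>
    obtain ⟨k, rfl⟩ := hx
    exact Algebra.subset_adjoin ⟨k, rfl⟩
  | algebraMap c => exact Subalgebra.algebraMap_mem _ c
  | add a b _ _ ha hb =>
    rw [map_add]
    exact add_mem ha hb
  | mul a b _ _ ha hb =>
    rw [map_mul]
    exact mul_mem ha hb

theorem reg_comm {G B : Type} [CommRing G] [CommRing B] [Algebra O' G] [Algebra O' B]
    (h : IsRegularRing (G ⊗[O'] B)) : IsRegularRing (B ⊗[O'] G) :=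
  IsRegularRing.of_ringEquiv (Algebra.TensorProduct.comm O' G B).toRingEquiv

/-- **Products of affine charts exist**, and they are flat, smooth, regular. -/
theorem exists_prodChart {Φ : Type} [Finite Φ] (h : Φ → O →+* O')
    (𝔠 : Φ → Ideal (MvPolynomial (Fin n) O)) :
    ∃ (G : Type) (_ : CommRing G) (_ : Algebra O' G) (π : Φ → MvPolynomial (Fin n) O →+* G),
      ProdChart h 𝔠 π ∧
      ((∀ φ, Module.Flat O' (Fac (h φ) (𝔠 φ))) → Module.Flat O' G) ∧
      ((∀ φ, Algebra.Smooth O' (Fac (h φ) (𝔠 φ))) → Algebra.Smooth O' G) ∧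
      ∀ φ₀, IsRegularRing (Fac (h φ₀) (𝔠 φ₀)) →
        (∀ φ, φ ≠ φ₀ → Algebra.Smooth O' (Fac (h φ) (𝔠 φ))) → IsRegularRing G := by
  revert h 𝔠
  refine Finite.induction_empty_option (P := fun Φ : Type => ∀ (h : Φ → O →+* O')
    (𝔠 : Φ → Ideal (MvPolynomial (Fin n) O)),
    ∃ (G : Type) (_ : CommRing G) (_ : Algebra O' G) (π : Φ → MvPolynomial (Fin n) O →+* G),
      ProdChart h 𝔠 π ∧
      ((∀ φ, Module.Flat O' (Fac (h φ) (𝔠 φ))) → Module.Flat O' G) ∧
      ((∀ φ, Algebra.Smooth O' (Fac (h φ) (𝔠 φ))) → Algebra.Smooth O' G) ∧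
      ∀ φ₀, IsRegularRing (Fac (h φ₀) (𝔠 φ₀)) →
        (∀ φ, φ ≠ φ₀ → Algebra.Smooth O' (Fac (h φ) (𝔠 φ))) → IsRegularRing G) ?_ ?_ ?_ Φ
  · intro α β e ih h 𝔠
    obtain ⟨G, i1, i2, π, H, hf, hs, hr⟩ := ih (fun a => h (e a)) (fun a => 𝔠 (e a))
    refine ⟨G, i1, i2, fun b => π (e.symm b), ⟨fun b c => ?_, fun b f hf => ?_, ?_, ?_⟩, ?_, ?_, ?_⟩
    · rw [H.const, Equiv.apply_symm_apply]
    · exact H.rel _ f (by rwa [Equiv.apply_symm_apply])
    · intro T j1 j2 u hu hu0
      obtain ⟨g, hg⟩ := H.lift T (fun a => u (e a)) (fun a c => hu _ c) (fun a f hf => hu0 _ f hf)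
      refine ⟨g, fun b f => ?_⟩
      rw [hg, Equiv.apply_symm_apply]
    · rw [← H.gen]
      congr 1
      ext g
      constructor
      · rintro ⟨b, k, rfl⟩
        exact ⟨_, k, rfl⟩
      · rintro ⟨a, k, rfl⟩
        exact ⟨e a, k, by rw [Equiv.symm_apply_apply]⟩
    · exact fun h1 => hf fun a => h1 _
    · exact fun h1 => hs fun a => h1 _
    · intro b h1 h2
      obtain ⟨a, rfl⟩ := e.surjective b
      exact hr a h1 fun a' ha' => h2 _ fun h3 => ha' (e.injective h3)
  · intro h 𝔠
    refine ⟨O', inferInstance, inferInstance, fun φ => φ.elim, ⟨fun φ => φ.elim, fun φ => φ.elim,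
      ?_, ?_⟩, ?_, ?_, fun φ => φ.elim⟩
    · intro T _ _ u hu hu0
      exact ⟨Algebra.ofId O' T, fun φ => φ.elim⟩
    · rw [eq_top_iff]
      rintro c -
      exact Subalgebra.algebraMap_mem _ c
    · intro _
      infer_instance
    · intro _
      infer_instance
  · intro α _ ih h 𝔠
    obtain ⟨G, i1, i2, π, H, hf, hs, hr⟩ := ih (fun a => h (some a)) (fun a => 𝔠 (some a))
    let B := Fac (h none) (𝔠 none)
    let π₀ : MvPolynomial (Fin n) O →+* B :=
      (Ideal.Quotient.mk _).comp (MvPolynomial.map (h none))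
    let incL : B →ₐ[O'] B ⊗[O'] G := Algebra.TensorProduct.includeLeft
    let incR : G →ₐ[O'] B ⊗[O'] G := Algebra.TensorProduct.includeRight
    let π' : Option α → MvPolynomial (Fin n) O →+* B ⊗[O'] G := fun o =>
      o.elim (incL.toRingHom.comp π₀) fun a => incR.toRingHom.comp (π a)
    have e0 : ∀ f, π' none f = incL (π₀ f) := fun f => rfl
    have e1 : ∀ a f, π' (some a) f = incR (π a f) := fun a f => rfl
    have hcomm : IsRegularRing G → Algebra.Smooth O' B → IsRegularRing (B ⊗[O'] G) := by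
      intro hr hs
      have h3 : IsRegularRing (G ⊗[O'] B) := isRegularRing_of_smooth G _
      exact reg_comm h3
    refine ⟨B ⊗[O'] G, inferInstance, inferInstance, π', ⟨?_, ?_, ?_, ?_⟩, ?_, ?_, ?_⟩
    · rintro (_ | a) c
      · rw [e0]
        change incL (Ideal.Quotient.mk _ (MvPolynomial.map (h none) (C c))) = _
        rw [map_C]
        exact incL.commutes (h none c)
      · rw [e1, H.const, AlgHom.commutes]
    · rintro (_ | a) f hf
      · rw [e0]
        have h1 : π₀ f = 0 := by
          change Ideal.Quotient.mk _ _ = 0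
          rw [Ideal.Quotient.eq_zero_iff_mem]
          exact Ideal.mem_map_of_mem _ hf
        rw [h1, map_zero]
      · rw [e1, H.rel a f hf, map_zero]
    · intro T j1 j2 u hu hu0
      obtain ⟨g, hg⟩ := H.lift T (fun a => u (some a)) (fun a c => hu _ c)
        (fun a f hf => hu0 _ f hf)
      obtain ⟨g₀, hg₀⟩ := exists_fac_hom (u none) (hu none) (hu0 none)
      refine ⟨Algebra.TensorProduct.productMap g₀ g, ?_⟩
      rintro (_ | a) f
      · change Algebra.TensorProduct.productMap g₀ g (π₀ f ⊗ₜ 1) = _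
        rw [Algebra.TensorProduct.productMap_apply_tmul, map_one, mul_one]
        exact hg₀ f
      · change Algebra.TensorProduct.productMap g₀ g (1 ⊗ₜ π a f) = _
        rw [Algebra.TensorProduct.productMap_apply_tmul, map_one, one_mul]
        exact hg a f
    · obtain ⟨S, hS⟩ : ∃ S, S = Algebra.adjoin O' {g | ∃ φ k, π' φ (X k) = g} := ⟨_, rfl⟩
      rw [← hS]
      have hmem : ∀ φ k, π' φ (X k) ∈ S := fun φ k => by
        rw [hS]
        exact Algebra.subset_adjoin ⟨φ, k, rfl⟩
      have hL : ∀ b, incL b ∈ S := by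
        intro b
        have hb : b ∈ Algebra.adjoin O'
            (Set.range fun k => (Ideal.Quotient.mk _ (X k) : Fac (h none) (𝔠 none))) := by
          rw [fac_gen]
          exact Algebra.mem_top
        induction hb using Algebra.adjoin_induction with
        | mem x hx =>
          obtain ⟨k, rfl⟩ := hx
          have h1 : (Ideal.Quotient.mk _ (X k) : Fac (h none) (𝔠 none)) = π₀ (X k) := by
            change _ = Ideal.Quotient.mk _ (MvPolynomial.map (h none) (X k))
            rw [map_X]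
          change incL (Ideal.Quotient.mk _ (X k)) ∈ S
          rw [h1]
          exact hmem none k
        | algebraMap c =>
          rw [AlgHom.commutes]
          exact Subalgebra.algebraMap_mem _ c
        | add a b _ _ ha hb =>
          rw [map_add]
          exact add_mem ha hb
        | mul a b _ _ ha hb =>
          rw [map_mul]
          exact mul_mem ha hb
      have hR : ∀ b, incR b ∈ S := by
        intro b
        have hb : b ∈ Algebra.adjoin O' {g | ∃ φ k, π φ (X k) = g} := by
          rw [H.gen]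
          exact Algebra.mem_top
        induction hb using Algebra.adjoin_induction with
        | mem x hx =>
          obtain ⟨φ, k, rfl⟩ := hx
          exact hmem (some φ) k
        | algebraMap c =>
          rw [AlgHom.commutes]
          exact Subalgebra.algebraMap_mem _ c
        | add a b _ _ ha hb =>
          rw [map_add]
          exact add_mem ha hb
        | mul a b _ _ ha hb =>
          rw [map_mul]
          exact mul_mem ha hb
      rw [eq_top_iff]
      rintro z -
      induction z using TensorProduct.induction_on with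
      | zero => exact zero_mem _
      | tmul c b =>
        rw [show (c ⊗ₜ b : B ⊗[O'] G) = (c ⊗ₜ 1) * (1 ⊗ₜ b) by
          rw [Algebra.TensorProduct.tmul_mul_tmul, mul_one, one_mul]]
        exact mul_mem (hL c) (hR b)
      | add s t hs ht => exact add_mem hs ht
    · intro h1
      have f1 : Module.Flat O' B := h1 none
      have f2 := hf fun a => h1 _
      infer_instance
    · intro h1
      have f1 : Algebra.Smooth O' B := h1 none
      have f2 := hs fun a => h1 _
      exact Algebra.Smooth.comp O' B _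
    · rintro (_ | a) h1 h2
      · have f2 := hs fun a => h2 _ (Option.some_ne_none a)
        have h1' : IsRegularRing B := h1
        exact isRegularRing_of_smooth B _
      · exact hcomm (hr a h1 fun a' ha' => h2 _ fun h3 => ha' (Option.some_injective _ h3))
          (h2 none (Option.some_ne_none a).symm)

end Fac

end Pool.Agent.Lib.MP_6a3dac_ag.GI
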