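import Pool.Agent.Lib.MP_6a3dac_ag.GI.T1

/-!
# The charts of the product of the conjugates in its field of functions
-/

set_option autoImplicit false
set_option linter.unusedSectionVars false
set_option linter.unusedVariables false

namespace Pool.Agent.Lib.MP_6a3dac_ag.GI

open MvPolynomial TensorProduct Pool.Agent.Lib.MP_6a3dac_ag Pool.Agent.Lib.MP_6a3dac_ag.W3

attribute [local instance] MvPolynomial.gradedAlgebra

section ChId

variable {O : Type} [CommRing O] {n : ℕ} (𝔞 : HomogeneousIdeal (homogeneousSubmodule (Fin n) O))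

/-- The ideal of an affine chart. -/
noncomputable def chId (a : Fin n) : Ideal (MvPolynomial (Fin n) O) :=
  RingHom.ker (aeval (chartX 𝔞 a) : MvPolynomial (Fin n) O →ₐ[O] ChartRing 𝔞 a)

variable {𝔞}

theorem mem_chId {a : Fin n} {f : MvPolynomial (Fin n) O} :
    f ∈ chId 𝔞 a ↔ aeval (chartX 𝔞 a) f = 0 := Iff.rfl

theorem le_chId (a : Fin n) {f : MvPolynomial (Fin n) O} (hf : f ∈ 𝔞.toIdeal) :
    f ∈ chId 𝔞 a := aeval_chartX 𝔞 a hf

theorem X_sub_one_mem_chId (a : Fin n) : X a - 1 ∈ chId 𝔞 a := by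
  rw [mem_chId, map_sub, map_one, aeval_X, chartX_self, sub_self]

theorem aeval_chartX_surjective (a : Fin n) :
    Function.Surjective (aeval (chartX 𝔞 a) : MvPolynomial (Fin n) O →ₐ[O] ChartRing 𝔞 a) := by
  intro z
  have hz : z ∈ Algebra.adjoin O (Set.range (chartX 𝔞 a)) := by
    rw [adjoin_chartX]
    exact Algebra.mem_top
  rw [Algebra.adjoin_range_eq_range_aeval] at hz
  exact hz

/-- The evaluation at a point of a field. -/
theorem eval_chId {F : Type} [Field F] (k : O →+* F) {x : Fin n → F}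
    (hx : ∀ f ∈ 𝔞.toIdeal, eval₂ k x f = 0) {a : Fin n} (ha : x a ≠ 0)
    {f : MvPolynomial (Fin n) O} (hf : f ∈ chId 𝔞 a) :
    eval₂Hom k (fun l => x l / x a) f = 0 := by
  let := k.toAlgebra
  obtain ⟨ρ, hρ⟩ := exists_rho 𝔞 x hx a ha
  have h1 : eval₂Hom k (fun l => x l / x a) = (ρ.comp (aeval (chartX 𝔞 a))).toRingHom := by
    apply MvPolynomial.ringHom_ext
    · intro c
      rw [coe_eval₂Hom, eval₂_C]
      change _ = ρ (aeval (chartX 𝔞 a) (C c))
      rw [show (C c : MvPolynomial (Fin n) O) = algebraMap O _ c from rfl, AlgHom.commutes,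
        AlgHom.commutes]
      rfl
    · intro l
      rw [coe_eval₂Hom, eval₂_X]
      change _ = ρ (aeval (chartX 𝔞 a) (X l))
      rw [aeval_X, div_eq_iff ha, hρ]
  rw [h1]
  change ρ (aeval (chartX 𝔞 a) f) = 0
  rw [mem_chId.mp hf, map_zero]

end ChId

section Charts

variable {O O' N F : Type} [CommRing O] [CommRing O'] [Field N] [Field F] [Algebra O' N]
  [Algebra O' F] [Algebra N F] [IsScalarTower O' N F] {n : ℕ} {Φ : Type}
  {𝔞 : HomogeneousIdeal (homogeneousSubmodule (Fin n) O)} {ψ : Φ → O →+* N}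
  {h : Φ → O →+* O'} (hψ : ∀ φ c, algebraMap O' N (h φ c) = ψ φ c)
  (ιP : MultRing ψ 𝔞.toIdeal →ₐ[N] F)

/-- The relations of the coordinates. -/
theorem eval_cl {f : MvPolynomial (Fin n) O} (hf : f ∈ 𝔞.toIdeal) (φ : Φ) :
    eval₂ ((algebraMap N F).comp (ψ φ)) (fun k => ιP (cl ψ 𝔞.toIdeal φ k)) f = 0 := by
  have h1 : (eval₂Hom ((algebraMap N F).comp (ψ φ)) fun k => ιP (cl ψ 𝔞.toIdeal φ k)) =
      ((ιP : MultRing ψ 𝔞.toIdeal →+* F).comp (Ideal.Quotient.mk _)).comp (fHom ψ n φ) := by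
    apply MvPolynomial.ringHom_ext
    · intro c
      rw [coe_eval₂Hom, eval₂_C, RingHom.comp_apply, RingHom.comp_apply, fHom_C]
      change _ = ιP (algebraMap N _ (ψ φ c))
      rw [AlgHom.commutes]
    · intro k
      rw [coe_eval₂Hom, eval₂_X, RingHom.comp_apply, RingHom.comp_apply, fHom_X]
      rfl
  have h2 := RingHom.congr_fun h1 f
  rw [RingHom.comp_apply, RingHom.comp_apply, Ideal.Quotient.eq_zero_iff_mem.mpr
    (fHom_mem ψ 𝔞.toIdeal hf φ), map_zero] at h2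
  exact h2

/-- The affine coordinates as elements of the field. -/
noncomputable def evF (a : Φ → Fin n) (φ : Φ) : MvPolynomial (Fin n) O →+* F :=
  eval₂Hom ((algebraMap N F).comp (ψ φ))
    fun l => ιP (cl ψ 𝔞.toIdeal φ l) / ιP (cl ψ 𝔞.toIdeal φ (a φ))

theorem evF_C (a : Φ → Fin n) (φ : Φ) (c : O) :
    evF ιP a φ (C c) = algebraMap N F (ψ φ c) := by
  rw [evF, coe_eval₂Hom, eval₂_C]
  rfl

theorem evF_X (a : Φ → Fin n) (φ : Φ) (l : Fin n) :
    evF ιP a φ (X l) = ιP (cl ψ 𝔞.toIdeal φ l) / ιP (cl ψ 𝔞.toIdeal φ (a φ)) := by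
  rw [evF, coe_eval₂Hom, eval₂_X]

theorem evF_chId {a : Φ → Fin n} {φ : Φ} (ha : ιP (cl ψ 𝔞.toIdeal φ (a φ)) ≠ 0)
    {f : MvPolynomial (Fin n) O} (hf : f ∈ chId 𝔞 (a φ)) : evF ιP a φ f = 0 :=
  eval_chId _ (fun f hf => eval_cl ιP hf φ) ha hf

variable {G : Type} [CommRing G] [Algebra O' G] {a : Φ → Fin n}
  {π : Φ → MvPolynomial (Fin n) O →+* G} (H : ProdChart h (fun φ => chId 𝔞 (a φ)) π)

include H hψ in
/-- The map of the product of the charts to the field. -/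
theorem exists_prodF (ha : ∀ φ, ιP (cl ψ 𝔞.toIdeal φ (a φ)) ≠ 0) :
    ∃ f : G →ₐ[O'] F, ∀ φ g, f (π φ g) = evF ιP a φ g :=
  H.lift F (evF ιP a) (fun φ c => by
    rw [evF_C, IsScalarTower.algebraMap_apply O' N F, hψ]) fun φ f hf => evF_chId ιP (ha φ) hf

include H in
theorem pi_X_self (φ : Φ) : π φ (X (a φ)) = 1 := by
  have h1 := H.rel φ _ (X_sub_one_mem_chId (𝔞 := 𝔞) (a φ))
  rwa [map_sub, map_one, sub_eq_zero] at h1

variable [Fintype Φ]

variable (π) in
/-- The coordinates of the product. -/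
noncomputable def prodX (k : Φ → Fin n) : G := ∏ φ, π φ (X (k φ))

include H in
theorem pi_eq_prodX [DecidableEq Φ] (φ : Φ) (l : Fin n) :
    π φ (X l) = prodX π (Function.update a φ l) := by
  rw [prodX, ← Finset.mul_prod_erase _ _ (Finset.mem_univ φ), Function.update_self,
    Finset.prod_eq_one, mul_one]
  intro φ' hφ'
  rw [Function.update_of_ne (Finset.ne_of_mem_erase hφ'), pi_X_self H]

include H in
theorem prodX_self : prodX π a = 1 := by
  rw [prodX]
  exact Finset.prod_eq_one fun φ _ => pi_X_self H φ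

include H in
theorem adjoin_prodX : Algebra.adjoin O' (Set.range (prodX π)) = ⊤ := by
  classical
  rw [eq_top_iff, ← H.gen]
  apply Algebra.adjoin_mono
  rintro _ ⟨φ, k, rfl⟩
  exact ⟨_, (pi_eq_prodX H φ k).symm⟩

theorem prodF_prodX {f : G →ₐ[O'] F} (hf : ∀ φ g, f (π φ g) = evF ιP a φ g) (k : Φ → Fin n) :
    f (prodX π k) = ιP (segX ψ 𝔞.toIdeal k) / ιP (segX ψ 𝔞.toIdeal a) := by
  rw [prodX, map_prod, segX, segX, map_prod, map_prod, ← Finset.prod_div_distrib]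
  refine Finset.prod_congr rfl fun φ _ => ?_
  rw [hf, evF_X]

theorem segX_ne (ha : ∀ φ, ιP (cl ψ 𝔞.toIdeal φ (a φ)) ≠ 0) : ιP (segX ψ 𝔞.toIdeal a) ≠ 0 := by
  rw [segX, map_prod]
  exact Finset.prod_ne_zero_iff.mpr fun φ _ => ha φ

theorem ne_of_segX (h0 : ιP (segX ψ 𝔞.toIdeal a) ≠ 0) (φ : Φ) :
    ιP (cl ψ 𝔞.toIdeal φ (a φ)) ≠ 0 := by
  rw [segX, map_prod, Finset.prod_ne_zero_iff] at h0
  exact h0 φ (Finset.mem_univ φ)

include H hψ in
/-- The map of the product of the charts to the field is injective. -/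
theorem prodF_injective (hO'N : Function.Injective (algebraMap O' N))
    (hιP : Function.Injective ιP) [Module.Flat O' G]
    (ha : ∀ φ, ιP (cl ψ 𝔞.toIdeal φ (a φ)) ≠ 0) {f : G →ₐ[O'] F}
    (hf : ∀ φ g, f (π φ g) = evF ιP a φ g) : Function.Injective f := by
  let inc : G →ₐ[O'] N ⊗[O'] G := Algebra.TensorProduct.includeRight
  obtain ⟨θ, hθ⟩ := W3.exists_theta ψ 𝔞.toIdeal (T := N ⊗[O'] G) (fun φ k => inc (π φ (X k))) (by
    intro φ g hg
    have h1 : eval₂Hom ((algebraMap N (N ⊗[O'] G)).comp (ψ φ)) (fun k => inc (π φ (X k))) =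
        inc.toRingHom.comp (π φ) := by
      apply MvPolynomial.ringHom_ext
      · intro c
        rw [coe_eval₂Hom, eval₂_C, RingHom.comp_apply, RingHom.comp_apply, H.const]
        change _ = inc (algebraMap O' G (h φ c))
        rw [AlgHom.commutes, ← hψ, ← IsScalarTower.algebraMap_apply]
      · intro k
        rw [coe_eval₂Hom, eval₂_X]
        rfl
    have h2 := RingHom.congr_fun h1 g
    rw [coe_eval₂Hom] at h2
    rw [h2, RingHom.comp_apply, H.rel φ g (le_chId _ hg), map_zero])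
  have hθseg : ∀ k, θ (segX ψ 𝔞.toIdeal k) = 1 ⊗ₜ prodX π k := by
    intro k
    rw [theta_segX θ hθ, prodX]
    change _ = inc (∏ φ, π φ (X (k φ)))
    rw [map_prod]
  refine injective_of_theta hO'N ιP hιP f (prodX π) (adjoin_prodX H) (segX ψ 𝔞.toIdeal)
    (segX ψ 𝔞.toIdeal a) (fun k => ?_) θ hθseg ?_
  · rw [prodF_prodX ιP hf, mul_div_cancel₀ _ (segX_ne ιP ha)]
  · rw [hθseg, prodX_self H]
    rfl

/-- The map from the Segre algebra to the field. -/
noncomputable def segMap : segAlg ψ 𝔞.toIdeal →+* F :=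
  (ιP : MultRing ψ 𝔞.toIdeal →+* F).comp (segAlg ψ 𝔞.toIdeal).val.toRingHom

theorem segMap_xx (k : Φ → Fin n) : segMap ιP (xx₃ 𝔞.toIdeal ψ k) =
    ιP (segX ψ 𝔞.toIdeal k) := rfl

theorem segMap_injective (hιP : Function.Injective ιP) : Function.Injective (segMap ιP) :=
  fun _ _ h => Subtype.ext (hιP h)

theorem prodF_coord {f : G →ₐ[O'] F} (hf : ∀ φ g, f (π φ g) = evF ιP a φ g) (k : Φ → Fin n) :
    f (prodX π k) = segMap ιP (xx₃ 𝔞.toIdeal ψ k) / segMap ιP (xx₃ 𝔞.toIdeal ψ a) :=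
  prodF_prodX ιP hf k

include H in
theorem prodF_mem {f : G →ₐ[O'] F} (hf : ∀ φ g, f (π φ g) = evF ιP a φ g) {D : Subring F}
    (hD : ∀ c : O', algebraMap O' F c ∈ D)
    (hcoord : ∀ k, segMap ιP (xx₃ 𝔞.toIdeal ψ k) / segMap ιP (xx₃ 𝔞.toIdeal ψ a) ∈ D) (g : G) :
    f g ∈ D := by
  refine mem_of_adjoin _ (adjoin_prodX H) hD (fun k => ?_) g
  rw [prodF_coord ιP hf]
  exact hcoord k

include H in
/-- **The local rings of the product are regular.** -/
theorem prod_around {f : G →ₐ[O'] F} (hf : ∀ φ g, f (π φ g) = evF ιP a φ g)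
    (hinj : Function.Injective f) (hreg : IsRegularRing G)
    {Λ : Subring (segAlg ψ 𝔞.toIdeal)} {D : Subring F} [IsLocalRing D]
    (hΛ : ∀ m ∈ Λ, ∃ c : O', algebraMap O' F c = segMap ιP m)
    (hΛ' : ∀ c : O', ∃ m ∈ Λ, ∃ s ∈ Λ, (∃ w ∈ D, segMap ιP s * w = 1) ∧
      algebraMap O' F c * segMap ιP s = segMap ιP m)
    (hD : ∀ c : O', algebraMap O' F c ∈ D)
    (hcoord : ∀ k, segMap ιP (xx₃ 𝔞.toIdeal ψ k) / segMap ιP (xx₃ 𝔞.toIdeal ψ a) ∈ D) :
    QD.Around (segMap ιP) (xx₃ 𝔞.toIdeal ψ) Λ D a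
      (locF f.toRingHom D (prodF_mem ιP H hf hD hcoord)) := by
  refine around_of_chart (segMap ιP) (xx₃ 𝔞.toIdeal ψ) Λ a hinj hreg ?_ ?_ ?_
  · intro m hm
    obtain ⟨c, hc⟩ := hΛ m hm
    refine ⟨algebraMap O' _ c, ?_⟩
    rw [← hc]
    exact f.commutes c
  · intro k
    exact ⟨prodX π k, prodF_coord ιP hf k⟩
  · intro N' hdom hNΛ hNx g
    refine mem_of_adjoin f (adjoin_prodX H) ?_ (fun k => ?_) g
    · intro c
      obtain ⟨m, hm, s, hs, ⟨w, hw, h1⟩, h2⟩ := hΛ' c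
      have h3 : algebraMap O' F c = segMap ιP m * w := by
        rw [← h2]
        linear_combination (-(algebraMap O' F c)) * h1
      rw [h3]
      exact N'.mul_mem (hNΛ m hm) (hdom _ (hNΛ s hs) w hw h1)
    · rw [prodF_coord ιP hf]
      exact hNx k

end Charts

end Pool.Agent.Lib.MP_6a3dac_ag.GI
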