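import Pool.Agent.Lib.MP_6a3dac_ag.GI.T2
import Pool.Agent.Lib.MP_6a3dac_ag.W3.T3d

/-!
# The local structure of a product of conjugate charts at an inert point
-/

set_option autoImplicit false
set_option linter.unusedSectionVars false
set_option linter.unusedVariables false

namespace Pool.Agent.Lib.MP_6a3dac_ag.GI

open MvPolynomial TensorProduct IsLocalRing Pool.Agent.Lib.MP_6a3dac_ag
  Pool.Agent.Lib.MP_6a3dac_ag.W3

section Ext

variable {O O' : Type} [CommRing O] [CommRing O'] {n : ℕ} {Φ : Type} {h : Φ → O →+* O'}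
  {𝔠 : Φ → Ideal (MvPolynomial (Fin n) O)} {G : Type} [CommRing G] [Algebra O' G]
  {π : Φ → MvPolynomial (Fin n) O →+* G} (H : ProdChart h 𝔠 π) {A : Type} [CommRing A]
  [IsLocalRing A] [Algebra G A] (𝔮 : Ideal G) [𝔮.IsPrime] [IsLocalization.AtPrime A 𝔮]

variable (π A) in
/-- The maps of the polynomial ring to the local ring. -/
noncomputable def toA (φ : Φ) : MvPolynomial (Fin n) O →+* A := (algebraMap G A).comp (π φ)

theorem toA_apply (φ : Φ) (f : MvPolynomial (Fin n) O) :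
    toA π A φ f = algebraMap G A (π φ f) := rfl

include H 𝔮 in
/-- **Extension of derivations** to the local rings of the product. -/
theorem ProdChart.ext (δ : Φ → MvPolynomial (Fin n) O → ResidueField A)
    (hδ : ∀ φ, IsDer ((residue A).comp (toA π A φ)) (δ φ)) (hc : ∀ φ c, δ φ (C c) = 0)
    (hrel : ∀ φ, ∀ f ∈ 𝔠 φ, δ φ f = 0) :
    ∃ Δ : A → ResidueField A, IsDer (residue A) Δ ∧
      (∀ c : O', Δ (algebraMap G A (algebraMap O' G c)) = 0) ∧
      ∀ φ f, Δ (toA π A φ f) = δ φ f := by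
  let k : O' →+* ResidueField A :=
    (residue A).comp ((algebraMap G A).comp (algebraMap O' G))
  let : Algebra O' (TrivSqZeroExt (ResidueField A) (ResidueField A)) :=
    ((TrivSqZeroExt.inlHom (ResidueField A) (ResidueField A)).comp k).toAlgebra
  obtain ⟨Ψ, hΨ⟩ := H.lift (TrivSqZeroExt (ResidueField A) (ResidueField A))
    (fun φ => dualHom _ _ (hδ φ)) (fun φ c => by
      refine TrivSqZeroExt.ext ?_ (hc φ c)
      change residue A (algebraMap G A (π φ (C c))) = residue A (algebraMap G A _)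
      rw [H.const]) (fun φ f hf => by
      refine TrivSqZeroExt.ext ?_ (hrel φ f hf)
      change residue A (algebraMap G A (π φ f)) = 0
      rw [H.rel φ f hf, map_zero, map_zero])
  have hc' : ∀ c : O', Ψ (algebraMap O' G c) = TrivSqZeroExt.inl (k c) := fun c => by
    rw [AlgHom.commutes]
    rfl
  have hfst : ∀ g, (Ψ g).fst = residue A (algebraMap G A g) := by
    obtain ⟨U, hU⟩ : ∃ U : Subring G, U = RingHom.eqLocus
      ((TrivSqZeroExt.fstHom (ResidueField A) (ResidueField A)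
        (ResidueField A)).toRingHom.comp Ψ.toRingHom) ((residue A).comp (algebraMap G A)) :=
      ⟨_, rfl⟩
    have hmem : ∀ g, g ∈ U ↔ (Ψ g).fst = residue A (algebraMap G A g) := fun g => by
      rw [hU]
      rfl
    intro g
    rw [← hmem]
    refine H.induction U (fun c => ?_) (fun φ f => ?_) g
    · rw [hmem, hc']
      rfl
    · rw [hmem, hΨ]
      rfl
  obtain ⟨Δ, hΔ, hΔg⟩ := exists_der_loc 𝔮 Ψ.toRingHom hfst
  refine ⟨Δ, hΔ, fun c => ?_, fun φ f => ?_⟩
  · rw [hΔg]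
    change (Ψ (algebraMap O' G c)).snd = 0
    rw [hc']
    rfl
  · rw [toA_apply, hΔg]
    change (Ψ (π φ f)).snd = _
    rw [hΨ]
    rfl

end Ext

section Par

variable {A : Type} [CommRing A] [IsLocalRing A] [IsNoetherianRing A]

/-- Elements with dual derivations are, together with a parameter which is killed by these
derivations, independent in the cotangent space. -/
theorem par_of_dual {κ : Type} [Fintype κ] {f : Option κ → A} (hf : ∀ k, f k ∈ maximalIdeal A)
    (h2 : f none ∉ maximalIdeal A ^ 2)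
    (hdual : ∀ k₀, ∃ Δ : A → ResidueField A, IsDer (residue A) Δ ∧ Δ (f none) = 0 ∧
      Δ (f (some k₀)) = 1 ∧ ∀ k, k ≠ k₀ → Δ (f (some k)) = 0) :
    Function.Injective f ∧ ∃ T : Finset A, (∀ k, f k ∈ T) ∧
      Ideal.span (T : Set A) = maximalIdeal A ∧ T.card ≤ (maximalIdeal A).spanFinrank := by
  classical
  refine exists_par_of_indep hf fun c hc => ?_
  have hm : ∀ k, residue A (f k) = 0 := fun k => (residue_eq_zero_iff _).mpr (hf k)
  have hsome : ∀ k, c (some k) ∈ maximalIdeal A := by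
    intro k₀
    obtain ⟨Δ, e1, e2, e3, e4⟩ := hdual k₀
    have h3 := e1.sq hc
    rw [Fintype.sum_option, e1.add, e1.mul, e2, hm, mul_zero, zero_mul, add_zero, zero_add,
      e1.sum, Finset.sum_eq_single k₀] at h3
    · rw [e1.mul, e3, hm, zero_mul, add_zero, mul_one] at h3
      exact (residue_eq_zero_iff _).mp h3
    · intro k _ hk
      rw [e1.mul, e4 k hk, hm, mul_zero, zero_mul, add_zero]
    · intro h
      exact absurd (Finset.mem_univ _) h
  rintro (_ | k)
  · have h1 : c none * f none ∈ maximalIdeal A ^ 2 := by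
      rw [Fintype.sum_option] at hc
      have h3 : ∑ k, c (some k) * f (some k) ∈ maximalIdeal A ^ 2 := by
        refine Ideal.sum_mem _ fun k _ => ?_
        rw [sq]
        exact Ideal.mul_mem_mul (hsome k) (hf _)
      have h4 := Ideal.sub_mem _ hc h3
      rwa [add_sub_cancel_right] at h4
    by_contra hc₀
    rw [mem_maximalIdeal, mem_nonunits_iff, not_not] at hc₀
    obtain ⟨w, hw⟩ := hc₀.exists_left_inv
    apply h2
    have h3 : f none = w * (c none * f none) := by rw [← mul_assoc, hw, one_mul]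
    rw [h3]
    exact Ideal.mul_mem_left _ _ h1
  · exact hsome k

end Par

section Str

variable {O : Type} [CommRing O] {n : ℕ}

/-- The values at the coordinates of the derivations over `k` which kill `𝔠`. -/
def derC {K : Type} [Field K] (k : MvPolynomial (Fin n) O →+* K)
    (𝔠 : Ideal (MvPolynomial (Fin n) O)) : Submodule K (Fin n → K) where
  carrier := {v | ∃ δ, IsDer k δ ∧ (∀ c, δ (C c) = 0) ∧ (∀ f ∈ 𝔠, δ f = 0) ∧
    ∀ l, v l = δ (X l)}
  add_mem' := by
    rintro v w ⟨δ, h1, h2, h2', h3⟩ ⟨δ', h4, h5, h5', h6⟩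
    refine ⟨fun b => δ b + δ' b, ⟨fun b c => ?_, fun b c => ?_⟩, fun c => ?_, fun f hf => ?_,
      fun l => ?_⟩
    · rw [h1.add, h4.add]
      ring
    · rw [h1.mul, h4.mul]
      ring
    · change δ _ + δ' _ = 0
      rw [h2, h5, add_zero]
    · change δ _ + δ' _ = 0
      rw [h2' f hf, h5' f hf, add_zero]
    · rw [Pi.add_apply, h3, h6]
  zero_mem' := ⟨fun _ => 0, ⟨fun _ _ => (add_zero 0).symm, fun _ _ => by ring⟩, fun _ => rfl,
    fun _ _ => rfl, fun _ => rfl⟩
  smul_mem' := by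
    rintro a v ⟨δ, h1, h2, h2', h3⟩
    refine ⟨fun b => a * δ b, ⟨fun b c => ?_, fun b c => ?_⟩, fun c => ?_, fun f hf => ?_,
      fun l => ?_⟩
    · rw [h1.add]
      ring
    · rw [h1.mul]
      ring
    · change a * δ _ = 0
      rw [h2, mul_zero]
    · change a * δ _ = 0
      rw [h2' f hf, mul_zero]
    · rw [Pi.smul_apply, h3, smul_eq_mul]

variable {Φ : Type}

/-- A family of maps `g φ` to a local ring and a self-map `t` of the index set, such that `g (t φ)`
and `g φ` are congruent modulo the maximal ideal. -/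
structure LocStr {A : Type} [CommRing A] [IsLocalRing A] (g : Φ → MvPolynomial (Fin n) O →+* A)
    (𝔠 : Φ → Ideal (MvPolynomial (Fin n) O)) (t : Φ → Φ) (ϖ : A) (r : ℕ) : Prop where
  unif : ϖ ∈ maximalIdeal A
  notMem : ϖ ∉ maximalIdeal A ^ 2
  pos : 1 ≤ r
  const : ∀ φ c, ∃ y, g (t φ) (C c) - g φ (C c) = y * ϖ ^ r
  diff : ∀ φ l, g (t φ) (X l) - g φ (X l) ∈ maximalIdeal A
  rel : ∀ φ, ∀ f ∈ 𝔠 φ, g φ f = 0
  rel_t : ∀ φ, 𝔠 (t φ) = 𝔠 φ
  ext : ∀ δ : Φ → MvPolynomial (Fin n) O → ResidueField A,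
    (∀ φ, IsDer ((residue A).comp (g φ)) (δ φ)) → (∀ φ c, δ φ (C c) = 0) →
    (∀ φ, ∀ f ∈ 𝔠 φ, δ φ f = 0) →
    ∃ Δ : A → ResidueField A, IsDer (residue A) Δ ∧ Δ ϖ = 0 ∧ ∀ φ f, Δ (g φ f) = δ φ f

namespace LocStr

variable {A : Type} [CommRing A] [IsLocalRing A] {g : Φ → MvPolynomial (Fin n) O →+* A}
  {𝔠 : Φ → Ideal (MvPolynomial (Fin n) O)} {t : Φ → Φ} {ϖ : A} {r : ℕ}
  (S : LocStr g 𝔠 t ϖ r)

theorem adjoin_X : Algebra.adjoin O (Set.range (X : Fin n → MvPolynomial (Fin n) O)) = ⊤ :=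
  MvPolynomial.adjoin_range_X

include S in
theorem mem (φ : Φ) (f : MvPolynomial (Fin n) O) : g (t φ) f - g φ f ∈ maximalIdeal A := by
  refine sub_mem_of_gen (O' := O) adjoin_X (fun c => ?_) (S.diff φ) f
  obtain ⟨y, hy⟩ := S.const φ c
  change g (t φ) (C c) - g φ (C c) ∈ _
  rw [hy]
  exact Ideal.mul_mem_left _ _ (Ideal.pow_le_self (Nat.one_le_iff_ne_zero.mp S.pos)
    (Ideal.pow_mem_pow S.unif r))

include S in
theorem res_t (φ : Φ) : (residue A).comp (g (t φ)) = (residue A).comp (g φ) := by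
  apply RingHom.ext
  intro f
  rw [RingHom.comp_apply, RingHom.comp_apply, ← sub_eq_zero, ← map_sub]
  exact (residue_eq_zero_iff _).mpr (S.mem φ f)

include S in
theorem derC_t (φ : Φ) : derC ((residue A).comp (g (t φ))) (𝔠 (t φ)) =
    derC ((residue A).comp (g φ)) (𝔠 φ) := by
  rw [S.res_t, S.rel_t]

include S in
/-- Derivations with weights. -/
theorem exists_dual {φ₀ : Φ} {v : Fin n → ResidueField A}
    (hv : v ∈ derC ((residue A).comp (g φ₀)) (𝔠 φ₀)) (w : Φ → ResidueField A)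
    (hw : ∀ φ, w φ ≠ 0 → (residue A).comp (g φ) = (residue A).comp (g φ₀) ∧ 𝔠 φ = 𝔠 φ₀) :
    ∃ Δ : A → ResidueField A, IsDer (residue A) Δ ∧ Δ ϖ = 0 ∧
      ∀ φ l, Δ (g φ (X l)) = w φ * v l := by
  obtain ⟨δ, h1, h2, h3, h4⟩ := hv
  obtain ⟨Δ, e1, e2, e3⟩ := S.ext (fun φ f => w φ * δ f) (fun φ => by
    by_cases h0 : w φ = 0
    · refine ⟨fun b c => ?_, fun b c => ?_⟩
      · rw [h0]
        ring
      · rw [h0]
        ring
    · rw [(hw φ h0).1]
      refine ⟨fun b c => ?_, fun b c => ?_⟩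
      · rw [h1.add]
        ring
      · rw [h1.mul]
        ring) (fun φ c => by
    rw [h2, mul_zero]) (fun φ f hf => by
    by_cases h0 : w φ = 0
    · rw [h0, zero_mul]
    · rw [(hw φ h0).2] at hf
      rw [h3 f hf, mul_zero])
  exact ⟨Δ, e1, e2, fun φ l => by rw [e3, h4]⟩

include S in
/-- **Generators of the ideal of the differences.** -/
theorem span [IsNoetherianRing A] {R' : Set Φ} {J : Φ → Set (Fin n)}
    (hJ : ∀ φ ∈ R', ∀ v ∈ derC ((residue A).comp (g φ)) (𝔠 φ), (∀ j ∈ J φ, v j = 0) → v = 0)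
    {Q : Ideal A} (hϖQ : ϖ ^ r ∈ Q)
    (hQ : ∀ φ ∈ R', ∀ j ∈ J φ, g (t φ) (X j) - g φ (X j) ∈ Q) {φ : Φ} (hφ : φ ∈ R')
    (f : MvPolynomial (Fin n) O) : g (t φ) f - g φ f ∈ Q := by
  obtain ⟨Z, hZ⟩ : ∃ Z : Set A, Z = {z | ∃ φ ∈ R', ∃ l, g (t φ) (X l) - g φ (X l) = z} := ⟨_, rfl⟩
  have hZm : ∀ φ ∈ R', ∀ l, g (t φ) (X l) - g φ (X l) ∈ Z := fun φ hφ l => by
    rw [hZ]
    exact ⟨φ, hφ, l, rfl⟩
  obtain ⟨I, hI⟩ : ∃ I, I = Q ⊔ Ideal.span Z := ⟨_, rfl⟩
  have hQI : Q ≤ I := by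
    rw [hI]
    exact le_sup_left
  have hconst : ∀ φ c, g (t φ) (C c) - g φ (C c) ∈ Q := fun φ c => by
    obtain ⟨y, hy⟩ := S.const φ c
    rw [hy]
    exact Q.mul_mem_left _ hϖQ
  have hall : ∀ φ ∈ R', ∀ b, g (t φ) b - g φ b ∈ I := fun φ hφ b =>
    sub_mem_of_gen (O' := O) adjoin_X (fun c => hQI (hconst φ c)) (fun l => by
      rw [hI]
      exact Ideal.mem_sup_right (Ideal.subset_span (hZm φ hφ l))) b
  suffices hle : I ≤ Q from hle (hall φ hφ f)
  by_contra hne
  obtain ⟨F, hF0, y, hy⟩ := exists_functional hne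
  have hsmul : ∀ (a : A) (z : I), F (a • z) = residue A a * F z := fun a z => by
    rw [map_smul, Algebra.smul_def]
    rfl
  have hr : ∀ φ b, residue A (g (t φ) b) = residue A (g φ b) := fun φ b =>
    RingHom.congr_fun (S.res_t φ) b
  have hd : ∀ φ (hφ : φ ∈ R'), ∀ l, F ⟨_, hall φ hφ (X l)⟩ = 0 := by
    intro φ hφ
    have hδ : IsDer ((residue A).comp (g φ)) (fun b => F ⟨g (t φ) b - g φ b, hall φ hφ b⟩) := by
      refine ⟨fun b c => ?_, fun b c => ?_⟩
      · rw [← map_add]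
        congr 1
        apply Subtype.ext
        change g (t φ) (b + c) - g φ (b + c) = (g (t φ) b - g φ b) + (g (t φ) c - g φ c)
        rw [map_add, map_add]
        ring
      · rw [RingHom.comp_apply, RingHom.comp_apply, ← hr φ b, ← hsmul, ← hsmul, ← map_add]
        congr 1
        apply Subtype.ext
        change g (t φ) (b * c) - g φ (b * c) =
          g (t φ) b * (g (t φ) c - g φ c) + g φ c * (g (t φ) b - g φ b)
        rw [map_mul, map_mul]
        ring
    have h0 := hJ φ hφ (fun l => F ⟨g (t φ) (X l) - g φ (X l), hall φ hφ (X l)⟩)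
      ⟨_, hδ, fun c => hF0 _ (hconst φ c), fun f hf => hF0 _ (by
        change g (t φ) f - g φ f ∈ Q
        rw [S.rel φ f hf, S.rel (t φ) f (by rwa [S.rel_t]), sub_zero]
        exact Q.zero_mem), fun l => rfl⟩ (fun j hj => hF0 _ (hQ φ hφ j hj))
    exact fun l => congrFun h0 l
  apply hy
  have hker : ∀ z ∈ Q ⊔ Ideal.span Z, ∀ hz : z ∈ I, F ⟨z, hz⟩ = 0 := by
    intro z hz
    obtain ⟨q, hq, z', hz', rfl⟩ := Submodule.mem_sup.mp hz
    have hz'I : z' ∈ I := by
      rw [hI]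
      exact Ideal.mem_sup_right hz'
    intro hzI
    have h1 : (⟨q + z', hzI⟩ : I) = ⟨q, hQI hq⟩ + ⟨z', hz'I⟩ := rfl
    rw [h1, map_add, hF0 ⟨q, hQI hq⟩ hq, zero_add]
    clear h1 hz hzI
    have hspan : ∀ z' ∈ Ideal.span Z, ∀ hz'I : z' ∈ I, F ⟨z', hz'I⟩ = 0 := by
      intro z' hz'
      induction hz' using Submodule.span_induction with
      | mem z hz =>
        intro hzI
        rw [hZ] at hz
        obtain ⟨φ, hφ, l, rfl⟩ := hz
        exact hd φ hφ l
      | zero => exact fun _ => map_zero F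
      | add a b ha' hb' ha hb =>
        intro hz
        have ha1 : a ∈ I := by
          rw [hI]
          exact Ideal.mem_sup_right ha'
        have hb1 : b ∈ I := by
          rw [hI]
          exact Ideal.mem_sup_right hb'
        have h1 : (⟨a + b, hz⟩ : I) = ⟨a, ha1⟩ + ⟨b, hb1⟩ := rfl
        rw [h1, map_add, ha ha1, hb hb1, add_zero]
      | smul a z hz' ih =>
        intro hz
        have h2 : z ∈ I := by
          rw [hI]
          exact Ideal.mem_sup_right hz'
        have h1 : (⟨a • z, hz⟩ : I) = a • ⟨z, h2⟩ := rfl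
        rw [h1, hsmul, ih h2, mul_zero]
    exact hspan z' hz' hz'I
  exact hker y.1 (hI ▸ y.2) y.2

end LocStr

/-- The differences of products. -/
theorem prod_sub_mem {A : Type} [CommRing A] {Q : Ideal A} {Φ : Type} (s : Finset Φ)
    {a b : Φ → A} (h : ∀ φ ∈ s, a φ - b φ ∈ Q) : ∏ φ ∈ s, a φ - ∏ φ ∈ s, b φ ∈ Q := by
  classical
  induction s using Finset.induction_on with
  | empty => simp
  | insert φ s hφ ih =>
    rw [Finset.prod_insert hφ, Finset.prod_insert hφ]
    have h1 : a φ * ∏ φ ∈ s, a φ - b φ * ∏ φ ∈ s, b φ =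
        (∏ φ ∈ s, a φ) * (a φ - b φ) + b φ * (∏ φ ∈ s, a φ - ∏ φ ∈ s, b φ) := by ring
    rw [h1]
    exact Q.add_mem (Q.mul_mem_left _ (h φ (Finset.mem_insert_self _ _)))
      (Q.mul_mem_left _ (ih fun φ' hφ' => h φ' (Finset.mem_insert_of_mem hφ')))

end Str

end Pool.Agent.Lib.MP_6a3dac_ag.GI
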