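import Pool.Agent.Lib.MP_6a3dac_ag.W3.Wild
import Pool.Agent.Lib.MP_6a3dac_ag.Mg.G002
import Pool.Agent.Lib.MP_6a3dac_ag.GI.Stab

/-!
# The local theorem at a ramified prime with inertia group of order two
-/

set_option autoImplicit false
set_option linter.unusedSectionVars false
set_option linter.unusedVariables false

namespace Pool.Agent.Lib.MP_6a3dac_ag.GI

open IsLocalRing
open Pool.Agent.Lib.MP_6a3dac_ag Pool.Agent.Lib.MP_6a3dac_ag.QD Pool.Agent.Lib.MP_6a3dac_ag.W3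
open scoped Pointwise

/-- A family with a distinguished member. -/
def fam2 {X J : Type} (p : X) (a : J → X) : Option J → X := fun o => o.elim p a

@[simp] theorem fam2_none {X J : Type} (p : X) (a : J → X) : fam2 p a none = p := rfl

@[simp] theorem fam2_some {X J : Type} (p : X) (a : J → X) (j : J) : fam2 p a (some j) = a j := rfl

section Sit

variable {F : Type} [Field F] {A : Subring F} [IsRegularLocalRing A] {J : Type} [Fintype J]
  [DecidableEq J] {ϖ : A} {u : J → A} {s : ℕ}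

-- BEGIN TW1
/-- Membership in the ideals generated by `ϖ ^ j` and the finite set of the images of the `u j`. -/
theorem tw1_inJ {A D : Subring F} {ϖ : A} {u : J → A}
    (f : A ≃+* A.comap D.subtype) (Z : Finset D)
    (hZ : ∀ z, z ∈ Z ↔ ∃ k, z = ((f (u k) : A.comap D.subtype) : D)) (j : ℕ) (x : D) :
    InJ (A.comap D.subtype) ((f ϖ : A.comap D.subtype) : D) Z j x ↔
      ∃ y ∈ aI ϖ u j, x = ((f y : A.comap D.subtype) : D) := by
  classical
  obtain ⟨Z', hZ'⟩ : ∃ Z' : Finset (A.comap D.subtype),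
      Z' = Finset.univ.image fun k => f (u k) := ⟨_, rfl⟩
  have hm : ∀ a : A.comap D.subtype, a ∈ Z' ↔ ∃ k, a = f (u k) := by
    intro a
    rw [hZ', Finset.mem_image]
    constructor
    · rintro ⟨k, -, hk⟩
      exact ⟨k, hk.symm⟩
    · rintro ⟨k, hk⟩
      exact ⟨k, Finset.mem_univ k, hk.symm⟩
  have h0 : ∀ inst : DecidableEq D, Z = @Finset.image _ _ inst Subtype.val Z' := by
    intro inst
    ext z
    rw [hZ, Finset.mem_image]
    constructor
    · rintro ⟨k, rfl⟩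
      exact ⟨f (u k), (hm _).mpr ⟨k, rfl⟩, rfl⟩
    · rintro ⟨a, ha, rfl⟩
      obtain ⟨k, rfl⟩ := (hm a).mp ha
      exact ⟨k, rfl⟩
  have h1 : Ideal.span (insert ((f ϖ) ^ j) (Z' : Set (A.comap D.subtype))) =
      (aI ϖ u j).map (f : A →+* A.comap D.subtype) := by
    rw [← q1_aI f ϖ u j, hZ', Finset.coe_image, Finset.coe_univ, Set.image_univ]
    rfl
  have h3 := inJ_iff (f ϖ) Z' j x
  rw [h1, ← h0 _] at h3
  refine Iff.trans h3 ?_
  constructor
  · rintro ⟨h, hx⟩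
    obtain ⟨y, hy, h2⟩ := (Ideal.mem_map_iff_of_surjective
      (f : A →+* A.comap D.subtype) f.surjective).1 hx
    exact ⟨y, hy, (congrArg Subtype.val h2).symm⟩
  · rintro ⟨y, hy, rfl⟩
    exact ⟨(f y).2, Ideal.mem_map_of_mem _ hy⟩

/-- TASK TW1. **The local theorem over a fixed local ring inside a field, order two.** The model is
`wild_sit3` (W3/Sit.lean; `q4_equiv`). Let `A' = A.comap D.subtype`, a subring of the local domain `D`
with `Dom A'` (`hdom`), and `f : A ≃+* A'`. `PartRSP.map`, `PartRSP.prs` give a regular system of parameters `S` (`RSP A' S`, QWDom.lean) which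
contains `a = f ϖ` and the finite set `Z` of the `f (u j)` (they are in the maximal ideal of `D` by `hϖD`, `huD`), `a ∉ Z`.
Regularity: `isRegularLocalRing_of_chart_data` (QWChart.lean) for `R = A'` with `r = s`, `b j = f (b j)`; `InJ R a Z j x` is the same as `x ∈ A'` and
`x` in the ideal `aI ϖ u j` (`inJ_iff`, QWLocal.lean, can be used). Principal: `exists_principal` (QWTau.lean) for the restriction of `τF` to the
stable ring `D`, `hh`, `hε`, `he` from `hunif`, `hdiff`; `hZ0`: `RSP.ne_zero`; `hZ`: `hex`; `hRΔ`: `haug`. -/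
theorem two_sit (hP : PartRSP A (fam2 ϖ u)) (hs : 1 ≤ s) (τF : F →+* F)
    (hτF2 : ∀ z, τF (τF z) = z) {ε ε' e : A} (hunif : τF (ϖ : F) - ϖ = ε * ϖ ^ s)
    (hε : ε * ε' = 1) (hdiff : τF (ε : F) - ε = e * ϖ ^ s)
    (hex : ∀ j, ∃ y : A, τF (y : F) - y = u j)
    (haug : ∀ y : A, ∃ z ∈ Ideal.span (insert (ϖ ^ s) (Set.range u)), (z : F) = τF (y : F) - y)
    (D : Subring F) (hD : IsLocalRing D)
    (hle : A ≤ D) (hdom : ∀ a ∈ A, ∀ b ∈ D, a * b = 1 → b ∈ A)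
    (hϖD : ∀ w ∈ D, (ϖ : F) * w ≠ 1) (huD : ∀ j, ∀ w ∈ D, (u j : F) * w ≠ 1) (b : ℕ → A)
    (hb0 : ∀ j ∈ Finset.Icc 1 s, (b j : F) ≠ 0)
    (hbm : ∀ j ∈ Finset.Icc 1 s, b j ∈ aI ϖ u j)
    (hbd : ∀ j ∈ Finset.Icc 1 s, ∀ y ∈ aI ϖ u j, (y : F) / b j ∈ D)
    (hgen : ∀ R' : Subring F, R' ≤ D → (∀ a ∈ R', ∀ b ∈ D, a * b = 1 → b ∈ R') → A ≤ R' →
      (∀ j ∈ Finset.Icc 1 s, ∀ y ∈ aI ϖ u j, (y : F) / b j ∈ R') → D ≤ R') :
    IsRegularLocalRing D ∧ ((∀ y ∈ D, τF y ∈ D) → Principal τF D) := by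
  classical
  obtain ⟨f, hf⟩ : ∃ f : A ≃+* A.comap D.subtype, f = q4_equiv A D hle := ⟨_, rfl⟩
  have hf1 : ∀ a : A, ((f a : D) : F) = a := by
    rw [hf]
    exact fun a => rfl
  have hf2 : ∀ a : A.comap D.subtype, ((f.symm a : A) : F) = ((a : D) : F) := by
    rw [hf]
    exact fun a => rfl
  have hR : IsRegularLocalRing (A.comap D.subtype) := IsRegularLocalRing.of_ringEquiv f
  have hdom' : Dom (A.comap D.subtype) := by
    intro a ha c hac
    exact hdom a ha c c.2 (congrArg Subtype.val hac)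
  have hmax : ∀ z : D, (∀ w ∈ D, (z : F) * w ≠ 1) → z ∈ maximalIdeal D := by
    intro z hz
    rw [mem_maximalIdeal, mem_nonunits_iff]
    intro h
    obtain ⟨w, hw⟩ := h.exists_right_inv
    exact hz w w.2 (congrArg Subtype.val hw)
  obtain ⟨S, hS, hSA, hSm, hSi⟩ := PartRSP.prs hdom' hR (hP.map f)
  have hϖm : ((f ϖ : A.comap D.subtype) : D) ∈ maximalIdeal D :=
    hmax _ (by rw [hf1]; exact hϖD)
  have hum : ∀ j, ((f (u j) : A.comap D.subtype) : D) ∈ maximalIdeal D := fun j =>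
    hmax _ (by rw [hf1]; exact huD j)
  have hϖS : ((f ϖ : A.comap D.subtype) : D) ∈ S := hSm none hϖm
  have huS : ∀ j, ((f (u j) : A.comap D.subtype) : D) ∈ S := fun j => hSm (some j) (hum j)
  obtain ⟨Z, hZ⟩ : ∃ Z : Finset D, ∀ z, z ∈ Z ↔
      ∃ k, z = ((f (u k) : A.comap D.subtype) : D) := by
    refine ⟨Finset.univ.image fun k => ((f (u k) : A.comap D.subtype) : D), fun z => ?_⟩
    rw [Finset.mem_image]
    constructor
    · rintro ⟨k, -, rfl⟩
      exact ⟨k, rfl⟩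
    · rintro ⟨k, rfl⟩
      exact ⟨k, Finset.mem_univ k, rfl⟩
  have hZmem : ∀ z ∈ Z, ∃ j, z = ((f (u j) : A.comap D.subtype) : D) := fun z hz => (hZ z).1 hz
  have hZS : Z ⊆ S := by
    intro z hz
    obtain ⟨j, rfl⟩ := hZmem z hz
    exact huS j
  have hϖZ : ((f ϖ : A.comap D.subtype) : D) ∉ Z := by
    intro h
    obtain ⟨j, hj⟩ := hZmem _ h
    have h1 := hSi none (some j) hϖm hj
    cases h1
  have hInJ : ∀ (j : ℕ) (x : D), InJ (A.comap D.subtype) ((f ϖ : A.comap D.subtype) : D) Z j x ↔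
      ∃ y ∈ aI ϖ u j, x = ((f y : A.comap D.subtype) : D) := by
    exact fun j x => tw1_inJ f Z hZ j x
  have hdvd : ∀ j ∈ Finset.Icc 1 s, ∀ y ∈ aI ϖ u j,
      ((f (b j) : A.comap D.subtype) : D) ∣ ((f y : A.comap D.subtype) : D) := by
    intro j hj y hy
    refine ⟨⟨(y : F) / b j, hbd j hj y hy⟩, Subtype.ext ?_⟩
    change ((f y : D) : F) = ((f (b j) : D) : F) * ((y : F) / b j)
    rw [hf1, hf1, mul_div_cancel₀ _ (hb0 j hj)]
  have hb' : ∀ j, 1 ≤ j → j ≤ s → ((f (b j) : A.comap D.subtype) : D) ≠ 0 ∧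
      InJ (A.comap D.subtype) ((f ϖ : A.comap D.subtype) : D) Z j
        ((f (b j) : A.comap D.subtype) : D) ∧
      ((f (b j) : A.comap D.subtype) : D) ∣ ((f ϖ : A.comap D.subtype) : D) ^ j ∧
      ∀ z ∈ Z, ((f (b j) : A.comap D.subtype) : D) ∣ z := by
    intro j h1 h2
    have hj : j ∈ Finset.Icc 1 s := Finset.mem_Icc.2 ⟨h1, h2⟩
    refine ⟨fun h0 => hb0 j hj ?_, (hInJ j _).2 ⟨b j, hbm j hj, rfl⟩, ?_, ?_⟩
    · rw [← hf1]
      exact congrArg Subtype.val h0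
    · have h3 := hdvd j hj (ϖ ^ j) (Ideal.subset_span (Set.mem_insert _ _))
      rw [map_pow] at h3
      exact h3
    · intro z hz
      obtain ⟨k, rfl⟩ := hZmem z hz
      exact hdvd j hj (u k) (Ideal.subset_span (Set.mem_insert_of_mem _ ⟨k, rfl⟩))
  have hgen' : ∀ R' : Subring D, Dom R' → A.comap D.subtype ≤ R' →
      (∀ j, 1 ≤ j → j ≤ s → ∀ x,
        InJ (A.comap D.subtype) ((f ϖ : A.comap D.subtype) : D) Z j x →
        ∀ w, ((f (b j) : A.comap D.subtype) : D) * w = x → w ∈ R') → R' = ⊤ := by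
    intro R' hdR hAR hR'
    rw [eq_top_iff]
    rintro ⟨w, hw⟩ -
    have h3 := hgen (R'.map D.subtype) ?_ ?_ ?_ ?_ hw
    · obtain ⟨w', hw', h4⟩ := h3
      have h5 : w' = ⟨w, hw⟩ := Subtype.ext h4
      rwa [← h5]
    · rintro _ ⟨w', -, rfl⟩
      exact w'.2
    · rintro _ ⟨a, ha, rfl⟩ c hc hac
      exact ⟨⟨c, hc⟩, hdR a ha ⟨c, hc⟩ (Subtype.ext hac), rfl⟩
    · intro a ha
      exact ⟨⟨a, hle ha⟩, hAR ha, rfl⟩
    · intro j hj y hy
      obtain ⟨h1, h2⟩ := Finset.mem_Icc.1 hj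
      refine ⟨⟨(y : F) / b j, hbd j hj y hy⟩,
        hR' j h1 h2 ((f y : A.comap D.subtype) : D) ((hInJ j _).2 ⟨y, hy, rfl⟩) _ ?_, rfl⟩
      apply Subtype.ext
      change ((f (b j) : D) : F) * ((y : F) / b j) = ((f y : D) : F)
      rw [hf1, hf1, mul_div_cancel₀ _ (hb0 j hj)]
  refine ⟨isRegularLocalRing_of_chart_data hs hS hϖS hZS hϖZ
    (fun j => ((f (b j) : A.comap D.subtype) : D)) hb' hgen', fun hstab => ?_⟩
  obtain ⟨y, hy0, hy⟩ := exists_principal (τ := τF.restrict D D hstab) (R := A.comap D.subtype)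
    (ϖ := ((f ϖ : A.comap D.subtype) : D)) (ε := ((f ε : A.comap D.subtype) : D))
    (e := ((f e : A.comap D.subtype) : D)) (r := s) (Z := Z)
    (fun z => Subtype.ext (hτF2 z)) (f ϖ).2 hs (hS.ne_zero hϖS)
    (by
      apply Subtype.ext
      change τF ((f ϖ : D) : F) - ((f ϖ : D) : F) = ((f ε : D) : F) * ((f ϖ : D) : F) ^ s
      rw [hf1, hf1]
      exact hunif)
    (IsUnit.of_mul_eq_one ((f ε' : A.comap D.subtype) : D) (by
      apply Subtype.ext
      change ((f ε : D) : F) * ((f ε' : D) : F) = 1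
      rw [hf1, hf1]
      exact congrArg Subtype.val hε))
    (by
      apply Subtype.ext
      change τF ((f ε : D) : F) - ((f ε : D) : F) = ((f e : D) : F) * ((f ϖ : D) : F) ^ s
      rw [hf1, hf1, hf1]
      exact hdiff)
    (fun z hz => hS.ne_zero (hZS hz))
    (by
      intro z hz
      obtain ⟨j, rfl⟩ := hZmem z hz
      obtain ⟨y, hy⟩ := hex j
      refine ⟨((f y : A.comap D.subtype) : D), (f y).2, Subtype.ext ?_⟩
      change τF ((f y : D) : F) - ((f y : D) : F) = ((f (u j) : D) : F)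
      rw [hf1, hf1]
      exact hy)
    (by
      intro x hx
      rw [hInJ]
      obtain ⟨z, hz, h1⟩ := haug (f.symm ⟨x, hx⟩)
      refine ⟨z, hz, Subtype.ext ?_⟩
      change τF (x : F) - (x : F) = ((f z : D) : F)
      rw [hf1, h1, hf2])
    (fun j => ((f (b j) : A.comap D.subtype) : D)) hb' hgen'
  refine ⟨y, y.2, fun h0 => hy0 (Subtype.ext h0), fun w hw => ?_⟩
  obtain ⟨c, hc⟩ := hy ⟨w, hw⟩
  exact ⟨c, c.2, congrArg Subtype.val hc⟩
-- END TW1

end Sit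

/-- The structure of the regular local ring `A` of the product at the centre of `D`, in the chart
`i`, if all differences of the coordinates are in the maximal ideal: `ϖ` and some differences `u_j`
are part of a regular system of parameters, and all differences of the coordinates are in the ideal generated by
these `u_j` and `ϖ ^ s`. -/
def StrAt2 {M F I : Type} [CommRing M] [Field F] (ι : M →+* F) (τF : F →+* F) (x : I → M)
    (Λ : Subring M) (ϖ : M) (s : ℕ) (D : Subring F) (i : I) : Prop :=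
  ∃ (A : Subring F) (_ : IsLocalRing A) (J : Type) (_ : Fintype J) (_ : DecidableEq J) (e : J → I)
    (ϖA : A) (u : J → A), Around ι x Λ D i A ∧ (ϖA : F) = ι ϖ ∧
    (∀ j, (u j : F) = τF (ι (x (e j)) / ι (x i)) - ι (x (e j)) / ι (x i)) ∧
    PartRSP A (fam2 ϖA u) ∧
    ∀ k, ∃ y ∈ Ideal.span (insert (ϖA ^ s) (Set.range u)),
      (y : F) = τF (ι (x k) / ι (x i)) - ι (x k) / ι (x i)

/-- The arithmetic of a ramified prime: `Λ` is a discrete valuation ring with the uniformizer `ϖ`,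
and `s` is the exponent of the different of the automorphism `τ` (`Ram` for a subring). -/
structure RamL {M : Type} [CommRing M] (Λ : Subring M) (τ : M →+* M) (ϖ : M) (s : ℕ) : Prop where
  mϖ : ϖ ∈ Λ
  ϖ0 : ϖ ≠ 0
  pos : 1 ≤ s
  eps : ∃ ε ∈ Λ, ∃ ε' ∈ Λ, τ ϖ - ϖ = ε * ϖ ^ s ∧ ε * ε' = 1
  diff : ∀ c ∈ Λ, ∃ d ∈ Λ, τ c - c = d * ϖ ^ s
  dvr : ∀ c ∈ Λ, (∃ c' ∈ Λ, c * c' = 1) ∨ ∃ c' ∈ Λ, c = ϖ * c'
  nonunit : ∀ c ∈ Λ, ϖ * c ≠ 1

section Chart

variable {M F I : Type} [CommRing M] [Field F] {ι : M →+* F} {x : I → M} {τ : M →+* M}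
  {τF : F →+* F} {Λ : Subring M} {ϖ : M} {s : ℕ} {D A : Subring F} {i : I} {β : ℕ → M}

-- BEGIN TW2
/-- TASK TW2. The elements `b j = ι (β j) / ι (x i)` of `A` and the ideals of the chart (the model is `exists_b`, W5 in W3/Wild.lean, but here everything is of
degree one and all `j` are relevant). `idl (AS j) 1 = aI ϖA uK j` by `idl_AS` (H3, W3/Chart.lean; look at its hypotheses), and
`ι b / ι (β j) ∈ D` (`hD.ratio`). -/
theorem exists_b2 (hA : Around ι x Λ D i A) (h0 : ι (x i) ≠ 0) {ϖA : A} (hϖ : (ϖA : F) = ι ϖ)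
    (hD : LocSit ι x (AS x τ ϖ) Λ s D i β)
    {uK : I → A} (huK : ∀ k, (uK k : F) = ι (lF x τ k) / ι (x i)) :
    ∃ b : ℕ → A, (∀ j ∈ Finset.Icc 1 s, (b j : F) ≠ 0) ∧
      (∀ j ∈ Finset.Icc 1 s, b j ∈ aI ϖA uK j) ∧
      (∀ j ∈ Finset.Icc 1 s, ∀ y ∈ aI ϖA uK j, (y : F) / b j ∈ D) ∧
      ∀ R' : Subring F, R' ≤ D → (∀ a ∈ R', ∀ b ∈ D, a * b = 1 → b ∈ R') → A ≤ R' →
        (∀ j ∈ Finset.Icc 1 s, ∀ y ∈ aI ϖA uK j, (y : F) / b j ∈ R') → D ≤ R' := by
  have hInt := fun j => intS_AS h0 hA.coord hϖ huK j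
  have hIdl := fun j => idl_AS h0 hA.coord hϖ huK j
  have hInt1 : ∀ j, ∀ b ∈ AS x τ ϖ j, ι b / ι (x i) ∈ A := by
    intro j b hb
    have h1 := hInt j b hb
    rwa [pow_one] at h1
  have hmem : ∀ j (b : M) (hb : b ∈ AS x τ ϖ j), (⟨ι b / ι (x i), hInt1 j b hb⟩ : A) ∈
      aI ϖA uK j := by
    intro j b hb
    rw [← hIdl j, idl]
    exact Ideal.subset_span ⟨b, hb, by rw [pow_one]⟩
  -- the ideals of the chart, divided by the generator
  have hdiv : ∀ j ∈ Finset.Icc 1 s, ∀ y ∈ aI ϖA uK j,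
      (y : F) / (ι (β j) / ι (x i)) ∈ D := by
    intro j hj y hy
    rw [← hIdl j, idl] at hy
    induction hy using Submodule.span_induction with
    | mem y hy =>
      obtain ⟨b, hb, h1⟩ := hy
      have h2 : (y : F) / (ι (β j) / ι (x i)) = ι b / ι (β j) := by
        have := hD.β_ne j hj
        rw [h1, pow_one]
        field_simp
      rw [h2]
      exact hD.ratio j hj b hb
    | zero => rw [Subring.coe_zero, zero_div]; exact D.zero_mem
    | add y z _ _ h1 h2 =>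
      rw [Subring.coe_add, add_div]
      exact D.add_mem h1 h2
    | smul a y _ h1 =>
      rw [smul_eq_mul, Subring.coe_mul, mul_div_assoc]
      exact D.mul_mem (hA.le a.2) h1
  have hex : ∀ j : ℕ, ∃ b : A, j ∈ Finset.Icc 1 s → (b : F) = ι (β j) / ι (x i) := by
    intro j
    by_cases hj : j ∈ Finset.Icc 1 s
    · exact ⟨⟨_, hInt1 _ _ (hD.β_mem _ hj)⟩, fun _ => rfl⟩
    · exact ⟨0, fun h => absurd h hj⟩
  choose b hb using hex
  refine ⟨b, ?_, ?_, ?_, ?_⟩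
  · intro j hj
    rw [hb j hj]
    exact div_ne_zero (hD.β_ne _ hj) h0
  · intro j hj
    have h1 : b j = (⟨ι (β j) / ι (x i), hInt1 j _ (hD.β_mem j hj)⟩ : A) := Subtype.ext (hb j hj)
    rw [h1]
    exact hmem j _ (hD.β_mem j hj)
  · intro j hj y hy
    rw [hb j hj]
    exact hdiv _ hj y hy
  · intro R' hR' hdom hAR hyR
    refine hD.gen R' hR' hdom (fun c hc => hAR (hA.lam c hc)) (fun k => hAR (hA.coord k)) ?_
    intro j hj b' hb'
    have h1 := hyR j hj _ (hmem j b' hb')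
    have h2 : ((⟨ι b' / ι (x i), hInt1 j b' hb'⟩ : A) : F) / (b j : F) = ι b' / ι (β j) := by
      have hβ0 := hD.β_ne _ hj
      rw [hb j hj]
      change ι b' / ι (x i) / _ = _
      field_simp
    rwa [h2] at h1
-- END TW2

-- BEGIN TW3
/-- TASK TW3. The ideals of the subfamily are the same: all `uK k` are in the ideal generated by the `uK (e j)` and `ϖ ^ s`. -/
theorem aI_eq_of_span {A : Type} [CommRing A] {K J : Type} {ϖ : A} {u : K → A} {e : J → K} {s : ℕ}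
    (h : ∀ k, u k ∈ Ideal.span (insert (ϖ ^ s) (Set.range fun j => u (e j)))) {k : ℕ}
    (hk : k ≤ s) : aI ϖ u k = aI ϖ (fun j => u (e j)) k := by
  apply le_antisymm
  · refine Ideal.span_le.2 ?_
    rintro y (rfl | ⟨l, rfl⟩)
    · exact Ideal.subset_span (Set.mem_insert _ _)
    · refine (Ideal.span_le.2 ?_ : Ideal.span (insert (ϖ ^ s) (Set.range fun j => u (e j))) ≤ _)
        (h l)
      rintro z (rfl | ⟨j, rfl⟩)
      · obtain ⟨m, rfl⟩ := Nat.exists_eq_add_of_le hk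
        rw [pow_add]
        exact Ideal.mul_mem_right _ _ (Ideal.subset_span (Set.mem_insert _ _))
      · exact Ideal.subset_span (Set.mem_insert_of_mem _ ⟨j, rfl⟩)
  · refine Ideal.span_mono (Set.insert_subset_insert ?_)
    rintro y ⟨j, rfl⟩
    exact ⟨e j, rfl⟩
-- END TW3

-- BEGIN TW4
/-- TASK TW4. **The local theorem at a fixed chart.** The model is `wild_fixed` (W6, W3/Wild.lean), much shorter here. The data of `hS`; `uK k` exist in `A` since
`lF x τ k = x k' - x k` (`hstar`), `uK (e j) = u j`. TW2 gives `b`, TW3 replaces `aI ϖA uK j` by `aI ϖA u j`; `two_sit` (TW1) with `haug` from `aug_of_around` (W1, W3/Wild.lean) for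
`Q = span (insert (ϖA ^ s) (range u))` (in the maximal ideal by `PartRSP.mem`, `1 ≤ s`), `hR.diff`; nonunits: `w6_unit`. `hunif`, `hε`, `hdiff`: `hR.eps`, `hR.diff`. -/
theorem two_fixed (hR : RamL Λ τ ϖ s) (hτF2 : ∀ z, τF (τF z) = z)
    (hτF : ∀ m, τF (ι m) = ι (τ m)) (hstar : ∀ l, ∃ l', τ (x l) = x l') (hi : τ (x i) = x i)
    (hD : LocSit ι x (AS x τ ϖ) Λ s D i β) (hS : StrAt2 ι τF x Λ ϖ s D i) :
    IsRegularLocalRing D ∧ ((∀ y ∈ D, τF y ∈ D) → Principal τF D) := by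
  obtain ⟨A, hAloc, J, hJf, hJd, e, ϖA, u, hA, hϖ, hu, hP, hspan⟩ := hS
  have h0 : ι (x i) ≠ 0 := hD.ne
  have hreg : IsRegularLocalRing A := hA.reg
  have hexu : ∀ k, ∃ y : A, (y : F) = ι (lF x τ k) / ι (x i) := by
    intro k
    obtain ⟨k', hk'⟩ := hstar k
    refine ⟨⟨ι (x k') / ι (x i) - ι (x k) / ι (x i), A.sub_mem (hA.coord k') (hA.coord k)⟩, ?_⟩
    change ι (x k') / ι (x i) - ι (x k) / ι (x i) = ι (lF x τ k) / ι (x i)
    unfold lF
    rw [hk', map_sub, sub_div]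
  choose uK huK using hexu
  have hquot : ∀ m : M, τF (ι m / ι (x i)) = ι (τ m) / ι (x i) := by
    intro m
    rw [map_div₀, hτF, hτF, hi]
  have hue : (fun j => uK (e j)) = u := by
    funext j
    apply Subtype.ext
    rw [huK, hu, hquot]
    unfold lF
    rw [map_sub, sub_div]
  have hspan' : ∀ k, uK k ∈ Ideal.span (insert (ϖA ^ s) (Set.range fun j => uK (e j))) := by
    intro k
    obtain ⟨y, hy, h1⟩ := hspan k
    have h2 : uK k = y := by
      apply Subtype.ext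
      rw [huK, h1, hquot]
      unfold lF
      rw [map_sub, sub_div]
    rw [h2, hue]
    exact hy
  have hcen : ∀ j ∈ Finset.Icc 1 s, aI ϖA uK j = aI ϖA u j := by
    intro j hj
    rw [aI_eq_of_span hspan' (Finset.mem_Icc.1 hj).2, hue]
  obtain ⟨b, hb1, hb2, hb3, hb4⟩ := exists_b2 hA h0 hϖ hD huK
  obtain ⟨ε, hε, ε', hε', e1, e2⟩ := hR.eps
  obtain ⟨d, hd, hd1⟩ := hR.diff ε hε
  have hQ : Ideal.span (insert (ϖA ^ s) (Set.range u)) ≤ maximalIdeal A := by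
    rw [Ideal.span_le]
    rintro y (rfl | ⟨j, rfl⟩)
    · exact Ideal.pow_mem_of_mem _ (hP.mem none) _ hR.pos
    · exact hP.mem (some j)
  have h1 : ∀ c ∈ Λ, ∃ y ∈ Ideal.span (insert (ϖA ^ s) (Set.range u)),
      (y : F) = τF (ι c) - ι c := by
    intro c hc
    obtain ⟨d, hd, hcd⟩ := hR.diff c hc
    refine ⟨⟨ι d, hA.lam d hd⟩ * ϖA ^ s, Ideal.mul_mem_left _ _
      (Ideal.subset_span (Set.mem_insert _ _)), ?_⟩
    rw [hτF, ← map_sub, hcd, map_mul, map_pow, ← hϖ]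
    rfl
  refine two_sit (ε := ⟨ι ε, hA.lam ε hε⟩) (ε' := ⟨ι ε', hA.lam ε' hε'⟩)
    (e := ⟨ι d, hA.lam d hd⟩) hP hR.pos τF hτF2 ?_ ?_ ?_ ?_ ?_ D hD.loc hA.le hA.dom
    (w6_unit hA (hP.mem none)) (fun j => w6_unit hA (hP.mem (some j))) b hb1 ?_ ?_ ?_
  · change τF (ϖA : F) - ϖA = ι ε * (ϖA : F) ^ s
    rw [hϖ, hτF, ← map_sub, e1, map_mul, map_pow]
  · apply Subtype.ext
    change ι ε * ι ε' = 1
    rw [← map_mul, e2, map_one]
  · change τF (ι ε) - ι ε = ι d * (ϖA : F) ^ s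
    rw [hϖ, hτF, ← map_sub, hd1, map_mul, map_pow]
  · intro j
    exact ⟨⟨_, hA.coord (e j)⟩, (hu j).symm⟩
  · intro y
    exact aug_of_around hA hQ h1 hspan y
  · intro j hj
    rw [← hcen j hj]
    exact hb2 j hj
  · intro j hj y hy
    rw [← hcen j hj] at hy
    exact hb3 j hj y hy
  · intro R' hR' hdom hAR hyR
    refine hb4 R' hR' hdom hAR fun j hj y hy => ?_
    rw [hcen j hj] at hy
    exact hyR j hj y hy
-- END TW4

-- BEGIN TW5
theorem tw5_fixed {B : ℕ → Set M} {r : ℕ} {I₀ : Set I} (hD : LocSit ι x B Λ r D i β) {i' : I}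
    (hi' : τ (x i) = x i') (hseg : ∀ i, ∃ a b, a ∈ I₀ ∧ x i * τ (x i) = x a * x b)
    (h1 : ∃ w ∈ D, ι (x i') / ι (x i) * w = 1) : ∃ a ∈ I₀, ∃ w ∈ D, ι (x a) / ι (x i) * w = 1 := by
  obtain ⟨w, hw, e1⟩ := h1
  obtain ⟨a, b, ha, hab⟩ := hseg i
  have h0 := hD.ne
  refine ⟨a, ha, ι (x b) / ι (x i) * w, D.mul_mem (hD.coord b) hw, ?_⟩
  rw [hi'] at hab
  have h3 : ι (x i) * ι (x i') = ι (x a) * ι (x b) := by
    rw [← map_mul, hab, map_mul]
  have h4 : ι (x a) / ι (x i) * (ι (x b) / ι (x i) * w) =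
      (ι (x a) * ι (x b)) / (ι (x i) * ι (x i)) * w := by
    field_simp
  rw [h4, ← h3, ← e1]
  field_simp

/-- TASK TW5 (three statements). The models are W8 and W9 in W3/Wild.lean. Let `τ (x i) = x i'`. If `x i' / x i` is a unit of `D` then so is `(x a / x i) (x b / x i)`, hence `x a / x i`. Otherwise
`(x i' - x i) / x i` is a unit (`w8_sub`). -/
theorem exists_fixed_or2 {B : ℕ → Set M} {r : ℕ} {I₀ : Set I} (hD : LocSit ι x B Λ r D i β)
    (hstar : ∀ l, ∃ l', τ (x l) = x l')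
    (hseg : ∀ i, ∃ a b, a ∈ I₀ ∧ x i * τ (x i) = x a * x b) :
    (∃ a ∈ I₀, ∃ w ∈ D, ι (x a) / ι (x i) * w = 1) ∨
      ∃ k, ∃ w ∈ D, ι (lF x τ k) / ι (x i) * w = 1 := by
  have hloc := hD.loc
  obtain ⟨i', hi'⟩ := hstar i
  have h0 := hD.ne
  by_cases h1 : ∃ w ∈ D, ι (x i') / ι (x i) * w = 1
  · exact Or.inl (tw5_fixed hD hi' hseg h1)
  · obtain ⟨w, hw, h3⟩ := w8_sub (hD.coord i') D.one_mem h1 ⟨1, D.one_mem, one_mul 1⟩
    refine Or.inr ⟨i, w, hw, ?_⟩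
    rw [← h3, lF, hi', map_sub, sub_div, div_self h0]

/-- If `D` is stable: `τF (x i' / x i) = x i / x i'`, as `τ ^ 2 = 1`, so `x i' / x i` is a unit. -/
theorem exists_fixed_of_stable2 {B : ℕ → Set M} {r : ℕ} {I₀ : Set I} (hD : LocSit ι x B Λ r D i β)
    (hι : Function.Injective ι) (hτ2 : ∀ m, τ (τ m) = m)
    (hτF : ∀ m, τF (ι m) = ι (τ m)) (hstar : ∀ l, ∃ l', τ (x l) = x l')
    (hseg : ∀ i, ∃ a b, a ∈ I₀ ∧ x i * τ (x i) = x a * x b)
    (hDτ : ∀ z ∈ D, τF z ∈ D) : ∃ a ∈ I₀, ∃ w ∈ D, ι (x a) / ι (x i) * w = 1 := by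
  obtain ⟨i', hi'⟩ := hstar i
  have h0 := hD.ne
  have hi2 : τ (x i') = x i := by rw [← hi', hτ2]
  have h0' : ι (x i') ≠ 0 := by
    rw [← hi', ← hτF]
    exact (map_ne_zero τF).mpr h0
  refine tw5_fixed hD hi' hseg ⟨ι (x i) / ι (x i'), ?_, ?_⟩
  · have h1 := hDτ _ (hD.coord i')
    rwa [map_div₀, hτF, hτF, hi2, hi'] at h1
  · field_simp

/-- If `ϖ` or some difference is a unit then the centre is trivial: `eq_of_units` (QD/Around.lean) with `δ = 1`. -/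
theorem eq_of_not_fixed2 (hϖ : ϖ ∈ Λ) (hstar : ∀ l, ∃ l', τ (x l) = x l')
    (hD : LocSit ι x (AS x τ ϖ) Λ s D i β) (hA : Around ι x Λ D i A)
    (hun : (∃ w ∈ D, ι ϖ * w = 1) ∨ ∃ k, ∃ w ∈ D, ι (lF x τ k) / ι (x i) * w = 1) : D = A := by
  classical
  have h0 := hD.ne
  have hlF : ∀ k, ι (lF x τ k) / ι (x i) ∈ A := by
    intro k
    obtain ⟨k', hk'⟩ := hstar k
    rw [lF, hk', map_sub, sub_div]
    exact A.sub_mem (hA.coord k') (hA.coord k)
  refine eq_of_units hD hA (δ := 1) ?_ ?_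
  · intro j _
    exact intS_AS h0 hA.coord (ϖA := ⟨ι ϖ, hA.lam ϖ hϖ⟩) rfl
      (u := fun k => ⟨_, hlF k⟩) (fun _ => rfl) j
  · intro j _
    rcases hun with ⟨w, hw, h1⟩ | ⟨k, w, hw, h1⟩
    · refine ⟨ϖ ^ j * x i, Or.inl (Set.mul_mem_mul rfl ⟨i, rfl⟩), w ^ j, D.pow_mem hw j, ?_⟩
      have h2 : ι (ϖ ^ j * x i) / ι (x i) ^ 1 = ι ϖ ^ j := by
        simp only [map_mul, map_pow, pow_one]
        field_simp
      rw [h2, ← mul_pow, h1, one_pow]
    · refine ⟨lF x τ k, Or.inr ⟨k, rfl⟩, w, hw, ?_⟩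
      rw [pow_one]
      exact h1
-- END TW5

-- BEGIN TW6
/-- TASK TW6. **The local theorem, order two.** The proof is that of the second part of `exists_cent_wild` (W10, W3/Wild.lean), line by line, with TW4, TW5. -/
theorem local_two {I₀ : Set I} (hι : Function.Injective ι)
    (hτ2 : ∀ m, τ (τ m) = m) (hτF2 : ∀ z, τF (τF z) = z)
    (hτF : ∀ m, τF (ι m) = ι (τ m)) (hstar : ∀ l, ∃ l', τ (x l) = x l')
    (hI₀ : ∀ a ∈ I₀, τ (x a) = x a)
    (hseg : ∀ i, ∃ a b, a ∈ I₀ ∧ x i * τ (x i) = x a * x b)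
    (hR : RamL Λ τ ϖ s)
    (hAr : ∀ (D : Subring F) (i : I), IsLocalRing D → (∀ c ∈ Λ, ι c ∈ D) →
      ι (x i) ≠ 0 → (∀ k, ι (x k) / ι (x i) ∈ D) → ∃ A, Around ι x Λ D i A)
    (hStr : ∀ (D : Subring F) (i : I), i ∈ I₀ → IsLocalRing D → (∀ c ∈ Λ, ι c ∈ D) →
      ι (x i) ≠ 0 → (∀ k, ι (x k) / ι (x i) ∈ D) → (∀ w ∈ D, ι ϖ * w ≠ 1) →
      (∀ k, ∀ w ∈ D, (τF (ι (x k) / ι (x i)) - ι (x k) / ι (x i)) * w ≠ 1) →
      StrAt2 ι τF x Λ ϖ s D i)
    (D : Subring F) (i : I) (β : ℕ → M) (hD : LocSit ι x (AS x τ ϖ) Λ s D i β) :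
    IsRegularLocalRing D ∧ ((∀ z ∈ D, τF z ∈ D) → Principal τF D) := by
  by_cases hϖD : ∃ w ∈ D, ι ϖ * w = 1
  · obtain ⟨A, hA⟩ := hAr D i hD.loc hD.lam hD.ne hD.coord
    have h1 : D = A := eq_of_not_fixed2 hR.mϖ hstar hD hA (Or.inl hϖD)
    refine ⟨by rw [h1]; exact hA.reg, fun hDτ => ?_⟩
    obtain ⟨w, hw, hw1⟩ := hϖD
    obtain ⟨ε, hε, ε', hε', hun, hεε⟩ := hR.eps
    refine principal_of_unit τF hDτ (hD.lam _ hR.mϖ)
      (D.mul_mem (hD.lam ε' hε') (D.pow_mem hw s)) ?_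
    rw [hτF, ← map_sub, hun, map_mul, map_pow]
    have h5 : ι ε * ι ε' = 1 := by rw [← map_mul, hεε, map_one]
    have h6 : ι ϖ ^ s * w ^ s = 1 := by rw [← mul_pow, hw1, one_pow]
    linear_combination (ι ϖ ^ s * w ^ s) * h5 + h6
  · by_cases hex : ∃ a ∈ I₀, ∃ w ∈ D, ι (x a) / ι (x i) * w = 1
    · obtain ⟨a, ha, hun⟩ := hex
      have hD' := W3.LocSit.change hD hun
      have hdiff : ∀ k, τF (ι (x k) / ι (x a)) - ι (x k) / ι (x a) =
          ι (lF x τ k) / ι (x a) := by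
        intro k
        rw [map_div₀, hτF, hτF, hI₀ a ha, lF, map_sub, sub_div]
      by_cases hl : ∃ k, ∃ w ∈ D, ι (lF x τ k) / ι (x a) * w = 1
      · obtain ⟨A, hA⟩ := hAr D a hD'.loc hD'.lam hD'.ne hD'.coord
        have h1 : D = A := eq_of_not_fixed2 hR.mϖ hstar hD' hA (Or.inr hl)
        refine ⟨by rw [h1]; exact hA.reg, fun hDτ => ?_⟩
        obtain ⟨k, w, hw, hw1⟩ := hl
        refine principal_of_unit τF hDτ (hD'.coord k) hw ?_
        rw [hdiff, hw1]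
      · push Not at hϖD hl
        have hS := hStr D a ha hD'.loc hD'.lam hD'.ne hD'.coord hϖD
          (fun k w hw => by rw [hdiff]; exact hl k w hw)
        exact two_fixed hR hτF2 hτF hstar (hI₀ a ha) hD' hS
    · obtain ⟨A, hA⟩ := hAr D i hD.loc hD.lam hD.ne hD.coord
      have hun := (exists_fixed_or2 (I₀ := I₀) hD hstar hseg).resolve_left hex
      have h1 : D = A := eq_of_not_fixed2 hR.mϖ hstar hD hA (Or.inr hun)
      exact ⟨by rw [h1]; exact hA.reg, fun hDτ => absurd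
        (exists_fixed_of_stable2 (I₀ := I₀) hD hι hτ2 hτF hstar hseg hDτ) hex⟩
-- END TW6

-- BEGIN TW7
/-- TASK TW7. **The local theorem at a wild prime, order three.** The proof is that of the second part of `exists_cent_wild` (W10, W3/Wild.lean), word by word, with a general `Λ`. -/
theorem local_wild {ε c κ l μ : M} {n : ℕ} (hC : Cst Λ τ ϖ ε c κ l μ n) {I₀ : Set I}
    (hι : Function.Injective ι)
    (hτ3 : ∀ m, τ (τ (τ m)) = m) (hτF3 : ∀ z, τF (τF (τF z)) = z)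
    (hτF : ∀ m, τF (ι m) = ι (τ m)) (hstar : ∀ l, ∃ l', τ (x l) = x l')
    (hI₀ : ∀ a ∈ I₀, τ (x a) = x a)
    (hseg : ∀ i, ∃ a b c, a ∈ I₀ ∧ x i * τ (x i) * τ (τ (x i)) = x a * x b * x c)
    (hAr : ∀ (D : Subring F) (i : I), IsLocalRing D → (∀ c ∈ Λ, ι c ∈ D) →
      ι (x i) ≠ 0 → (∀ k, ι (x k) / ι (x i) ∈ D) → ∃ A, Around ι x Λ D i A)
    (hStr : ∀ (D : Subring F) (i : I), i ∈ I₀ → IsLocalRing D → (∀ c ∈ Λ, ι c ∈ D) →
      ι (x i) ≠ 0 → (∀ k, ι (x k) / ι (x i) ∈ D) → (∀ w ∈ D, ι ϖ * w ≠ 1) →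
      (∀ k, ∀ w ∈ D, (τF (ι (x k) / ι (x i)) - ι (x k) / ι (x i)) * w ≠ 1) →
      StrAt ι τF x Λ ϖ n D i)
    (D : Subring F) (i : I) (β : ℕ → M)
    (hD : LocSit ι x (BW x τ ϖ (1 + ϖ ^ n * κ) c n) Λ (5 * n + 4) D i β) :
    IsRegularLocalRing D ∧ ((∀ z ∈ D, τF z ∈ D) → Principal τF D) := by
  have haΛ : 1 + ϖ ^ n * κ ∈ Λ :=
    Subring.add_mem _ (Subring.one_mem _) (Subring.mul_mem _ (Subring.pow_mem _ hC.mϖ n) hC.mκ)
  by_cases hϖD : ∃ w ∈ D, ι ϖ * w = 1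
  · obtain ⟨A, hA⟩ := hAr D i hD.loc hD.lam hD.ne hD.coord
    have h1 : D = A := eq_of_not_fixed hC.mϖ haΛ hC.mc hstar hD hA (Or.inl hϖD)
    refine ⟨by rw [h1]; exact hA.reg, fun hDτ => ?_⟩
    obtain ⟨w, hw, hw1⟩ := hϖD
    obtain ⟨ε', hε', hεε⟩ := hC.unit
    refine principal_of_unit τF hDτ (hD.lam _ hC.mϖ)
      (D.mul_mem (hD.lam ε' hε') (D.pow_mem hw (n + 1))) ?_
    rw [hτF, hC.unif, map_add, map_mul, map_pow]
    have h5 : ι ε * ι ε' = 1 := by rw [← map_mul, hεε, map_one]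
    have h6 : ι ϖ ^ (n + 1) * w ^ (n + 1) = 1 := by rw [← mul_pow, hw1, one_pow]
    linear_combination (ι ϖ ^ (n + 1) * w ^ (n + 1)) * h5 + h6
  · by_cases hex : ∃ a ∈ I₀, ∃ w ∈ D, ι (x a) / ι (x i) * w = 1
    · obtain ⟨a, ha, hun⟩ := hex
      have hD' := W3.LocSit.change hD hun
      have hdiff : ∀ k, τF (ι (x k) / ι (x a)) - ι (x k) / ι (x a) =
          ι (lF x τ k) / ι (x a) := by
        intro k
        rw [map_div₀, hτF, hτF, hI₀ a ha, lF, map_sub, sub_div]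
      by_cases hl : ∃ k, ∃ w ∈ D, ι (lF x τ k) / ι (x a) * w = 1
      · obtain ⟨A, hA⟩ := hAr D a hD'.loc hD'.lam hD'.ne hD'.coord
        have h1 : D = A := eq_of_not_fixed hC.mϖ haΛ hC.mc hstar hD' hA (Or.inr hl)
        refine ⟨by rw [h1]; exact hA.reg, fun hDτ => ?_⟩
        obtain ⟨k, w, hw, hw1⟩ := hl
        refine principal_of_unit τF hDτ (hD'.coord k) hw ?_
        rw [hdiff, hw1]
      · push Not at hϖD hl
        have hS := hStr D a ha hD'.loc hD'.lam hD'.ne hD'.coord hϖD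
          (fun k w hw => by rw [hdiff]; exact hl k w hw)
        exact wild_fixed hC hτ3 hτF3 hτF hstar (hI₀ a ha) hD' hS
    · obtain ⟨A, hA⟩ := hAr D i hD.loc hD.lam hD.ne hD.coord
      have hun := (exists_fixed_or (I₀ := I₀) hD hstar hseg).resolve_left hex
      have h1 : D = A := eq_of_not_fixed hC.mϖ haΛ hC.mc hstar hD hA (Or.inr hun)
      exact ⟨by rw [h1]; exact hA.reg, fun hDτ => absurd
        (exists_fixed_of_stable (I₀ := I₀) hD hι hτ3 hτF hstar hseg hDτ) hex⟩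
-- END TW7

end Chart

section Stable

variable {M I : Type} [CommRing M] [IsDomain M] {Λ : Subring M} {x : I → M} {τ g : M →+* M} {ϖ : M}

-- BEGIN TW8
/-- TASK TW8. The centre is stable under the automorphisms which commute with `τ`: `lF_comm` (GI/Stab.lean), `mapS_singleton`. -/
theorem mapS_AS2 (hlam : ∀ c ∈ Λ, g c ∈ Λ) {η : M} (hη : η ∈ Λ) (h : g ϖ = η * ϖ)
    (hgx : ∀ k, ∃ k', g (x k) = x k') (hτ : ∀ m, g (τ m) = τ (g m)) (j : ℕ) :
    MapS Λ g (AS x τ ϖ j) (AS x τ ϖ j) := by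
  have hX : MapS Λ g (XS x) (XS x) := by
    rintro _ ⟨k, rfl⟩
    obtain ⟨k', hk'⟩ := hgx k
    rw [hk']
    exact Submodule.subset_span ⟨k', rfl⟩
  have hL : MapS Λ g (LS x τ) (LS x τ) := by
    rintro _ ⟨k, rfl⟩
    obtain ⟨k', -, hk'⟩ := lF_comm (x := x) (τ := τ) hgx hτ k
    rw [hk']
    exact Submodule.subset_span ⟨k', rfl⟩
  unfold AS
  exact MapS.union (MapS.of_subset ((mapS_singleton hη h j).mul hX) Set.subset_union_left)
    (MapS.of_subset hL Set.subset_union_right)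
-- END TW8

end Stable

end Pool.Agent.Lib.MP_6a3dac_ag.GI
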