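import Pool.Agent.Lib.MP_6a3dac_ag.GI.T3
import Pool.Agent.Lib.MP_6a3dac_ag.GI.Two
import Pool.Agent.Lib.MP_6a3dac_ag.W3.T3f

/-!
# The local structure of the product of the conjugates, in the field
-/

set_option autoImplicit false
set_option linter.unusedSectionVars false
set_option linter.unusedVariables false

namespace Pool.Agent.Lib.MP_6a3dac_ag.GI

open MvPolynomial TensorProduct IsLocalRing Pool.Agent.Lib.MP_6a3dac_ag
  Pool.Agent.Lib.MP_6a3dac_ag.W3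

attribute [local instance] MvPolynomial.gradedAlgebra

section Reps

variable {Φ : Type} [Finite Φ] {t : Φ → Φ}

/-- Representatives of the orbits of length two. -/
theorem exists_reps2 (ht : ∀ φ, t (t φ) = φ) :
    ∃ R₀ : Set Φ, (∀ φ ∈ R₀, t φ ≠ φ ∧ t φ ∉ R₀) ∧ ∀ φ, t φ ≠ φ → φ ∈ R₀ ∨ t φ ∈ R₀ := by
  obtain ⟨e, he⟩ := exists_injective_nat Φ
  refine ⟨{φ | e φ < e (t φ)}, fun φ hφ => ⟨?_, ?_⟩, fun φ hφ => ?_⟩
  · intro h
    rw [Set.mem_ofPred_eq, h] at hφ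
    exact lt_irrefl _ hφ
  · intro h
    rw [Set.mem_ofPred_eq] at hφ h
    rw [ht] at h
    exact absurd h (not_lt.mpr hφ.le)
  · rw [Set.mem_ofPred_eq, Set.mem_ofPred_eq, ht]
    exact lt_or_gt_of_ne fun h => hφ (he h).symm

/-- Representatives of the orbits of length three. -/
theorem exists_reps3 (ht : ∀ φ, t (t (t φ)) = φ) :
    ∃ R₀ : Set Φ, (∀ φ ∈ R₀, t φ ∉ R₀ ∧ t (t φ) ∉ R₀) ∧
      ∀ φ, t φ ≠ φ → φ ∈ R₀ ∨ t φ ∈ R₀ ∨ t (t φ) ∈ R₀ := by
  obtain ⟨e, he⟩ := exists_injective_nat Φ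
  refine ⟨{φ | e φ < e (t φ) ∧ e φ < e (t (t φ))}, fun φ hφ => ⟨?_, ?_⟩, fun φ hφ => ?_⟩
  · intro h
    rw [Set.mem_ofPred_eq] at hφ h
    rw [ht] at h
    exact absurd h.2 (not_lt.mpr hφ.1.le)
  · intro h
    rw [Set.mem_ofPred_eq] at hφ h
    rw [ht] at h
    exact absurd h.1 (not_lt.mpr hφ.2.le)
  · rw [Set.mem_ofPred_eq, Set.mem_ofPred_eq, Set.mem_ofPred_eq, ht]
    have h1 : e φ ≠ e (t φ) := fun h => hφ (he h).symm
    have h2 : e (t φ) ≠ e (t (t φ)) := fun h => hφ (by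
      have h3 := congrArg (fun z => t (t z)) (he h)
      simp only [ht] at h3
      exact h3.symm)
    have h3 : e φ ≠ e (t (t φ)) := fun h => hφ (by
      have h3 := congrArg t (he h)
      rw [ht] at h3
      exact h3)
    omega

end Reps

section Field

variable {O O' N F : Type} [CommRing O] [CommRing O'] [Field N] [Field F] [Algebra O' N]
  [Algebra O' F] [Algebra N F] [IsScalarTower O' N F] {n : ℕ} {Φ : Type} [Fintype Φ]
  {𝔞 : HomogeneousIdeal (homogeneousSubmodule (Fin n) O)} {ψ : Φ → O →+* N}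
  {h : Φ → O →+* O'} (ιP : MultRing ψ 𝔞.toIdeal →ₐ[N] F)
  {G : Type} [CommRing G] [Algebra O' G] {a : Φ → Fin n}
  {π : Φ → MvPolynomial (Fin n) O →+* G} (H : ProdChart h (fun φ => chId 𝔞 (a φ)) π)
  {f : G →ₐ[O'] F} (hf : ∀ φ g, f (π φ g) = evF ιP a φ g) (hinj : Function.Injective f)
  {t : Φ → Φ} {s : O' →+* O'} {τF : F →+* F}
  (hst : ∀ φ c, h (t φ) c = s (h φ c)) (hta : ∀ φ, a (t φ) = a φ)
  (hτx : ∀ φ k, τF (ιP (cl ψ 𝔞.toIdeal φ k)) = ιP (cl ψ 𝔞.toIdeal (t φ) k))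
  {ϖ : O'} {r : ℕ} (hr : 1 ≤ r) (hΔ : ∀ c, ∃ y, s c - c = y * ϖ ^ r)
  {D : Subring F} [IsLocalRing D] {hφ : ∀ g, f.toRingHom g ∈ D}
  {Λ : Subring (segAlg ψ 𝔞.toIdeal)} {ϖM : segAlg ψ 𝔞.toIdeal}
  (hA : QD.Around (segMap ιP) (xx₃ 𝔞.toIdeal ψ) Λ D a (locF f.toRingHom D hφ))
  (hϖ : algebraMap O' F ϖ = segMap ιP ϖM) (hϖD : ∀ w ∈ D, segMap ιP ϖM * w ≠ 1)
  (hϖ0 : segMap ιP ϖM ≠ 0)
  (hd : ∀ k, ∀ w ∈ D, (τF (segMap ιP (xx₃ 𝔞.toIdeal ψ k) / segMap ιP (xx₃ 𝔞.toIdeal ψ a)) -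
    segMap ιP (xx₃ 𝔞.toIdeal ψ k) / segMap ιP (xx₃ 𝔞.toIdeal ψ a)) * w ≠ 1)

include hta hτx in
theorem tau_evF (φ : Φ) (l : Fin n) :
    τF (evF ιP a φ (X l)) = evF ιP a (t φ) (X l) := by
  rw [evF_X, evF_X, map_div₀, hτx, hτx, hta]

include H hf in
theorem evF_eq_coord [DecidableEq Φ] (φ : Φ) (l : Fin n) : evF ιP a φ (X l) =
    segMap ιP (xx₃ 𝔞.toIdeal ψ (Function.update a φ l)) / segMap ιP (xx₃ 𝔞.toIdeal ψ a) := by
  rw [← hf, pi_eq_prodX H, prodF_coord ιP hf]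

include hf in
theorem prod_evF (k : Φ → Fin n) : ∏ φ, evF ιP a φ (X (k φ)) =
    segMap ιP (xx₃ 𝔞.toIdeal ψ k) / segMap ιP (xx₃ 𝔞.toIdeal ψ a) := by
  rw [← prodF_coord ιP hf, prodX, map_prod]
  exact Finset.prod_congr rfl fun φ _ => (hf _ _).symm

variable (π hφ) in
/-- The maps of the polynomial ring to the local ring. -/
noncomputable def toL (φ : Φ) : MvPolynomial (Fin n) O →+* locF f.toRingHom D hφ :=
  (toLocF f.toRingHom D hφ).comp (π φ)

include hf in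
theorem coe_toL (φ : Φ) (g : MvPolynomial (Fin n) O) :
    (toL π hφ φ g : F) = evF ιP a φ g := hf φ g

include H hf hinj hst hta hτx hr hΔ hA hϖ hϖD hϖ0 hd in
/-- **The local structure in the chart.** -/
theorem exists_locStr [Algebra.Smooth O' G] (hmax : (Ideal.span {ϖ}).IsMaximal) :
    ∃ (_ : IsRegularLocalRing (locF f.toRingHom D hφ)) (ϖA : locF f.toRingHom D hφ),
      (ϖA : F) = segMap ιP ϖM ∧
      LocStr (toL π hφ) (fun φ => chId 𝔞 (a φ)) t ϖA r := by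
  classical
  have hreg : IsRegularLocalRing (locF f.toRingHom D hφ) := hA.reg
  refine ⟨hreg, ?_⟩
  let := (toLocF f.toRingHom D hφ).toAlgebra
  have hloc := isLocalization_locF (hφ := hφ) hinj
  obtain ⟨ϖA, hϖA⟩ : ∃ ϖA : locF f.toRingHom D hφ, algebraMap G (locF f.toRingHom D hφ)
    (algebraMap O' G ϖ) = ϖA := ⟨_, rfl⟩
  have hϖAF : (ϖA : F) = segMap ιP ϖM := by
    rw [← hϖA, ← hϖ]
    exact f.commutes ϖ
  have hϖm : ϖA ∈ maximalIdeal (locF f.toRingHom D hφ) := by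
    rw [mem_maximalIdeal_locF, hϖAF]
    exact hϖD
  have hϖnz : ϖA ∈ nonZeroDivisors (locF f.toRingHom D hφ) := by
    apply mem_nonZeroDivisors_of_ne_zero
    intro h0
    apply hϖ0
    rw [← hϖAF, h0]
    rfl
  have hq : ((maximalIdeal D).comap (f.toRingHom.codRestrict D hφ)).IsPrime := inferInstance
  refine ⟨ϖA, hϖAF, hϖm, ?_, hr, ?_, ?_, ?_, fun φ => by rw [hta], ?_⟩
  · apply notMem_sq_of_quotient hϖm hϖnz
    have h1 := isRegularRing_quotient_of_smooth (X := G) ϖ hmax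
    have h2 : Ideal.span {algebraMap O' G ϖ} ≤
        (maximalIdeal D).comap (f.toRingHom.codRestrict D hφ) := by
      rw [Ideal.span_singleton_le_iff_mem, ← IsLocalization.AtPrime.to_map_mem_maximal_iff
        (locF f.toRingHom D hφ) ((maximalIdeal D).comap (f.toRingHom.codRestrict D hφ)), hϖA]
      exact hϖm
    have h3 := isRegularLocalRing_quotient_atPrime (B := locF f.toRingHom D hφ)
      ((maximalIdeal D).comap (f.toRingHom.codRestrict D hφ)) _ h2 h1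
    rw [Ideal.map_span, Set.image_singleton, hϖA] at h3
    exact h3
  · intro φ c
    obtain ⟨y, hy⟩ := hΔ (h φ c)
    refine ⟨algebraMap G _ (algebraMap O' G y), ?_⟩
    change algebraMap G _ (π (t φ) (C c)) - algebraMap G _ (π φ (C c)) = _
    rw [H.const, H.const, hst, ← map_sub, ← map_sub, hy, map_mul, map_mul, map_pow, map_pow, hϖA]
  · intro φ l
    rw [mem_maximalIdeal_locF, AddSubgroupClass.coe_sub, coe_toL ιP hf, coe_toL ιP hf,
      ← tau_evF ιP hta hτx, evF_eq_coord ιP H hf]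
    exact hd _
  · intro φ g hg
    change algebraMap G _ (π φ g) = 0
    rw [H.rel φ g hg, map_zero]
  · intro δ h1 h2 h3
    obtain ⟨Δ, e1, e2, e3⟩ := H.ext (A := locF f.toRingHom D hφ)
      ((maximalIdeal D).comap (f.toRingHom.codRestrict D hφ)) δ h1 h2 h3
    exact ⟨Δ, e1, by rw [← hϖA, e2], e3⟩

end Field

section Abs

/-- The coordinates which are chosen for a space of vectors. -/
noncomputable def coordSet {K : Type} [Field K] {n : ℕ} (V : Submodule K (Fin n → K)) :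
    Set (Fin n) := Classical.choose (exists_coords V)

theorem coordSet_eq_zero {K : Type} [Field K] {n : ℕ} (V : Submodule K (Fin n → K)) :
    ∀ v ∈ V, (∀ j ∈ coordSet V, v j = 0) → v = 0 :=
  (Classical.choose_spec (exists_coords V)).1

theorem coordSet_exists {K : Type} [Field K] {n : ℕ} (V : Submodule K (Fin n → K)) :
    ∀ w : Fin n → K, ∃ v ∈ V, ∀ j ∈ coordSet V, v j = w j :=
  (Classical.choose_spec (exists_coords V)).2

variable {F : Type} [Field F] {A : Subring F} [IsRegularLocalRing A] {O : Type} [CommRing O]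
  {n : ℕ} {Φ : Type} [Fintype Φ] {g : Φ → MvPolynomial (Fin n) O →+* A}
  {𝔠 : Φ → Ideal (MvPolynomial (Fin n) O)} {t : Φ → Φ} {ϖ : A} {r : ℕ}

/-- The coordinates which are chosen for a factor. -/
noncomputable def Jf (g : Φ → MvPolynomial (Fin n) O →+* A)
    (𝔠 : Φ → Ideal (MvPolynomial (Fin n) O)) (φ : Φ) : Set (Fin n) :=
  coordSet (derC ((residue A).comp (g φ)) (𝔠 φ))

theorem LocStr.Jf_t (S : LocStr g 𝔠 t ϖ r) (φ : Φ) : Jf g 𝔠 (t φ) = Jf g 𝔠 φ :=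
  congrArg coordSet (S.derC_t φ)

/-- The value `1` at one of the chosen coordinates and `0` at the others. -/
theorem exists_single {φ : Φ} {l : Fin n} (hl : l ∈ Jf g 𝔠 φ) :
    ∃ v ∈ derC ((residue A).comp (g φ)) (𝔠 φ), v l = 1 ∧ ∀ l' ∈ Jf g 𝔠 φ, l' ≠ l → v l' = 0 := by
  classical
  obtain ⟨v, hv, h1⟩ := coordSet_exists (derC ((residue A).comp (g φ)) (𝔠 φ)) (Pi.single l 1)
  exact ⟨v, hv, by rw [h1 l hl, Pi.single_eq_same], fun l' hl' hne => by
    rw [h1 l' hl', Pi.single_eq_of_ne hne]⟩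

/-- The weights: differences of the values of a derivation. -/
theorem dual_diff {Δ : A → ResidueField A} (hΔ : IsDer (residue A) Δ) {w : Φ → ResidueField A}
    {v : Fin n → ResidueField A} (h : ∀ φ l, Δ (g φ (X l)) = w φ * v l) (φ φ' : Φ) (l : Fin n) :
    Δ (g φ (X l) - g φ' (X l)) = (w φ - w φ') * v l := by
  rw [hΔ.sub, h, h]
  ring

/-- **The parameters, order two.** -/
theorem par2 (S : LocStr g 𝔠 t ϖ r) (ht : ∀ φ, t (t φ) = φ) {R₀ : Set Φ}
    (hR : ∀ φ ∈ R₀, t φ ≠ φ ∧ t φ ∉ R₀)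
    (hR' : ∀ φ, t φ ≠ φ → φ ∈ R₀ ∨ t φ ∈ R₀) {J : Type} [Fintype J] (p : J → Φ × Fin n)
    (hp : Function.Injective p) (hp' : ∀ φ l, (∃ j, p j = (φ, l)) ↔ φ ∈ R₀ ∧ l ∈ Jf g 𝔠 φ) :
    PartRSP A (fam2 ϖ fun j => g (t (p j).1) (X (p j).2) - g (p j).1 (X (p j).2)) ∧
      ∀ φ f, g (t φ) f - g φ f ∈ Ideal.span (insert (ϖ ^ r) (Set.range fun j =>
        g (t (p j).1) (X (p j).2) - g (p j).1 (X (p j).2))) := by
  classical
  have hpm : ∀ j, (p j).1 ∈ R₀ ∧ (p j).2 ∈ Jf g 𝔠 (p j).1 := fun j => (hp' _ _).mp ⟨j, rfl⟩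
  have hinj : ∀ {φ φ' : Φ}, t φ = t φ' → φ = φ' := fun {φ φ'} h => by
    rw [← ht φ, h, ht]
  constructor
  · have key := par_of_dual (κ := J) (f := fam2 ϖ fun j => g (t (p j).1) (X (p j).2) -
      g (p j).1 (X (p j).2)) (by
        rintro (_ | j)
        · exact S.unif
        · exact S.diff _ _) S.notMem (by
        intro j₀
        obtain ⟨v, hv, hv1, hv0⟩ := exists_single (hpm j₀).2
        obtain ⟨Δ, e1, e2, e3⟩ := S.exists_dual hv (fun φ => if φ = t (p j₀).1 then 1 else 0)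
          (fun φ hφ => by
            by_cases h : φ = t (p j₀).1
            · rw [h]
              exact ⟨S.res_t _, S.rel_t _⟩
            · rw [if_neg h] at hφ
              exact absurd rfl hφ)
        refine ⟨Δ, e1, e2, ?_, fun j hj => ?_⟩
        · change Δ (g (t (p j₀).1) (X (p j₀).2) - g (p j₀).1 (X (p j₀).2)) = 1
          rw [dual_diff e1 e3, if_pos rfl, if_neg (hR _ (hpm j₀).1).1.symm, hv1]
          ring
        · change Δ (g (t (p j).1) (X (p j).2) - g (p j).1 (X (p j).2)) = 0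
          rw [dual_diff e1 e3]
          by_cases h : (p j).1 = (p j₀).1
          · rw [hv0 (p j).2 (by rw [← h]; exact (hpm j).2)
              (fun h' => hj (hp (Prod.ext h h'))), mul_zero]
          · rw [if_neg fun h' => h (hinj h'), if_neg fun h' => (hR _ (hpm j₀).1).2 (by
              rw [← h']; exact (hpm j).1)]
            ring)
    exact ⟨key.1, key.2⟩
  · obtain ⟨Q, hQ⟩ : ∃ Q, Q = Ideal.span (insert (ϖ ^ r) (Set.range fun j =>
        g (t (p j).1) (X (p j).2) - g (p j).1 (X (p j).2))) := ⟨_, rfl⟩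
    rw [← hQ]
    have h1 : ∀ φ ∈ R₀, ∀ f, g (t φ) f - g φ f ∈ Q := fun φ hφ f => S.span (R' := R₀)
      (J := Jf g 𝔠) (fun φ _ => coordSet_eq_zero _) (by
        rw [hQ]
        exact Ideal.subset_span (Set.mem_insert _ _)) (fun φ hφ l hl => by
        obtain ⟨j, hj⟩ := (hp' φ l).mpr ⟨hφ, hl⟩
        rw [hQ]
        refine Ideal.subset_span (Set.mem_insert_of_mem _ ⟨j, ?_⟩)
        simp only [hj]) hφ f
    intro φ f
    by_cases h : t φ = φ
    · rw [h, sub_self]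
      exact Q.zero_mem
    · rcases hR' φ h with h2 | h2
      · exact h1 φ h2 f
      · have h3 := h1 _ h2 f
        rw [ht] at h3
        rw [← neg_sub]
        exact Q.neg_mem h3

/-- **The parameters, order three.** -/
theorem par3 (S : LocStr g 𝔠 t ϖ r) (ht : ∀ φ, t (t (t φ)) = φ) {R₀ : Set Φ}
    (hR : ∀ φ ∈ R₀, t φ ∉ R₀ ∧ t (t φ) ∉ R₀)
    (hR' : ∀ φ, t φ ≠ φ → φ ∈ R₀ ∨ t φ ∈ R₀ ∨ t (t φ) ∈ R₀) {J : Type} [Fintype J]
    (p : J → Φ × Fin n)
    (hp : Function.Injective p) (hp' : ∀ φ l, (∃ j, p j = (φ, l)) ↔ φ ∈ R₀ ∧ l ∈ Jf g 𝔠 φ) :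
    PartRSP A (fam ϖ (fun j => g (t (p j).1) (X (p j).2) - g (p j).1 (X (p j).2))
      fun j => g (t (t (p j).1)) (X (p j).2) - g (t (p j).1) (X (p j).2)) ∧
      ∀ φ f, g (t φ) f - g φ f ∈ Ideal.span (insert (ϖ ^ r) ((Set.range fun j =>
        g (t (p j).1) (X (p j).2) - g (p j).1 (X (p j).2)) ∪ Set.range fun j =>
        g (t (t (p j).1)) (X (p j).2) - g (t (p j).1) (X (p j).2))) := by
  classical
  have hpm : ∀ j, (p j).1 ∈ R₀ ∧ (p j).2 ∈ Jf g 𝔠 (p j).1 := fun j => (hp' _ _).mp ⟨j, rfl⟩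
  have hinj : ∀ {φ φ' : Φ}, t φ = t φ' → φ = φ' := fun {φ φ'} h => by
    rw [← ht φ, h, ht]
  -- for representatives `φ`, `φ₀`
  have hne1 : ∀ {φ φ₀ : Φ}, φ ∈ R₀ → φ₀ ∈ R₀ → φ ≠ t φ₀ := fun h h₀ he =>
    (hR _ h₀).1 (he ▸ h)
  have hne2 : ∀ {φ φ₀ : Φ}, φ ∈ R₀ → φ₀ ∈ R₀ → φ ≠ t (t φ₀) := fun h h₀ he =>
    (hR _ h₀).2 (he ▸ h)
  have hne3 : ∀ {φ φ₀ : Φ}, φ ∈ R₀ → φ₀ ∈ R₀ → t φ ≠ t (t φ₀) := fun h h₀ he =>
    hne1 h h₀ (hinj he)
  have hne4 : ∀ {φ φ₀ : Φ}, φ ∈ R₀ → φ₀ ∈ R₀ → t (t φ) ≠ t φ₀ := fun h h₀ he =>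
    hne1 h₀ h (hinj he).symm
  have hres : ∀ φ, (residue A).comp (g (t (t φ))) = (residue A).comp (g φ) ∧
      𝔠 (t (t φ)) = 𝔠 φ := fun φ => ⟨by rw [S.res_t, S.res_t], by rw [S.rel_t, S.rel_t]⟩
  constructor
  · have key := par_of_dual (κ := J ⊕ J) (f := fam ϖ
      (fun j => g (t (p j).1) (X (p j).2) - g (p j).1 (X (p j).2))
      fun j => g (t (t (p j).1)) (X (p j).2) - g (t (p j).1) (X (p j).2)) (by
        rintro (_ | j | j)
        · exact S.unif
        · exact S.diff _ _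
        · exact S.diff _ _) S.notMem (by
        rintro (j₀ | j₀)
        · obtain ⟨v, hv, hv1, hv0⟩ := exists_single (hpm j₀).2
          obtain ⟨Δ, e1, e2, e3⟩ := S.exists_dual hv
            (fun φ => if φ = t (p j₀).1 ∨ φ = t (t (p j₀).1) then 1 else 0) (fun φ hφ => by
              by_cases h : φ = t (p j₀).1 ∨ φ = t (t (p j₀).1)
              · rcases h with h | h
                · rw [h]
                  exact ⟨S.res_t _, S.rel_t _⟩
                · rw [h]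
                  exact hres _
              · rw [if_neg h] at hφ
                exact absurd rfl hφ)
          have hw1 : ∀ j, ¬ ((p j).1 = t (p j₀).1 ∨ (p j).1 = t (t (p j₀).1)) := fun j h =>
            h.elim (hne1 (hpm j).1 (hpm j₀).1) (hne2 (hpm j).1 (hpm j₀).1)
          refine ⟨Δ, e1, e2, ?_, ?_⟩
          · change Δ (g (t (p j₀).1) (X (p j₀).2) - g (p j₀).1 (X (p j₀).2)) = 1
            rw [dual_diff e1 e3, if_pos (Or.inl rfl), if_neg (hw1 j₀), hv1]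
            ring
          · rintro (j | j) hj
            · change Δ (g (t (p j).1) (X (p j).2) - g (p j).1 (X (p j).2)) = 0
              rw [dual_diff e1 e3]
              by_cases h : (p j).1 = (p j₀).1
              · rw [hv0 (p j).2 (by rw [← h]; exact (hpm j).2)
                  (fun h' => hj (congrArg Sum.inl (hp (Prod.ext h h')))), mul_zero]
              · rw [if_neg (fun h' => h'.elim (fun h'' => h (hinj h''))
                  (hne3 (hpm j).1 (hpm j₀).1)), if_neg (hw1 j)]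
                ring
            · change Δ (g (t (t (p j).1)) (X (p j).2) - g (t (p j).1) (X (p j).2)) = 0
              rw [dual_diff e1 e3]
              by_cases h : (p j).1 = (p j₀).1
              · rw [if_pos (Or.inr (by rw [h])), if_pos (Or.inl (by rw [h]))]
                ring
              · rw [if_neg (fun h' => h'.elim (hne4 (hpm j).1 (hpm j₀).1)
                  fun h'' => h (hinj (hinj h''))), if_neg (fun h' =>
                  h'.elim (fun h'' => h (hinj h'')) (hne3 (hpm j).1 (hpm j₀).1))]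
                ring
        · obtain ⟨v, hv, hv1, hv0⟩ := exists_single (hpm j₀).2
          obtain ⟨Δ, e1, e2, e3⟩ := S.exists_dual hv
            (fun φ => if φ = t (t (p j₀).1) then 1 else 0) (fun φ hφ => by
              by_cases h : φ = t (t (p j₀).1)
              · rw [h]
                exact hres _
              · rw [if_neg h] at hφ
                exact absurd rfl hφ)
          refine ⟨Δ, e1, e2, ?_, ?_⟩
          · change Δ (g (t (t (p j₀).1)) (X (p j₀).2) - g (t (p j₀).1) (X (p j₀).2)) = 1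
            rw [dual_diff e1 e3, if_pos rfl, if_neg (hne3 (hpm j₀).1 (hpm j₀).1), hv1]
            ring
          · rintro (j | j) hj
            · change Δ (g (t (p j).1) (X (p j).2) - g (p j).1 (X (p j).2)) = 0
              rw [dual_diff e1 e3, if_neg (hne3 (hpm j).1 (hpm j₀).1),
                if_neg (hne2 (hpm j).1 (hpm j₀).1)]
              ring
            · change Δ (g (t (t (p j).1)) (X (p j).2) - g (t (p j).1) (X (p j).2)) = 0
              rw [dual_diff e1 e3]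
              by_cases h : (p j).1 = (p j₀).1
              · rw [hv0 (p j).2 (by rw [← h]; exact (hpm j).2)
                  (fun h' => hj (congrArg Sum.inr (hp (Prod.ext h h')))), mul_zero]
              · rw [if_neg (fun h'' => h (hinj (hinj h''))), if_neg (hne3 (hpm j).1 (hpm j₀).1)]
                ring)
    exact ⟨key.1, key.2⟩
  · obtain ⟨Q, hQ⟩ : ∃ Q, Q = Ideal.span (insert (ϖ ^ r) ((Set.range fun j =>
        g (t (p j).1) (X (p j).2) - g (p j).1 (X (p j).2)) ∪ Set.range fun j =>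
        g (t (t (p j).1)) (X (p j).2) - g (t (p j).1) (X (p j).2))) := ⟨_, rfl⟩
    rw [← hQ]
    have h1 : ∀ φ ∈ {φ | φ ∈ R₀ ∨ ∃ φ' ∈ R₀, t φ' = φ}, ∀ f, g (t φ) f - g φ f ∈ Q :=
      fun φ hφ f => S.span (R' := {φ | φ ∈ R₀ ∨ ∃ φ' ∈ R₀, t φ' = φ})
      (J := Jf g 𝔠) (fun φ _ => coordSet_eq_zero _) (by
        rw [hQ]
        exact Ideal.subset_span (Set.mem_insert _ _)) (by
        rintro φ (hφ | ⟨φ, hφ, rfl⟩) l hl
        · obtain ⟨j, hj⟩ := (hp' φ l).mpr ⟨hφ, hl⟩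
          rw [hQ]
          refine Ideal.subset_span (Set.mem_insert_of_mem _ (Or.inl ⟨j, ?_⟩))
          simp only [hj]
        · rw [S.Jf_t] at hl
          obtain ⟨j, hj⟩ := (hp' φ l).mpr ⟨hφ, hl⟩
          rw [hQ]
          refine Ideal.subset_span (Set.mem_insert_of_mem _ (Or.inr ⟨j, ?_⟩))
          simp only [hj]) hφ f
    have h3 : ∀ φ ∈ R₀, ∀ f, g φ f - g (t (t φ)) f ∈ Q := by
      intro φ hφ f
      have e1 := h1 φ (Or.inl hφ) f
      have e2 := h1 (t φ) (Or.inr ⟨φ, hφ, rfl⟩) f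
      have e3 : g φ f - g (t (t φ)) f =
          -((g (t (t φ)) f - g (t φ) f) + (g (t φ) f - g φ f)) := by ring
      rw [e3]
      exact Q.neg_mem (Q.add_mem e2 e1)
    intro φ f
    by_cases h : t φ = φ
    · rw [h, sub_self]
      exact Q.zero_mem
    · rcases hR' φ h with h2 | h2 | h2
      · exact h1 φ (Or.inl h2) f
      · have h4 := h3 _ h2 f
        rwa [ht] at h4
      · exact h1 φ (Or.inr ⟨_, h2, ht φ⟩) f

end Abs

section Field

variable {O O' N F : Type} [CommRing O] [CommRing O'] [Field N] [Field F] [Algebra O' N]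
  [Algebra O' F] [Algebra N F] [IsScalarTower O' N F] {n : ℕ} {Φ : Type} [Fintype Φ]
  {𝔞 : HomogeneousIdeal (homogeneousSubmodule (Fin n) O)} {ψ : Φ → O →+* N}
  {h : Φ → O →+* O'} (ιP : MultRing ψ 𝔞.toIdeal →ₐ[N] F)
  {G : Type} [CommRing G] [Algebra O' G] {a : Φ → Fin n}
  {π : Φ → MvPolynomial (Fin n) O →+* G} (H : ProdChart h (fun φ => chId 𝔞 (a φ)) π)
  {f : G →ₐ[O'] F} (hf : ∀ φ g, f (π φ g) = evF ιP a φ g) (hinj : Function.Injective f)
  {t : Φ → Φ} {s : O' →+* O'} {τF : F →+* F}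
  (hst : ∀ φ c, h (t φ) c = s (h φ c)) (hta : ∀ φ, a (t φ) = a φ)
  (hτx : ∀ φ k, τF (ιP (cl ψ 𝔞.toIdeal φ k)) = ιP (cl ψ 𝔞.toIdeal (t φ) k))
  {ϖ : O'} {r : ℕ} (hr : 1 ≤ r) (hΔ : ∀ c, ∃ y, s c - c = y * ϖ ^ r)
  {D : Subring F} [IsLocalRing D] {hφ : ∀ g, f.toRingHom g ∈ D}
  {Λ : Subring (segAlg ψ 𝔞.toIdeal)} {ϖM : segAlg ψ 𝔞.toIdeal}
  (hA : QD.Around (segMap ιP) (xx₃ 𝔞.toIdeal ψ) Λ D a (locF f.toRingHom D hφ))
  (hϖ : algebraMap O' F ϖ = segMap ιP ϖM) (hϖD : ∀ w ∈ D, segMap ιP ϖM * w ≠ 1)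
  (hϖ0 : segMap ιP ϖM ≠ 0)
  (hd : ∀ k, ∀ w ∈ D, (τF (segMap ιP (xx₃ 𝔞.toIdeal ψ k) / segMap ιP (xx₃ 𝔞.toIdeal ψ a)) -
    segMap ιP (xx₃ 𝔞.toIdeal ψ k) / segMap ιP (xx₃ 𝔞.toIdeal ψ a)) * w ≠ 1)

include hf hta hτx in
/-- The differences of all coordinates. -/
theorem exists_diff {Q : Ideal (locF f.toRingHom D hφ)}
    (hQ : ∀ φ g, toL π hφ (t φ) g - toL π hφ φ g ∈ Q) (k : Φ → Fin n) :
    ∃ y ∈ Q, (y : F) = τF (segMap ιP (xx₃ 𝔞.toIdeal ψ k) / segMap ιP (xx₃ 𝔞.toIdeal ψ a)) -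
      segMap ιP (xx₃ 𝔞.toIdeal ψ k) / segMap ιP (xx₃ 𝔞.toIdeal ψ a) := by
  refine ⟨_, prod_sub_mem Finset.univ (a := fun φ => toL π hφ (t φ) (X (k φ)))
    (b := fun φ => toL π hφ φ (X (k φ))) fun φ _ => hQ φ _, ?_⟩
  rw [AddSubgroupClass.coe_sub, ← prod_evF ιP hf, map_prod, SubmonoidClass.coe_finsetProd,
    SubmonoidClass.coe_finsetProd]
  congr 1
  · refine Finset.prod_congr rfl fun φ _ => ?_
    rw [coe_toL ιP hf, tau_evF ιP hta hτx]
  · exact Finset.prod_congr rfl fun φ _ => coe_toL ιP hf φ _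

include H hf hinj hst hta hτx hr hΔ hA hϖ hϖD hϖ0 hd in
/-- **The local structure at a ramified prime, order two.** -/
theorem strAt2_of_chart [Algebra.Smooth O' G] (hmax : (Ideal.span {ϖ}).IsMaximal)
    (ht : ∀ φ, t (t φ) = φ) : StrAt2 (segMap ιP) τF (xx₃ 𝔞.toIdeal ψ) Λ ϖM r D a := by
  classical
  obtain ⟨hreg, ϖA, hϖA, S⟩ := exists_locStr ιP H hf hinj hst hta hτx hr hΔ hA hϖ hϖD hϖ0 hd hmax
  obtain ⟨R₀, hR, hR'⟩ := exists_reps2 ht
  let J : Type := {p : Φ × Fin n // p.1 ∈ R₀ ∧ p.2 ∈ Jf (toL π hφ) (fun φ => chId 𝔞 (a φ)) p.1}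
  have hJ : Fintype J := Fintype.ofFinite J
  obtain ⟨h1, h2⟩ := par2 S ht hR hR' (J := J) (fun j => j.1) Subtype.val_injective
    (fun φ l => ⟨fun ⟨j, hj⟩ => by
      have := j.2
      rw [hj] at this
      exact this, fun h' => ⟨⟨(φ, l), h'⟩, rfl⟩⟩)
  refine ⟨locF f.toRingHom D hφ, inferInstance, J, hJ, inferInstance,
    fun j => Function.update a j.1.1 j.1.2, ϖA, _, hA, hϖA, fun j => ?_, h1, fun k => ?_⟩
  · rw [AddSubgroupClass.coe_sub, coe_toL ιP hf, coe_toL ιP hf, ← tau_evF ιP hta hτx,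
      evF_eq_coord ιP H hf]
  · exact exists_diff ιP hf hta hτx h2 k

include H hf hinj hst hta hτx hΔ hA hϖ hϖD hϖ0 hd in
/-- **The local structure at a ramified prime, order three.** -/
theorem strAt3_of_chart [Algebra.Smooth O' G] (hmax : (Ideal.span {ϖ}).IsMaximal)
    (ht : ∀ φ, t (t (t φ)) = φ) {m : ℕ} (hm : r = m + 1) :
    StrAt (segMap ιP) τF (xx₃ 𝔞.toIdeal ψ) Λ ϖM m D a := by
  classical
  subst hm
  obtain ⟨hreg, ϖA, hϖA, S⟩ := exists_locStr ιP H hf hinj hst hta hτx (Nat.succ_pos m) hΔ hA hϖ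
    hϖD hϖ0 hd hmax
  obtain ⟨R₀, hR, hR'⟩ := exists_reps3 ht
  let J : Type := {p : Φ × Fin n // p.1 ∈ R₀ ∧ p.2 ∈ Jf (toL π hφ) (fun φ => chId 𝔞 (a φ)) p.1}
  have hJ : Fintype J := Fintype.ofFinite J
  obtain ⟨h1, h2⟩ := par3 S ht hR hR' (J := J) (fun j => j.1) Subtype.val_injective
    (fun φ l => ⟨fun ⟨j, hj⟩ => by
      have := j.2
      rw [hj] at this
      exact this, fun h' => ⟨⟨(φ, l), h'⟩, rfl⟩⟩)
  refine ⟨locF f.toRingHom D hφ, inferInstance, J, hJ, inferInstance,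
    fun j => Function.update a j.1.1 j.1.2, ϖA, _, _, hA, hϖA, fun j => ?_, fun j => ?_, h1,
    fun k => ?_⟩
  · rw [AddSubgroupClass.coe_sub, coe_toL ιP hf, coe_toL ιP hf, ← tau_evF ιP hta hτx,
      evF_eq_coord ιP H hf]
  · rw [AddSubgroupClass.coe_sub, AddSubgroupClass.coe_sub, coe_toL ιP hf, coe_toL ιP hf,
      coe_toL ιP hf, map_sub, tau_evF ιP hta hτx, tau_evF ιP hta hτx]
  · exact exists_diff ιP hf hta hτx h2 k

end Field

end Pool.Agent.Lib.MP_6a3dac_ag.GI
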